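import Pool.Agent.Helper35.FP.MP

/-!
# Project FP, block MT: products

`Tn ρ ρ' ρ''`: `ρ''` is the tensor product of `ρ` and `ρ'`. `Tn.fd F'`: the field `w ↦ w ⊗ F' g`. `exists_tens`: for `X ∈ MM ρ` the operator `X ⊗ 1 : Kt ρ' → Kt ρ''`, `τ' F' x ↦ F' · X x`
(`gram_clm` with `C = ‖X‖`, from `inner_fd`: `⟪F' · y, F1' · y1⟫ = ⟪y, PhiK ⟪F', F1'⟫ y1⟫` and `X Xi f = PhiK f X`, `inner_MM`). `prodM X X' = (X ⊗ 1) X'`.
`cmp_prodM`: `(τ'' (F ⊗ F'))* (X ⊗ 1) = (τ F)* X (τ' F')*`, checked on the vectors `τ' F1' x`. `exists_slice`: for `v : L` the operator `w ↦ v ⊗ w`, more generally intertwiners.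
-/

set_option autoImplicit false
set_option linter.unusedSectionVars false

open Filter Topology

namespace Pool.Agent.Helper35.FP

variable {𝔾 𝕊 : Type} [Group 𝔾] [TopologicalSpace 𝔾] [IsTopologicalGroup 𝔾] [Group 𝕊] [TopologicalSpace 𝕊] [IsTopologicalGroup 𝕊]
  {𝕂 : Subgroup 𝕊} {geo : Geo 𝔾 𝕊 𝕂} {G S' H U : Type} [Group G] [Group S'] [TopologicalSpace S'] [IsTopologicalGroup S']
  [NormedAddCommGroup H] [InnerProductSpace ℂ H] [CompleteSpace H]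
  [NormedAddCommGroup U] [InnerProductSpace ℂ U] [CompleteSpace U]

variable {B : BD geo G S' H U} {L L' L'' : Type} [NormedAddCommGroup L] [InnerProductSpace ℂ L]
  [NormedAddCommGroup L'] [InnerProductSpace ℂ L'] [NormedAddCommGroup L''] [InnerProductSpace ℂ L'']
  {ρ : Rp 𝕊 L} {ρ' : Rp 𝕊 L'} {ρ'' : Rp 𝕊 L''}

/-- `ρ''` is the tensor product of `ρ` and `ρ'`. -/
structure Tn (ρ : Rp 𝕊 L) (ρ' : Rp 𝕊 L') (ρ'' : Rp 𝕊 L'') where
  /-- the bilinear map -/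
  t : L →ₗ[ℂ] L' →ₗ[ℂ] L''
  inner_t : ∀ a b v w, inner ℂ (t a v) (t b w) = (inner ℂ a b * inner ℂ v w : ℂ)
  dense : ∀ x : L'', (∀ a v, inner ℂ (t a v) x = 0) → x = 0
  equi : ∀ h a v, ρ''.U h (t a v) = t (ρ.U h a) (ρ'.U h v)

theorem Tn.norm_t (Θ : Tn ρ ρ' ρ'') (a : L) (v : L') : ‖Θ.t a v‖ = ‖a‖ * ‖v‖ := by
  have h1 : ‖Θ.t a v‖ ^ 2 = (‖a‖ * ‖v‖) ^ 2 := by
    have h2 := Θ.inner_t a a v v
    rw [inner_self_eq_norm_sq_to_K, inner_self_eq_norm_sq_to_K, inner_self_eq_norm_sq_to_K] at h2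
    rw [mul_pow]
    exact_mod_cast h2
  exact (sq_eq_sq₀ (norm_nonneg _) (by positivity)).1 h1

theorem Tn.cont (Θ : Tn ρ ρ' ρ'') : Continuous fun p : L × L' => Θ.t p.1 p.2 := by
  have h1 : ∀ a v, ‖Θ.t a v‖ ≤ 1 * ‖a‖ * ‖v‖ := fun a v => by rw [Θ.norm_t, one_mul]
  exact (Θ.t.mkContinuous₂ 1 h1).continuous₂

/-- The product of two sections. -/
def tS (Θ : Tn ρ ρ' ρ'') (F : Sec geo ρ) (F' : Sec geo ρ') : Sec geo ρ'' :=
  ⟨fun g => Θ.t ((F : 𝔾 → L) g) ((F' : 𝔾 → L') g), Θ.cont.comp (F.2.1.prodMk F'.2.1), fun g q => by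
    change Θ.t ((F : 𝔾 → L) (g * q)) ((F' : 𝔾 → L') (g * q)) = _
    rw [F.2.2, F'.2.2, Θ.equi]⟩

/-- The operator `w ↦ w ⊗ v`. -/
noncomputable def Tn.op (Θ : Tn ρ ρ' ρ'') (v : L') : L →L[ℂ] L'' :=
  LinearMap.mkContinuous
    { toFun := fun w => Θ.t w v
      map_add' := fun w w' => by rw [map_add, LinearMap.add_apply]
      map_smul' := fun c w => by rw [map_smul, LinearMap.smul_apply, RingHom.id_apply] } ‖v‖
    (fun w => by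
      change ‖Θ.t w v‖ ≤ _
      rw [Θ.norm_t, mul_comm])

theorem Tn.op_apply (Θ : Tn ρ ρ' ρ'') (v : L') (w : L) : Θ.op v w = Θ.t w v := rfl

theorem Tn.norm_op_le (Θ : Tn ρ ρ' ρ'') (v : L') : ‖Θ.op v‖ ≤ ‖v‖ := by
  exact LinearMap.mkContinuous_norm_le _ (norm_nonneg _) _

/-- The field `w ↦ w ⊗ F' g`. -/
noncomputable def Tn.fd (Θ : Tn ρ ρ' ρ'') (F' : Sec geo ρ') : Fd geo ρ ρ'' where
  O g := Θ.op ((F' : 𝔾 → L') g)
  cont w := Θ.cont.comp (continuous_const.prodMk F'.2.1)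
  inv g q w := by
    rw [Θ.op_apply, Θ.op_apply, F'.2.2, ← Θ.equi]
  bdd := by
    obtain ⟨C, hC⟩ := Sec.bdd F'
    exact ⟨|C|, abs_nonneg _, fun g => (Θ.norm_op_le _).trans ((hC g).trans (le_abs_self C))⟩

theorem Tn.fd_ap (Θ : Tn ρ ρ' ρ'') (F' : Sec geo ρ') (F : Sec geo ρ) : (Θ.fd F').ap F = tS Θ F F' := rfl

theorem inner_fd (Θ : Tn ρ ρ' ρ'') (F' F1' : Sec geo ρ') (y y1 : Kt B ρ) :
    (inner ℂ (mulF B (Θ.fd F') y) (mulF B (Θ.fd F1') y1) : ℂ) =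
      inner ℂ y (PhiK B ρ (fun g => inner ℂ ((F' : 𝔾 → L') g) ((F1' : 𝔾 → L') g)) y1) := by
  have hf := Sec.inner_yf F' F1'
  have h1 : (ContinuousLinearMap.adjoint (mulF B (Θ.fd F'))).comp (mulF B (Θ.fd F1')) =
      PhiK B ρ (fun g => inner ℂ ((F' : 𝔾 → L') g) ((F1' : 𝔾 → L') g)) := by
    refine ext_tot (tot_tau B ρ) fun q => ?_
    refine sub_eq_zero.1 (tot_tau B ρ _ fun p => ?_)
    rw [inner_sub_right, ContinuousLinearMap.comp_apply, ContinuousLinearMap.adjoint_inner_right, mulF_tau, mulF_tau,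
      inner_tau, PhiK_tau B ρ hf, inner_tau, B.Xi_mul_right (Sec.inner_yf p.1 q.1).bf hf, sub_eq_zero]
    congr 3
    funext g
    exact Θ.inner_t _ _ _ _
  rw [← h1, ContinuousLinearMap.comp_apply, ContinuousLinearMap.adjoint_inner_right]

private theorem self26 {E : Type} [NormedAddCommGroup E] [InnerProductSpace ℂ E] (x : E) :
    (inner ℂ x x : ℂ) = ((‖x‖ : ℝ) : ℂ) ^ 2 := inner_self_eq_norm_sq_to_K x

private theorem inner_self26 {L : Type} [NormedAddCommGroup L] [InnerProductSpace ℂ L] {ρ : Rp 𝕊 L} (X : MM B ρ) :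
    (inner ℂ X X : ℂ) = ((‖X‖ : ℝ) : ℂ) ^ 2 := by
  obtain ⟨x, hx⟩ := @exists_ne H B.nontriv 0
  have h1 := inner_MM X X x x
  have h2 : ((inner ℂ x x : ℂ)) = ((‖x‖ : ℝ) : ℂ) ^ 2 := inner_self_eq_norm_sq_to_K x
  have h3 : (inner ℂ ((X : H →L[ℂ] Kt B ρ) x) ((X : H →L[ℂ] Kt B ρ) x) : ℂ) = ((‖(X : H →L[ℂ] Kt B ρ) x‖ : ℝ) : ℂ) ^ 2 :=
    inner_self_eq_norm_sq_to_K _
  rw [h3, norm_MM, h2] at h1
  have h4 : ((‖x‖ : ℝ) : ℂ) ^ 2 ≠ 0 := pow_ne_zero 2 (Complex.ofReal_ne_zero.2 (norm_ne_zero_iff.2 hx))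
  refine mul_right_cancel₀ h4 (h1.symm.trans ?_)
  push_cast
  ring

private theorem fd_MM26 (Θ : Tn ρ ρ' ρ'') (X Y : MM B ρ) (F' F1' : Sec geo ρ') (x y : H) :
    (inner ℂ (mulF B (Θ.fd F') ((X : H →L[ℂ] Kt B ρ) x)) (mulF B (Θ.fd F1') ((Y : H →L[ℂ] Kt B ρ) y)) : ℂ) =
      inner ℂ X Y * inner ℂ x (B.Xi (fun g => inner ℂ ((F' : 𝔾 → L') g) ((F1' : 𝔾 → L') g)) y) := by
  rw [inner_fd, ← Y.2.2.2 _ (Sec.inner_yf F' F1'), inner_MM]

theorem exists_tens (Θ : Tn ρ ρ' ρ'') (X : MM B ρ) : ∃ C : Kt B ρ' →L[ℂ] Kt B ρ'', ∀ (F' : Sec geo ρ') (x : H),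
    C (tau B F' x) = mulF B (Θ.fd F') ((X : H →L[ℂ] Kt B ρ) x) := by
  obtain ⟨A, -, hA⟩ := gram_clm (tot_tau B ρ') (fun p : Sec geo ρ' × H => mulF B (Θ.fd p.1) ((X : H →L[ℂ] Kt B ρ) p.2))
    (norm_nonneg X) (by
      intro s c
      have h1 : (inner ℂ (∑ p ∈ s, c p • mulF B (Θ.fd p.1) ((X : H →L[ℂ] Kt B ρ) p.2))
          (∑ p ∈ s, c p • mulF B (Θ.fd p.1) ((X : H →L[ℂ] Kt B ρ) p.2)) : ℂ) =
          inner ℂ X X * inner ℂ (∑ p ∈ s, c p • tau B p.1 p.2) (∑ p ∈ s, c p • tau B p.1 p.2) := by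
        rw [sum_inner, sum_inner, Finset.mul_sum]
        refine Finset.sum_congr rfl fun p _ => ?_
        rw [inner_sum, inner_sum, Finset.mul_sum]
        refine Finset.sum_congr rfl fun q _ => ?_
        rw [inner_smul_left, inner_smul_left, inner_smul_right, inner_smul_right, fd_MM26 Θ X X, inner_tau]
        ring
      have h2 : ‖∑ p ∈ s, c p • mulF B (Θ.fd p.1) ((X : H →L[ℂ] Kt B ρ) p.2)‖ ^ 2 =
          (‖X‖ * ‖∑ p ∈ s, c p • tau B p.1 p.2‖) ^ 2 := by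
        rw [inner_self26, self26, self26] at h1
        rw [mul_pow]
        exact_mod_cast h1
      exact ((sq_eq_sq₀ (norm_nonneg _) (mul_nonneg (norm_nonneg _) (norm_nonneg _))).1 h2).le)
  exact ⟨A, fun F' x => hA (F', x)⟩

/-- The operator `X ⊗ 1`. -/
noncomputable def tens (Θ : Tn ρ ρ' ρ'') (X : MM B ρ) : Kt B ρ' →L[ℂ] Kt B ρ'' := (exists_tens Θ X).choose

theorem tens_tau (Θ : Tn ρ ρ' ρ'') (X : MM B ρ) (F' : Sec geo ρ') (x : H) :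
    tens Θ X (tau B F' x) = mulF B (Θ.fd F') ((X : H →L[ℂ] Kt B ρ) x) := (exists_tens Θ X).choose_spec F' x

theorem inner_tens (Θ : Tn ρ ρ' ρ'') (X Y : MM B ρ) (y y' : Kt B ρ') :
    (inner ℂ (tens Θ X y) (tens Θ Y y') : ℂ) = inner ℂ X Y * inner ℂ y y' := by
  have h1 : (ContinuousLinearMap.adjoint (tens Θ X)).comp (tens Θ Y) =
      (inner ℂ X Y : ℂ) • ContinuousLinearMap.id ℂ (Kt B ρ') := by
    refine ext_tot (tot_tau B ρ') fun q => ?_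
    refine sub_eq_zero.1 (tot_tau B ρ' _ fun p => ?_)
    rw [inner_sub_right, ContinuousLinearMap.comp_apply, ContinuousLinearMap.adjoint_inner_right, tens_tau, tens_tau,
      fd_MM26, sub_eq_zero]
    change _ = inner ℂ (tau B p.1 p.2) ((inner ℂ X Y : ℂ) • tau B q.1 q.2)
    rw [inner_smul_right, inner_tau]
  have h2 : (inner ℂ (tens Θ X y) (tens Θ Y y') : ℂ) =
      inner ℂ y (((ContinuousLinearMap.adjoint (tens Θ X)).comp (tens Θ Y)) y') := by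
    rw [ContinuousLinearMap.comp_apply, ContinuousLinearMap.adjoint_inner_right]
  rw [h2, h1]
  change inner ℂ y ((inner ℂ X Y : ℂ) • y') = _
  rw [inner_smul_right]

theorem norm_tens (Θ : Tn ρ ρ' ρ'') (X : MM B ρ) (y : Kt B ρ') : ‖tens Θ X y‖ = ‖X‖ * ‖y‖ := by
  have h1 := inner_tens Θ X X y y
  have h2 : ‖tens Θ X y‖ ^ 2 = (‖X‖ * ‖y‖) ^ 2 := by
    rw [inner_self26, self26, self26] at h1
    rw [mul_pow]
    exact_mod_cast h1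
  exact (sq_eq_sq₀ (norm_nonneg _) (mul_nonneg (norm_nonneg _) (norm_nonneg _))).1 h2

private theorem tens_WK26 (Θ : Tn ρ ρ' ρ'') (X : MM B ρ) (k : G) (y : Kt B ρ') :
    tens Θ X (WK B ρ' k y) = WK B ρ'' k (tens Θ X y) := by
  have h1 : (tens Θ X).comp ((WK B ρ' k).toContinuousLinearEquiv : Kt B ρ' →L[ℂ] Kt B ρ') =
      ((WK B ρ'' k).toContinuousLinearEquiv : Kt B ρ'' →L[ℂ] Kt B ρ'').comp (tens Θ X) := by
    refine ext_tot (tot_tau B ρ') fun p => ?_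
    change tens Θ X (WK B ρ' k (tau B p.1 p.2)) = WK B ρ'' k (tens Θ X (tau B p.1 p.2))
    rw [WK_tau, tens_tau, tens_tau, WK_mulF, X.2.1]
    rfl
  exact congrArg (fun C : Kt B ρ' →L[ℂ] Kt B ρ'' => C y) h1

private theorem tens_lift26 (Θ : Tn ρ ρ' ρ'') (X : MM B ρ) {c : (H ≃ₗᵢ[ℂ] H) × (U ≃ₗᵢ[ℂ] U)} (hc : c ∈ B.CC)
    (y : Kt B ρ') : tens Θ X (lift B ρ' c.1 y) = lift B ρ'' c.1 (tens Θ X y) := by
  have hc' := B.cphi_CC hc
  have h1 : (tens Θ X).comp ((lift B ρ' c.1).toContinuousLinearEquiv : Kt B ρ' →L[ℂ] Kt B ρ') =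
      ((lift B ρ'' c.1).toContinuousLinearEquiv : Kt B ρ'' →L[ℂ] Kt B ρ'').comp (tens Θ X) := by
    refine ext_tot (tot_tau B ρ') fun p => ?_
    change tens Θ X (lift B ρ' c.1 (tau B p.1 p.2)) = lift B ρ'' c.1 (tens Θ X (tau B p.1 p.2))
    rw [lift_tau B ρ' hc', tens_tau, tens_tau, ← mulF_lift B _ hc', X.2.2.1 c hc]
  exact congrArg (fun C : Kt B ρ' →L[ℂ] Kt B ρ'' => C y) h1

private theorem tens_PhiK26 (Θ : Tn ρ ρ' ρ'') (X : MM B ρ) {f : 𝔾 → ℂ} (hf : Yf geo f)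
    (y : Kt B ρ') : tens Θ X (PhiK B ρ' f y) = PhiK B ρ'' f (tens Θ X y) := by
  have h1 : (tens Θ X).comp (PhiK B ρ' f) = (PhiK B ρ'' f).comp (tens Θ X) := by
    refine ext_tot (tot_tau B ρ') fun p => ?_
    change tens Θ X (PhiK B ρ' f (tau B p.1 p.2)) = PhiK B ρ'' f (tens Θ X (tau B p.1 p.2))
    rw [PhiK_tau B ρ' hf, tens_tau, tens_tau, ← mulF_PhiK B _ hf, X.2.2.2 f hf]
  exact congrArg (fun C : Kt B ρ' →L[ℂ] Kt B ρ'' => C y) h1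

theorem prod_mem (Θ : Tn ρ ρ' ρ'') (X : MM B ρ) (X' : MM B ρ') : (tens Θ X).comp (X' : H →L[ℂ] Kt B ρ') ∈ MM B ρ'' := by
  refine ⟨fun k x => ?_, fun c hc x => ?_, fun f hf x => ?_⟩
  · change tens Θ X ((X' : H →L[ℂ] Kt B ρ') (B.W k x)) = WK B ρ'' k (tens Θ X ((X' : H →L[ℂ] Kt B ρ') x))
    rw [X'.2.1, tens_WK26]
  · change tens Θ X ((X' : H →L[ℂ] Kt B ρ') (c.1 x)) = lift B ρ'' c.1 (tens Θ X ((X' : H →L[ℂ] Kt B ρ') x))
    rw [X'.2.2.1 c hc, tens_lift26 Θ X hc]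
  · change tens Θ X ((X' : H →L[ℂ] Kt B ρ') (B.Xi f x)) = PhiK B ρ'' f (tens Θ X ((X' : H →L[ℂ] Kt B ρ') x))
    rw [X'.2.2.2 f hf, tens_PhiK26 Θ X hf]

/-- The product of `X` and `X'`. -/
noncomputable def prodM (Θ : Tn ρ ρ' ρ'') (X : MM B ρ) (X' : MM B ρ') : MM B ρ'' :=
  ⟨(tens Θ X).comp (X' : H →L[ℂ] Kt B ρ'), prod_mem Θ X X'⟩

theorem prodM_apply (Θ : Tn ρ ρ' ρ'') (X : MM B ρ) (X' : MM B ρ') (x : H) :
    ((prodM Θ X X' : MM B ρ'') : H →L[ℂ] Kt B ρ'') x = tens Θ X ((X' : H →L[ℂ] Kt B ρ') x) := rfl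

private theorem tens_add26 (Θ : Tn ρ ρ' ρ'') (X Y : MM B ρ) : tens Θ (X + Y) = tens Θ X + tens Θ Y := by
  refine ext_tot (tot_tau B ρ') fun p => ?_
  change tens Θ (X + Y) (tau B p.1 p.2) = tens Θ X (tau B p.1 p.2) + tens Θ Y (tau B p.1 p.2)
  rw [tens_tau, tens_tau, tens_tau, ← map_add]
  rfl

private theorem tens_smul26 (Θ : Tn ρ ρ' ρ'') (c : ℂ) (X : MM B ρ) : tens Θ (c • X) = c • tens Θ X := by
  refine ext_tot (tot_tau B ρ') fun p => ?_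
  change tens Θ (c • X) (tau B p.1 p.2) = c • tens Θ X (tau B p.1 p.2)
  rw [tens_tau, tens_tau, ← map_smul]
  rfl

theorem prodM_add_left (Θ : Tn ρ ρ' ρ'') (X Y : MM B ρ) (X' : MM B ρ') : prodM Θ (X + Y) X' = prodM Θ X X' + prodM Θ Y X' := by
  refine Subtype.ext (ContinuousLinearMap.ext fun x => ?_)
  change tens Θ (X + Y) ((X' : H →L[ℂ] Kt B ρ') x) = tens Θ X ((X' : H →L[ℂ] Kt B ρ') x) + tens Θ Y ((X' : H →L[ℂ] Kt B ρ') x)
  rw [tens_add26]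
  rfl

theorem prodM_add_right (Θ : Tn ρ ρ' ρ'') (X : MM B ρ) (X' Y' : MM B ρ') : prodM Θ X (X' + Y') = prodM Θ X X' + prodM Θ X Y' := by
  refine Subtype.ext (ContinuousLinearMap.ext fun x => ?_)
  change tens Θ X ((X' : H →L[ℂ] Kt B ρ') x + (Y' : H →L[ℂ] Kt B ρ') x) =
    tens Θ X ((X' : H →L[ℂ] Kt B ρ') x) + tens Θ X ((Y' : H →L[ℂ] Kt B ρ') x)
  rw [map_add]

theorem prodM_smul_left (Θ : Tn ρ ρ' ρ'') (c : ℂ) (X : MM B ρ) (X' : MM B ρ') : prodM Θ (c • X) X' = c • prodM Θ X X' := by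
  refine Subtype.ext (ContinuousLinearMap.ext fun x => ?_)
  change tens Θ (c • X) ((X' : H →L[ℂ] Kt B ρ') x) = c • tens Θ X ((X' : H →L[ℂ] Kt B ρ') x)
  rw [tens_smul26]
  rfl

theorem prodM_smul_right (Θ : Tn ρ ρ' ρ'') (c : ℂ) (X : MM B ρ) (X' : MM B ρ') : prodM Θ X (c • X') = c • prodM Θ X X' := by
  refine Subtype.ext (ContinuousLinearMap.ext fun x => ?_)
  change tens Θ X (c • (X' : H →L[ℂ] Kt B ρ') x) = c • tens Θ X ((X' : H →L[ℂ] Kt B ρ') x)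
  rw [map_smul]

theorem inner_prodM (Θ : Tn ρ ρ' ρ'') (X Y : MM B ρ) (X' Y' : MM B ρ') :
    (inner ℂ (prodM Θ X X') (prodM Θ Y Y') : ℂ) = inner ℂ X Y * inner ℂ X' Y' := by
  obtain ⟨x, hx⟩ := @exists_ne H B.nontriv 0
  have h1 := inner_MM (prodM Θ X X') (prodM Θ Y Y') x x
  rw [prodM_apply, prodM_apply, inner_tens, inner_MM, ← mul_assoc] at h1
  exact (mul_right_cancel₀ (inner_self_ne_zero.2 hx) h1).symm

theorem norm_prodM (Θ : Tn ρ ρ' ρ'') (X : MM B ρ) (X' : MM B ρ') : ‖prodM Θ X X'‖ = ‖X‖ * ‖X'‖ := by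
  have h1 := inner_prodM Θ X X X' X'
  have h2 : ‖prodM Θ X X'‖ ^ 2 = (‖X‖ * ‖X'‖) ^ 2 := by
    rw [inner_self26, inner_self26, inner_self26] at h1
    rw [mul_pow]
    exact_mod_cast h1
  exact (sq_eq_sq₀ (norm_nonneg _) (mul_nonneg (norm_nonneg _) (norm_nonneg _))).1 h2

theorem beta_prodM (Θ : Tn ρ ρ' ρ'') (s : S') (X : MM B ρ) (X' : MM B ρ') :
    beta B ρ'' s (prodM Θ X X') = prodM Θ (beta B ρ s X) (beta B ρ' s X') := by
  have hc := B.cphi_V s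
  have h1 : ((lift B ρ'' (B.V s)).toContinuousLinearEquiv : Kt B ρ'' →L[ℂ] Kt B ρ'').comp (tens Θ X) =
      (tens Θ (beta B ρ s X)).comp ((lift B ρ' (B.V s)).toContinuousLinearEquiv : Kt B ρ' →L[ℂ] Kt B ρ') := by
    refine ext_tot (tot_tau B ρ') fun p => ?_
    change lift B ρ'' (B.V s) (tens Θ X (tau B p.1 p.2)) = tens Θ (beta B ρ s X) (lift B ρ' (B.V s) (tau B p.1 p.2))
    rw [lift_tau B ρ' hc, tens_tau, tens_tau, ← mulF_lift B _ hc, beta_apply]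
    have h2 : B.V s⁻¹ (B.V s p.2) = p.2 := by
      have h3 : (B.V s⁻¹ * B.V s) p.2 = p.2 := by
        rw [← map_mul, inv_mul_cancel, map_one]
        rfl
      exact h3
    rw [h2]
  refine Subtype.ext (ContinuousLinearMap.ext fun x => ?_)
  rw [beta_apply, prodM_apply, prodM_apply, beta_apply]
  exact congrArg (fun C : Kt B ρ' →L[ℂ] Kt B ρ'' => C ((X' : H →L[ℂ] Kt B ρ') (B.V s⁻¹ x))) h1

/-- The components of a product. -/
theorem cmp_prodM (Θ : Tn ρ ρ' ρ'') (X : MM B ρ) (X' : MM B ρ') (F : Sec geo ρ) (F' : Sec geo ρ') (x : H) :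
    cmp (tS Θ F F') (prodM Θ X X') x = cmp F X (cmp F' X' x) := by
  have h1 : (ContinuousLinearMap.adjoint (tau B (tS Θ F F'))).comp (tens Θ X) =
      (cmp F X).comp (ContinuousLinearMap.adjoint (tau B F')) := by
    refine ext_tot (tot_tau B ρ') fun p => ?_
    refine ext_inner_left ℂ fun z => ?_
    have h2 : ContinuousLinearMap.adjoint (tau B F') (tau B p.1 p.2) =
        B.Xi (fun g => inner ℂ ((F' : 𝔾 → L') g) ((p.1 : 𝔾 → L') g)) p.2 := by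
      refine ext_inner_left ℂ fun u => ?_
      rw [ContinuousLinearMap.adjoint_inner_right, inner_tau]
    rw [ContinuousLinearMap.comp_apply, ContinuousLinearMap.comp_apply, h2, inner_cmp,
      ContinuousLinearMap.adjoint_inner_right, tens_tau, ← Θ.fd_ap, ← mulF_tau, inner_fd,
      X.2.2.2 _ (Sec.inner_yf F' p.1)]
  exact congrArg (fun C : Kt B ρ' →L[ℂ] H => C ((X' : H →L[ℂ] Kt B ρ') x)) h1

/-- Intertwiners for the restrictions to `𝕂`, acting on the first factor. -/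
theorem pushK_fd (Θ : Tn ρ ρ' ρ'') {M : Type} [NormedAddCommGroup M] [InnerProductSpace ℂ M] {σ : Rp 𝕊 M} {A : L →L[ℂ] M}
    (hA : ItK 𝕂 ρ σ A) {M'' : Type} [NormedAddCommGroup M''] [InnerProductSpace ℂ M''] {σ'' : Rp 𝕊 M''} (Θ' : Tn σ ρ' σ'')
    {A'' : L'' →L[ℂ] M''} (hA'' : ItK 𝕂 ρ'' σ'' A'') (h : ∀ a v, A'' (Θ.t a v) = Θ'.t (A a) v) (F' : Sec geo ρ') (y : Kt B ρ) :
    pushK B hA'' (mulF B (Θ.fd F') y) = mulF B (Θ'.fd F') (pushK B hA y) := by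
  have h1 : (pushK B hA'').comp (mulF B (Θ.fd F')) = (mulF B (Θ'.fd F')).comp (pushK B hA) := by
    refine ext_tot (tot_tau B ρ) fun p => ?_
    change mulF B (Fd.ofK hA'') (mulF B (Θ.fd F') (tau B p.1 p.2)) = mulF B (Θ'.fd F') (mulF B (Fd.ofK hA) (tau B p.1 p.2))
    rw [mulF_tau, mulF_tau, mulF_tau, mulF_tau]
    congr 2
    refine Subtype.ext (funext fun g => ?_)
    change σ''.U (geo.nb (geo.r g))⁻¹ (A'' (ρ''.U (geo.nb (geo.r g)) (Θ.t ((p.1 : 𝔾 → L) g) ((F' : 𝔾 → L') g)))) =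
      Θ'.t (σ.U (geo.nb (geo.r g))⁻¹ (A (ρ.U (geo.nb (geo.r g)) ((p.1 : 𝔾 → L) g)))) ((F' : 𝔾 → L') g)
    rw [Θ.equi, h, Θ'.equi]
    have h2 : ρ'.U (geo.nb (geo.r g))⁻¹ (ρ'.U (geo.nb (geo.r g)) ((F' : 𝔾 → L') g)) = (F' : 𝔾 → L') g := by
      have h3 : (ρ'.U (geo.nb (geo.r g))⁻¹ * ρ'.U (geo.nb (geo.r g))) ((F' : 𝔾 → L') g) = (F' : 𝔾 → L') g := by
        rw [← map_mul, inv_mul_cancel, map_one]
        rfl
      exact h3
    rw [h2]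
  exact congrArg (fun C : Kt B ρ →L[ℂ] Kt B σ'' => C y) h1

end Pool.Agent.Helper35.FP
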