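import Mathlib

/-!
# Project FP (MP_0f6f3f_an): the functor proof, definitions

`𝕊` (think of `PGL(2, ℝ)`) is a topological group with a subgroup `𝕂` (think of `PO(2)`). `Rp 𝕊 L`: unitary representations of `𝕊` on `L`.
`Geo 𝔾 𝕊 𝕂`: a group `𝔾 = K Q` (think of `𝔾 = PGL(N, ℝ)`, `K = PO(N)`, `Q` a parabolic subgroup with a `2 × 2` block `nb : Q → 𝕊`). `Sec`: sections, `Yf`: functions on `𝔾 / Q`,
`Bf`: bounded functions on the bundle of the symmetric spaces `𝕊 / 𝕂` of the blocks. `BD`: boundary data: `H` with the unitary representation `W` of the discrete group `G`,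
`T : H → U` isometric, `E f` multiplication by the function `f ∈ Bf` on `U`; `Xi f = T* (E f) T` is multiplicative for `f ∈ Yf` (`pvm`); the unitaries `CC` commute with
everything, `erg` is the ergodicity, `V` a commuting unitary representation of the group `S'`.
`KK B ρ K`: `K` is the Hilbert space `H ⊗ L` over the functions on `𝔾 / Q`, with the total vectors `τ F x`.
-/

set_option autoImplicit false

open Filter Topology

namespace Pool.Agent.Helper35.FP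

/-- Strongly continuous unitary representations. -/
structure Rp (𝕊 : Type) [Group 𝕊] [TopologicalSpace 𝕊] (L : Type) [NormedAddCommGroup L] [InnerProductSpace ℂ L] where
  /-- the representation -/
  U : 𝕊 →* (L ≃ₗᵢ[ℂ] L)
  cont : ∀ w, Continuous fun h => U h w

/-- A group `𝔾 = K Q` with a block `nb : Q → 𝕊`. -/
structure Geo (𝔾 𝕊 : Type) [Group 𝔾] [TopologicalSpace 𝔾] [Group 𝕊] [TopologicalSpace 𝕊] (𝕂 : Subgroup 𝕊) where
  /-- the parabolic subgroup -/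
  Q : Subgroup 𝔾
  /-- the block -/
  nb : Q →* 𝕊
  nbc : Continuous nb
  nbs : Function.Surjective nb
  /-- the compact part -/
  K : Set 𝔾
  Kc : IsCompact K
  /-- the decomposition -/
  r : 𝔾 → Q
  rc : Continuous r
  kr : ∀ g, g * (r g : 𝔾)⁻¹ ∈ K
  rK : ∀ g ∈ K, nb (r g) ∈ 𝕂
  KK : ∀ g ∈ K, ∀ g' ∈ K, ∀ q : Q, g = g' * q → nb q ∈ 𝕂

section Fun

variable {𝔾 𝕊 : Type} [Group 𝔾] [TopologicalSpace 𝔾] [Group 𝕊] [TopologicalSpace 𝕊] {𝕂 : Subgroup 𝕊} (geo : Geo 𝔾 𝕊 𝕂)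

/-- Continuous functions on `𝔾 / Q`. -/
structure Yf (f : 𝔾 → ℂ) : Prop where
  cont : Continuous f
  inv : ∀ (g : 𝔾) (q : geo.Q), f (g * q) = f g

/-- Bounded continuous functions on the bundle of the symmetric spaces of the blocks. -/
structure Bf (f : 𝔾 → ℂ) : Prop where
  cont : Continuous f
  inv : ∀ (g : 𝔾) (q : geo.Q), geo.nb q ∈ 𝕂 → f (g * q) = f g
  bdd : ∃ C : ℝ, ∀ g, ‖f g‖ ≤ C

/-- The sections. -/
def Sec {L : Type} [NormedAddCommGroup L] [InnerProductSpace ℂ L] (ρ : Rp 𝕊 L) : Submodule ℂ (𝔾 → L) where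
  carrier := {F | Continuous F ∧ ∀ (g : 𝔾) (q : geo.Q), F (g * q) = ρ.U (geo.nb q)⁻¹ (F g)}
  add_mem' := fun {a b} ha hb => ⟨ha.1.add hb.1, fun g q => by
    rw [Pi.add_apply, Pi.add_apply, ha.2, hb.2, map_add]⟩
  zero_mem' := ⟨continuous_const, fun g q => by simp⟩
  smul_mem' := fun c x hx => ⟨continuous_const.smul hx.1, fun g q => by
    rw [Pi.smul_apply, Pi.smul_apply, hx.2, map_smul]⟩

end Fun

/-- Boundary data. -/
structure BD {𝔾 𝕊 : Type} [Group 𝔾] [TopologicalSpace 𝔾] [Group 𝕊] [TopologicalSpace 𝕊] {𝕂 : Subgroup 𝕊}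
    (geo : Geo 𝔾 𝕊 𝕂) (G S' H U : Type) [Group G] [Group S'] [TopologicalSpace S']
    [NormedAddCommGroup H] [InnerProductSpace ℂ H] [CompleteSpace H]
    [NormedAddCommGroup U] [InnerProductSpace ℂ U] [CompleteSpace U] where
  /-- the embedding of `G` -/
  ir : G →* 𝔾
  /-- the representation on `H` -/
  W : G →* (H ≃ₗᵢ[ℂ] H)
  /-- the representation on `U` -/
  WU : G →* (U ≃ₗᵢ[ℂ] U)
  /-- the boundary map -/
  T : H →ₗᵢ[ℂ] U
  TW : ∀ (k : G) (x : H), T (W k x) = WU k (T x)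
  /-- multiplication by functions -/
  E : (𝔾 → ℂ) → (U →L[ℂ] U)
  E_one : ∀ x, E (fun _ => 1) x = x
  E_add : ∀ f f' : 𝔾 → ℂ, Bf geo f → Bf geo f' → ∀ x, E (fun g => f g + f' g) x = E f x + E f' x
  E_smul : ∀ (c : ℂ) (f : 𝔾 → ℂ), Bf geo f → ∀ x, E (fun g => c * f g) x = c • E f x
  E_mul : ∀ f f' : 𝔾 → ℂ, Bf geo f → Bf geo f' → ∀ x, E (fun g => f g * f' g) x = E f (E f' x)
  E_star : ∀ f : 𝔾 → ℂ, Bf geo f → ∀ x y, inner ℂ (E f x) y = inner ℂ x (E (fun g => (starRingEnd ℂ) (f g)) y)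
  E_pos : ∀ (n : ℕ) (a : Fin n → Fin n → 𝔾 → ℂ), (∀ i j, Bf geo (a i j)) →
    (∀ (g : 𝔾) (z : Fin n → ℂ), 0 ≤ (∑ i, ∑ j, (starRingEnd ℂ) (z i) * a i j g * z j).re) →
    ∀ u : Fin n → U, 0 ≤ (∑ i, ∑ j, inner ℂ (u i) (E (a i j) (u j))).re
  E_cov : ∀ (k : G) (f : 𝔾 → ℂ), Bf geo f → ∀ x, WU k (E f x) = E (fun g => f ((ir k)⁻¹ * g)) (WU k x)
  E_lim : ∀ (f : ℕ → 𝔾 → ℂ) (C : ℝ), (∀ j, Bf geo (f j)) → (∀ j g, ‖f j g‖ ≤ C) →
    (∀ B : Set 𝕊, IsCompact B → ∀ ε : ℝ, 0 < ε → ∀ᶠ j in atTop, ∀ g, geo.nb (geo.r g) ∈ B → ‖f j g‖ ≤ ε) →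
    ∀ x, Tendsto (fun j => E (f j) x) atTop (𝓝 0)
  pvm : ∀ f : 𝔾 → ℂ, Yf geo f → ∀ x, E f (T x) = T (ContinuousLinearMap.adjoint T.toContinuousLinearMap (E f (T x)))
  /-- the unitaries which commute with everything -/
  CC : Set ((H ≃ₗᵢ[ℂ] H) × (U ≃ₗᵢ[ℂ] U))
  CC_T : ∀ c ∈ CC, ∀ x, T (c.1 x) = c.2 (T x)
  CC_W : ∀ c ∈ CC, ∀ (k : G) (x : H), c.1 (W k x) = W k (c.1 x)
  CC_WU : ∀ c ∈ CC, ∀ (k : G) (x : U), c.2 (WU k x) = WU k (c.2 x)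
  CC_E : ∀ c ∈ CC, ∀ f : 𝔾 → ℂ, Bf geo f → ∀ x, c.2 (E f x) = E f (c.2 x)
  erg : ∀ Y : H →L[ℂ] H, (∀ (k : G) (x : H), Y (W k x) = W k (Y x)) → (∀ c ∈ CC, ∀ x, Y (c.1 x) = c.1 (Y x)) →
    ∃ z : ℂ, ∀ x, Y x = z • x
  /-- the representation of `S'` -/
  V : S' →* (H ≃ₗᵢ[ℂ] H)
  VW : ∀ (s : S') (k : G) (x : H), V s (W k x) = W k (V s x)
  VΦ : ∀ (s : S') (f : 𝔾 → ℂ), Yf geo f → ∀ x,
    V s (ContinuousLinearMap.adjoint T.toContinuousLinearMap (E f (T x))) =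
      ContinuousLinearMap.adjoint T.toContinuousLinearMap (E f (T (V s x)))
  Vc : ∀ x, Continuous fun s => V s x
  VCC : ∀ (s : S'), ∀ c ∈ CC, ∃ c' ∈ CC, ∀ x, V s (c.1 x) = c'.1 (V s x)
  nontriv : Nontrivial H

section B

variable {𝔾 𝕊 : Type} [Group 𝔾] [TopologicalSpace 𝔾] [Group 𝕊] [TopologicalSpace 𝕊] {𝕂 : Subgroup 𝕊}
  {geo : Geo 𝔾 𝕊 𝕂} {G S' H U : Type} [Group G] [Group S'] [TopologicalSpace S']
  [NormedAddCommGroup H] [InnerProductSpace ℂ H] [CompleteSpace H]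
  [NormedAddCommGroup U] [InnerProductSpace ℂ U] [CompleteSpace U]

/-- `Xi f = T* (E f) T`. -/
noncomputable def BD.Xi (B : BD geo G S' H U) (f : 𝔾 → ℂ) : H →L[ℂ] H :=
  (ContinuousLinearMap.adjoint B.T.toContinuousLinearMap).comp ((B.E f).comp B.T.toContinuousLinearMap)

theorem BD.Xi_apply (B : BD geo G S' H U) (f : 𝔾 → ℂ) (x : H) :
    B.Xi f x = ContinuousLinearMap.adjoint B.T.toContinuousLinearMap (B.E f (B.T x)) := rfl

/-- The unitaries of `H` which commute with the functions on `𝔾 / Q`. -/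
def BD.CPhi (B : BD geo G S' H U) (c : H ≃ₗᵢ[ℂ] H) : Prop := ∀ f : 𝔾 → ℂ, Yf geo f → ∀ x, c (B.Xi f x) = B.Xi f (c x)

/-- `K` is the Hilbert space `H ⊗ L` over the functions on `𝔾 / Q`. -/
structure KK (B : BD geo G S' H U) {L : Type} [NormedAddCommGroup L] [InnerProductSpace ℂ L] (ρ : Rp 𝕊 L)
    (K : Type) [NormedAddCommGroup K] [InnerProductSpace ℂ K] where
  /-- the vectors `τ F x` -/
  τ : Sec geo ρ →ₗ[ℂ] (H →L[ℂ] K)
  inner_τ : ∀ (F F' : Sec geo ρ) (x x' : H), inner ℂ (τ F x) (τ F' x') =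
    inner ℂ x (B.Xi (fun g => inner ℂ ((F : 𝔾 → L) g) ((F' : 𝔾 → L) g)) x')
  dense : ∀ y : K, (∀ F x, inner ℂ (τ F x) y = 0) → y = 0

end B

end Pool.Agent.Helper35.FP
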