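import Pool.Agent.Helper35.FP.JK

/-!
# Project TZ, block JA: the fixed points of `𝕊` in the Levi algebra are scalars

`rank1`: `τ F (τ F')* = ∫ mulF (mulK (F conj (tr h F'))) WW h dh` weakly, `F = secK κ`, `F' = secK κ'`: on the vectors `τ F₁ x`, `τ F₂ x'` both sides are `⟪x', Xi (⟪F₂, F⟫ ⟪F', F₁⟫) x⟫`; for the right hand side the map
`ψ ↦ ⟪x', Xi ψ x⟫` is continuous linear on the continuous functions on `𝔾 / Q` with the sup norm over `K`, so it commutes with the integral over `h` (compact support in `h`); both sides are bounded sesquilinear in `y`, `y'`.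
`erg_JJ`: so `Y` commutes with `τ F (τ F')*`; with `F₀ = secK (kapO w)`, `‖w‖₂ = 1`, `y₀ = (τ F₀)* Y τ F₀`: `Y τ F = Y τ F (τ F₀)* τ F₀ = τ F y₀` for all `F` (`secK_dense`), and `y₀` commutes with `W`, `CC`: scalar by `B.erg`.
-/

set_option autoImplicit false
set_option linter.unusedSectionVars false

open Filter Topology MeasureTheory
open scoped Pointwise

namespace Pool.Agent.Helper35.FP

variable {𝔾 𝕊 : Type} [Group 𝔾] [TopologicalSpace 𝔾] [IsTopologicalGroup 𝔾] [Group 𝕊] [TopologicalSpace 𝕊] [IsTopologicalGroup 𝕊]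
  {𝕂 : Subgroup 𝕊} {geo : Geo 𝔾 𝕊 𝕂} {G S' H U : Type} [Group G] [Group S'] [TopologicalSpace S'] [IsTopologicalGroup S']
  [NormedAddCommGroup H] [InnerProductSpace ℂ H] [CompleteSpace H]
  [NormedAddCommGroup U] [InnerProductSpace ℂ U] [CompleteSpace U]

section A63

variable (B : BD geo G S' H U)

private theorem Yf_add63 {f f' : 𝔾 → ℂ} (hf : Yf geo f) (hf' : Yf geo f') : Yf geo fun g => f g + f' g :=
  ⟨hf.cont.add hf'.cont, fun g q => by rw [hf.inv, hf'.inv]⟩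

private theorem Yf_smul63 {f : 𝔾 → ℂ} (hf : Yf geo f) (c : ℂ) : Yf geo fun g => c * f g :=
  ⟨continuous_const.mul hf.cont, fun g q => by rw [hf.inv]⟩

private theorem Yf_mul63 {f f' : 𝔾 → ℂ} (hf : Yf geo f) (hf' : Yf geo f') : Yf geo fun g => f g * f' g :=
  ⟨hf.cont.mul hf'.cont, fun g q => by rw [hf.inv, hf'.inv]⟩

private theorem Yf_ext63 {f : 𝔾 → ℂ} (hf : Yf geo f) (g : 𝔾) : f (g * (geo.r g : 𝔾)⁻¹) = f g := by
  have h2 := hf.inv g (geo.r g)⁻¹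
  rwa [Subgroup.coe_inv] at h2

private theorem Xi_add63 {f f' : 𝔾 → ℂ} (hf : Bf geo f) (hf' : Bf geo f') (x : H) :
    B.Xi (fun g => f g + f' g) x = B.Xi f x + B.Xi f' x := by
  rw [B.Xi_apply, B.Xi_apply, B.Xi_apply, B.E_add f f' hf hf', map_add]

private theorem Xi_smul63 (c : ℂ) {f : 𝔾 → ℂ} (hf : Bf geo f) (x : H) :
    B.Xi (fun g => c * f g) x = c • B.Xi f x := by
  rw [B.Xi_apply, B.Xi_apply, B.E_smul c f hf, map_smul]

/-- restrictions of functions on `𝔾 / Q` to the compact part -/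
private def resS63 (geo : Geo 𝔾 𝕊 𝕂) : Submodule ℂ C(geo.K, ℂ) where
  carrier := {φ | ∃ f : 𝔾 → ℂ, Yf geo f ∧ ∀ k : geo.K, φ k = f k}
  add_mem' := by
    rintro a b ⟨f, hf, hf'⟩ ⟨f2, hf2, hf2'⟩
    exact ⟨_, Yf_add63 hf hf2, fun k => by rw [ContinuousMap.add_apply, hf', hf2']⟩
  zero_mem' := ⟨fun _ => 0, ⟨continuous_const, fun _ _ => rfl⟩, fun k => rfl⟩
  smul_mem' := by
    rintro c a ⟨f, hf, hf'⟩
    exact ⟨_, Yf_smul63 hf c, fun k => by rw [ContinuousMap.smul_apply, hf', smul_eq_mul]⟩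

/-- the extension -/
private noncomputable def ext63 (φ : C(geo.K, ℂ)) (g : 𝔾) : ℂ := φ ⟨g * (geo.r g : 𝔾)⁻¹, geo.kr g⟩

private theorem ext63_eq {φ : C(geo.K, ℂ)} {f : 𝔾 → ℂ} (hf : Yf geo f) (h : ∀ k : geo.K, φ k = f k) : ext63 φ = f := by
  funext g
  unfold ext63
  rw [h]
  exact Yf_ext63 hf g

private theorem ext63_yf {φ : C(geo.K, ℂ)} (h : φ ∈ resS63 geo) : Yf geo (ext63 φ) := by
  obtain ⟨f, hf, hf'⟩ := h
  rw [ext63_eq hf hf']
  exact hf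

private theorem exists_Lam63 (x x' : H) : ∃ Λ : C(geo.K, ℂ) →L[ℂ] ℂ, ∀ (φ : C(geo.K, ℂ)) (f : 𝔾 → ℂ), Yf geo f → (∀ k : geo.K, φ k = f k) →
    Λ φ = inner ℂ x' (B.Xi f x) := by
  have : CompactSpace geo.K := isCompact_iff_compactSpace.1 geo.Kc
  let L0 : resS63 geo →ₗ[ℂ] ℂ :=
    { toFun := fun φ => inner ℂ x' (B.Xi (ext63 (φ : C(geo.K, ℂ))) x)
      map_add' := fun φ ψ => by
        rw [← inner_add_right, ← Xi_add63 B (ext63_yf φ.2).bf (ext63_yf ψ.2).bf]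
        rfl
      map_smul' := fun c φ => by
        rw [RingHom.id_apply, smul_eq_mul, ← inner_smul_right, ← Xi_smul63 B c (ext63_yf φ.2).bf]
        rfl }
  let L1 : StrongDual ℂ (resS63 geo) := L0.mkContinuous (‖x'‖ * ‖x‖) (fun φ => by
    have h1 := B.Xi_norm (ext63_yf φ.2).bf (C := ‖φ‖) (fun g => ContinuousMap.norm_coe_le_norm (φ : C(geo.K, ℂ)) _) x
    calc ‖L0 φ‖ ≤ ‖x'‖ * ‖B.Xi (ext63 (φ : C(geo.K, ℂ))) x‖ := norm_inner_le_norm _ _
      _ ≤ ‖x'‖ * (‖φ‖ * ‖x‖) := mul_le_mul_of_nonneg_left h1 (norm_nonneg _)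
      _ = ‖x'‖ * ‖x‖ * ‖φ‖ := by ring)
  obtain ⟨Λ, hΛ, -⟩ := exists_extension_norm_eq (resS63 geo) L1
  refine ⟨Λ, fun φ f hf h => ?_⟩
  have h1 := hΛ ⟨φ, f, hf, h⟩
  have h2 : L1 ⟨φ, f, hf, h⟩ = inner ℂ x' (B.Xi (ext63 φ) x) := rfl
  rw [h2, ext63_eq hf h] at h1
  exact h1

end A63

variable [MeasurableSpace 𝕊] [BorelSpace 𝕊]
  [SecondCountableTopology 𝕊] [LocallyCompactSpace 𝕊] [T2Space 𝕊] (μ : Measure 𝕊) [μ.IsHaarMeasure] [μ.IsMulRightInvariant]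

section B63

variable (B : BD geo G S' H U)

/-- the integral over the parameter commutes with `Xi` -/
private theorem Xi_int63 (ψ : 𝕊 → 𝔾 → ℂ) (hψ : Continuous fun p : 𝕊 × 𝔾 => ψ p.1 p.2) (hY : ∀ h, Yf geo (ψ h))
    {D : Set 𝕊} (hD : IsCompact D) (hs : ∀ h, h ∉ D → ∀ g, ψ h g = 0) (f : 𝔾 → ℂ) (hf : Yf geo f)
    (hi : ∀ g, ∫ h, ψ h g ∂μ = f g) (x x' : H) :
    ∫ h, (inner ℂ x' (B.Xi (ψ h) x) : ℂ) ∂μ = inner ℂ x' (B.Xi f x) := by
  have : CompactSpace geo.K := isCompact_iff_compactSpace.1 geo.Kc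
  obtain ⟨Λ, hΛ⟩ := exists_Lam63 B x x'
  let Ψ0 : C(𝕊 × geo.K, ℂ) := ⟨fun p => ψ p.1 p.2, hψ.comp (continuous_fst.prodMk (continuous_subtype_val.comp continuous_snd))⟩
  let Ψ : 𝕊 → C(geo.K, ℂ) := fun h => Ψ0.curry h
  have hΨc : Continuous Ψ := Ψ0.curry.continuous
  have hΨs : HasCompactSupport Ψ := by
    refine HasCompactSupport.intro hD fun h hh => ?_
    refine ContinuousMap.ext fun k => hs h hh k
  have hΨi : Integrable Ψ μ := hΨc.integrable_of_hasCompactSupport hΨs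
  have h1 : ∀ h, (inner ℂ x' (B.Xi (ψ h) x) : ℂ) = Λ (Ψ h) := fun h => (hΛ (Ψ h) (ψ h) (hY h) fun k => rfl).symm
  simp_rw [h1]
  rw [ContinuousLinearMap.integral_comp_comm Λ hΨi]
  refine hΛ _ f hf fun k => ?_
  have h2 := ContinuousLinearMap.integral_comp_comm (ContinuousMap.evalCLM ℂ k) hΨi
  have h3 : (ContinuousMap.evalCLM ℂ k) (∫ h, Ψ h ∂μ) = (∫ h, Ψ h ∂μ) k := rfl
  rw [← h3, ← h2, ← hi]
  rfl

end B63


section C63

/-- Fubini -/
private theorem fub63 {a b : 𝕊 → ℂ} (ha : Integrable a μ) (hb : Integrable b μ) :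
    ∫ h, ∫ s, a s * b (s * h) ∂μ ∂μ = (∫ s, a s ∂μ) * ∫ s, b s ∂μ := by
  have h1 : Integrable (fun p : 𝕊 × 𝕊 => a p.1 * b (p.1 * p.2)) (μ.prod μ) := by
    have h2 : Integrable (fun p : 𝕊 × 𝕊 => a p.1 * b p.2) (μ.prod μ) := ha.mul_prod hb
    exact (measurePreserving_prod_mul μ μ).integrable_comp_of_integrable h2
  rw [← integral_integral_swap (f := fun s h => a s * b (s * h)) h1]
  have h3 : ∀ s, ∫ h, a s * b (s * h) ∂μ = a s * ∫ h, b h ∂μ := by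
    intro s
    rw [integral_const_mul, integral_mul_left_eq_self (μ := μ) b s]
  simp_rw [h3]
  rw [integral_mul_const]

private theorem rtc63 {X : Type} [TopologicalSpace X] {h : X → 𝕊} (hh : Continuous h) {F : X → Lp ℂ 2 μ} (hF : Continuous F) :
    Continuous fun x => rt μ (h x) (F x) := by
  rw [continuous_iff_continuousAt]
  intro x0
  refine tendsto_iff_norm_sub_tendsto_zero.2 ?_
  have h1 : Tendsto (fun x => ‖F x - F x0‖ + ‖rt μ (h x) (F x0) - rt μ (h x0) (F x0)‖) (𝓝 x0) (𝓝 0) := by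
    have h2 : Continuous fun x => ‖F x - F x0‖ + ‖rt μ (h x) (F x0) - rt μ (h x0) (F x0)‖ :=
      (hF.sub continuous_const).norm.add (((rt_cont μ (F x0)).comp hh).sub continuous_const).norm
    have h3 := h2.tendsto x0
    simpa using h3
  refine squeeze_zero (fun g => norm_nonneg _) (fun x => ?_) h1
  have h4 : rt μ (h x) (F x) - rt μ (h x0) (F x0) = rt μ (h x) (F x - F x0) + (rt μ (h x) (F x0) - rt μ (h x0) (F x0)) := by
    rw [map_sub]
    abel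
  rw [h4]
  refine (norm_add_le _ _).trans (add_le_add ?_ le_rfl)
  rw [LinearIsometryEquiv.norm_map]

private theorem rt_ae63 (h : 𝕊) {f : Lp ℂ 2 μ} {w : 𝕊 → ℂ} (hf : (f : 𝕊 → ℂ) =ᵐ[μ] w) :
    (rt μ h f : 𝕊 → ℂ) =ᵐ[μ] fun s => w (s * h) := by
  refine (rt_apply μ h f).trans ?_
  exact (measurePreserving_mul_right μ h).quasiMeasurePreserving.ae_eq_comp hf

/-- the field of the product -/
private theorem mulK_mul63 (κ κ' : Kap geo) (g : 𝔾) (w : Lp ℂ 2 μ) :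
    (mulK μ (κ.mul κ')).O g w = (mulK μ κ).O g ((mulK μ κ').O g w) := by
  refine Lp.ext ?_
  filter_upwards [mulK_apply μ (κ.mul κ') g w, mulK_apply μ κ g ((mulK μ κ').O g w), mulK_apply μ κ' g w] with s h1 h2 h3
  rw [h1, h2, h3]
  exact mul_assoc _ _ _

private theorem mulK_rt63 (κ : Kap geo) (h : 𝕊) (g : 𝔾) (w : Lp ℂ 2 μ) :
    (mulK μ (κ.tr h)).O g (rt μ h w) = rt μ h ((mulK μ κ).O g w) := by
  refine Lp.ext ?_
  filter_upwards [mulK_apply μ (κ.tr h) g (rt μ h w), rt_apply μ h w, rt_ae63 μ h (mulK_apply μ κ g w)] with s h1 h2 h3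
  rw [h1, h2, h3]
  rfl

private theorem mulK_adj63 (κ : Kap geo) (g : 𝔾) (v w : Lp ℂ 2 μ) :
    (inner ℂ v ((mulK μ κ).O g w) : ℂ) = inner ℂ ((mulK μ κ.conj).O g v) w := by
  rw [L2.inner_def, L2.inner_def]
  refine integral_congr_ae ?_
  filter_upwards [mulK_apply μ κ g w, mulK_apply μ κ.conj g v] with s h1 h2
  rw [h1, h2]
  simp only [RCLike.inner_apply, Kap.conj, map_mul, Complex.conj_conj]
  ring

private theorem inner_int63 (κ κ' : Kap geo) {C C' : Set 𝕊} (hC : IsCompact C) (hC' : IsCompact C') (hκ : κ.IsC C) (hκ' : κ'.IsC C')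
    (g : 𝔾) (v w : Lp ℂ 2 μ) :
    ∫ h, (inner ℂ v ((mulK μ (κ.mul (κ'.tr h).conj)).O g (rt μ h w)) : ℂ) ∂μ =
      inner ℂ v ((secK μ κ hC hκ : 𝔾 → Lp ℂ 2 μ) g) * inner ℂ ((secK μ κ' hC' hκ' : 𝔾 → Lp ℂ 2 μ) g) w := by
  have ha : Integrable (fun s => (starRingEnd ℂ) ((v : 𝕊 → ℂ) s) * κ.k g s) μ := by
    refine (L2.integrable_inner (𝕜 := ℂ) v ((secK μ κ hC hκ : 𝔾 → Lp ℂ 2 μ) g)).congr ?_
    filter_upwards [secK_apply μ κ hC hκ g] with s hs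
    rw [hs, RCLike.inner_apply, mul_comm]
  have hb : Integrable (fun s => (starRingEnd ℂ) (κ'.k g s) * (w : 𝕊 → ℂ) s) μ := by
    refine (L2.integrable_inner (𝕜 := ℂ) ((secK μ κ' hC' hκ' : 𝔾 → Lp ℂ 2 μ) g) w).congr ?_
    filter_upwards [secK_apply μ κ' hC' hκ' g] with s hs
    rw [hs, RCLike.inner_apply, mul_comm]
  have h1 : ∀ h, (inner ℂ v ((mulK μ (κ.mul (κ'.tr h).conj)).O g (rt μ h w)) : ℂ) =
      ∫ s, ((starRingEnd ℂ) ((v : 𝕊 → ℂ) s) * κ.k g s) * ((starRingEnd ℂ) (κ'.k g (s * h)) * (w : 𝕊 → ℂ) (s * h)) ∂μ := by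
    intro h
    rw [L2.inner_def]
    refine integral_congr_ae ?_
    filter_upwards [mulK_apply μ (κ.mul (κ'.tr h).conj) g (rt μ h w), rt_apply μ h w] with s h1 h2
    rw [h1, h2]
    simp only [RCLike.inner_apply, Kap.conj, Kap.mul, Kap.tr]
    ring
  simp_rw [h1]
  rw [fub63 μ ha hb, L2.inner_def, L2.inner_def]
  congr 1
  · refine integral_congr_ae ?_
    filter_upwards [secK_apply μ κ hC hκ g] with s hs
    rw [hs, RCLike.inner_apply, mul_comm]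
  · refine integral_congr_ae ?_
    filter_upwards [secK_apply μ κ' hC' hκ' g] with s hs
    rw [hs, RCLike.inner_apply, mul_comm]

/-- the support -/
private theorem supp63 (κ κ' : Kap geo) {C C' : Set 𝕊} (hκ : κ.IsC C) (hκ' : κ'.IsC C') {h : 𝕊} (hh : h ∉ C⁻¹ * C')
    (g : 𝔾) (s : 𝕊) : (κ.mul (κ'.tr h).conj).k g s = 0 := by
  have key : ∀ (κ : Kap geo) (t : 𝕊), κ.k g t = κ.k (g * (geo.r g : 𝔾)⁻¹) (geo.nb (geo.r g) * t) := by
    intro κ t
    rw [← κ.inv, inv_mul_cancel_right]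
  change κ.k g s * (starRingEnd ℂ) (κ'.k g (s * h)) = 0
  by_cases h1 : geo.nb (geo.r g) * s ∈ C
  · by_cases h2 : geo.nb (geo.r g) * (s * h) ∈ C'
    · exfalso
      refine hh ⟨(geo.nb (geo.r g) * s)⁻¹, Set.inv_mem_inv.2 h1, geo.nb (geo.r g) * (s * h), h2, ?_⟩
      show (geo.nb (geo.r g) * s)⁻¹ * (geo.nb (geo.r g) * (s * h)) = h
      group
    · rw [key κ' (s * h), hκ' _ (geo.kr g) _ h2, map_zero, mul_zero]
  · rw [key κ s, hκ _ (geo.kr g) _ h1, zero_mul]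

end C63

section D63

variable (B : BD geo G S' H U)

private noncomputable def Th63 (κ κ' : Kap geo) (h : 𝕊) (y : Kt B (lam μ)) : Kt B (lam μ) :=
  mulF B (mulK μ (κ.mul (κ'.tr h).conj)) (WW μ B h y)

private theorem Th_eq63 (κ κ' : Kap geo) (h : 𝕊) (y : Kt B (lam μ)) :
    Th63 μ B κ κ' h y = mulF B (mulK μ κ) (WW μ B h (mulF B (mulK μ κ'.conj) y)) := by
  unfold Th63
  rw [WW_mulK]
  exact mulF_comp B _ _ _ (fun g w => mulK_mul63 μ κ (κ'.tr h).conj g w) _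

private theorem Th_cont63 (κ κ' : Kap geo) (y : Kt B (lam μ)) : Continuous fun h => Th63 μ B κ κ' h y := by
  have h1 : (fun h => Th63 μ B κ κ' h y) = fun h => mulF B (mulK μ κ) (WW μ B h (mulF B (mulK μ κ'.conj) y)) :=
    funext fun h => Th_eq63 μ B κ κ' h y
  rw [h1]
  exact (mulF B (mulK μ κ)).continuous.comp (WW_cont μ B _)

private theorem Th_supp63 (κ κ' : Kap geo) {C C' : Set 𝕊} (hκ : κ.IsC C) (hκ' : κ'.IsC C') {h : 𝕊} (hh : h ∉ C⁻¹ * C')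
    (y : Kt B (lam μ)) : Th63 μ B κ κ' h y = 0 := by
  have h1 : ‖mulF B (mulK μ (κ.mul (κ'.tr h).conj))‖ ≤ 0 :=
    norm_mulF B _ le_rfl (norm_mulK μ _ le_rfl fun g s => by rw [supp63 κ κ' hκ hκ' hh, norm_zero])
  have h2 : mulF B (mulK μ (κ.mul (κ'.tr h).conj)) = 0 := norm_le_zero_iff.1 h1
  unfold Th63
  rw [h2]
  rfl

private theorem Th_int63 (κ κ' : Kap geo) {C C' : Set 𝕊} (hC : IsCompact C) (hC' : IsCompact C') (hκ : κ.IsC C) (hκ' : κ'.IsC C')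
    (y : Kt B (lam μ)) : Integrable (fun h => Th63 μ B κ κ' h y) μ :=
  (Th_cont63 μ B κ κ' y).integrable_of_hasCompactSupport
    (HasCompactSupport.intro (hC.inv.mul hC') fun h hh => Th_supp63 μ B κ κ' hκ hκ' hh y)

private theorem Th_add63 (κ κ' : Kap geo) (h : 𝕊) (y y' : Kt B (lam μ)) :
    Th63 μ B κ κ' h (y + y') = Th63 μ B κ κ' h y + Th63 μ B κ κ' h y' := by
  unfold Th63
  rw [map_add, map_add]

private theorem Th_smul63 (κ κ' : Kap geo) (h : 𝕊) (c : ℂ) (y : Kt B (lam μ)) :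
    Th63 μ B κ κ' h (c • y) = c • Th63 μ B κ κ' h y := by
  unfold Th63
  rw [map_smul, map_smul]

private theorem Th_norm63 (κ κ' : Kap geo) : ∃ c : ℝ, 0 ≤ c ∧ ∀ (h : 𝕊) (y : Kt B (lam μ)), ‖Th63 μ B κ κ' h y‖ ≤ c * ‖y‖ := by
  refine ⟨‖mulF B (mulK μ κ)‖ * ‖mulF B (mulK μ κ'.conj)‖, by positivity, fun h y => ?_⟩
  rw [Th_eq63]
  refine ((mulF B (mulK μ κ)).le_opNorm _).trans ?_
  rw [LinearIsometryEquiv.norm_map, mul_assoc]
  exact mul_le_mul_of_nonneg_left ((mulF B (mulK μ κ'.conj)).le_opNorm _) (norm_nonneg _)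

/-- the operator -/
private theorem exists_R63 (κ κ' : Kap geo) {C C' : Set 𝕊} (hC : IsCompact C) (hC' : IsCompact C') (hκ : κ.IsC C) (hκ' : κ'.IsC C') :
    ∃ R : Kt B (lam μ) →L[ℂ] Kt B (lam μ), ∀ y, R y = ∫ h, Th63 μ B κ κ' h y ∂μ := by
  obtain ⟨c, hc0, hc⟩ := Th_norm63 μ B κ κ'
  have hD : IsCompact (C⁻¹ * C') := hC.inv.mul hC'
  let R0 : Kt B (lam μ) →ₗ[ℂ] Kt B (lam μ) :=
    { toFun := fun y => ∫ h, Th63 μ B κ κ' h y ∂μ
      map_add' := fun y y' => by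
        rw [← integral_add (Th_int63 μ B κ κ' hC hC' hκ hκ' y) (Th_int63 μ B κ κ' hC hC' hκ hκ' y')]
        exact integral_congr_ae (Eventually.of_forall fun h => Th_add63 μ B κ κ' h y y')
      map_smul' := fun z y => by
        rw [RingHom.id_apply, ← integral_smul]
        exact integral_congr_ae (Eventually.of_forall fun h => Th_smul63 μ B κ κ' h z y) }
  refine ⟨R0.mkContinuous (μ.real (C⁻¹ * C') * c) fun y => ?_, fun y => rfl⟩
  have hi : Integrable ((C⁻¹ * C').indicator fun _ : 𝕊 => c * ‖y‖) μ :=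
    (integrable_indicator_iff hD.measurableSet).2 (integrableOn_const hD.measure_lt_top.ne)
  have h1 : ‖R0 y‖ ≤ ∫ h, (C⁻¹ * C').indicator (fun _ : 𝕊 => c * ‖y‖) h ∂μ := by
    refine norm_integral_le_of_norm_le hi (Eventually.of_forall fun h => ?_)
    by_cases hh : h ∈ C⁻¹ * C'
    · rw [Set.indicator_of_mem hh]
      exact hc h y
    · rw [Set.indicator_of_notMem hh, Th_supp63 μ B κ κ' hκ hκ' hh, norm_zero]
  refine h1.trans (le_of_eq ?_)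
  rw [integral_indicator_const _ hD.measurableSet, smul_eq_mul, mul_assoc]

private theorem adj_tau63 (F F₁ : Sec geo (lam μ)) (x : H) :
    ContinuousLinearMap.adjoint (tau B F) (tau B F₁ x) = B.Xi (fun g => inner ℂ ((F : 𝔾 → Lp ℂ 2 μ) g) ((F₁ : 𝔾 → Lp ℂ 2 μ) g)) x := by
  refine ext_inner_left ℂ fun x' => ?_
  rw [ContinuousLinearMap.adjoint_inner_right, inner_tau]

private theorem Th_tau63 (κ κ' : Kap geo) (h : 𝕊) (F₁ F₂ : Sec geo (lam μ)) (x x' : H) :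
    (inner ℂ (tau B F₂ x') (Th63 μ B κ κ' h (tau B F₁ x)) : ℂ) =
      inner ℂ x' (B.Xi (fun g => inner ℂ ((F₂ : 𝔾 → Lp ℂ 2 μ) g)
        ((mulK μ (κ.mul (κ'.tr h).conj)).O g (rt μ h ((F₁ : 𝔾 → Lp ℂ 2 μ) g)))) x) := by
  unfold Th63
  rw [WW_apply, push, mulF_tau, mulF_tau, inner_tau]
  rfl

/-- the rank one fields -/
private theorem rank0_63 (κ κ' : Kap geo) {C C' : Set 𝕊} (hC : IsCompact C) (hC' : IsCompact C') (hκ : κ.IsC C) (hκ' : κ'.IsC C')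
    (y : Kt B (lam μ)) :
    tau B (secK μ κ hC hκ) (ContinuousLinearMap.adjoint (tau B (secK μ κ' hC' hκ')) y) = ∫ h, Th63 μ B κ κ' h y ∂μ := by
  obtain ⟨R, hR⟩ := exists_R63 μ B κ κ' hC hC' hκ hκ'
  have hmain : (tau B (secK μ κ hC hκ)).comp (ContinuousLinearMap.adjoint (tau B (secK μ κ' hC' hκ'))) = R := by
    refine ext_tot (tot_tau B (lam μ)) fun p => sub_eq_zero.1 (tot_tau B (lam μ) _ fun q => ?_)
    obtain ⟨F₁, x⟩ := p
    obtain ⟨F₂, x'⟩ := q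
    rw [inner_sub_right, sub_eq_zero]
    change (inner ℂ (tau B F₂ x') (tau B (secK μ κ hC hκ) (ContinuousLinearMap.adjoint (tau B (secK μ κ' hC' hκ')) (tau B F₁ x))) : ℂ) =
      inner ℂ (tau B F₂ x') (R (tau B F₁ x))
    have hY1 := Sec.inner_yf F₂ (secK μ κ hC hκ)
    have hY2 := Sec.inner_yf (secK μ κ' hC' hκ') F₁
    rw [adj_tau63, inner_tau, B.Xi_mul_left hY1 hY2.bf, hR, ← integral_inner (Th_int63 μ B κ κ' hC hC' hκ hκ' _)]
    simp_rw [Th_tau63]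
    symm
    refine Xi_int63 μ B (fun h g => inner ℂ ((F₂ : 𝔾 → Lp ℂ 2 μ) g)
        ((mulK μ (κ.mul (κ'.tr h).conj)).O g (rt μ h ((F₁ : 𝔾 → Lp ℂ 2 μ) g)))) ?_ (fun h => ?_)
        (hC.inv.mul hC') (fun h hh g => ?_) _ (Yf_mul63 hY1 hY2) (fun g => ?_) x x'
    · have h1 : (fun p : 𝕊 × 𝔾 => (inner ℂ ((F₂ : 𝔾 → Lp ℂ 2 μ) p.2)
          ((mulK μ (κ.mul (κ'.tr p.1).conj)).O p.2 (rt μ p.1 ((F₁ : 𝔾 → Lp ℂ 2 μ) p.2))) : ℂ)) =
          fun p => inner ℂ ((mulK μ κ.conj).O p.2 ((F₂ : 𝔾 → Lp ℂ 2 μ) p.2))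
            (rt μ p.1 ((mulK μ κ'.conj).O p.2 ((F₁ : 𝔾 → Lp ℂ 2 μ) p.2))) := by
        funext p
        rw [mulK_mul63, mulK_adj63]
        congr 1
        exact mulK_rt63 μ κ'.conj p.1 p.2 _
      rw [h1]
      exact (((mulK μ κ.conj).cont2 F₂.2.1).comp continuous_snd).inner
        (rtc63 μ continuous_fst (((mulK μ κ'.conj).cont2 F₁.2.1).comp continuous_snd))
    · exact Sec.inner_yf F₂ ((mulK μ (κ.mul (κ'.tr h).conj)).ap ((Fd.const (rt_itw μ h)).ap F₁))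
    · have h1 : ‖(mulK μ (κ.mul (κ'.tr h).conj)).O g‖ ≤ 0 :=
        norm_mulK μ _ le_rfl (fun g s => by rw [supp63 κ κ' hκ hκ' hh, norm_zero]) g
      have h2 : (mulK μ (κ.mul (κ'.tr h).conj)).O g = 0 := norm_le_zero_iff.1 h1
      rw [h2]
      exact inner_zero_right _
    · exact inner_int63 μ κ κ' hC hC' hκ hκ' g _ _
  rw [← hR, ← hmain]
  rfl

end D63


section J

variable (B : BD geo G S' H U)

theorem rank1 (κ κ' : Kap geo) {C C' : Set 𝕊} (hC : IsCompact C) (hC' : IsCompact C') (hκ : κ.IsC C) (hκ' : κ'.IsC C')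
    (y y' : Kt B (lam μ)) :
    (inner ℂ y' (tau B (secK μ κ hC hκ) (ContinuousLinearMap.adjoint (tau B (secK μ κ' hC' hκ')) y)) : ℂ) =
      ∫ h, inner ℂ y' (mulF B (mulK μ (κ.mul (κ'.tr h).conj)) (WW μ B h y)) ∂μ := by
  rw [rank0_63 μ B κ κ' hC hC' hκ hκ', ← integral_inner (Th_int63 μ B κ κ' hC hC' hκ hκ' _)]
  rfl

theorem JJ_rank1 {Y : Kt B (lam μ) →L[ℂ] Kt B (lam μ)} (hY : Y ∈ JJ μ B) (hW : ∀ h y, Y (WW μ B h y) = WW μ B h (Y y))
    (κ κ' : Kap geo) {C C' : Set 𝕊} (hC : IsCompact C) (hC' : IsCompact C') (hκ : κ.IsC C) (hκ' : κ'.IsC C') (y : Kt B (lam μ)) :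
    Y (tau B (secK μ κ hC hκ) (ContinuousLinearMap.adjoint (tau B (secK μ κ' hC' hκ')) y)) =
      tau B (secK μ κ hC hκ) (ContinuousLinearMap.adjoint (tau B (secK μ κ' hC' hκ')) (Y y)) := by
  rw [rank0_63 μ B κ κ' hC hC' hκ hκ', rank0_63 μ B κ κ' hC hC' hκ hκ',
    ← ContinuousLinearMap.integral_comp_comm Y (Th_int63 μ B κ κ' hC hC' hκ hκ' _)]
  refine integral_congr_ae (Eventually.of_forall fun h => ?_)
  change Y (mulF B (mulK μ (κ.mul (κ'.tr h).conj)) (WW μ B h y)) = mulF B (mulK μ (κ.mul (κ'.tr h).conj)) (WW μ B h (Y y))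
  rw [((mem_JJ μ B).1 hY).2.2, hW]

/-- a left invariant function with compact support -/
private theorem exists_w63 (hK : IsCompact (𝕂 : Set 𝕊)) : ∃ w : 𝕊 → ℂ, Continuous w ∧ (∀ k ∈ 𝕂, ∀ s, w (k * s) = w s) ∧
    (∃ C : ℝ, 0 ≤ C ∧ ∀ s, ‖w s‖ ≤ C) ∧ (∃ D : Set 𝕊, IsCompact D ∧ ∀ s, s ∉ D → w s = 0) ∧
    ∫ s, (starRingEnd ℂ) (w s) * w s ∂μ = 1 := by
  obtain ⟨φ, h1, h2, h3⟩ := exists_continuous_nonneg_pos (1 : 𝕊)
  set u : 𝕊 → ℝ := fun s => sSup ((fun k => φ (k * s)) '' (𝕂 : Set 𝕊)) with hu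
  have huc : Continuous u := by
    refine IsCompact.continuous_sSup (f := fun s k => φ (k * s)) hK ?_
    exact φ.continuous.comp (continuous_snd.mul continuous_fst)
  have hne : ((𝕂 : Set 𝕊)).Nonempty := ⟨1, 𝕂.one_mem⟩
  have huK : ∀ k ∈ 𝕂, ∀ s, u (k * s) = u s := by
    intro k hk s
    have h4 : (fun k' => φ (k' * (k * s))) '' (𝕂 : Set 𝕊) = (fun k' => φ (k' * s)) '' (𝕂 : Set 𝕊) := by
      ext t
      constructor
      · rintro ⟨k', hk', rfl⟩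
        exact ⟨k' * k, 𝕂.mul_mem hk' hk, by simp only [mul_assoc]⟩
      · rintro ⟨k', hk', rfl⟩
        refine ⟨k' * k⁻¹, 𝕂.mul_mem hk' (𝕂.inv_mem hk), ?_⟩
        simp only
        congr 1
        group
    change sSup ((fun k' => φ (k' * (k * s))) '' (𝕂 : Set 𝕊)) = _
    rw [h4]
  have hD : IsCompact ((𝕂 : Set 𝕊) * tsupport φ) := hK.mul h1
  have huD : ∀ s, s ∉ (𝕂 : Set 𝕊) * tsupport φ → u s = 0 := by
    intro s hs
    have h4 : ∀ k ∈ (𝕂 : Set 𝕊), φ (k * s) = 0 := by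
      intro k hk
      refine image_eq_zero_of_notMem_tsupport fun h5 => hs ⟨k⁻¹, 𝕂.inv_mem hk, k * s, h5, ?_⟩
      exact inv_mul_cancel_left k s
    have h5 : (fun k' => φ (k' * s)) '' (𝕂 : Set 𝕊) = {0} := by
      ext t
      constructor
      · rintro ⟨k', hk', rfl⟩
        exact h4 k' hk'
      · rintro rfl
        exact ⟨1, 𝕂.one_mem, h4 1 𝕂.one_mem⟩
    change sSup ((fun k' => φ (k' * s)) '' (𝕂 : Set 𝕊)) = 0
    rw [h5, csSup_singleton]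
  have hbdd : ∀ s, BddAbove ((fun k' => φ (k' * s)) '' (𝕂 : Set 𝕊)) := fun s =>
    hK.bddAbove_image (φ.continuous.comp (continuous_id.mul continuous_const)).continuousOn
  have hu1 : 0 < u 1 := by
    have h4 : φ 1 ≤ u 1 := le_csSup (hbdd 1) ⟨1, 𝕂.one_mem, by simp⟩
    have h5 : 0 < φ 1 := lt_of_le_of_ne (h2 1) (Ne.symm h3)
    exact h5.trans_le h4
  have hus : HasCompactSupport u := HasCompactSupport.intro hD huD
  have husq : HasCompactSupport fun s => u s ^ 2 := HasCompactSupport.intro hD fun s hs => by rw [huD s hs]; norm_num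
  set c : ℝ := ∫ s, u s ^ 2 ∂μ with hc
  have hc0 : 0 < c := (huc.pow 2).integral_pos_of_hasCompactSupport_nonneg_nonzero husq (fun s => sq_nonneg _)
    (x := 1) (pow_ne_zero 2 hu1.ne')
  obtain ⟨M, hM⟩ := hus.exists_bound_of_continuous huc
  refine ⟨fun s => ((u s / √c : ℝ) : ℂ), Complex.continuous_ofReal.comp (huc.div_const _), fun k hk s => by
    simp only; rw [huK k hk], ⟨|M| / √c, by positivity, fun s => ?_⟩, ⟨_, hD, fun s hs => by
    simp only; rw [huD s hs]; simp⟩, ?_⟩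
  · rw [Complex.norm_real, norm_div, Real.norm_of_nonneg (Real.sqrt_nonneg c)]
    exact div_le_div_of_nonneg_right ((hM s).trans (le_abs_self M)) (Real.sqrt_nonneg c)
  · have h4 : ∀ s, (starRingEnd ℂ) ((u s / √c : ℝ) : ℂ) * ((u s / √c : ℝ) : ℂ) = ((u s ^ 2 / c : ℝ) : ℂ) := by
      intro s
      rw [Complex.conj_ofReal, ← Complex.ofReal_mul]
      congr 1
      rw [div_mul_div_comm, Real.mul_self_sqrt hc0.le, sq]
    simp_rw [h4]
    rw [integral_complex_ofReal, integral_div, ← hc, div_self hc0.ne', Complex.ofReal_one]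

private theorem norm_tau63 (F : Sec geo (lam μ)) {c : ℝ} (hc : 0 ≤ c) (hF : ∀ g, ‖(F : 𝔾 → Lp ℂ 2 μ) g‖ ≤ c) (x : H) :
    ‖tau B F x‖ ≤ c * ‖x‖ := by
  have h2 : ((‖tau B F x‖ ^ 2 : ℝ) : ℂ) =
      inner ℂ x (B.Xi (fun g => inner ℂ ((F : 𝔾 → Lp ℂ 2 μ) g) ((F : 𝔾 → Lp ℂ 2 μ) g)) x) := by
    rw [← inner_tau, inner_self_eq_norm_sq_to_K]
    norm_cast
  have h3 : ‖tau B F x‖ ^ 2 = ‖(inner ℂ x (B.Xi (fun g => inner ℂ ((F : 𝔾 → Lp ℂ 2 μ) g) ((F : 𝔾 → Lp ℂ 2 μ) g)) x) : ℂ)‖ := by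
    rw [← h2, Complex.norm_real, Real.norm_of_nonneg (by positivity)]
  have h4 : ∀ g, ‖(inner ℂ ((F : 𝔾 → Lp ℂ 2 μ) g) ((F : 𝔾 → Lp ℂ 2 μ) g) : ℂ)‖ ≤ c * c := fun g =>
    (norm_inner_le_norm _ _).trans (mul_le_mul (hF g) (hF g) (norm_nonneg _) hc)
  have h5 := B.Xi_norm (Sec.inner_yf F F).bf h4 x
  have h1 : ‖tau B F x‖ ^ 2 ≤ (c * ‖x‖) ^ 2 := by
    rw [h3]
    calc _ ≤ ‖x‖ * ‖B.Xi (fun g => inner ℂ ((F : 𝔾 → Lp ℂ 2 μ) g) ((F : 𝔾 → Lp ℂ 2 μ) g)) x‖ := norm_inner_le_norm _ _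
      _ ≤ ‖x‖ * (c * c * ‖x‖) := by gcongr
      _ = _ := by ring
  exact (sq_le_sq₀ (norm_nonneg _) (by positivity)).1 h1

/-- The fixed points of `𝕊` in `JJ` are scalars. -/
theorem erg_JJ [LocallyCompactSpace 𝔾] [T2Space 𝔾] (hQ : IsClosed (geo.Q : Set 𝔾)) (hK : IsCompact (𝕂 : Set 𝕊))
    {Y : Kt B (lam μ) →L[ℂ] Kt B (lam μ)} (hY : Y ∈ JJ μ B)
    (hW : ∀ h y, Y (WW μ B h y) = WW μ B h (Y y)) : ∃ z : ℂ, ∀ y, Y y = z • y := by
  obtain ⟨w, hw, hwK, hwb, ⟨D, hD, hwD⟩, hw1⟩ := exists_w63 μ hK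
  set κ₀ : Kap geo := kapO w hw hwK hwb with hκ₀
  have hκD : κ₀.IsC D := kapO_isC w hw hwK hwb hwD
  set F₀ : Sec geo (lam μ) := secK μ κ₀ hD hκD with hF₀
  have hone : ∀ x, ContinuousLinearMap.adjoint (tau B F₀) (tau B F₀ x) = x := by
    intro x
    rw [adj_tau63]
    have h1 : (fun g => (inner ℂ ((F₀ : 𝔾 → Lp ℂ 2 μ) g) ((F₀ : 𝔾 → Lp ℂ 2 μ) g) : ℂ)) = fun _ => 1 := by
      funext g
      rw [L2.inner_def, ← hw1, ← integral_mul_left_eq_self (μ := μ) (fun s => (starRingEnd ℂ) (w s) * w s) (geo.nb (geo.r g))]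
      refine integral_congr_ae ?_
      filter_upwards [secK_apply μ κ₀ hD hκD g] with s hs
      rw [hs, RCLike.inner_apply, mul_comm]
      rfl
    rw [h1, B.Xi_apply, B.E_one]
    refine ext_inner_left ℂ fun x' => ?_
    rw [ContinuousLinearMap.adjoint_inner_right]
    exact B.T.inner_map_map x' x
  set y₀ : H →L[ℂ] H := (ContinuousLinearMap.adjoint (tau B F₀)).comp (Y.comp (tau B F₀)) with hy₀
  have hs1 : ∀ (κ : Kap geo) {C : Set 𝕊} (hC : IsCompact C) (hκ : κ.IsC C) (x : H),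
      Y (tau B (secK μ κ hC hκ) x) = tau B (secK μ κ hC hκ) (y₀ x) := by
    intro κ C hC hκ x
    have h1 := JJ_rank1 μ B hY hW κ κ₀ hC hD hκ hκD (tau B F₀ x)
    rw [← hF₀, hone] at h1
    exact h1
  have hs2 : ∀ (F : Sec geo (lam μ)) (x : H), Y (tau B F x) = tau B F (y₀ x) := by
    intro F x
    have hsp : ∀ F' ∈ Submodule.span ℂ {F' : Sec geo (lam μ) | ∃ (κ : Kap geo) (C : Set 𝕊) (hC : IsCompact C) (hκ : κ.IsC C),
        F' = secK μ κ hC hκ}, Y (tau B F' x) = tau B F' (y₀ x) := by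
      intro F' hF'
      refine Submodule.span_induction ?_ ?_ ?_ ?_ hF'
      · rintro F' ⟨κ, C, hC, hκ, rfl⟩
        exact hs1 κ hC hκ x
      · have h0 : tau B (0 : Sec geo (lam μ)) = 0 := map_zero (kt B (lam μ)).τ
        rw [h0, zero_apply, zero_apply, map_zero]
      · intro F F' _ _ h h'
        rw [tau_add, add_apply, add_apply, map_add, h, h']
      · intro c F _ h
        rw [tau_smul, smul_apply, smul_apply, map_smul, h]
    refine eq_of_forall_dist_le fun ε hε => ?_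
    set M : ℝ := ‖Y‖ * ‖x‖ + ‖y₀ x‖ + 1 with hM
    have hM0 : 0 < M := by positivity
    obtain ⟨F', hF', hd⟩ := secK_dense μ hQ F (div_pos hε hM0)
    have h1 : ∀ u : H, ‖tau B F u - tau B F' u‖ ≤ ε / M * ‖u‖ := by
      intro u
      have h2 : tau B F u - tau B F' u = tau B (F - F') u := by
        have h3 : tau B (F - F') = tau B F - tau B F' := map_sub (kt B (lam μ)).τ F F'
        rw [h3]
        rfl
      rw [h2]
      exact norm_tau63 μ B (F - F') (div_pos hε hM0).le (fun g => hd g) u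
    rw [dist_eq_norm]
    have h4 : Y (tau B F x) - tau B F (y₀ x) = Y (tau B F x - tau B F' x) - (tau B F (y₀ x) - tau B F' (y₀ x)) := by
      rw [map_sub, hsp F' hF']
      abel
    rw [h4]
    calc ‖Y (tau B F x - tau B F' x) - (tau B F (y₀ x) - tau B F' (y₀ x))‖
        ≤ ‖Y (tau B F x - tau B F' x)‖ + ‖tau B F (y₀ x) - tau B F' (y₀ x)‖ := norm_sub_le _ _
      _ ≤ ‖Y‖ * (ε / M * ‖x‖) + ε / M * ‖y₀ x‖ := by
          refine add_le_add ((Y.le_opNorm _).trans (mul_le_mul_of_nonneg_left (h1 x) (norm_nonneg _))) (h1 _)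
      _ = ε / M * (M - 1) := by rw [hM]; ring
      _ ≤ ε / M * M := mul_le_mul_of_nonneg_left (by linarith) (div_pos hε hM0).le
      _ = ε := div_mul_cancel₀ _ hM0.ne'
  have hinj : ∀ a b : H, tau B F₀ a = tau B F₀ b → a = b := by
    intro a b h
    rw [← hone a, h, hone]
  have hyW : ∀ (k : G) (x : H), y₀ (B.W k x) = B.W k (y₀ x) := by
    intro k x
    refine hinj _ _ ?_
    have h1 : ∀ u : H, tau B F₀ (B.W k u) = WK B (lam μ) k (tau B (act B (lam μ) k⁻¹ F₀) u) := by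
      intro u
      rw [WK_tau]
      congr 1
      congr 1
      refine Subtype.ext (funext fun g => ?_)
      rw [act_apply, act_apply, map_inv, inv_inv, mul_inv_cancel_left]
    rw [← hs2, h1, ((mem_JJ μ B).1 hY).1, hs2, ← h1]
  have hyC : ∀ c ∈ B.CC, ∀ x, y₀ (c.1 x) = c.1 (y₀ x) := by
    intro c hc x
    refine hinj _ _ ?_
    rw [← hs2, ← lift_tau B (lam μ) (B.cphi_CC hc), ((mem_JJ μ B).1 hY).2.1 c hc, hs2, lift_tau B (lam μ) (B.cphi_CC hc)]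
  obtain ⟨z, hz⟩ := B.erg y₀ hyW hyC
  refine ⟨z, fun y => ?_⟩
  have hfin : Y = z • ContinuousLinearMap.id ℂ (Kt B (lam μ)) := by
    refine ext_tot (tot_tau B (lam μ)) fun p => ?_
    rw [hs2, hz, map_smul]
    rfl
  rw [hfin]
  rfl

end J

end Pool.Agent.Helper35.FP
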