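import Pool.Agent.Helper35.FP.JK

/-!
# Project TZ, block JB: integrable elements of the Levi algebra

`w : 𝕊 → ℂ` bounded continuous with `w (k s) = w s` for `k ∈ 𝕂`. `mw w`: multiplication by `w` on `L²(𝕊)`, commutes with `𝕂` (`ItK`). `aw w = XiA (mw w)`; `aw_JJ`: `XiA_WK`, `XiA_lift`, `XiA_mulF` (`mw w` commutes with `mulK κ`, the adjoint
field is `mulK κ.conj`). `WW_aw`: `WW h (aw w) WW h⁻¹ = aw (w (· h))` (`XiA_push`, `push_XiA`). `norm_aw_sub`: `‖aw w - aw w'‖ ≤ sup ‖w - w'‖`.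
`lintegral_aw`: `‖aw (w (· h)) y‖² ≤ ⟪y, aw (|w|² (· h)) y⟫` (`XiA_sq`); `∫ |w (s h)|² dh = ‖w‖₂²`: for a compact set `C'` of `h` the operator `∫_{C'} aw (|w|² (· h)) dh` is `aw` of the function `s ↦ ∫_{C'} |w (s h)|² dh ≤ ‖w‖₂²` (both sides
on total vectors, or Riemann sums / `norm_aw_sub` and uniform continuity), hence `≤ ‖w‖₂²` by positivity (`XiA_pos`); then `C' ↑ 𝕊`.
`exists_aw_ne`: `w n → 1`, `XiA_lim`, `XiA_id`.
-/

set_option autoImplicit false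
set_option linter.unusedSectionVars false

open Filter Topology MeasureTheory

namespace Pool.Agent.Helper35.FP

variable {𝔾 𝕊 : Type} [Group 𝔾] [TopologicalSpace 𝔾] [IsTopologicalGroup 𝔾] [Group 𝕊] [TopologicalSpace 𝕊] [IsTopologicalGroup 𝕊]
  {𝕂 : Subgroup 𝕊} {geo : Geo 𝔾 𝕊 𝕂} {G S' H U : Type} [Group G] [Group S'] [TopologicalSpace S'] [IsTopologicalGroup S']
  [NormedAddCommGroup H] [InnerProductSpace ℂ H] [CompleteSpace H]
  [NormedAddCommGroup U] [InnerProductSpace ℂ U] [CompleteSpace U]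

/-- Bounded continuous functions on `𝕂 \ 𝕊`. -/
structure KW (𝕂 : Subgroup 𝕊) where
  /-- the function -/
  w : 𝕊 → ℂ
  cont : Continuous w
  inv : ∀ k ∈ 𝕂, ∀ s, w (k * s) = w s
  bdd : ∃ C : ℝ, 0 ≤ C ∧ ∀ s, ‖w s‖ ≤ C

/-- Right translation. -/
def KW.tr (w : KW 𝕂) (h : 𝕊) : KW 𝕂 where
  w s := w.w (s * h)
  cont := w.cont.comp (continuous_mul_const h)
  inv k hk s := by rw [mul_assoc, w.inv k hk]
  bdd := by
    obtain ⟨C, h0, hC⟩ := w.bdd
    exact ⟨C, h0, fun s => hC _⟩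

variable [MeasurableSpace 𝕊] [BorelSpace 𝕊]
  [SecondCountableTopology 𝕊] [LocallyCompactSpace 𝕊] [T2Space 𝕊] (μ : Measure 𝕊) [μ.IsHaarMeasure] [μ.IsMulRightInvariant]

private theorem lam_apply82 (s : 𝕊) (f : Lp ℂ 2 μ) : ((lam μ).U s f : 𝕊 → ℂ) =ᵐ[μ] fun h => (f : 𝕊 → ℂ) (s⁻¹ * h) :=
  ind_apply μ (triv ℂ) s f

private theorem memLp82 {w : 𝕊 → ℂ} (hw : Continuous w) {C : ℝ} (hC : ∀ s, ‖w s‖ ≤ C) (f : Lp ℂ 2 μ) :
    MemLp (fun s => w s * (f : 𝕊 → ℂ) s) 2 μ :=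
  (Lp.memLp f).of_le_mul (hw.aestronglyMeasurable.mul (Lp.aestronglyMeasurable f)) (Eventually.of_forall fun s => by
    rw [norm_mul]
    exact mul_le_mul_of_nonneg_right (hC s) (norm_nonneg _))

private theorem ae_left82 {p : 𝕊 → Prop} (h : ∀ᵐ s ∂μ, p s) (t : 𝕊) : ∀ᵐ s ∂μ, p (t * s) :=
  (measurePreserving_mul_left μ t).quasiMeasurePreserving.ae h

theorem exists_mw (w : KW 𝕂) : ∃ A : Lp ℂ 2 μ →L[ℂ] Lp ℂ 2 μ, ItK 𝕂 (lam μ) (lam μ) A ∧
    (∀ f : Lp ℂ 2 μ, (A f : 𝕊 → ℂ) =ᵐ[μ] fun s => w.w s * (f : 𝕊 → ℂ) s) ∧ ∀ C : ℝ, 0 ≤ C → (∀ s, ‖w.w s‖ ≤ C) → ‖A‖ ≤ C := by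
  obtain ⟨C0, hC0, hC⟩ := w.bdd
  set A0 : Lp ℂ 2 μ →ₗ[ℂ] Lp ℂ 2 μ :=
    { toFun := fun f => (memLp82 μ w.cont hC f).toLp _
      map_add' := fun f g => by
        refine Lp.ext ?_
        filter_upwards [(memLp82 μ w.cont hC (f + g)).coeFn_toLp, (memLp82 μ w.cont hC f).coeFn_toLp,
          (memLp82 μ w.cont hC g).coeFn_toLp, Lp.coeFn_add f g,
          Lp.coeFn_add ((memLp82 μ w.cont hC f).toLp _) ((memLp82 μ w.cont hC g).toLp _)] with s h1 h2 h3 h4 h5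
        rw [h1, h5, Pi.add_apply, h2, h3, h4, Pi.add_apply, mul_add]
      map_smul' := fun c f => by
        refine Lp.ext ?_
        filter_upwards [(memLp82 μ w.cont hC (c • f)).coeFn_toLp, (memLp82 μ w.cont hC f).coeFn_toLp,
          Lp.coeFn_smul c f, Lp.coeFn_smul c ((memLp82 μ w.cont hC f).toLp _)] with s h1 h2 h3 h4
        rw [RingHom.id_apply, h1, h4, Pi.smul_apply, h2, h3, Pi.smul_apply, smul_eq_mul, smul_eq_mul]
        ring } with hA0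
  have key : ∀ f : Lp ℂ 2 μ, (A0 f : 𝕊 → ℂ) =ᵐ[μ] fun s => w.w s * (f : 𝕊 → ℂ) s := fun f =>
    (memLp82 μ w.cont hC f).coeFn_toLp
  have hn : ∀ C : ℝ, (∀ s, ‖w.w s‖ ≤ C) → ∀ f : Lp ℂ 2 μ, ‖A0 f‖ ≤ C * ‖f‖ := by
    intro C hC' f
    refine Lp.norm_le_mul_norm_of_ae_le_mul ?_
    filter_upwards [key f] with s hs
    rw [hs, norm_mul]
    exact mul_le_mul_of_nonneg_right (hC' s) (norm_nonneg _)
  refine ⟨A0.mkContinuous C0 (hn C0 hC), ?_, key, fun C h0 hC' => ContinuousLinearMap.opNorm_le_bound _ h0 (hn C hC')⟩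
  intro h hh f
  refine Lp.ext ?_
  filter_upwards [key ((lam μ).U h f), lam_apply82 μ h f, lam_apply82 μ h (A0 f), ae_left82 μ (key f) h⁻¹] with s h1 h2 h3 h4
  change (A0 ((lam μ).U h f) : 𝕊 → ℂ) s = ((lam μ).U h (A0 f) : 𝕊 → ℂ) s
  rw [h1, h2, h3, h4, w.inv h⁻¹ (𝕂.inv_mem hh)]



/-- Multiplication by `w`. -/
noncomputable def mw (w : KW 𝕂) : Lp ℂ 2 μ →L[ℂ] Lp ℂ 2 μ := (exists_mw μ w).choose

theorem mw_ItK (w : KW 𝕂) : ItK 𝕂 (lam μ) (lam μ) (mw μ w) := (exists_mw μ w).choose_spec.1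

theorem mw_apply (w : KW 𝕂) (f : Lp ℂ 2 μ) : (mw μ w f : 𝕊 → ℂ) =ᵐ[μ] fun s => w.w s * (f : 𝕊 → ℂ) s :=
  (exists_mw μ w).choose_spec.2.1 f

theorem norm_mw (w : KW 𝕂) {C : ℝ} (h0 : 0 ≤ C) (hC : ∀ s, ‖w.w s‖ ≤ C) : ‖mw μ w‖ ≤ C := (exists_mw μ w).choose_spec.2.2 C h0 hC

private theorem ae_right82 {p : 𝕊 → Prop} (h : ∀ᵐ s ∂μ, p s) (t : 𝕊) : ∀ᵐ s ∂μ, p (s * t) :=
  (measurePreserving_mul_right μ t).quasiMeasurePreserving.ae h

private theorem norm_sq82 (g : Lp ℂ 2 μ) : ‖g‖ ^ 2 = ∫ s, ‖(g : 𝕊 → ℂ) s‖ ^ 2 ∂μ := by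
  have h1 : ((‖g‖ ^ 2 : ℝ) : ℂ) = ((∫ s, ‖(g : 𝕊 → ℂ) s‖ ^ 2 ∂μ : ℝ) : ℂ) := by
    have h2 : ((‖g‖ ^ 2 : ℝ) : ℂ) = inner ℂ g g := by
      rw [inner_self_eq_norm_sq_to_K]
      push_cast
      rfl
    rw [h2, L2.inner_def, ← integral_complex_ofReal]
    refine integral_congr_ae (Eventually.of_forall fun s => ?_)
    change inner ℂ ((g : 𝕊 → ℂ) s) ((g : 𝕊 → ℂ) s) = ((‖(g : 𝕊 → ℂ) s‖ ^ 2 : ℝ) : ℂ)
    rw [inner_self_eq_norm_sq_to_K]
    push_cast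
    rfl
  exact_mod_cast h1

private theorem XiA_congr82 {B : BD geo G S' H U} {A A' : Lp ℂ 2 μ →L[ℂ] Lp ℂ 2 μ} (h : A = A') (hA : ItK 𝕂 (lam μ) (lam μ) A)
    (hA' : ItK 𝕂 (lam μ) (lam μ) A') : XiA B hA = XiA B hA' := by
  subst h
  rfl

/-- `|w|²`. -/
private noncomputable def sqK82 (w : KW 𝕂) : KW 𝕂 where
  w s := ((‖w.w s‖ ^ 2 : ℝ) : ℂ)
  cont := Complex.continuous_ofReal.comp (w.cont.norm.pow 2)
  inv k hk s := by rw [w.inv k hk]
  bdd := by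
    obtain ⟨C, h0, hC⟩ := w.bdd
    exact ⟨C ^ 2, by positivity, fun s => by
      rw [Complex.norm_real, Real.norm_of_nonneg (by positivity)]
      exact pow_le_pow_left₀ (norm_nonneg _) (hC s) 2⟩

private theorem sqK_cpt82 {w : KW 𝕂} (hw : HasCompactSupport w.w) : HasCompactSupport (sqK82 w).w := by
  refine HasCompactSupport.intro (K := tsupport w.w) hw fun s hs => ?_
  change ((‖w.w s‖ ^ 2 : ℝ) : ℂ) = 0
  rw [image_eq_zero_of_notMem_tsupport hs]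
  simp

private theorem unif82 {v : 𝕊 → ℂ} (hv : Continuous v) (hc : HasCompactSupport v) {ε : ℝ} (hε : 0 < ε) :
    ∀ᶠ u in 𝓝 (1 : 𝕊), ∀ s, ‖v (s * u) - v s‖ ≤ ε := by
  have h1 : ∀ᶠ u in 𝓝 (1 : 𝕊), ∀ s ∈ tsupport v, ‖v (s * u) - v s‖ ≤ ε := by
    refine IsCompact.eventually_forall_of_forall_eventually (hc : IsCompact (tsupport v)) fun s _ => ?_
    have h2 : Continuous fun z : 𝕊 × 𝕊 => ‖v (z.2 * z.1) - v z.2‖ :=
      ((hv.comp (continuous_snd.mul continuous_fst)).sub (hv.comp continuous_snd)).norm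
    have h3 : ‖v (s * 1) - v s‖ < ε := by
      rw [mul_one, sub_self, norm_zero]
      exact hε
    exact ((h2.tendsto ((1 : 𝕊), s)).eventually (gt_mem_nhds h3)).mono fun z hz => le_of_lt hz
  have h4 : ∀ᶠ u in 𝓝 (1 : 𝕊), ∀ s ∈ tsupport v, ‖v (s * u⁻¹) - v s‖ ≤ ε := by
    have h5 : Tendsto (fun u : 𝕊 => u⁻¹) (𝓝 1) (𝓝 1) := by
      have := continuous_inv.tendsto (1 : 𝕊)
      rwa [inv_one] at this
    exact h5.eventually h1
  filter_upwards [h1, h4] with u hu hu' s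
  by_cases hs : s ∈ tsupport v
  · exact hu s hs
  · by_cases hs' : s * u ∈ tsupport v
    · have := hu' _ hs'
      rw [mul_inv_cancel_right] at this
      rwa [norm_sub_rev]
    · rw [image_eq_zero_of_notMem_tsupport hs, image_eq_zero_of_notMem_tsupport hs', sub_zero, norm_zero]
      exact hε.le

/-- The Banach space of the invariant bounded continuous functions. -/
private def XK82 (𝕂 : Subgroup 𝕊) : Submodule ℂ (BoundedContinuousFunction 𝕊 ℂ) where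
  carrier := {φ | ∀ k ∈ 𝕂, ∀ s, φ (k * s) = φ s}
  add_mem' := fun {φ ψ} h h' k hk s => by
    rw [BoundedContinuousFunction.add_apply, BoundedContinuousFunction.add_apply, h k hk, h' k hk]
  zero_mem' := fun k _ s => rfl
  smul_mem' := fun c φ h k hk s => by
    rw [BoundedContinuousFunction.smul_apply, BoundedContinuousFunction.smul_apply, h k hk]

private instance complete82 : CompleteSpace (XK82 𝕂) := by
  have h1 : IsClosed (XK82 𝕂 : Set (BoundedContinuousFunction 𝕊 ℂ)) := by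
    have h2 : (XK82 𝕂 : Set (BoundedContinuousFunction 𝕊 ℂ)) =
        ⋂ k ∈ (𝕂 : Set 𝕊), ⋂ s : 𝕊, {φ : BoundedContinuousFunction 𝕊 ℂ | φ (k * s) = φ s} := by
      ext φ
      rw [Set.mem_iInter₂]
      constructor
      · intro h k hk
        exact Set.mem_iInter.2 fun s => h k hk s
      · intro h k hk s
        exact Set.mem_iInter.1 (h k hk) s
    rw [h2]
    exact isClosed_biInter fun k _ => isClosed_iInter fun s =>
      isClosed_eq (BoundedContinuousFunction.evalCLM ℂ (k * s)).continuous (BoundedContinuousFunction.evalCLM ℂ s).continuous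
  exact h1.completeSpace_coe

private noncomputable def ofX82 (φ : XK82 𝕂) : KW 𝕂 where
  w := φ.1
  cont := φ.1.continuous
  inv := φ.2
  bdd := ⟨‖φ.1‖, norm_nonneg _, φ.1.norm_coe_le_norm⟩

private noncomputable def toX82 (w : KW 𝕂) : XK82 𝕂 :=
  ⟨BoundedContinuousFunction.ofNormedAddCommGroup w.w w.cont w.bdd.choose w.bdd.choose_spec.2, w.inv⟩

private theorem ofX_toX82 (w : KW 𝕂) : ofX82 (toX82 w) = w := rfl

private theorem toX_cont82 {v : KW 𝕂} (hc : HasCompactSupport v.w) : Continuous fun h => toX82 (v.tr h) := by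
  rw [continuous_iff_continuousAt]
  intro h0
  rw [Metric.continuousAt_iff']
  intro ε hε
  have h1 := unif82 v.cont hc (half_pos hε)
  have h2 : Tendsto (fun h : 𝕊 => h0⁻¹ * h) (𝓝 h0) (𝓝 1) := by
    have := (continuous_const_mul h0⁻¹).tendsto h0
    rwa [inv_mul_cancel] at this
  filter_upwards [h2.eventually h1] with h hh
  rw [Subtype.dist_eq, dist_eq_norm]
  refine lt_of_le_of_lt ?_ (half_lt_self hε)
  rw [BoundedContinuousFunction.norm_le (half_pos hε).le]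
  intro s
  have h3 := hh (s * h0)
  rw [mul_assoc, mul_inv_cancel_left] at h3
  exact h3

open Pointwise in
private theorem exists_kw82 (hK : IsCompact (𝕂 : Set 𝕊)) {K0 : Set 𝕊} (hK0 : IsCompact K0) :
    ∃ w : KW 𝕂, HasCompactSupport w.w ∧ (∀ s ∈ K0, w.w s = 1) ∧ (∀ s, ‖w.w s‖ ≤ 1) ∧ ∀ s, ‖w.w s - 1‖ ≤ 1 := by
  obtain ⟨φ, h1, -, h3, h4⟩ := exists_continuous_one_zero_of_isCompact hK0 isClosed_empty (Set.disjoint_empty _)
  set f : 𝕊 → 𝕊 → ℝ := fun s k => φ (k * s) with hf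
  have hfc : Continuous (Function.HasUncurry.uncurry f) := φ.continuous.comp (continuous_snd.mul continuous_fst)
  set g : 𝕊 → ℝ := fun s => sSup (f s '' (𝕂 : Set 𝕊)) with hg
  have hgc : Continuous g := hK.continuous_sSup hfc
  have hne : ∀ s, (f s '' (𝕂 : Set 𝕊)).Nonempty := fun s => ⟨_, 1, 𝕂.one_mem, rfl⟩
  have hbd : ∀ s, BddAbove (f s '' (𝕂 : Set 𝕊)) := fun s => ⟨1, by
    rintro _ ⟨k, -, rfl⟩
    exact (h4 _).2⟩
  have hg1 : ∀ s, g s ≤ 1 := fun s => csSup_le (hne s) (by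
    rintro _ ⟨k, -, rfl⟩
    exact (h4 _).2)
  have hg2 : ∀ s, ∀ k ∈ 𝕂, φ (k * s) ≤ g s := fun s k hk => le_csSup (hbd s) ⟨k, hk, rfl⟩
  have hg0 : ∀ s, 0 ≤ g s := fun s => (h4 _).1.trans (hg2 s 1 𝕂.one_mem)
  have hinv : ∀ k ∈ 𝕂, ∀ s, g (k * s) = g s := by
    intro k hk s
    have h5 : f (k * s) '' (𝕂 : Set 𝕊) = f s '' (𝕂 : Set 𝕊) := by
      ext x
      constructor
      · rintro ⟨k', hk', rfl⟩
        exact ⟨k' * k, 𝕂.mul_mem hk' hk, by
          change φ (k' * k * s) = φ (k' * (k * s))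
          rw [mul_assoc]⟩
      · rintro ⟨k', hk', rfl⟩
        exact ⟨k' * k⁻¹, 𝕂.mul_mem hk' (𝕂.inv_mem hk), by
          change φ (k' * k⁻¹ * (k * s)) = φ (k' * s)
          rw [mul_assoc, inv_mul_cancel_left]⟩
    change sSup _ = sSup _
    rw [h5]
  refine ⟨⟨fun s => (g s : ℂ), Complex.continuous_ofReal.comp hgc, fun k hk s => by rw [hinv k hk], 1, zero_le_one, fun s => by
    rw [Complex.norm_real, Real.norm_of_nonneg (hg0 s)]
    exact hg1 s⟩, ?_, ?_, ?_, ?_⟩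
  · refine HasCompactSupport.intro (K := (𝕂 : Set 𝕊) * tsupport φ) (hK.mul h3) fun s hs => ?_
    change (g s : ℂ) = 0
    have h5 : g s ≤ 0 := csSup_le (hne s) (by
      rintro _ ⟨k, hk, rfl⟩
      change φ (k * s) ≤ 0
      have h7 : φ (k * s) = 0 := image_eq_zero_of_notMem_tsupport fun h6 =>
        hs (Set.mem_mul.2 ⟨k⁻¹, 𝕂.inv_mem hk, k * s, h6, inv_mul_cancel_left k s⟩)
      exact h7.le)
    rw [le_antisymm h5 (hg0 s), Complex.ofReal_zero]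
  · intro s hs
    change (g s : ℂ) = 1
    have h5 := hg2 s 1 𝕂.one_mem
    rw [one_mul, h1 hs] at h5
    rw [le_antisymm (hg1 s) h5, Complex.ofReal_one]
  · intro s
    change ‖(g s : ℂ)‖ ≤ 1
    rw [Complex.norm_real, Real.norm_of_nonneg (hg0 s)]
    exact hg1 s
  · intro s
    change ‖(g s : ℂ) - 1‖ ≤ 1
    rw [← Complex.ofReal_one, ← Complex.ofReal_sub, Complex.norm_real, Real.norm_eq_abs, abs_le]
    exact ⟨by linarith [hg0 s], by linarith [hg1 s]⟩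

private theorem mw_tendsto82 (w : ℕ → KW 𝕂) (h1 : ∀ s, ∀ᶠ n in atTop, (w n).w s = 1) (h2 : ∀ n s, ‖(w n).w s - 1‖ ≤ 1)
    (f : Lp ℂ 2 μ) : Tendsto (fun n => mw μ (w n) f) atTop (𝓝 f) := by
  have h3 : ∀ n, ‖mw μ (w n) f - f‖ ^ 2 = ∫ s, ‖((w n).w s - 1) * (f : 𝕊 → ℂ) s‖ ^ 2 ∂μ := by
    intro n
    rw [norm_sq82]
    refine integral_congr_ae ?_
    filter_upwards [Lp.coeFn_sub (mw μ (w n) f) f, mw_apply μ (w n) f] with s h4 h5
    rw [h4, Pi.sub_apply, h5, sub_mul, one_mul]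
  have hfi : Integrable (fun s => ‖(f : 𝕊 → ℂ) s‖ ^ 2) μ := by
    have := (Lp.memLp f).integrable_norm_pow (p := 2) (by norm_num)
    simpa using this
  have h4 : Tendsto (fun n => ∫ s, ‖((w n).w s - 1) * (f : 𝕊 → ℂ) s‖ ^ 2 ∂μ) atTop (𝓝 (∫ _s, (0 : ℝ) ∂μ)) := by
    refine tendsto_integral_of_dominated_convergence (fun s => ‖(f : 𝕊 → ℂ) s‖ ^ 2) (fun n => ?_) hfi (fun n => ?_) ?_
    · exact ((((w n).cont.sub continuous_const).aestronglyMeasurable.mul (Lp.aestronglyMeasurable f)).norm.pow 2)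
    · refine Eventually.of_forall fun s => ?_
      rw [Real.norm_of_nonneg (by positivity), norm_mul, mul_pow]
      have h5 : ‖(w n).w s - 1‖ ^ 2 ≤ 1 := pow_le_one₀ (norm_nonneg _) (h2 n s)
      exact mul_le_of_le_one_left (by positivity) h5
    · refine Eventually.of_forall fun s => ?_
      refine tendsto_const_nhds.congr' ?_
      filter_upwards [h1 s] with n hn
      rw [hn, sub_self, zero_mul, norm_zero]
      norm_num
  rw [integral_zero] at h4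
  rw [tendsto_iff_norm_sub_tendsto_zero]
  have h5 := (Real.continuous_sqrt.tendsto 0).comp h4
  rw [Real.sqrt_zero] at h5
  refine h5.congr fun n => ?_
  change √(∫ s, ‖((w n).w s - 1) * (f : 𝕊 → ℂ) s‖ ^ 2 ∂μ) = _
  rw [← h3 n, Real.sqrt_sq (norm_nonneg _)]

section J

variable (B : BD geo G S' H U)

/-- The element of the Levi algebra given by `w`. -/
noncomputable def aw (w : KW 𝕂) : Kt B (lam μ) →L[ℂ] Kt B (lam μ) := XiA B (mw_ItK μ w)

theorem aw_JJ (w : KW 𝕂) : aw μ B w ∈ JJ μ B := by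
  rw [mem_JJ]
  refine ⟨fun k y => XiA_WK B _ k y, fun c hc y => XiA_lift B _ hc y, fun κ y => ?_⟩
  refine XiA_mulF B _ (mulK μ κ) (mulK μ κ) (mulK μ κ.conj) (fun g f => ?_) (fun g f f' => ?_) y
  · refine Lp.ext ?_
    filter_upwards [mw_apply μ w ((mulK μ κ).O g f), mulK_apply μ κ g f, mulK_apply μ κ g (mw μ w f), mw_apply μ w f] with s h1 h2 h3 h4
    rw [h1, h2, h3, h4]
    ring
  · rw [L2.inner_def, L2.inner_def]
    refine integral_congr_ae ?_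
    filter_upwards [mulK_apply μ κ g f, mulK_apply μ κ.conj g f'] with s h1 h2
    rw [h1, h2, RCLike.inner_apply, RCLike.inner_apply, map_mul]
    change _ = (starRingEnd ℂ) (κ.k g s) * _ * _
    ring

theorem WW_aw (w : KW 𝕂) (h : 𝕊) (y : Kt B (lam μ)) : WW μ B h (aw μ B w y) = aw μ B (w.tr h) (WW μ B h y) := by
  have hcomp : ((rt μ h).toContinuousLinearEquiv : Lp ℂ 2 μ →L[ℂ] Lp ℂ 2 μ).comp (mw μ w) =
      (mw μ (w.tr h)).comp ((rt μ h).toContinuousLinearEquiv : Lp ℂ 2 μ →L[ℂ] Lp ℂ 2 μ) := by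
    refine ContinuousLinearMap.ext fun f => Lp.ext ?_
    filter_upwards [rt_apply μ h (mw μ w f), mw_apply μ (w.tr h) (rt μ h f), rt_apply μ h f, ae_right82 μ (mw_apply μ w f) h]
      with s h1 h2 h3 h4
    change (rt μ h (mw μ w f) : 𝕊 → ℂ) s = (mw μ (w.tr h) (rt μ h f) : 𝕊 → ℂ) s
    rw [h1, h2, h3, h4]
    rfl
  have i0 : ItK 𝕂 (lam μ) (lam μ) ((rt μ h).toContinuousLinearEquiv : Lp ℂ 2 μ →L[ℂ] Lp ℂ 2 μ) :=
    fun k _ x => rt_itw μ h k x
  rw [WW_apply, WW_apply]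
  unfold aw
  rw [← push_XiA B (mw_ItK μ w) (rt_itw μ h) (i0.comp (mw_ItK μ w)) y,
    ← XiA_push B (mw_ItK μ (w.tr h)) (rt_itw μ h) ((mw_ItK μ (w.tr h)).comp i0) y,
    XiA_congr82 μ hcomp (i0.comp (mw_ItK μ w)) ((mw_ItK μ (w.tr h)).comp i0)]

theorem norm_aw (w : KW 𝕂) {C : ℝ} (h0 : 0 ≤ C) (hC : ∀ s, ‖w.w s‖ ≤ C) : ‖aw μ B w‖ ≤ C :=
  (norm_XiA B _).trans (norm_mw μ w h0 hC)

theorem norm_aw_sub (w w' : KW 𝕂) {C : ℝ} (h0 : 0 ≤ C) (hC : ∀ s, ‖w.w s - w'.w s‖ ≤ C) : ‖aw μ B w - aw μ B w'‖ ≤ C := by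
  have i : ItK 𝕂 (lam μ) (lam μ) (mw μ w - mw μ w') := fun h hh x => by
    change mw μ w _ - mw μ w' _ = (lam μ).U h (mw μ w x - mw μ w' x)
    rw [mw_ItK μ w h hh, mw_ItK μ w' h hh, map_sub]
  have h1 : aw μ B w - aw μ B w' = XiA B i := by
    refine ContinuousLinearMap.ext fun y => ?_
    have h2 := XiA_add B (mw_ItK μ w') i (mw_ItK μ w) (fun f => by
      change mw μ w f = mw μ w' f + (mw μ w f - mw μ w' f)
      rw [add_sub_cancel]) y
    change XiA B (mw_ItK μ w) y - XiA B (mw_ItK μ w') y = _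
    rw [h2, add_sub_cancel_left]
  rw [h1]
  refine (norm_XiA B i).trans (ContinuousLinearMap.opNorm_le_bound _ h0 fun f => Lp.norm_le_mul_norm_of_ae_le_mul ?_)
  filter_upwards [mw_apply μ w f, mw_apply μ w' f, Lp.coeFn_sub (mw μ w f) (mw μ w' f)] with s h1 h2 h3
  change ‖((mw μ w f - mw μ w' f : Lp ℂ 2 μ) : 𝕊 → ℂ) s‖ ≤ _
  rw [h3, Pi.sub_apply, h1, h2, ← sub_mul, norm_mul]
  exact mul_le_mul_of_nonneg_right (hC s) (norm_nonneg _)

private theorem aw_sq82 (w : KW 𝕂) (y : Kt B (lam μ)) : ‖aw μ B w y‖ ^ 2 ≤ (inner ℂ y (aw μ B (sqK82 w) y) : ℂ).re := by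
  refine XiA_sq B (mw_ItK μ w) (mw_ItK μ (sqK82 w)) (fun f f' => ?_) y
  rw [L2.inner_def, L2.inner_def]
  refine integral_congr_ae ?_
  filter_upwards [mw_apply μ w f, mw_apply μ w f', mw_apply μ (sqK82 w) f'] with s h1 h2 h3
  rw [h1, h2, h3, RCLike.inner_apply, RCLike.inner_apply, map_mul]
  have h4 : (sqK82 w).w s = w.w s * (starRingEnd ℂ) (w.w s) := by
    change ((‖w.w s‖ ^ 2 : ℝ) : ℂ) = _
    rw [Complex.mul_conj, Complex.normSq_eq_norm_sq]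
  rw [h4]
  ring

private theorem aw_tr_cont82 {w : KW 𝕂} (hw : HasCompactSupport w.w) : Continuous fun h => aw μ B (w.tr h) := by
  rw [continuous_iff_continuousAt]
  intro h0
  rw [Metric.continuousAt_iff']
  intro ε hε
  have h1 := unif82 w.cont hw (half_pos hε)
  have h2 : Tendsto (fun h : 𝕊 => h0⁻¹ * h) (𝓝 h0) (𝓝 1) := by
    have := (continuous_const_mul h0⁻¹).tendsto h0
    rwa [inv_mul_cancel] at this
  filter_upwards [h2.eventually h1] with h hh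
  rw [dist_eq_norm]
  refine lt_of_le_of_lt (norm_aw_sub μ B _ _ (half_pos hε).le fun s => ?_) (half_lt_self hε)
  have h3 := hh (s * h0)
  rw [mul_assoc, mul_inv_cancel_left] at h3
  exact h3

/-- The functional `φ ↦ ⟪y, aw φ y⟫`. -/
private theorem exists_fun82 (y : Kt B (lam μ)) : ∃ ℓ : XK82 𝕂 →L[ℂ] ℂ, (∀ φ, ℓ φ = inner ℂ y (aw μ B (ofX82 φ) y)) ∧
    ∀ φ, ‖ℓ φ‖ ≤ ‖y‖ ^ 2 * ‖φ‖ := by
  have hb : ∀ φ : XK82 𝕂, ‖(inner ℂ y (aw μ B (ofX82 φ) y) : ℂ)‖ ≤ ‖y‖ ^ 2 * ‖φ‖ := by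
    intro φ
    refine (norm_inner_le_norm _ _).trans ?_
    have h1 : ‖aw μ B (ofX82 φ) y‖ ≤ ‖φ‖ * ‖y‖ :=
      ((aw μ B (ofX82 φ)).le_opNorm y).trans (mul_le_mul_of_nonneg_right
        (norm_aw μ B _ (norm_nonneg _) fun s => φ.1.norm_coe_le_norm s) (norm_nonneg _))
    calc ‖y‖ * ‖aw μ B (ofX82 φ) y‖ ≤ ‖y‖ * (‖φ‖ * ‖y‖) := mul_le_mul_of_nonneg_left h1 (norm_nonneg _)
      _ = ‖y‖ ^ 2 * ‖φ‖ := by ring
  set ℓ0 : XK82 𝕂 →ₗ[ℂ] ℂ :=
    { toFun := fun φ => inner ℂ y (aw μ B (ofX82 φ) y)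
      map_add' := fun φ ψ => by
        have h1 := XiA_add B (mw_ItK μ (ofX82 φ)) (mw_ItK μ (ofX82 ψ)) (mw_ItK μ (ofX82 (φ + ψ))) (fun f => by
          refine Lp.ext ?_
          filter_upwards [mw_apply μ (ofX82 (φ + ψ)) f, mw_apply μ (ofX82 φ) f, mw_apply μ (ofX82 ψ) f,
            Lp.coeFn_add (mw μ (ofX82 φ) f) (mw μ (ofX82 ψ) f)] with s h2 h3 h4 h5
          rw [h2, h5, Pi.add_apply, h3, h4, ← add_mul]
          rfl) y
        change inner ℂ y (XiA B (mw_ItK μ (ofX82 (φ + ψ))) y) = _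
        rw [h1, inner_add_right]
        rfl
      map_smul' := fun c φ => by
        have h1 := XiA_smul B (mw_ItK μ (ofX82 φ)) (mw_ItK μ (ofX82 (c • φ))) c (fun f => by
          refine Lp.ext ?_
          filter_upwards [mw_apply μ (ofX82 (c • φ)) f, mw_apply μ (ofX82 φ) f,
            Lp.coeFn_smul c (mw μ (ofX82 φ) f)] with s h2 h3 h5
          rw [h2, h5, Pi.smul_apply, h3, smul_eq_mul, ← mul_assoc]
          rfl) y
        change inner ℂ y (XiA B (mw_ItK μ (ofX82 (c • φ))) y) = _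
        rw [h1, inner_smul_right]
        rfl }
  exact ⟨ℓ0.mkContinuous (‖y‖ ^ 2) hb, fun _ => rfl, hb⟩

private theorem int_aw82 {w : KW 𝕂} (hw : HasCompactSupport w.w) (y : Kt B (lam μ)) {C' : Set 𝕊} (hC' : IsCompact C') :
    ∫⁻ h in C', ‖aw μ B (w.tr h) y‖ₑ ^ 2 ∂μ ≤ ENNReal.ofReal (∫ s, ‖(sqK82 w).w s‖ ∂μ) * ‖y‖ₑ ^ 2 := by
  set v := sqK82 w with hv
  have hvc : HasCompactSupport v.w := sqK_cpt82 hw
  set I : ℝ := ∫ s, ‖v.w s‖ ∂μ with hI
  have hI0 : 0 ≤ I := integral_nonneg fun s => norm_nonneg _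
  have hvi : Integrable v.w μ := v.cont.integrable_of_hasCompactSupport hvc
  set F : 𝕊 → XK82 𝕂 := fun h => toX82 (v.tr h) with hF
  have hFc : Continuous F := toX_cont82 hvc
  have hint : IntegrableOn F C' μ := hFc.continuousOn.integrableOn_compact hC'
  set φ : XK82 𝕂 := ∫ h in C', F h ∂μ with hφ
  have hφe : ∀ s, φ.1 s = ∫ h in C', v.w (s * h) ∂μ := by
    intro s
    have h1 := ContinuousLinearMap.integral_comp_comm ((BoundedContinuousFunction.evalCLM ℂ s).comp (XK82 𝕂).subtypeL) hint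
    exact h1.symm
  have hφn : ‖φ‖ ≤ I := by
    rw [Submodule.coe_norm, BoundedContinuousFunction.norm_le hI0]
    intro s
    rw [hφe]
    refine (norm_integral_le_integral_norm _).trans ?_
    have h1 : Integrable (fun h => ‖v.w (s * h)‖) μ := (hvi.comp_mul_left s).norm
    refine (setIntegral_le_integral h1 (Eventually.of_forall fun h => norm_nonneg _)).trans ?_
    rw [integral_mul_left_eq_self (μ := μ) (fun h => ‖v.w h‖) s]
  obtain ⟨ℓ, hℓ, hℓb⟩ := exists_fun82 μ B y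
  have h1 : ∫ h in C', ℓ (F h) ∂μ = ℓ φ := ContinuousLinearMap.integral_comp_comm ℓ hint
  have h2 : IntegrableOn (fun h => ℓ (F h)) C' μ := (ℓ.continuous.comp hFc).continuousOn.integrableOn_compact hC'
  have h3 : ∫ h in C', (ℓ (F h)).re ∂μ = (ℓ φ).re := by
    rw [← h1]
    exact ContinuousLinearMap.integral_comp_comm Complex.reCLM h2
  have h4 : (ℓ φ).re ≤ I * ‖y‖ ^ 2 :=
    ((Complex.re_le_norm _).trans (hℓb φ)).trans (by
      rw [mul_comm I]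
      exact mul_le_mul_of_nonneg_left hφn (by positivity))
  have h5 : ∀ h, ‖aw μ B (w.tr h) y‖ ^ 2 ≤ (ℓ (F h)).re := by
    intro h
    rw [hℓ]
    exact aw_sq82 μ B (w.tr h) y
  have h6 : ∀ z : Kt B (lam μ), ‖z‖ₑ ^ 2 = ENNReal.ofReal (‖z‖ ^ 2) := by
    intro z
    rw [ENNReal.ofReal_pow (norm_nonneg _), ofReal_norm_eq_enorm]
  have h7 : IntegrableOn (fun h => (ℓ (F h)).re) C' μ :=
    (Complex.continuous_re.comp (ℓ.continuous.comp hFc)).continuousOn.integrableOn_compact hC'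
  calc ∫⁻ h in C', ‖aw μ B (w.tr h) y‖ₑ ^ 2 ∂μ ≤ ∫⁻ h in C', ENNReal.ofReal ((ℓ (F h)).re) ∂μ := by
        refine lintegral_mono fun h => ?_
        rw [h6]
        exact ENNReal.ofReal_le_ofReal (h5 h)
    _ = ENNReal.ofReal (∫ h in C', (ℓ (F h)).re ∂μ) :=
        (ofReal_integral_eq_lintegral_ofReal h7 (Eventually.of_forall fun h => (sq_nonneg _).trans (h5 h))).symm
    _ ≤ ENNReal.ofReal (I * ‖y‖ ^ 2) := by
        rw [h3]
        exact ENNReal.ofReal_le_ofReal h4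
    _ = ENNReal.ofReal I * ‖y‖ₑ ^ 2 := by
        rw [ENNReal.ofReal_mul hI0, h6]

/-- Integrability. -/
theorem lintegral_aw (w : KW 𝕂) (hw : HasCompactSupport w.w) : ∃ C : ENNReal, C ≠ ⊤ ∧ ∀ y : Kt B (lam μ),
    ∫⁻ h, ‖WW μ B h (aw μ B w (WW μ B h⁻¹ y))‖ₑ ^ 2 ∂μ ≤ C * ‖y‖ₑ ^ 2 := by
  refine ⟨ENNReal.ofReal (∫ s, ‖(sqK82 w).w s‖ ∂μ), ENNReal.ofReal_ne_top, fun y => ?_⟩
  have h1 : ∀ h, WW μ B h (aw μ B w (WW μ B h⁻¹ y)) = aw μ B (w.tr h) y := by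
    intro h
    rw [WW_aw]
    congr 1
    change (WW μ B h * WW μ B h⁻¹) y = y
    rw [← map_mul, mul_inv_cancel, map_one]
    rfl
  simp only [h1]
  have hm : Continuous fun h => ‖aw μ B (w.tr h) y‖ₑ ^ 2 :=
    (ENNReal.continuous_pow 2).comp (continuous_enorm.comp ((ContinuousLinearMap.apply ℂ (Kt B (lam μ)) y).continuous.comp (aw_tr_cont82 μ B hw)))
  have hcov : AECover μ atTop (compactCovering 𝕊) := by
    refine ⟨Eventually.of_forall fun s => ?_, fun n => (isCompact_compactCovering 𝕊 n).measurableSet⟩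
    obtain ⟨n, hn⟩ := exists_mem_compactCovering s
    filter_upwards [eventually_ge_atTop n] with m hm
    exact compactCovering_subset 𝕊 hm hn
  refine le_of_tendsto (hcov.lintegral_tendsto_of_countably_generated hm.measurable.aemeasurable) (Eventually.of_forall fun n => ?_)
  exact int_aw82 μ B hw y (isCompact_compactCovering 𝕊 n)

/-- Some `aw w` does not vanish. -/
theorem exists_aw_ne (hK : IsCompact (𝕂 : Set 𝕊)) [Nontrivial (Kt B (lam μ))] :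
    ∃ w : KW 𝕂, HasCompactSupport w.w ∧ aw μ B w ≠ 0 := by
  by_contra hcon
  push Not at hcon
  choose w hw1 hw2 hw3 hw4 using fun n => exists_kw82 (𝕂 := 𝕂) hK (isCompact_compactCovering 𝕊 n)
  obtain ⟨y, hy⟩ := exists_ne (0 : Kt B (lam μ))
  have hid : ItK 𝕂 (lam μ) (lam μ) (ContinuousLinearMap.id ℂ (Lp ℂ 2 μ)) := fun _ _ _ => rfl
  have h1 := XiA_lim B (fun n => mw μ (w n)) (fun n => mw_ItK μ (w n)) hid (C := 1) (fun n => norm_mw μ (w n) zero_le_one (hw3 n))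
    (fun f => mw_tendsto82 μ w (fun s => by
      obtain ⟨n, hn⟩ := exists_mem_compactCovering s
      filter_upwards [eventually_ge_atTop n] with m hm
      exact hw2 m s (compactCovering_subset 𝕊 hm hn)) hw4 f) y y
  have h2 : ∀ n, XiA B (mw_ItK μ (w n)) y = 0 := by
    intro n
    change aw μ B (w n) y = 0
    rw [hcon (w n) (hw1 n)]
    rfl
  simp only [h2, inner_zero_right, XiA_id B hid] at h1
  have h3 := tendsto_nhds_unique tendsto_const_nhds h1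
  exact hy (inner_self_eq_zero.1 h3.symm)

theorem nontrivial_Kt (hK : IsCompact (𝕂 : Set 𝕊)) : Nontrivial (Kt B (lam μ)) := by
  obtain ⟨w, hw1, hw2, -, -⟩ := exists_kw82 (𝕂 := 𝕂) hK (isCompact_singleton (x := (1 : 𝕊)))
  obtain ⟨x, hx⟩ := @exists_ne H B.nontriv 0
  have hC : IsCompact (tsupport w.w) := hw1
  have hκ := kapO_isC (geo := geo) w.w w.cont w.inv w.bdd (C := tsupport w.w) fun s hs => image_eq_zero_of_notMem_tsupport hs
  set F := secK μ (kapO (geo := geo) w.w w.cont w.inv w.bdd) hC hκ with hF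
  set c : ℝ := ∫ s, ‖w.w s‖ ^ 2 ∂μ with hc
  have hFn : ∀ g, (inner ℂ ((F : 𝔾 → Lp ℂ 2 μ) g) ((F : 𝔾 → Lp ℂ 2 μ) g) : ℂ) = (c : ℂ) * 1 := by
    intro g
    have h1 : ‖(F : 𝔾 → Lp ℂ 2 μ) g‖ ^ 2 = c := by
      rw [norm_sq82, hc, ← integral_mul_left_eq_self (μ := μ) (fun s => ‖w.w s‖ ^ 2) (geo.nb (geo.r g))]
      refine integral_congr_ae ?_
      filter_upwards [secK_apply μ (kapO (geo := geo) w.w w.cont w.inv w.bdd) hC hκ g] with s hs
      rw [hs]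
      rfl
    rw [inner_self_eq_norm_sq_to_K, mul_one, ← h1]
    push_cast
    rfl
  have hc0 : 0 < c := by
    refine Continuous.integral_pos_of_hasCompactSupport_nonneg_nonzero (x := 1) (w.cont.norm.pow 2) ?_ (fun s => sq_nonneg _) ?_
    · refine HasCompactSupport.intro (K := tsupport w.w) hC fun s hs => ?_
      rw [image_eq_zero_of_notMem_tsupport hs]
      simp
    · rw [hw2 1 (Set.mem_singleton _)]
      simp
  have hb1 : Bf geo (fun _ => 1) := ⟨continuous_const, fun _ _ _ => rfl, 1, fun _ => by simp⟩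
  have hne : tau B F x ≠ 0 := by
    intro h0
    have h1 := inner_tau B F F x x
    rw [h0, inner_zero_left] at h1
    have h2 : (fun g => (inner ℂ ((F : 𝔾 → Lp ℂ 2 μ) g) ((F : 𝔾 → Lp ℂ 2 μ) g) : ℂ)) = fun _ => (c : ℂ) * 1 := funext hFn
    rw [h2, B.Xi_apply, ContinuousLinearMap.adjoint_inner_right, B.E_smul (c : ℂ) (fun _ => 1) hb1, B.E_one, inner_smul_right] at h1
    change 0 = (c : ℂ) * inner ℂ (B.T x) (B.T x) at h1
    rw [LinearIsometry.inner_map_map, eq_comm, mul_eq_zero] at h1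
    rcases h1 with h1 | h1
    · exact hc0.ne' (Complex.ofReal_eq_zero.1 h1)
    · exact hx (inner_self_eq_zero.1 h1)
  exact ⟨⟨_, _, hne⟩⟩

end J

end Pool.Agent.Helper35.FP
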