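import Pool.Agent.Helper35.FP.SD
import Pool.Agent.Helper89.FP.CF

/-!
# Project FP/TZ, block XA: compressed operators `XiA A`

`A : L → L'` commutes with `𝕂` (`ItK`): `⟪F' g, A (F g)⟫` is in `Bf`, and `⟪τ F' x', XiA A (τ F x)⟫ = ⟪x', Xi ⟪F' ·, A (F ·)⟫ x⟫` defines a bounded operator with `‖XiA A‖ ≤ ‖A‖`
(`B.Xi_pos` for the block matrix with the entries `‖A‖² ⟪F i, F j⟫`, `⟪F' i, A F j⟫` and its conjugate, `⟪F' i, F' j⟫`, hence Cauchy-Schwarz; then a bounded sesquilinear form on a total family; or as in `exists_mulF`).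
`XiA_sq`: the same with `⟪F i, A* A F j⟫` (Schwarz inequality for the completely positive map `XiA`). `XiA_lim`: for `nb (r g)` in a compact set `F g` runs over a compact set; `B.E_lim`, total vectors, uniform bound.
Proved by helper74 (with the file CF of helper89).
-/

set_option autoImplicit false
set_option linter.unusedSectionVars false

open Filter Topology

namespace Pool.Agent.Helper35.FP

open Pool.Agent.Helper16.FP

variable {𝔾 𝕊 : Type} [Group 𝔾] [TopologicalSpace 𝔾] [IsTopologicalGroup 𝔾] [Group 𝕊] [TopologicalSpace 𝕊] [IsTopologicalGroup 𝕊]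
  {𝕂 : Subgroup 𝕊} {geo : Geo 𝔾 𝕊 𝕂} {G S' H U : Type} [Group G] [Group S'] [TopologicalSpace S'] [IsTopologicalGroup S']
  [NormedAddCommGroup H] [InnerProductSpace ℂ H] [CompleteSpace H]
  [NormedAddCommGroup U] [InnerProductSpace ℂ U] [CompleteSpace U]

section XiA

variable {L L' L'' : Type} [NormedAddCommGroup L] [InnerProductSpace ℂ L]
  [NormedAddCommGroup L'] [InnerProductSpace ℂ L'] [NormedAddCommGroup L''] [InnerProductSpace ℂ L'']
  {ρ : Rp 𝕊 L} {ρ' : Rp 𝕊 L'} {ρ'' : Rp 𝕊 L''}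

theorem bf_ItK {A : L →L[ℂ] L'} (hA : ItK 𝕂 ρ ρ' A) (F : Sec geo ρ) (F' : Sec geo ρ') :
    Bf geo fun g => inner ℂ ((F' : 𝔾 → L') g) (A ((F : 𝔾 → L) g)) := by
  exact BS.inner_bf (ofSec F') (Pool.Agent.Helper89.FP.apB hA (ofSec F))

variable (B : BD geo G S' H U)

theorem exists_XiA {A : L →L[ℂ] L'} (hA : ItK 𝕂 ρ ρ' A) : ∃ C : Kt B ρ →L[ℂ] Kt B ρ', ‖C‖ ≤ ‖A‖ ∧
    ∀ (F : Sec geo ρ) (F' : Sec geo ρ') (x x' : H), (inner ℂ (tau B F' x') (C (tau B F x)) : ℂ) =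
      inner ℂ x' (B.Xi (fun g => inner ℂ ((F' : 𝔾 → L') g) (A ((F : 𝔾 → L) g))) x) := by
  exact ⟨Pool.Agent.Helper89.FP.XiA B hA, Pool.Agent.Helper89.FP.norm_XiA B hA,
    fun F F' x x' => Pool.Agent.Helper89.FP.inner_XiA B hA F' F x' x⟩

/-- The compressed operator. -/
noncomputable def XiA {A : L →L[ℂ] L'} (hA : ItK 𝕂 ρ ρ' A) : Kt B ρ →L[ℂ] Kt B ρ' := (exists_XiA B hA).choose

theorem norm_XiA {A : L →L[ℂ] L'} (hA : ItK 𝕂 ρ ρ' A) : ‖XiA B hA‖ ≤ ‖A‖ := (exists_XiA B hA).choose_spec.1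

theorem inner_XiA {A : L →L[ℂ] L'} (hA : ItK 𝕂 ρ ρ' A) (F : Sec geo ρ) (F' : Sec geo ρ') (x x' : H) :
    (inner ℂ (tau B F' x') (XiA B hA (tau B F x)) : ℂ) =
      inner ℂ x' (B.Xi (fun g => inner ℂ ((F' : 𝔾 → L') g) (A ((F : 𝔾 → L) g))) x) := (exists_XiA B hA).choose_spec.2 F F' x x'

theorem XiA_tau74 {A : L →L[ℂ] L'} (hA : ItK 𝕂 ρ ρ' A) (F : Sec geo ρ) (x : H) :
    XiA B hA (tau B F x) = XX (PM.xi B) (Pool.Agent.Helper89.FP.apB hA (ofSec F)) x := by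
  refine ext_Kt fun F' x' => ?_
  rw [inner_XiA, inner_XX]
  rfl

theorem XiA_WK {A : L →L[ℂ] L'} (hA : ItK 𝕂 ρ ρ' A) (k : G) (y : Kt B ρ) : XiA B hA (WK B ρ k y) = WK B ρ' k (XiA B hA y) := by
  have h : (XiA B hA).comp (WK B ρ k).toContinuousLinearEquiv.toContinuousLinearMap =
      (WK B ρ' k).toContinuousLinearEquiv.toContinuousLinearMap.comp (XiA B hA) := by
    refine ext_tot (tot_tau B ρ) fun p => ?_
    change XiA B hA (WK B ρ k (tau B p.1 p.2)) = WK B ρ' k (XiA B hA (tau B p.1 p.2))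
    rw [WK_tau, XiA_tau74, XiA_tau74, XX_W]
    congr 1
    refine congrArg (fun C : H →L[ℂ] Kt B ρ' => C p.2) (XX_congr _ fun g => ?_)
    change A ((act B ρ k p.1 : 𝔾 → L) (B.ir k * g)) = A ((p.1 : 𝔾 → L) g)
    rw [act_apply, inv_mul_cancel_left]
  exact DFunLike.congr_fun h y

theorem XiA_lift {A : L →L[ℂ] L'} (hA : ItK 𝕂 ρ ρ' A) {c : (H ≃ₗᵢ[ℂ] H) × (U ≃ₗᵢ[ℂ] U)} (hc : c ∈ B.CC) (y : Kt B ρ) :
    XiA B hA (lift B ρ c.1 y) = lift B ρ' c.1 (XiA B hA y) := by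
  have h : (XiA B hA).comp (lift B ρ c.1).toContinuousLinearEquiv.toContinuousLinearMap =
      (lift B ρ' c.1).toContinuousLinearEquiv.toContinuousLinearMap.comp (XiA B hA) := by
    refine ext_tot (tot_tau B ρ) fun p => ?_
    change XiA B hA (lift B ρ c.1 (tau B p.1 p.2)) = lift B ρ' c.1 (XiA B hA (tau B p.1 p.2))
    rw [lift_tau B ρ (B.cphi_CC hc), XiA_tau74, XiA_tau74, XX_lift _ _ hc]
  exact DFunLike.congr_fun h y

theorem XiA_PhiK {A : L →L[ℂ] L'} (hA : ItK 𝕂 ρ ρ' A) {f : 𝔾 → ℂ} (hf : Yf geo f) (y : Kt B ρ) :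
    XiA B hA (PhiK B ρ f y) = PhiK B ρ' f (XiA B hA y) := by
  have h : (XiA B hA).comp (PhiK B ρ f) = (PhiK B ρ' f).comp (XiA B hA) := by
    refine ext_tot (tot_tau B ρ) fun p => ?_
    change XiA B hA (PhiK B ρ f (tau B p.1 p.2)) = PhiK B ρ' f (XiA B hA (tau B p.1 p.2))
    rw [PhiK_tau B ρ hf, XiA_tau74, XiA_tau74, XX_PhiK _ _ hf]
  exact DFunLike.congr_fun h y

/-- Fields which commute with `A`. -/
theorem XiA_mulF {A : L →L[ℂ] L'} (hA : ItK 𝕂 ρ ρ' A) (o : Fd geo ρ ρ) (o' o'' : Fd geo ρ' ρ')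
    (h : ∀ g w, A (o.O g w) = o'.O g (A w)) (h' : ∀ g w w', (inner ℂ (o'.O g w) w' : ℂ) = inner ℂ w (o''.O g w')) (y : Kt B ρ) :
    XiA B hA (mulF B o y) = mulF B o' (XiA B hA y) := by
  have h1 : (XiA B hA).comp (mulF B o) = (mulF B o').comp (XiA B hA) := by
    refine ext_tot (tot_tau B ρ) fun p => ?_
    change XiA B hA (mulF B o (tau B p.1 p.2)) = mulF B o' (XiA B hA (tau B p.1 p.2))
    rw [mulF_tau, XiA_tau74, XiA_tau74, Pool.Agent.Helper89.FP.mulF_XX (PM.xi B) o' o'' fun g w w' => by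
      rw [← inner_conj_symm, ← h', inner_conj_symm]]
    refine congrArg (fun C : H →L[ℂ] Kt B ρ' => C p.2) (XX_congr _ fun g => ?_)
    exact h g _
  exact DFunLike.congr_fun h1 y

theorem XiA_adj {A : L →L[ℂ] L'} (hA : ItK 𝕂 ρ ρ' A) {A' : L' →L[ℂ] L} (hA' : ItK 𝕂 ρ' ρ A')
    (h : ∀ w w', (inner ℂ (A w) w' : ℂ) = inner ℂ w (A' w')) (y : Kt B ρ) (y' : Kt B ρ') :
    (inner ℂ (XiA B hA y) y' : ℂ) = inner ℂ y (XiA B hA' y') := by
  have h1 : ContinuousLinearMap.adjoint (XiA B hA) = XiA B hA' := by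
    refine ext_tot (tot_tau B ρ') fun p' => ?_
    refine ext_Kt fun F x => ?_
    rw [ContinuousLinearMap.adjoint_inner_right, ← inner_conj_symm, inner_XiA, inner_XiA, inner_conj_symm,
      B.Xi_star (bf_ItK hA _ _)]
    congr 3
    funext g
    rw [inner_conj_symm]
    exact h _ _
  rw [← h1, ContinuousLinearMap.adjoint_inner_right]

theorem XiA_add {A A' A'' : L →L[ℂ] L'} (hA : ItK 𝕂 ρ ρ' A) (hA' : ItK 𝕂 ρ ρ' A') (hA'' : ItK 𝕂 ρ ρ' A'')
    (h : ∀ w, A'' w = A w + A' w) (y : Kt B ρ) : XiA B hA'' y = XiA B hA y + XiA B hA' y := by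
  have h1 : XiA B hA'' = XiA B hA + XiA B hA' := by
    refine ext_tot (tot_tau B ρ) fun p => ?_
    refine ext_Kt fun F' x' => ?_
    change (inner ℂ (tau B F' x') (XiA B hA'' (tau B p.1 p.2)) : ℂ) =
      inner ℂ (tau B F' x') (XiA B hA (tau B p.1 p.2) + XiA B hA' (tau B p.1 p.2))
    rw [inner_add_right, inner_XiA, inner_XiA, inner_XiA, ← inner_add_right,
      ← (PM.xi B).add _ _ (bf_ItK hA _ _) (bf_ItK hA' _ _)]
    congr 3
    funext g
    rw [h, inner_add_right]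
  exact DFunLike.congr_fun h1 y

theorem XiA_smul {A A' : L →L[ℂ] L'} (hA : ItK 𝕂 ρ ρ' A) (hA' : ItK 𝕂 ρ ρ' A') (c : ℂ)
    (h : ∀ w, A' w = c • A w) (y : Kt B ρ) : XiA B hA' y = c • XiA B hA y := by
  have h1 : XiA B hA' = c • XiA B hA := by
    refine ext_tot (tot_tau B ρ) fun p => ?_
    refine ext_Kt fun F' x' => ?_
    change (inner ℂ (tau B F' x') (XiA B hA' (tau B p.1 p.2)) : ℂ) =
      inner ℂ (tau B F' x') (c • XiA B hA (tau B p.1 p.2))
    rw [inner_smul_right, inner_XiA, inner_XiA, ← inner_smul_right, ← (PM.xi B).smul _ _ (bf_ItK hA _ _)]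
    congr 3
    funext g
    rw [h, inner_smul_right]
  exact DFunLike.congr_fun h1 y

theorem XiA_id (h : ItK 𝕂 ρ ρ (ContinuousLinearMap.id ℂ L)) (y : Kt B ρ) : XiA B h y = y := by
  have h1 : XiA B h = ContinuousLinearMap.id ℂ (Kt B ρ) := by
    refine ext_tot (tot_tau B ρ) fun p => ?_
    refine ext_Kt fun F' x' => ?_
    change (inner ℂ (tau B F' x') (XiA B h (tau B p.1 p.2)) : ℂ) = inner ℂ (tau B F' x') (tau B p.1 p.2)
    rw [inner_XiA, inner_tau]
    rfl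
  exact DFunLike.congr_fun h1 y

theorem XiA_push {A : L →L[ℂ] L'} (hA : ItK 𝕂 ρ ρ' A) {C : L'' →L[ℂ] L} (hC : Itw ρ'' ρ C) (hAC : ItK 𝕂 ρ'' ρ' (A.comp C))
    (y : Kt B ρ'') : XiA B hAC y = XiA B hA (push B hC y) := by
  have h1 : XiA B hAC = (XiA B hA).comp (push B hC) := by
    refine ext_tot (tot_tau B ρ'') fun p => ?_
    refine ext_Kt fun F' x' => ?_
    change (inner ℂ (tau B F' x') (XiA B hAC (tau B p.1 p.2)) : ℂ) =
      inner ℂ (tau B F' x') (XiA B hA (mulF B (Fd.const hC) (tau B p.1 p.2)))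
    rw [mulF_tau, inner_XiA, inner_XiA]
    rfl
  exact DFunLike.congr_fun h1 y

theorem push_XiA [CompleteSpace L'] [CompleteSpace L''] {A : L →L[ℂ] L'} (hA : ItK 𝕂 ρ ρ' A) {C : L' →L[ℂ] L''} (hC : Itw ρ' ρ'' C)
    (hCA : ItK 𝕂 ρ ρ'' (C.comp A)) (y : Kt B ρ) : XiA B hCA y = push B hC (XiA B hA y) := by
  have h1 : XiA B hCA = (push B hC).comp (XiA B hA) := by
    refine ext_tot (tot_tau B ρ) fun p => ?_
    change XiA B hCA (tau B p.1 p.2) = push B hC (XiA B hA (tau B p.1 p.2))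
    rw [XiA_tau74, XiA_tau74, push, Pool.Agent.Helper89.FP.mulF_XX (PM.xi B) (Fd.const hC) (Fd.const hC.adj) fun g w w' =>
      ContinuousLinearMap.adjoint_inner_left _ _ _]
    refine congrArg (fun C : H →L[ℂ] Kt B ρ'' => C p.2) (XX_congr _ fun g => ?_)
    rfl
  exact DFunLike.congr_fun h1 y

/-- Closed conditions which hold for the finite sums. -/
theorem ind74 {P : Kt B ρ → Prop} (hP : IsClosed {y | P y})
    (h : ∀ (s : Finset (Sec geo ρ × H)) (c : Sec geo ρ × H → ℂ), P (∑ p ∈ s, c p • tau B p.1 p.2)) (y : Kt B ρ) : P y := by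
  have h1 : (Submodule.span ℂ (Set.range fun p : Sec geo ρ × H => tau B p.1 p.2)).topologicalClosure = ⊤ := by
    rw [Submodule.topologicalClosure_eq_top_iff, Submodule.eq_bot_iff]
    intro z hz
    refine tot_tau B ρ z fun i => ?_
    exact (Submodule.mem_orthogonal _ _).1 hz _ (Submodule.subset_span ⟨i, rfl⟩)
  have h2 := Submodule.dense_iff_topologicalClosure_eq_top.2 h1
  rw [← Finsupp.range_linearCombination] at h2
  have h3 : DenseRange (Finsupp.linearCombination ℂ fun p : Sec geo ρ × H => tau B p.1 p.2) := h2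
  exact h3.induction_on (p := P) y hP fun c => h c.support c

theorem sum_XiA74 {A : L →L[ℂ] L} (hA : ItK 𝕂 ρ ρ A) (s : Finset (Sec geo ρ × H)) (c : Sec geo ρ × H → ℂ) :
    (inner ℂ (∑ p ∈ s, c p • tau B p.1 p.2) (XiA B hA (∑ p ∈ s, c p • tau B p.1 p.2)) : ℂ) =
      ∑ p ∈ s, ∑ q ∈ s, inner ℂ (c p • p.2) (B.Xi (fun g => inner ℂ ((p.1 : 𝔾 → L) g) (A ((q.1 : 𝔾 → L) g))) (c q • q.2)) := by
  rw [map_sum, sum_inner]
  refine Finset.sum_congr rfl fun p _ => ?_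
  rw [inner_sum]
  refine Finset.sum_congr rfl fun q _ => ?_
  rw [map_smul, map_smul, inner_smul_left, inner_smul_right, inner_XiA, inner_smul_left, inner_smul_right]

/-- Positivity. -/
theorem XiA_pos {A : L →L[ℂ] L} (hA : ItK 𝕂 ρ ρ A) (h : ∀ w, 0 ≤ (inner ℂ w (A w) : ℂ).re) (y : Kt B ρ) :
    0 ≤ (inner ℂ y (XiA B hA y) : ℂ).re := by
  refine ind74 B (P := fun y => 0 ≤ (inner ℂ y (XiA B hA y) : ℂ).re) ?_ (fun s c => ?_) y
  · exact isClosed_le continuous_const (Complex.continuous_re.comp (continuous_id.inner (XiA B hA).continuous))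
  · have h1 := (PM.xi B).pos' s (fun p q g => inner ℂ ((p.1 : 𝔾 → L) g) (A ((q.1 : 𝔾 → L) g)))
      (fun p q => bf_ItK hA _ _) (fun g z => ?_) (fun p => c p • p.2)
    · rw [sum_XiA74]
      exact h1
    · have h2 : ∑ p ∈ s, ∑ q ∈ s, (starRingEnd ℂ) (z p) * inner ℂ ((p.1 : 𝔾 → L) g) (A ((q.1 : 𝔾 → L) g)) * z q =
          inner ℂ (∑ p ∈ s, z p • (p.1 : 𝔾 → L) g) (A (∑ p ∈ s, z p • (p.1 : 𝔾 → L) g)) := by
        rw [map_sum, sum_inner]
        refine Finset.sum_congr rfl fun p _ => ?_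
        rw [inner_sum]
        refine Finset.sum_congr rfl fun q _ => ?_
        rw [map_smul, inner_smul_left, inner_smul_right]
        ring
      rw [h2]
      exact h _

/-- The Schwarz inequality. -/
theorem XiA_sq {A : L →L[ℂ] L'} (hA : ItK 𝕂 ρ ρ' A) {A₂ : L →L[ℂ] L} (hA₂ : ItK 𝕂 ρ ρ A₂)
    (h : ∀ w w', (inner ℂ (A w) (A w') : ℂ) = inner ℂ w (A₂ w')) (y : Kt B ρ) :
    ‖XiA B hA y‖ ^ 2 ≤ (inner ℂ y (XiA B hA₂ y) : ℂ).re := by
  obtain ⟨K, i1, i2, i3, σ, hσ⟩ := exists_dil (PM.xi B) ρ'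
  obtain ⟨J, hJ⟩ := gram_isom (F := K) (tot_tau B ρ') (w := fun p : Sec geo ρ' × H => σ (ofSec p.1, p.2)) (fun p q => by
    rw [hσ, inner_tau]
    rfl)
  refine ind74 B (P := fun y => ‖XiA B hA y‖ ^ 2 ≤ (inner ℂ y (XiA B hA₂ y) : ℂ).re) ?_ (fun s c => ?_) y
  · exact isClosed_le ((XiA B hA).continuous.norm.pow 2)
      (Complex.continuous_re.comp (continuous_id.inner (XiA B hA₂).continuous))
  · have e1 : XiA B hA (∑ p ∈ s, c p • tau B p.1 p.2) =
        ContinuousLinearMap.adjoint J.toContinuousLinearMap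
          (∑ p ∈ s, c p • σ (Pool.Agent.Helper89.FP.apB hA (ofSec p.1), p.2)) := by
      refine ext_Kt fun F x' => ?_
      rw [ContinuousLinearMap.adjoint_inner_right]
      change _ = (inner ℂ (J (tau B F x')) _ : ℂ)
      rw [hJ (F, x'), map_sum, inner_sum, inner_sum]
      refine Finset.sum_congr rfl fun p _ => ?_
      rw [map_smul, inner_smul_right, inner_smul_right, inner_XiA, hσ]
      rfl
    have e2 : ((‖∑ p ∈ s, c p • σ (Pool.Agent.Helper89.FP.apB hA (ofSec p.1), p.2)‖ ^ 2 : ℝ) : ℂ) =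
        inner ℂ (∑ p ∈ s, c p • tau B p.1 p.2) (XiA B hA₂ (∑ p ∈ s, c p • tau B p.1 p.2)) := by
      rw [← sum_gram s (fun p : Sec geo ρ × H => σ (Pool.Agent.Helper89.FP.apB hA (ofSec p.1), p.2)) c, sum_XiA74]
      refine Finset.sum_congr rfl fun p _ => Finset.sum_congr rfl fun q _ => ?_
      rw [hσ, map_smul, inner_smul_left, inner_smul_right]
      have e3 : (fun g => inner ℂ ((Pool.Agent.Helper89.FP.apB hA (ofSec p.1) : 𝔾 → L') g)
          ((Pool.Agent.Helper89.FP.apB hA (ofSec q.1) : 𝔾 → L') g)) =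
          fun g => (inner ℂ ((p.1 : 𝔾 → L) g) (A₂ ((q.1 : 𝔾 → L) g)) : ℂ) := funext fun g => h _ _
      rw [e3]
      ring
    have e4 : ‖ContinuousLinearMap.adjoint J.toContinuousLinearMap‖ ≤ 1 := by
      rw [LinearIsometryEquiv.norm_map]
      exact J.norm_toContinuousLinearMap_le
    rw [← e2, Complex.ofReal_re, e1]
    refine pow_le_pow_left₀ (norm_nonneg _) ?_ 2
    refine (ContinuousLinearMap.le_of_opNorm_le _ e4 _).trans ?_
    rw [one_mul]

theorem XiA_lim (A : ℕ → (L →L[ℂ] L')) {A' : L →L[ℂ] L'} (hA : ∀ n, ItK 𝕂 ρ ρ' (A n)) (hA' : ItK 𝕂 ρ ρ' A') {C : ℝ}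
    (hC : ∀ n, ‖A n‖ ≤ C) (h : ∀ w, Tendsto (fun n => A n w) atTop (𝓝 (A' w))) (y : Kt B ρ) (y' : Kt B ρ') :
    Tendsto (fun n => (inner ℂ y' (XiA B (hA n) y) : ℂ)) atTop (𝓝 (inner ℂ y' (XiA B hA' y))) := by
  have hC' : ∀ n, ‖XiA B (hA n)‖ ≤ C := fun n => (norm_XiA B (hA n)).trans (hC n)
  have hC0 : 0 ≤ C := (norm_nonneg _).trans (hC 0)
  -- the case of the total vectors
  have h1 : ∀ (F' : Sec geo ρ') (F : Sec geo ρ) (x' x : H),
      Tendsto (fun n => (inner ℂ (tau B F' x') (XiA B (hA n) (tau B F x)) : ℂ)) atTop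
      (𝓝 (inner ℂ (tau B F' x') (XiA B hA' (tau B F x)))) := by
    intro F' F x' x
    obtain ⟨D', hD'⟩ := Sec.bdd F'
    obtain ⟨D, hD⟩ := Sec.bdd F
    have hD0' : 0 ≤ D' := (norm_nonneg _).trans (hD' 1)
    have hD0 : 0 ≤ D := (norm_nonneg _).trans (hD 1)
    set f : ℕ → 𝔾 → ℂ := fun n g => inner ℂ ((F' : 𝔾 → L') g) (A n ((F : 𝔾 → L) g) - A' ((F : 𝔾 → L) g)) with hf
    have hfb : ∀ n, Bf geo (f n) := fun n =>
      bfI F' (Pool.Agent.Helper89.FP.apB (hA n) (ofSec F) - Pool.Agent.Helper89.FP.apB hA' (ofSec F))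
    have h2 := Xi_lim B f (D' * ((C + ‖A'‖) * D)) hfb (fun n g => by
      refine (norm_inner_le_norm _ _).trans (mul_le_mul (hD' g) ?_ (norm_nonneg _) hD0')
      refine (norm_sub_le _ _).trans ?_
      rw [add_mul]
      exact add_le_add (((A n).le_of_opNorm_le (hC n) _).trans (mul_le_mul_of_nonneg_left (hD g) hC0))
        ((A'.le_opNorm _).trans (mul_le_mul_of_nonneg_left (hD g) (norm_nonneg _))))
      (fun E hE ε hε => by
        obtain ⟨V, hV, hV'⟩ := Pool.Agent.Helper89.FP.compact_values F hE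
        have h3 := Pool.Agent.Helper89.FP.tendsto_compact (fun n => A n - A') (C := C + ‖A'‖) (fun n =>
          (norm_sub_le _ _).trans (add_le_add (hC n) le_rfl)) (fun v => by
          have h4 := (h v).sub_const (A' v)
          rw [sub_self] at h4
          exact h4) hV (ε := ε / (D' + 1)) (by positivity)
        filter_upwards [h3] with n hn g hg
        refine (norm_inner_le_norm _ _).trans ?_
        have h5 := hn _ (hV' g hg)
        have h6 : ‖A n ((F : 𝔾 → L) g) - A' ((F : 𝔾 → L) g)‖ ≤ ε / (D' + 1) := h5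
        calc ‖(F' : 𝔾 → L') g‖ * ‖A n ((F : 𝔾 → L) g) - A' ((F : 𝔾 → L) g)‖ ≤ D' * (ε / (D' + 1)) :=
              mul_le_mul (hD' g) h6 (norm_nonneg _) hD0'
          _ ≤ (D' + 1) * (ε / (D' + 1)) := mul_le_mul_of_nonneg_right (by linarith) (by positivity)
          _ = ε := by field_simp) x
    have h3 : Tendsto (fun n => (inner ℂ x' (B.Xi (f n) x) : ℂ)) atTop (𝓝 (inner ℂ x' (0 : H))) :=
      (continuous_const.inner continuous_id).tendsto _ |>.comp h2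
    rw [inner_zero_right] at h3
    have h4 := h3.add_const (inner ℂ (tau B F' x') (XiA B hA' (tau B F x)) : ℂ)
    rw [zero_add] at h4
    refine h4.congr fun n => ?_
    rw [inner_XiA, inner_XiA, ← inner_add_right, ← (PM.xi B).add _ _ (hfb n) (bf_ItK hA' _ _)]
    congr 3
    funext g
    simp only [hf]
    rw [← inner_add_right, sub_add_cancel]
  -- all `y`
  have h2 : ∀ (F' : Sec geo ρ') (x' : H) (y : Kt B ρ),
      Tendsto (fun n => (inner ℂ (tau B F' x') (XiA B (hA n) y) : ℂ)) atTop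
      (𝓝 (inner ℂ (tau B F' x') (XiA B hA' y))) := by
    intro F' x' y
    refine Pool.Agent.Helper89.FP.tendsto_tot (tot_tau B ρ) (fun n => (innerSL ℂ (tau B F' x')).comp (XiA B (hA n)))
      ((innerSL ℂ (tau B F' x')).comp (XiA B hA'))
      (C := ‖tau B F' x'‖ * C) (fun n => ?_) (fun p => h1 F' p.1 x' p.2) y
    refine (ContinuousLinearMap.opNorm_comp_le _ _).trans ?_
    rw [innerSL_apply_norm]
    exact mul_le_mul_of_nonneg_left (hC' n) (norm_nonneg _)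
  -- all `y'`
  have h3 : Tendsto (fun n => (inner ℂ (XiA B (hA n) y) y' : ℂ)) atTop (𝓝 (inner ℂ (XiA B hA' y) y')) := by
    refine Pool.Agent.Helper89.FP.tendsto_tot (tot_tau B ρ') (fun n => innerSL ℂ (XiA B (hA n) y)) (innerSL ℂ (XiA B hA' y))
      (C := C * ‖y‖) (fun n => ?_) (fun p => ?_) y'
    · rw [innerSL_apply_norm]
      exact (XiA B (hA n)).le_of_opNorm_le (hC' n) y
    · have h4 := (Complex.continuous_conj.tendsto _).comp (h2 p.1 p.2 y)
      rw [inner_conj_symm] at h4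
      refine h4.congr fun n => ?_
      exact inner_conj_symm _ _
  have h4 := (Complex.continuous_conj.tendsto _).comp h3
  rw [inner_conj_symm] at h4
  refine h4.congr fun n => ?_
  exact inner_conj_symm _ _

end XiA

end Pool.Agent.Helper35.FP
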