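import Pool.Agent.Helper35.FP.SD

/-!
# Project FP/TZ, block XL: lifted operators `liftO Y`

`liftO Y` for `Y` commuting with the functions on `𝔾 / Q`: `τ F x ↦ τ F (Y x)`. Bound: for `q x = Σ ⟪x i, Xi ⟪F i, F j⟫ x j⟫` and `D = Y* Y`: `q (Y x) = ⟨x, P D x⟩ ≤ q(x)^(1/2) q(D x)^(1/2)`, iterate (or use square roots of
positive operators and `Commute`). Positivity: `Y = Z²`, `Z = sqrt Y` commutes with the functions too.
-/

set_option autoImplicit false
set_option linter.unusedSectionVars false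

open Filter Topology

namespace Pool.Agent.Helper35.FP

variable {𝔾 𝕊 : Type} [Group 𝔾] [TopologicalSpace 𝔾] [IsTopologicalGroup 𝔾] [Group 𝕊] [TopologicalSpace 𝕊] [IsTopologicalGroup 𝕊]
  {𝕂 : Subgroup 𝕊} {geo : Geo 𝔾 𝕊 𝕂} {G S' H U : Type} [Group G] [Group S'] [TopologicalSpace S'] [IsTopologicalGroup S']
  [NormedAddCommGroup H] [InnerProductSpace ℂ H] [CompleteSpace H]
  [NormedAddCommGroup U] [InnerProductSpace ℂ U] [CompleteSpace U]

private theorem exists_sqrt02 (D : H →L[ℂ] H) (hs : ∀ x x', (inner ℂ (D x) x' : ℂ) = inner ℂ x (D x'))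
    (hp : ∀ x, 0 ≤ (inner ℂ x (D x) : ℂ).re) :
    ∃ Z : H →L[ℂ] H, (∀ x x', (inner ℂ (Z x) x' : ℂ) = inner ℂ x (Z x')) ∧ (∀ x, Z (Z x) = D x) ∧
      ∀ A : H →L[ℂ] H, (∀ x, A (D x) = D (A x)) → ∀ x, A (Z x) = Z (A x) := by
  have h0 : 0 ≤ D := by
    rw [ContinuousLinearMap.nonneg_iff_isPositive]
    refine ⟨fun x x' => hs x x', fun x => ?_⟩
    have h1 := hp x
    rw [← hs] at h1
    exact h1
  refine ⟨CFC.sqrt D, ?_, ?_, ?_⟩
  · have h1 := CFC.sqrt_nonneg D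
    rw [ContinuousLinearMap.nonneg_iff_isPositive] at h1
    exact fun x x' => h1.1 x x'
  · intro x
    exact congrArg (fun T : H →L[ℂ] H => T x) (CFC.sqrt_mul_sqrt_self D h0)
  · intro A hA x
    have h1 : Commute D A := by
      refine ContinuousLinearMap.ext fun x => ?_
      exact (hA x).symm
    have h2 : Commute (CFC.sqrt D) A := Commute.cfcₙ_nnreal h1 _
    exact (congrArg (fun T : H →L[ℂ] H => T x) h2.eq).symm

private theorem nsq02 {K : Type} [NormedAddCommGroup K] [InnerProductSpace ℂ K] (z : K) :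
    (inner ℂ z z : ℂ) = ((‖z‖ ^ 2 : ℝ) : ℂ) := by
  rw [inner_self_eq_norm_sq_to_K]
  norm_cast

private theorem gram_ineq02 {ι K K' K'' : Type} [NormedAddCommGroup K] [InnerProductSpace ℂ K]
    [NormedAddCommGroup K'] [InnerProductSpace ℂ K'] [NormedAddCommGroup K''] [InnerProductSpace ℂ K'']
    {v : ι → K} {w : ι → K'} {u : ι → K''} {a : ℝ} (ha : 0 ≤ a)
    (h : ∀ p q, (a : ℂ) ^ 2 * inner ℂ (v p) (v q) = inner ℂ (w p) (w q) + (inner ℂ (u p) (u q) : ℂ))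
    (s : Finset ι) (c : ι → ℂ) : ‖∑ i ∈ s, c i • w i‖ ≤ a * ‖∑ i ∈ s, c i • v i‖ := by
  have key : (a : ℂ) ^ 2 * inner ℂ (∑ i ∈ s, c i • v i) (∑ i ∈ s, c i • v i) =
      inner ℂ (∑ i ∈ s, c i • w i) (∑ i ∈ s, c i • w i) +
        (inner ℂ (∑ i ∈ s, c i • u i) (∑ i ∈ s, c i • u i) : ℂ) := by
    rw [sum_inner, sum_inner, sum_inner, Finset.mul_sum, ← Finset.sum_add_distrib]
    refine Finset.sum_congr rfl fun p _ => ?_
    rw [inner_sum, inner_sum, inner_sum, Finset.mul_sum, ← Finset.sum_add_distrib]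
    refine Finset.sum_congr rfl fun q _ => ?_
    rw [inner_smul_left, inner_smul_left, inner_smul_left, inner_smul_right, inner_smul_right,
      inner_smul_right]
    linear_combination ((starRingEnd ℂ) (c p) * c q) * h p q
  have key' : a ^ 2 * ‖∑ i ∈ s, c i • v i‖ ^ 2 = ‖∑ i ∈ s, c i • w i‖ ^ 2 + ‖∑ i ∈ s, c i • u i‖ ^ 2 := by
    rw [nsq02, nsq02, nsq02] at key
    have h1 : ((a ^ 2 * ‖∑ i ∈ s, c i • v i‖ ^ 2 : ℝ) : ℂ) =
        ((‖∑ i ∈ s, c i • w i‖ ^ 2 + ‖∑ i ∈ s, c i • u i‖ ^ 2 : ℝ) : ℂ) := by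
      rw [Complex.ofReal_mul, Complex.ofReal_add, Complex.ofReal_pow a 2]
      exact key
    exact Complex.ofReal_injective h1
  refine le_of_sq_le_sq ?_ (by positivity)
  rw [mul_pow, key']
  exact le_add_of_nonneg_right (by positivity)

section LiftO

variable (B : BD geo G S' H U) {L L' : Type} [NormedAddCommGroup L] [InnerProductSpace ℂ L]
  [NormedAddCommGroup L'] [InnerProductSpace ℂ L'] (ρ : Rp 𝕊 L) {ρ' : Rp 𝕊 L'}

/-- The operators which commute with the functions on `𝔾 / Q`. -/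
def BD.CPhiO (Y : H →L[ℂ] H) : Prop := ∀ f : 𝔾 → ℂ, Yf geo f → ∀ x, Y (B.Xi f x) = B.Xi f (Y x)

private theorem cphiO_adj02 {Y : H →L[ℂ] H} (hY : B.CPhiO Y) : B.CPhiO (ContinuousLinearMap.adjoint Y) := by
  intro f hf x
  refine ext_inner_right ℂ fun y => ?_
  have hf' : Yf geo fun g => (starRingEnd ℂ) (f g) :=
    ⟨Complex.continuous_conj.comp hf.cont, fun g q => by rw [hf.inv g q]⟩
  rw [ContinuousLinearMap.adjoint_inner_left, B.Xi_star hf.bf, B.Xi_star hf.bf, ContinuousLinearMap.adjoint_inner_left,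
    hY _ hf']

theorem exists_liftO (Y : H →L[ℂ] H) (hY : B.CPhiO Y) : ∃ C : Kt B ρ →L[ℂ] Kt B ρ, ‖C‖ ≤ ‖Y‖ ∧
    ∀ (F : Sec geo ρ) (x : H), C (tau B F x) = tau B F (Y x) := by
  have hY' : B.CPhiO (ContinuousLinearMap.adjoint Y) := cphiO_adj02 B hY
  set D : H →L[ℂ] H := ((‖Y‖ : ℂ) ^ 2) • ContinuousLinearMap.id ℂ H - (ContinuousLinearMap.adjoint Y).comp Y with hD
  have hDx : ∀ x, D x = ((‖Y‖ : ℂ) ^ 2) • x - ContinuousLinearMap.adjoint Y (Y x) := fun x => rfl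
  obtain ⟨Z, hZs, hZ2, hZc⟩ := exists_sqrt02 D (by
    intro x x'
    rw [hDx, hDx, inner_sub_left, inner_sub_right, inner_smul_left, inner_smul_right,
      ContinuousLinearMap.adjoint_inner_left, ContinuousLinearMap.adjoint_inner_right, map_pow,
      Complex.conj_ofReal]) (by
    intro x
    rw [hDx, inner_sub_right, inner_smul_right, ContinuousLinearMap.adjoint_inner_right, nsq02, nsq02]
    have h1 : ‖Y x‖ ^ 2 ≤ (‖Y‖ * ‖x‖) ^ 2 := pow_le_pow_left₀ (norm_nonneg _) (Y.le_opNorm x) 2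
    have h2 : ((((‖Y‖ : ℂ) ^ 2) * ((‖x‖ ^ 2 : ℝ) : ℂ) - ((‖Y x‖ ^ 2 : ℝ) : ℂ)) : ℂ) =
        (((‖Y‖ * ‖x‖) ^ 2 - ‖Y x‖ ^ 2 : ℝ) : ℂ) := by
      push_cast
      ring
    have h3 := congrArg Complex.re h2
    rw [Complex.ofReal_re] at h3
    refine le_of_le_of_eq ?_ h3.symm
    linarith)
  have hZ : ∀ f : 𝔾 → ℂ, Yf geo f → ∀ x, B.Xi f (Z x) = Z (B.Xi f x) := by
    intro f hf
    refine hZc (B.Xi f) fun x => ?_
    rw [hDx, hDx, map_sub, map_smul, hY f hf, hY' f hf]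
  obtain ⟨A, hA1, hA⟩ := gram_clm (tot_tau B ρ) (fun p : Sec geo ρ × H => tau B p.1 (Y p.2)) (norm_nonneg Y)
    (gram_ineq02 (u := fun p : Sec geo ρ × H => tau B p.1 (Z p.2)) (norm_nonneg Y) (by
      intro p q
      have hf := Sec.inner_yf p.1 q.1
      rw [inner_tau, inner_tau, inner_tau, hZs, ← hZ _ hf, hZ2, hDx, map_sub, map_smul, inner_sub_right,
        inner_smul_right, ← ContinuousLinearMap.adjoint_inner_right Y p.2, hY' _ hf]
      ring))
  exact ⟨A, hA1, fun F x => hA (F, x)⟩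

open Classical in
/-- The lift of an operator which commutes with the functions on `𝔾 / Q`. -/
noncomputable def liftO (Y : H →L[ℂ] H) : Kt B ρ →L[ℂ] Kt B ρ := if h : B.CPhiO Y then (exists_liftO B ρ Y h).choose else 0

variable {Y Y' : H →L[ℂ] H}

theorem liftO_tau (hY : B.CPhiO Y) (F : Sec geo ρ) (x : H) : liftO B ρ Y (tau B F x) = tau B F (Y x) := by
  unfold liftO
  rw [dif_pos hY]
  exact (exists_liftO B ρ Y hY).choose_spec.2 F x

theorem norm_liftO (hY : B.CPhiO Y) : ‖liftO B ρ Y‖ ≤ ‖Y‖ := by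
  unfold liftO
  rw [dif_pos hY]
  exact (exists_liftO B ρ Y hY).choose_spec.1

theorem liftO_comp (hY : B.CPhiO Y) (hY' : B.CPhiO Y') (y : Kt B ρ) : liftO B ρ (Y.comp Y') y = liftO B ρ Y (liftO B ρ Y' y) := by
  have hc : B.CPhiO (Y.comp Y') := fun f hf x => by
    change Y (Y' (B.Xi f x)) = B.Xi f (Y (Y' x))
    rw [hY' f hf, hY f hf]
  have h : liftO B ρ (Y.comp Y') = (liftO B ρ Y).comp (liftO B ρ Y') := by
    refine ext_tot (tot_tau B ρ) fun p => ?_
    change liftO B ρ (Y.comp Y') (tau B p.1 p.2) = liftO B ρ Y (liftO B ρ Y' (tau B p.1 p.2))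
    rw [liftO_tau B ρ hc, liftO_tau B ρ hY', liftO_tau B ρ hY]
    rfl
  exact DFunLike.congr_fun h y

theorem liftO_one (y : Kt B ρ) : liftO B ρ (ContinuousLinearMap.id ℂ H) y = y := by
  have hc : B.CPhiO (ContinuousLinearMap.id ℂ H) := fun f _ x => rfl
  have h : liftO B ρ (ContinuousLinearMap.id ℂ H) = ContinuousLinearMap.id ℂ (Kt B ρ) := by
    refine ext_tot (tot_tau B ρ) fun p => ?_
    rw [liftO_tau B ρ hc]
    rfl
  exact DFunLike.congr_fun h y

theorem liftO_add (hY : B.CPhiO Y) (hY' : B.CPhiO Y') (y : Kt B ρ) : liftO B ρ (Y + Y') y = liftO B ρ Y y + liftO B ρ Y' y := by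
  have hc : B.CPhiO (Y + Y') := fun f hf x => by
    change Y (B.Xi f x) + Y' (B.Xi f x) = B.Xi f (Y x + Y' x)
    rw [hY' f hf, hY f hf, map_add]
  have h : liftO B ρ (Y + Y') = liftO B ρ Y + liftO B ρ Y' := by
    refine ext_tot (tot_tau B ρ) fun p => ?_
    change liftO B ρ (Y + Y') (tau B p.1 p.2) = liftO B ρ Y (tau B p.1 p.2) + liftO B ρ Y' (tau B p.1 p.2)
    rw [liftO_tau B ρ hc, liftO_tau B ρ hY', liftO_tau B ρ hY, ← map_add]
    rfl
  exact DFunLike.congr_fun h y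

theorem liftO_smul (hY : B.CPhiO Y) (c : ℂ) (y : Kt B ρ) : liftO B ρ (c • Y) y = c • liftO B ρ Y y := by
  have hc : B.CPhiO (c • Y) := fun f hf x => by
    change c • Y (B.Xi f x) = B.Xi f (c • Y x)
    rw [hY f hf, map_smul]
  have h : liftO B ρ (c • Y) = c • liftO B ρ Y := by
    refine ext_tot (tot_tau B ρ) fun p => ?_
    change liftO B ρ (c • Y) (tau B p.1 p.2) = c • liftO B ρ Y (tau B p.1 p.2)
    rw [liftO_tau B ρ hc, liftO_tau B ρ hY, ← map_smul]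
    rfl
  exact DFunLike.congr_fun h y

theorem CPhiO_adjoint (hY : B.CPhiO Y) : B.CPhiO (ContinuousLinearMap.adjoint Y) := by
  exact cphiO_adj02 B hY

theorem liftO_adj (hY : B.CPhiO Y) (y y' : Kt B ρ) :
    (inner ℂ (liftO B ρ Y y) y' : ℂ) = inner ℂ y (liftO B ρ (ContinuousLinearMap.adjoint Y) y') := by
  have h1 : ContinuousLinearMap.adjoint (liftO B ρ Y) = liftO B ρ (ContinuousLinearMap.adjoint Y) := by
    refine ext_tot (tot_tau B ρ) fun p' => ?_
    refine sub_eq_zero.1 (tot_tau B ρ _ fun p => ?_)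
    rw [inner_sub_right, ContinuousLinearMap.adjoint_inner_right, liftO_tau B ρ hY, liftO_tau B ρ (cphiO_adj02 B hY),
      inner_tau, inner_tau, ← cphiO_adj02 B hY _ (Sec.inner_yf p.1 p'.1), ContinuousLinearMap.adjoint_inner_right,
      sub_self]
  rw [← h1, ContinuousLinearMap.adjoint_inner_right]

theorem liftO_pos (hY : B.CPhiO Y) (hs : ∀ x x', (inner ℂ (Y x) x' : ℂ) = inner ℂ x (Y x')) (hp : ∀ x, 0 ≤ (inner ℂ x (Y x) : ℂ).re)
    (y : Kt B ρ) : 0 ≤ (inner ℂ y (liftO B ρ Y y) : ℂ).re := by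
  obtain ⟨Z, hZs, hZ2, hZc⟩ := exists_sqrt02 Y hs hp
  have hZ : B.CPhiO Z := fun f hf x => (hZc (B.Xi f) (fun x => (hY f hf x).symm) x).symm
  have hYZ : Y = Z.comp Z := ContinuousLinearMap.ext fun x => (hZ2 x).symm
  have hZa : ContinuousLinearMap.adjoint Z = Z := by
    refine ContinuousLinearMap.ext fun x => ext_inner_left ℂ fun z => ?_
    rw [ContinuousLinearMap.adjoint_inner_right, hZs]
  have h1 : (inner ℂ y (liftO B ρ Y y) : ℂ) = inner ℂ (liftO B ρ Z y) (liftO B ρ Z y) := by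
    rw [hYZ, liftO_comp B ρ hZ hZ, liftO_adj B ρ hZ, hZa]
  rw [h1, nsq02, Complex.ofReal_re]
  positivity

theorem liftO_mulF (hY : B.CPhiO Y) (o : Fd geo ρ ρ') (y : Kt B ρ) : liftO B ρ' Y (mulF B o y) = mulF B o (liftO B ρ Y y) := by
  have h : (liftO B ρ' Y).comp (mulF B o) = (mulF B o).comp (liftO B ρ Y) := by
    refine ext_tot (tot_tau B ρ) fun p => ?_
    change liftO B ρ' Y (mulF B o (tau B p.1 p.2)) = mulF B o (liftO B ρ Y (tau B p.1 p.2))
    rw [mulF_tau, liftO_tau B ρ' hY, liftO_tau B ρ hY, mulF_tau]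
  exact DFunLike.congr_fun h y

/-- Lifts of unitaries. -/
theorem liftO_lift (hY : B.CPhiO Y) {c : H ≃ₗᵢ[ℂ] H} (hc : B.CPhi c) (h : ∀ x, Y' (c x) = c (Y x)) (y : Kt B ρ) :
    liftO B ρ Y' (lift B ρ c y) = lift B ρ c (liftO B ρ Y y) := by
  have hY' : B.CPhiO Y' := by
    intro f hf x
    obtain ⟨z, rfl⟩ := c.surjective x
    rw [← hc f hf, h, hY f hf, hc f hf, h]
  have h1 : (liftO B ρ Y').comp (lift B ρ c).toContinuousLinearEquiv.toContinuousLinearMap =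
      (lift B ρ c).toContinuousLinearEquiv.toContinuousLinearMap.comp (liftO B ρ Y) := by
    refine ext_tot (tot_tau B ρ) fun p => ?_
    change liftO B ρ Y' (lift B ρ c (tau B p.1 p.2)) = lift B ρ c (liftO B ρ Y (tau B p.1 p.2))
    rw [lift_tau B ρ hc, liftO_tau B ρ hY', liftO_tau B ρ hY, lift_tau B ρ hc, h]
  exact DFunLike.congr_fun h1 y

theorem liftO_WK (hY : B.CPhiO Y) (k : G) (h : ∀ x, Y' (B.W k x) = B.W k (Y x)) (y : Kt B ρ) :
    liftO B ρ Y' (WK B ρ k y) = WK B ρ k (liftO B ρ Y y) := by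
  have hY' : B.CPhiO Y' := by
    intro f hf x
    obtain ⟨z, rfl⟩ := (B.W k).surjective x
    have hf' : Yf geo fun g => f (B.ir k * g) :=
      ⟨hf.cont.comp (continuous_const_mul _), fun g q => by rw [← mul_assoc, hf.inv]⟩
    have h2 : ∀ z, B.Xi f (B.W k z) = B.W k (B.Xi (fun g => f (B.ir k * g)) z) := by
      intro z
      have h3 := B.Xi_cov k hf'.bf z
      simp only [mul_inv_cancel_left] at h3
      exact h3
    rw [h2, h, hY _ hf', ← h2, h]
  have h1 : (liftO B ρ Y').comp (WK B ρ k).toContinuousLinearEquiv.toContinuousLinearMap =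
      (WK B ρ k).toContinuousLinearEquiv.toContinuousLinearMap.comp (liftO B ρ Y) := by
    refine ext_tot (tot_tau B ρ) fun p => ?_
    change liftO B ρ Y' (WK B ρ k (tau B p.1 p.2)) = WK B ρ k (liftO B ρ Y (tau B p.1 p.2))
    rw [WK_tau, liftO_tau B ρ hY', liftO_tau B ρ hY, WK_tau, h]
  exact DFunLike.congr_fun h1 y

end LiftO

end Pool.Agent.Helper35.FP
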