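import Pool.Agent.Helper35.FP.LAM
import Pool.Agent.Helper35.FP.XA
import Pool.Agent.Helper35.FP.XL

/-!
# Project TZ, block JD: the Levi algebra on `HH = Kt B (lam μ)`

`rt μ h`: right translation of `L²(𝕊)` (`μ` also right invariant). `WW h = push (rt h)`, `Vt s = lift (B.V s)` (on every `Kt B ρ`). `Kap geo`: bounded continuous functions `κ` of `𝔾 × 𝕊` with `κ (g q) s = κ g (nb q s)`
(functions on `𝔾 / ker nb`), `mulK κ`: the field of the multiplications by `κ g`. `Rg`: the operators `WK k`, `lift c`, `lift c⁻¹` (`c ∈ CC`), `mulF (mulK κ)`; `JJ` its commutant.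
`Vt_JJ`, `WW_JJ`: `VCC`, `VW`, `mulF_lift`; `WW h mulF (mulK κ) WW h⁻¹ = mulF (mulK (κ.tr h))`, `κ.tr h g s = κ g (s h)`.
-/

set_option autoImplicit false
set_option linter.unusedSectionVars false

open Filter Topology MeasureTheory

namespace Pool.Agent.Helper35.FP

variable {𝔾 𝕊 : Type} [Group 𝔾] [TopologicalSpace 𝔾] [IsTopologicalGroup 𝔾] [Group 𝕊] [TopologicalSpace 𝕊] [IsTopologicalGroup 𝕊]
  {𝕂 : Subgroup 𝕊} {geo : Geo 𝔾 𝕊 𝕂} {G S' H U : Type} [Group G] [Group S'] [TopologicalSpace S'] [IsTopologicalGroup S']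
  [NormedAddCommGroup H] [InnerProductSpace ℂ H] [CompleteSpace H]
  [NormedAddCommGroup U] [InnerProductSpace ℂ U] [CompleteSpace U]

/-- Functions on `𝔾 / ker nb`. -/
structure Kap (geo : Geo 𝔾 𝕊 𝕂) where
  /-- the function -/
  k : 𝔾 → 𝕊 → ℂ
  cont : Continuous fun p : 𝔾 × 𝕊 => k p.1 p.2
  inv : ∀ (g : 𝔾) (q : geo.Q) (s : 𝕊), k (g * q) s = k g (geo.nb q * s)
  bdd : ∃ C : ℝ, 0 ≤ C ∧ ∀ g s, ‖k g s‖ ≤ C

/-- Right translation. -/
def Kap.tr (κ : Kap geo) (h : 𝕊) : Kap geo where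
  k g s := κ.k g (s * h)
  cont := κ.cont.comp (continuous_fst.prodMk (continuous_snd.mul continuous_const))
  inv g q s := by rw [κ.inv, mul_assoc]
  bdd := by
    obtain ⟨C, h0, hC⟩ := κ.bdd
    exact ⟨C, h0, fun g s => hC g _⟩

/-- Complex conjugation. -/
def Kap.conj (κ : Kap geo) : Kap geo where
  k g s := (starRingEnd ℂ) (κ.k g s)
  cont := Complex.continuous_conj.comp κ.cont
  inv g q s := by rw [κ.inv]
  bdd := by
    obtain ⟨C, h0, hC⟩ := κ.bdd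
    exact ⟨C, h0, fun g s => by rw [RCLike.norm_conj]; exact hC g s⟩

/-- Products. -/
def Kap.mul (κ κ' : Kap geo) : Kap geo where
  k g s := κ.k g s * κ'.k g s
  cont := κ.cont.mul κ'.cont
  inv g q s := by rw [κ.inv, κ'.inv]
  bdd := by
    obtain ⟨C, h0, hC⟩ := κ.bdd
    obtain ⟨C', h0', hC'⟩ := κ'.bdd
    exact ⟨C * C', mul_nonneg h0 h0', fun g s => by
      rw [norm_mul]
      exact mul_le_mul (hC g s) (hC' g s) (norm_nonneg _) h0⟩

variable [MeasurableSpace 𝕊] [BorelSpace 𝕊]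
  [SecondCountableTopology 𝕊] [LocallyCompactSpace 𝕊] [T2Space 𝕊] (μ : Measure 𝕊) [μ.IsHaarMeasure] [μ.IsMulRightInvariant]

private theorem joint38 {K Z : Type} [NormedAddCommGroup K] [InnerProductSpace ℂ K] [TopologicalSpace Z]
    (A : Z → (K ≃ₗᵢ[ℂ] K)) (h : ∀ y, Continuous fun s => A s y) {y : Z → K} (hy : Continuous y) : Continuous fun s => A s (y s) := by
  rw [continuous_iff_continuousAt]
  intro t
  have h1 : Tendsto (fun s => A s (y s - y t)) (𝓝 t) (𝓝 0) := by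
    rw [tendsto_zero_iff_norm_tendsto_zero]
    simp only [LinearIsometryEquiv.norm_map]
    rw [← tendsto_zero_iff_norm_tendsto_zero]
    have h2 := (hy.tendsto t).sub_const (y t)
    rwa [sub_self] at h2
  have h3 : Tendsto (fun s => A s (y t)) (𝓝 t) (𝓝 (A t (y t))) := (h (y t)).tendsto t
  have h4 := h1.add h3
  rw [zero_add] at h4
  refine h4.congr fun s => ?_
  rw [map_sub, sub_add_cancel]

private theorem strong38 {ι K Z : Type} [NormedAddCommGroup K] [InnerProductSpace ℂ K] [CompleteSpace K] [TopologicalSpace Z]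
    {v : ι → K} (hv : Tot v) (A : Z → (K ≃ₗᵢ[ℂ] K)) (h : ∀ i, Continuous fun s => A s (v i)) (y : K) : Continuous fun s => A s y := by
  let S : Submodule ℂ K :=
    { carrier := {y | Continuous fun s => A s y}
      add_mem' := fun {a b} ha hb => by
        have h1 : Continuous fun s => A s a + A s b := Continuous.add ha hb
        exact h1.congr fun s => (map_add (A s) a b).symm
      zero_mem' := by
        have h1 : Continuous fun _ : Z => (0 : K) := continuous_const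
        exact h1.congr fun s => (map_zero (A s)).symm
      smul_mem' := fun c a ha => by
        have h1 : Continuous fun s => c • A s a := Continuous.const_smul ha c
        exact h1.congr fun s => (map_smul (A s) c a).symm }
  have hS : S.topologicalClosure = ⊤ := by
    rw [Submodule.topologicalClosure_eq_top_iff, Submodule.eq_bot_iff]
    intro z hz
    exact hv z fun i => (Submodule.mem_orthogonal _ _).1 hz _ (h i)
  have hd : Dense (S : Set K) := Submodule.dense_iff_topologicalClosure_eq_top.2 hS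
  refine continuous_of_uniform_approx_of_continuous fun u hu => ?_
  obtain ⟨ε, hε, hu⟩ := Metric.mem_uniformity_dist.1 hu
  obtain ⟨z, hz, hzy⟩ := Metric.dense_iff.1 hd y ε hε
  refine ⟨fun s => A s z, hzy, fun s => hu ?_⟩
  rw [(A s).dist_map, dist_comm]
  exact hz

private theorem mulcont38 (κ : Kap geo) {C : ℝ} (h0 : 0 ≤ C) (M : 𝔾 → (Lp ℂ 2 μ →L[ℂ] Lp ℂ 2 μ))
    (hM : ∀ g (f : Lp ℂ 2 μ), (M g f : 𝕊 → ℂ) =ᵐ[μ] fun s => κ.k g s * (f : 𝕊 → ℂ) s) (hMn : ∀ g (f : Lp ℂ 2 μ), ‖M g f‖ ≤ C * ‖f‖)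
    (f : Lp ℂ 2 μ) : Continuous fun g => M g f := by
  rw [continuous_iff_continuousAt]
  intro g0
  rw [ContinuousAt, Metric.tendsto_nhds]
  intro ε hε
  have hδ : 0 < ε / (4 * (C + 1)) := by positivity
  obtain ⟨u, hu, hfu, huc, hum⟩ := (Lp.memLp f).exists_hasCompactSupport_eLpNorm_sub_le (by simp)
    (ε := ENNReal.ofReal (ε / (4 * (C + 1)))) (by simpa using hδ)
  set u' : Lp ℂ 2 μ := hum.toLp u with hu'
  have h1 : ‖f - u'‖ ≤ ε / (4 * (C + 1)) := by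
    rw [Lp.norm_def]
    refine ENNReal.toReal_le_of_le_ofReal hδ.le ?_
    refine le_trans (le_of_eq (eLpNorm_congr_ae ?_)) hfu
    filter_upwards [Lp.coeFn_sub f u', hum.coeFn_toLp] with s e1 e2
    rw [e1, Pi.sub_apply, Pi.sub_apply, e2]
  have hη : 0 < ε / (4 * (‖u'‖ + 1)) := by positivity
  have h2 : ∀ᶠ g in 𝓝 g0, ∀ s ∈ tsupport u, ‖κ.k g s - κ.k g0 s‖ < ε / (4 * (‖u'‖ + 1)) := by
    refine IsCompact.eventually_forall_of_forall_eventually hu fun s _ => ?_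
    have h3 : Continuous fun z : 𝔾 × 𝕊 => ‖κ.k z.1 z.2 - κ.k g0 z.2‖ :=
      (κ.cont.sub (κ.cont.comp (continuous_const.prodMk continuous_snd))).norm
    have h4 : Tendsto (fun z : 𝔾 × 𝕊 => ‖κ.k z.1 z.2 - κ.k g0 z.2‖) (𝓝 (g0, s)) (𝓝 0) := by
      have := h3.tendsto (g0, s)
      simpa using this
    exact h4.eventually (gt_mem_nhds hη)
  filter_upwards [h2] with g hg
  have h3 : ‖M g u' - M g0 u'‖ ≤ ε / (4 * (‖u'‖ + 1)) * ‖u'‖ := by
    refine Lp.norm_le_mul_norm_of_ae_le_mul ?_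
    filter_upwards [Lp.coeFn_sub (M g u') (M g0 u'), hM g u', hM g0 u', hum.coeFn_toLp] with s e1 e2 e3 e4
    rw [e1, Pi.sub_apply, e2, e3, ← sub_mul, norm_mul]
    by_cases hs : s ∈ tsupport u
    · exact mul_le_mul_of_nonneg_right (hg s hs).le (norm_nonneg _)
    · have e5 : (u' : 𝕊 → ℂ) s = 0 := by
        rw [e4]
        exact image_eq_zero_of_notMem_tsupport hs
      rw [e5]
      simp
  have h4 : ε / (4 * (‖u'‖ + 1)) * ‖u'‖ ≤ ε / 4 := by
    rw [div_mul_eq_mul_div, div_le_div_iff₀ (by positivity) (by norm_num)]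
    nlinarith [norm_nonneg u']
  have h5 : C * ‖f - u'‖ ≤ ε / 4 := by
    refine (mul_le_mul_of_nonneg_left h1 h0).trans ?_
    rw [mul_div_assoc', div_le_div_iff₀ (by positivity) (by norm_num)]
    nlinarith
  have h6 := (hMn g (f - u')).trans h5
  have h7 := (hMn g0 (f - u')).trans h5
  rw [dist_eq_norm]
  have h8 : M g f - M g0 f = M g (f - u') + (M g u' - M g0 u') - M g0 (f - u') := by
    rw [map_sub, map_sub]
    abel
  rw [h8]
  have h9 := norm_sub_le (M g (f - u') + (M g u' - M g0 u')) (M g0 (f - u'))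
  have h10 := norm_add_le (M g (f - u')) (M g u' - M g0 u')
  linarith

theorem exists_rt : ∃ R : 𝕊 →* (Lp ℂ 2 μ ≃ₗᵢ[ℂ] Lp ℂ 2 μ),
    (∀ (h : 𝕊) (f : Lp ℂ 2 μ), (R h f : 𝕊 → ℂ) =ᵐ[μ] fun s => (f : 𝕊 → ℂ) (s * h)) ∧ ∀ f, Continuous fun h => R h f := by
  let r : 𝕊 → (Lp ℂ 2 μ →ₗᵢ[ℂ] Lp ℂ 2 μ) := fun h =>
    Lp.compMeasurePreservingₗᵢ ℂ (fun s => s * h) (measurePreserving_mul_right μ h)
  have hr : ∀ (h : 𝕊) (f : Lp ℂ 2 μ), (r h f : 𝕊 → ℂ) =ᵐ[μ] fun s => (f : 𝕊 → ℂ) (s * h) := fun h f =>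
    Lp.coeFn_compMeasurePreserving f (measurePreserving_mul_right μ h)
  have hmul : ∀ h h' f, r (h * h') f = r h (r h' f) := by
    intro h h' f
    refine Lp.ext ?_
    have h3 := (measurePreserving_mul_right μ h).quasiMeasurePreserving.ae_eq_comp (hr h' f)
    filter_upwards [hr (h * h') f, hr h (r h' f), h3] with s e1 e2 e3
    have e4 : ((r h' f : Lp ℂ 2 μ) : 𝕊 → ℂ) (s * h) = (f : 𝕊 → ℂ) (s * h * h') := e3
    rw [e1, e2, e4, mul_assoc]
  have hone : ∀ f, r 1 f = f := by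
    intro f
    refine Lp.ext ?_
    filter_upwards [hr 1 f] with s e1
    rw [e1, mul_one]
  have hs : ∀ h : 𝕊, Function.Surjective (r h) := fun h f => ⟨r h⁻¹ f, by rw [← hmul, mul_inv_cancel, hone]⟩
  refine ⟨MonoidHom.mk' (fun h => LinearIsometryEquiv.ofSurjective (r h) (hs h)) fun s t => ?_, hr, fun f => ?_⟩
  · exact LinearIsometryEquiv.ext fun f => hmul s t f
  · have hc : Continuous fun h : 𝕊 => (⟨fun s => s * h, continuous_mul_const h⟩ : C(𝕊, 𝕊)) :=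
      ContinuousMap.continuous_of_continuous_uncurry _ (continuous_snd.mul continuous_fst)
    exact Continuous.compMeasurePreservingLp (p := 2) (f := fun _ : 𝕊 => f) continuous_const hc (fun h => measurePreserving_mul_right μ h) (by simp)

/-- Right translations. -/
noncomputable def rt : 𝕊 →* (Lp ℂ 2 μ ≃ₗᵢ[ℂ] Lp ℂ 2 μ) := (exists_rt μ).choose

theorem rt_apply (h : 𝕊) (f : Lp ℂ 2 μ) : (rt μ h f : 𝕊 → ℂ) =ᵐ[μ] fun s => (f : 𝕊 → ℂ) (s * h) := (exists_rt μ).choose_spec.1 h f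

theorem rt_cont (f : Lp ℂ 2 μ) : Continuous fun h => rt μ h f := (exists_rt μ).choose_spec.2 f

theorem rt_itw (h : 𝕊) : Itw (lam μ) (lam μ) ((rt μ h).toContinuousLinearEquiv : Lp ℂ 2 μ →L[ℂ] Lp ℂ 2 μ) := by
  intro s f
  change rt μ h ((lam μ).U s f) = (lam μ).U s (rt μ h f)
  refine Lp.ext ?_
  have h1 : ∀ f : Lp ℂ 2 μ, ((lam μ).U s f : 𝕊 → ℂ) =ᵐ[μ] fun t => (f : 𝕊 → ℂ) (s⁻¹ * t) := fun f => ind_apply μ (triv ℂ) s f
  have h3 := (measurePreserving_mul_right μ h).quasiMeasurePreserving.ae_eq_comp (h1 f)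
  have h4 := (measurePreserving_mul_left μ s⁻¹).quasiMeasurePreserving.ae_eq_comp (rt_apply μ h f)
  filter_upwards [rt_apply μ h ((lam μ).U s f), h1 (rt μ h f), h3, h4] with t e1 e2 e3 e4
  have e5 : (((lam μ).U s f : Lp ℂ 2 μ) : 𝕊 → ℂ) (t * h) = (f : 𝕊 → ℂ) (s⁻¹ * (t * h)) := e3
  have e6 : ((rt μ h f : Lp ℂ 2 μ) : 𝕊 → ℂ) (s⁻¹ * t) = (f : 𝕊 → ℂ) (s⁻¹ * t * h) := e4
  rw [e1, e2, e5, e6, mul_assoc]

theorem exists_mulK (κ : Kap geo) : ∃ o : Fd geo (lam μ) (lam μ), (∀ g (f : Lp ℂ 2 μ), (o.O g f : 𝕊 → ℂ) =ᵐ[μ] fun s => κ.k g s * (f : 𝕊 → ℂ) s) ∧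
    ∀ C : ℝ, 0 ≤ C → (∀ g s, ‖κ.k g s‖ ≤ C) → ∀ g, ‖o.O g‖ ≤ C := by
  obtain ⟨C, h0, hC⟩ := κ.bdd
  have hm : ∀ g, Continuous (κ.k g) := fun g => κ.cont.comp (continuous_const.prodMk continuous_id)
  have hmem : ∀ g (f : Lp ℂ 2 μ), MemLp (fun s => κ.k g s * (f : 𝕊 → ℂ) s) 2 μ := fun g f =>
    (Lp.memLp f).of_le_mul (c := C) ((hm g).aestronglyMeasurable.mul (Lp.aestronglyMeasurable f)) (ae_of_all _ fun s => by
      rw [norm_mul]
      exact mul_le_mul_of_nonneg_right (hC g s) (norm_nonneg _))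
  have hb : ∀ (D : ℝ), (∀ g s, ‖κ.k g s‖ ≤ D) → ∀ g (f : Lp ℂ 2 μ), ‖(hmem g f).toLp _‖ ≤ D * ‖f‖ := by
    intro D hD g f
    refine Lp.norm_le_mul_norm_of_ae_le_mul ?_
    filter_upwards [(hmem g f).coeFn_toLp] with s e1
    rw [e1, norm_mul]
    exact mul_le_mul_of_nonneg_right (hD g s) (norm_nonneg _)
  let M : 𝔾 → (Lp ℂ 2 μ →L[ℂ] Lp ℂ 2 μ) := fun g => LinearMap.mkContinuous
    { toFun := fun f => (hmem g f).toLp _
      map_add' := fun f f' => by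
        refine Lp.ext ?_
        filter_upwards [(hmem g (f + f')).coeFn_toLp, Lp.coeFn_add f f', (hmem g f).coeFn_toLp, (hmem g f').coeFn_toLp,
          Lp.coeFn_add ((hmem g f).toLp _) ((hmem g f').toLp _)] with s e1 e2 e3 e4 e5
        rw [e1, e5, e2, Pi.add_apply, Pi.add_apply, e3, e4, mul_add]
      map_smul' := fun c f => by
        refine Lp.ext ?_
        filter_upwards [(hmem g (c • f)).coeFn_toLp, Lp.coeFn_smul c f, (hmem g f).coeFn_toLp,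
          Lp.coeFn_smul c ((hmem g f).toLp _)] with s e1 e2 e3 e4
        rw [RingHom.id_apply, e1, e4, e2, Pi.smul_apply, Pi.smul_apply, e3, smul_eq_mul, smul_eq_mul]
        ring } C (hb C hC g)
  have hM : ∀ g (f : Lp ℂ 2 μ), (M g f : 𝕊 → ℂ) =ᵐ[μ] fun s => κ.k g s * (f : 𝕊 → ℂ) s := fun g f => (hmem g f).coeFn_toLp
  have hMn : ∀ g (f : Lp ℂ 2 μ), ‖M g f‖ ≤ C * ‖f‖ := fun g f => hb C hC g f
  have h1 : ∀ (s : 𝕊) (f : Lp ℂ 2 μ), ((lam μ).U s f : 𝕊 → ℂ) =ᵐ[μ] fun t => (f : 𝕊 → ℂ) (s⁻¹ * t) :=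
    fun s f => ind_apply μ (triv ℂ) s f
  refine ⟨⟨M, fun f => mulcont38 μ κ h0 M hM hMn f, fun g q w => ?_, C, h0, fun g => ?_⟩, hM, fun D hD0 hD g => ?_⟩
  · refine Lp.ext ?_
    have h3 := (measurePreserving_mul_left μ (geo.nb q)⁻¹⁻¹).quasiMeasurePreserving.ae_eq_comp (hM g w)
    filter_upwards [hM (g * q) ((lam μ).U (geo.nb q)⁻¹ w), h1 (geo.nb q)⁻¹ w, h1 (geo.nb q)⁻¹ (M g w), h3] with s e1 e2 e3 e4
    have e5 : ((M g w : Lp ℂ 2 μ) : 𝕊 → ℂ) ((geo.nb q)⁻¹⁻¹ * s) = κ.k g ((geo.nb q)⁻¹⁻¹ * s) * (w : 𝕊 → ℂ) ((geo.nb q)⁻¹⁻¹ * s) := e4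
    rw [e1, e2, e3, e5, inv_inv, κ.inv]
  · exact ContinuousLinearMap.opNorm_le_bound _ h0 (hMn g)
  · exact ContinuousLinearMap.opNorm_le_bound _ hD0 fun f => hb D hD g f

/-- The field of the multiplications. -/
noncomputable def mulK (κ : Kap geo) : Fd geo (lam μ) (lam μ) := (exists_mulK μ κ).choose

theorem mulK_apply (κ : Kap geo) (g : 𝔾) (f : Lp ℂ 2 μ) : ((mulK μ κ).O g f : 𝕊 → ℂ) =ᵐ[μ] fun s => κ.k g s * (f : 𝕊 → ℂ) s :=
  (exists_mulK μ κ).choose_spec.1 g f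

theorem norm_mulK (κ : Kap geo) {C : ℝ} (h0 : 0 ≤ C) (hC : ∀ g s, ‖κ.k g s‖ ≤ C) (g : 𝔾) : ‖(mulK μ κ).O g‖ ≤ C :=
  (exists_mulK μ κ).choose_spec.2 C h0 hC g

section V

variable (B : BD geo G S' H U) {L : Type} [NormedAddCommGroup L] [InnerProductSpace ℂ L] (ρ : Rp 𝕊 L)

theorem exists_Vt : ∃ V : S' →* (Kt B ρ ≃ₗᵢ[ℂ] Kt B ρ), ∀ s y, V s y = lift B ρ (B.V s) y := by
  have hmul : ∀ (s t : S') (y : Kt B ρ), lift B ρ (B.V (s * t)) y = lift B ρ (B.V s) (lift B ρ (B.V t) y) := by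
    intro s t y
    have h : (lift B ρ (B.V (s * t))).toContinuousLinearEquiv.toContinuousLinearMap =
        (lift B ρ (B.V s)).toContinuousLinearEquiv.toContinuousLinearMap.comp
          (lift B ρ (B.V t)).toContinuousLinearEquiv.toContinuousLinearMap := by
      refine ext_tot (tot_tau B ρ) fun p => ?_
      change lift B ρ (B.V (s * t)) (tau B p.1 p.2) = lift B ρ (B.V s) (lift B ρ (B.V t) (tau B p.1 p.2))
      rw [lift_tau B ρ (B.cphi_V _), lift_tau B ρ (B.cphi_V _), lift_tau B ρ (B.cphi_V _), map_mul]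
      rfl
    exact DFunLike.congr_fun h y
  exact ⟨MonoidHom.mk' (fun s => lift B ρ (B.V s)) fun s t => LinearIsometryEquiv.ext fun y => hmul s t y, fun s y => rfl⟩

/-- The representation of `S'` on `Kt B ρ`. -/
noncomputable def Vt : S' →* (Kt B ρ ≃ₗᵢ[ℂ] Kt B ρ) := (exists_Vt B ρ).choose

theorem Vt_apply (s : S') (y : Kt B ρ) : Vt B ρ s y = lift B ρ (B.V s) y := (exists_Vt B ρ).choose_spec s y

theorem Vt_cont (y : Kt B ρ) : Continuous fun s => Vt B ρ s y := by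
  refine strong38 (tot_tau B ρ) (fun s => Vt B ρ s) (fun p => ?_) y
  have h3 : Continuous fun s => tau B p.1 (B.V s p.2) := (tau B p.1).continuous.comp (B.Vc p.2)
  exact h3.congr fun s => by rw [Vt_apply, lift_tau B ρ (B.cphi_V s)]

end V

section J

variable (B : BD geo G S' H U)

theorem exists_WW : ∃ W : 𝕊 →* (Kt B (lam μ) ≃ₗᵢ[ℂ] Kt B (lam μ)), ∀ h y, W h y = push B (rt_itw μ h) y := by
  have hmul : ∀ (h h' : 𝕊) (y : Kt B (lam μ)), push B (rt_itw μ (h * h')) y = push B (rt_itw μ h) (push B (rt_itw μ h') y) := by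
    intro h h' y
    refine mulF_comp B (Fd.const (rt_itw μ h')) (Fd.const (rt_itw μ h)) (Fd.const (rt_itw μ (h * h'))) (fun g w => ?_) y
    change rt μ (h * h') w = rt μ h (rt μ h' w)
    rw [map_mul]
    rfl
  have hone : ∀ y : Kt B (lam μ), push B (rt_itw μ 1) y = y := by
    intro y
    refine mulF_id B (Fd.const (rt_itw μ 1)) (fun g w => ?_) y
    change rt μ 1 w = w
    rw [map_one]
    rfl
  have hn : ∀ (h : 𝕊) (y : Kt B (lam μ)), ‖push B (rt_itw μ h) y‖ = ‖y‖ := fun h y =>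
    push_isom B (rt_itw μ h) (fun x => (rt μ h).norm_map x) y
  let w : 𝕊 → (Kt B (lam μ) →ₗᵢ[ℂ] Kt B (lam μ)) := fun h => ⟨(push B (rt_itw μ h)).toLinearMap, hn h⟩
  have hw : ∀ h y, w h y = push B (rt_itw μ h) y := fun h y => rfl
  have hs : ∀ h : 𝕊, Function.Surjective (w h) := fun h y => ⟨w h⁻¹ y, by
    rw [hw, hw, ← hmul, mul_inv_cancel, hone]⟩
  refine ⟨MonoidHom.mk' (fun h => LinearIsometryEquiv.ofSurjective (w h) (hs h)) fun s t => ?_, fun h y => rfl⟩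
  exact LinearIsometryEquiv.ext fun y => hmul s t y

/-- The representation of `𝕊` on `Kt B (lam μ)` by right translations. -/
noncomputable def WW : 𝕊 →* (Kt B (lam μ) ≃ₗᵢ[ℂ] Kt B (lam μ)) := (exists_WW μ B).choose

theorem WW_apply (h : 𝕊) (y : Kt B (lam μ)) : WW μ B h y = push B (rt_itw μ h) y := (exists_WW μ B).choose_spec h y

theorem WW_cont (y : Kt B (lam μ)) : Continuous fun h => WW μ B h y := by
  rw [continuous_iff_continuousAt]
  intro h0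
  have h1 : Tendsto (fun h => push B (rt_itw μ h) y) (𝓝 h0) (𝓝 (push B (rt_itw μ h0) y)) := by
    refine mulF_lim B (C := 1) (fun h => Fd.const (rt_itw μ h)) (Fd.const (rt_itw μ h0)) (fun h g => ?_) (fun F ε hε => ?_) y
    · refine ContinuousLinearMap.opNorm_le_bound _ zero_le_one fun w => ?_
      rw [one_mul]
      exact ((rt μ h).norm_map w).le
    · refine IsCompact.eventually_forall_of_forall_eventually geo.Kc fun g _ => ?_
      have h2 : Continuous fun z : 𝕊 × 𝔾 => rt μ z.1 ((F : 𝔾 → Lp ℂ 2 μ) z.2) :=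
        joint38 (fun z : 𝕊 × 𝔾 => rt μ z.1) (fun w => (rt_cont μ w).comp continuous_fst) (F.2.1.comp continuous_snd)
      have h3 : Continuous fun z : 𝕊 × 𝔾 => ‖rt μ z.1 ((F : 𝔾 → Lp ℂ 2 μ) z.2) - rt μ h0 ((F : 𝔾 → Lp ℂ 2 μ) z.2)‖ :=
        (h2.sub ((rt μ h0).continuous.comp (F.2.1.comp continuous_snd))).norm
      have h4 : Tendsto (fun z : 𝕊 × 𝔾 => ‖rt μ z.1 ((F : 𝔾 → Lp ℂ 2 μ) z.2) - rt μ h0 ((F : 𝔾 → Lp ℂ 2 μ) z.2)‖) (𝓝 (h0, g)) (𝓝 0) := by
        have := h3.tendsto (h0, g)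
        simpa using this
      exact h4.eventually (ge_mem_nhds hε)
  have h2 := h1.congr fun h => (WW_apply μ B h y).symm
  rw [← WW_apply] at h2
  exact h2

theorem WW_Vt (h : 𝕊) (s : S') (y : Kt B (lam μ)) : WW μ B h (Vt B (lam μ) s y) = Vt B (lam μ) s (WW μ B h y) := by
  rw [WW_apply, WW_apply, Vt_apply, Vt_apply]
  exact mulF_lift B (Fd.const (rt_itw μ h)) (B.cphi_V s) y

/-- The operators whose commutant is the Levi algebra. -/
def Rg : Set (Kt B (lam μ) →L[ℂ] Kt B (lam μ)) :=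
  {T | (∃ k : G, ∀ y, T y = WK B (lam μ) k y) ∨ (∃ c ∈ B.CC, (∀ y, T y = lift B (lam μ) c.1 y) ∨ ∀ y, T y = (lift B (lam μ) c.1).symm y) ∨
    ∃ κ : Kap geo, T = mulF B (mulK μ κ)}

theorem star_Rg {T : Kt B (lam μ) →L[ℂ] Kt B (lam μ)} (hT : T ∈ Rg μ B) : ContinuousLinearMap.adjoint T ∈ Rg μ B := by
  have key : ∀ u : Kt B (lam μ) ≃ₗᵢ[ℂ] Kt B (lam μ), (∀ y, T y = u y) → ∀ y, ContinuousLinearMap.adjoint T y = u.symm y := by
    intro u hu y
    refine ext_inner_left ℂ fun v => ?_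
    rw [ContinuousLinearMap.adjoint_inner_right, hu, ← u.inner_map_map v (u.symm y), u.apply_symm_apply]
  rcases hT with ⟨k, hk⟩ | ⟨c, hc, hc' | hc'⟩ | ⟨κ, hκ⟩
  · refine Or.inl ⟨k⁻¹, fun y => ?_⟩
    rw [key _ hk]
    refine (WK B (lam μ) k).injective ?_
    rw [LinearIsometryEquiv.apply_symm_apply]
    have h3 : (WK B (lam μ) k * WK B (lam μ) k⁻¹) y = y := by rw [← map_mul, mul_inv_cancel, map_one]; rfl
    exact h3.symm
  · exact Or.inr (Or.inl ⟨c, hc, Or.inr (key _ hc')⟩)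
  · refine Or.inr (Or.inl ⟨c, hc, Or.inl fun y => ?_⟩)
    rw [key _ hc']
    rfl
  · refine Or.inr (Or.inr ⟨κ.conj, ?_⟩)
    refine ContinuousLinearMap.ext fun y => ext_inner_left ℂ fun v => ?_
    rw [ContinuousLinearMap.adjoint_inner_right, hκ]
    refine inner_mulF B (mulK μ κ) (mulK μ κ.conj) (fun g w w' => ?_) v y
    rw [L2.inner_def, L2.inner_def]
    refine integral_congr_ae ?_
    filter_upwards [mulK_apply μ κ g w, mulK_apply μ κ.conj g w'] with s e1 e2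
    rw [e1, e2]
    change (w' : 𝕊 → ℂ) s * (starRingEnd ℂ) (κ.k g s * (w : 𝕊 → ℂ) s) = (starRingEnd ℂ) (κ.k g s) * (w' : 𝕊 → ℂ) s * (starRingEnd ℂ) ((w : 𝕊 → ℂ) s)
    rw [map_mul]
    ring

/-- The Levi algebra. -/
def JJ : Set (Kt B (lam μ) →L[ℂ] Kt B (lam μ)) := {Y | ∀ T ∈ Rg μ B, ∀ y, Y (T y) = T (Y y)}

theorem mem_JJ {Y : Kt B (lam μ) →L[ℂ] Kt B (lam μ)} : Y ∈ JJ μ B ↔ (∀ k y, Y (WK B (lam μ) k y) = WK B (lam μ) k (Y y)) ∧
    (∀ c ∈ B.CC, ∀ y, Y (lift B (lam μ) c.1 y) = lift B (lam μ) c.1 (Y y)) ∧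
    ∀ (κ : Kap geo) y, Y (mulF B (mulK μ κ) y) = mulF B (mulK μ κ) (Y y) := by
  constructor
  · intro h
    refine ⟨fun k y => ?_, fun c hc y => ?_, fun κ y => ?_⟩
    · exact h ((WK B (lam μ) k).toContinuousLinearEquiv : Kt B (lam μ) →L[ℂ] Kt B (lam μ)) (Or.inl ⟨k, fun y => rfl⟩) y
    · exact h ((lift B (lam μ) c.1).toContinuousLinearEquiv : Kt B (lam μ) →L[ℂ] Kt B (lam μ))
        (Or.inr (Or.inl ⟨c, hc, Or.inl fun y => rfl⟩)) y
    · exact h _ (Or.inr (Or.inr ⟨κ, rfl⟩)) y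
  · rintro ⟨h1, h2, h3⟩ T hT y
    rcases hT with ⟨k, hk⟩ | ⟨c, hc, hc' | hc'⟩ | ⟨κ, hκ⟩
    · rw [hk, hk, h1]
    · rw [hc', hc', h2 c hc]
    · rw [hc', hc']
      refine (lift B (lam μ) c.1).injective ?_
      rw [← h2 c hc, LinearIsometryEquiv.apply_symm_apply, LinearIsometryEquiv.apply_symm_apply]
    · rw [hκ, h3]

theorem Vt_JJ {Y : Kt B (lam μ) →L[ℂ] Kt B (lam μ)} (hY : Y ∈ JJ μ B) (s : S') {Y' : Kt B (lam μ) →L[ℂ] Kt B (lam μ)}
    (h : ∀ y, Y' (Vt B (lam μ) s y) = Vt B (lam μ) s (Y y)) : Y' ∈ JJ μ B := by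
  have hinv : ∀ y, Vt B (lam μ) s (Vt B (lam μ) s⁻¹ y) = y := by
    intro y
    have h3 : (Vt B (lam μ) s * Vt B (lam μ) s⁻¹) y = y := by rw [← map_mul, mul_inv_cancel, map_one]; rfl
    exact h3
  have hVinv : ∀ x, B.V s (B.V s⁻¹ x) = x := by
    intro x
    have h3 : (B.V s * B.V s⁻¹) x = x := by rw [← map_mul, mul_inv_cancel, map_one]; rfl
    exact h3
  have hVinv' : ∀ x, B.V s⁻¹ (B.V s x) = x := by
    intro x
    have h3 : (B.V s⁻¹ * B.V s) x = x := by rw [← map_mul, inv_mul_cancel, map_one]; rfl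
    exact h3
  have hW : ∀ k y, Vt B (lam μ) s (WK B (lam μ) k y) = WK B (lam μ) k (Vt B (lam μ) s y) := by
    intro k y
    rw [Vt_apply, Vt_apply]
    have h4 : (lift B (lam μ) (B.V s)).toContinuousLinearEquiv.toContinuousLinearMap.comp
        (WK B (lam μ) k).toContinuousLinearEquiv.toContinuousLinearMap =
        (WK B (lam μ) k).toContinuousLinearEquiv.toContinuousLinearMap.comp
        (lift B (lam μ) (B.V s)).toContinuousLinearEquiv.toContinuousLinearMap := by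
      refine ext_tot (tot_tau B (lam μ)) fun p => ?_
      change lift B (lam μ) (B.V s) (WK B (lam μ) k (tau B p.1 p.2)) = WK B (lam μ) k (lift B (lam μ) (B.V s) (tau B p.1 p.2))
      rw [WK_tau, lift_tau B _ (B.cphi_V s), lift_tau B _ (B.cphi_V s), WK_tau, B.VW]
    exact DFunLike.congr_fun h4 y
  rw [mem_JJ] at hY ⊢
  obtain ⟨h1, h2, h3⟩ := hY
  refine ⟨fun k y => ?_, fun c hc y => ?_, fun κ y => ?_⟩
  · rw [← hinv y, ← hW, h, h, h1, hW]
  · obtain ⟨c', hc', e⟩ := B.VCC s⁻¹ c hc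
    have e1 : ∀ x, c.1 (B.V s x) = B.V s (c'.1 x) := by
      intro x
      have e2 := e (B.V s x)
      rw [hVinv'] at e2
      rw [← e2, hVinv]
    have hL : ∀ z, lift B (lam μ) c.1 (Vt B (lam μ) s z) = Vt B (lam μ) s (lift B (lam μ) c'.1 z) := by
      intro z
      rw [Vt_apply, Vt_apply]
      have h4 : (lift B (lam μ) c.1).toContinuousLinearEquiv.toContinuousLinearMap.comp
          (lift B (lam μ) (B.V s)).toContinuousLinearEquiv.toContinuousLinearMap =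
          (lift B (lam μ) (B.V s)).toContinuousLinearEquiv.toContinuousLinearMap.comp
          (lift B (lam μ) c'.1).toContinuousLinearEquiv.toContinuousLinearMap := by
        refine ext_tot (tot_tau B (lam μ)) fun p => ?_
        change lift B (lam μ) c.1 (lift B (lam μ) (B.V s) (tau B p.1 p.2)) =
          lift B (lam μ) (B.V s) (lift B (lam μ) c'.1 (tau B p.1 p.2))
        rw [lift_tau B _ (B.cphi_V s), lift_tau B _ (B.cphi_CC hc), lift_tau B _ (B.cphi_CC hc'), lift_tau B _ (B.cphi_V s), e1]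
      exact DFunLike.congr_fun h4 z
    rw [← hinv y, hL, h, h, h2 c' hc', hL]
  · have hL : ∀ z, mulF B (mulK μ κ) (Vt B (lam μ) s z) = Vt B (lam μ) s (mulF B (mulK μ κ) z) := by
      intro z
      rw [Vt_apply, Vt_apply]
      exact mulF_lift B (mulK μ κ) (B.cphi_V s) z
    rw [← hinv y, hL, h, h, h3, hL]

theorem WW_mulK (h : 𝕊) (κ : Kap geo) (y : Kt B (lam μ)) :
    WW μ B h (mulF B (mulK μ κ) y) = mulF B (mulK μ (κ.tr h)) (WW μ B h y) := by
  rw [WW_apply, WW_apply]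
  have h4 : (push B (rt_itw μ h)).comp (mulF B (mulK μ κ)) = (mulF B (mulK μ (κ.tr h))).comp (push B (rt_itw μ h)) := by
    refine ext_tot (tot_tau B (lam μ)) fun p => ?_
    change mulF B (Fd.const (rt_itw μ h)) (mulF B (mulK μ κ) (tau B p.1 p.2)) =
      mulF B (mulK μ (κ.tr h)) (mulF B (Fd.const (rt_itw μ h)) (tau B p.1 p.2))
    rw [mulF_tau, mulF_tau, mulF_tau, mulF_tau]
    have h5 : (Fd.const (rt_itw μ h) : Fd geo (lam μ) (lam μ)).ap ((mulK μ κ).ap p.1) =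
        (mulK μ (κ.tr h)).ap ((Fd.const (rt_itw μ h) : Fd geo (lam μ) (lam μ)).ap p.1) := by
      refine Subtype.ext (funext fun g => ?_)
      change rt μ h ((mulK μ κ).O g ((p.1 : 𝔾 → Lp ℂ 2 μ) g)) = (mulK μ (κ.tr h)).O g (rt μ h ((p.1 : 𝔾 → Lp ℂ 2 μ) g))
      refine Lp.ext ?_
      have h6 := (measurePreserving_mul_right μ h).quasiMeasurePreserving.ae_eq_comp (mulK_apply μ κ g ((p.1 : 𝔾 → Lp ℂ 2 μ) g))
      filter_upwards [rt_apply μ h ((mulK μ κ).O g ((p.1 : 𝔾 → Lp ℂ 2 μ) g)),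
        mulK_apply μ (κ.tr h) g (rt μ h ((p.1 : 𝔾 → Lp ℂ 2 μ) g)), rt_apply μ h ((p.1 : 𝔾 → Lp ℂ 2 μ) g), h6] with s e1 e2 e3 e4
      have e5 : (((mulK μ κ).O g ((p.1 : 𝔾 → Lp ℂ 2 μ) g) : Lp ℂ 2 μ) : 𝕊 → ℂ) (s * h) =
          κ.k g (s * h) * (((p.1 : 𝔾 → Lp ℂ 2 μ) g : Lp ℂ 2 μ) : 𝕊 → ℂ) (s * h) := e4
      rw [e1, e2, e3, e5]
      rfl
    rw [h5]
  exact DFunLike.congr_fun h4 y

theorem WW_JJ {Y : Kt B (lam μ) →L[ℂ] Kt B (lam μ)} (hY : Y ∈ JJ μ B) (h : 𝕊) {Y' : Kt B (lam μ) →L[ℂ] Kt B (lam μ)}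
    (hh : ∀ y, Y' (WW μ B h y) = WW μ B h (Y y)) : Y' ∈ JJ μ B := by
  have hinv : ∀ y, WW μ B h (WW μ B h⁻¹ y) = y := by
    intro y
    have h3 : (WW μ B h * WW μ B h⁻¹) y = y := by rw [← map_mul, mul_inv_cancel, map_one]; rfl
    exact h3
  have hW : ∀ k y, WW μ B h (WK B (lam μ) k y) = WK B (lam μ) k (WW μ B h y) := by
    intro k y
    rw [WW_apply, WW_apply, push_WK]
  have hL : ∀ c ∈ B.CC, ∀ y, WW μ B h (lift B (lam μ) c.1 y) = lift B (lam μ) c.1 (WW μ B h y) := by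
    intro c hc y
    rw [WW_apply, WW_apply]
    exact mulF_lift B (Fd.const (rt_itw μ h)) (B.cphi_CC hc) y
  rw [mem_JJ] at hY ⊢
  obtain ⟨h1, h2, h3⟩ := hY
  refine ⟨fun k y => ?_, fun c hc y => ?_, fun κ y => ?_⟩
  · rw [← hinv y, ← hW, hh, hh, h1, hW]
  · rw [← hinv y, ← hL c hc, hh, hh, h2 c hc, hL c hc]
  · have h4 : κ = (κ.tr h⁻¹).tr h := by
      cases κ with
      | mk k c i b =>
        have : k = fun g s => k g (s * h * h⁻¹) := funext fun g => funext fun s => by rw [mul_inv_cancel_right]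
        simp only [Kap.tr]
        congr
    have hK : ∀ z, mulF B (mulK μ κ) (WW μ B h z) = WW μ B h (mulF B (mulK μ (κ.tr h⁻¹)) z) := by
      intro z
      rw [WW_mulK, ← h4]
    rw [← hinv y, hK, hh, hh, h3, hK]

end J

end Pool.Agent.Helper35.FP
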