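import Pool.Agent.Helper35.FP.JD

/-!
# Project TZ, block JK: sections of compactly supported functions

`κ : Kap geo` is compactly supported along the fibres (`Kap.IsC κ C`: for `g ∈ K` the function `κ g` vanishes outside the compact set `C`). `secK κ`: the section `g ↦ κ g ∈ L²(𝕊)`.
`secK_dense`: `sec_dense` for the span of the sections `secK κ`; pointwise density as in `exists_sec`: `κ g' s = c ∫_Q φ(g' q) w(nb q⁻¹ s) dq`, `w ∈ C_c(𝕊)`. `kapO w`: `κ g s = w (nb (r g) s)` for `w ∈ C_c(𝕊)`, `w (k s) = w s`; `‖secK (kapO w) g‖ = ‖w‖₂`.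
-/

set_option autoImplicit false
set_option linter.unusedSectionVars false

open Filter Topology MeasureTheory Pointwise

namespace Pool.Agent.Helper35.FP

variable {𝔾 𝕊 : Type} [Group 𝔾] [TopologicalSpace 𝔾] [IsTopologicalGroup 𝔾] [Group 𝕊] [TopologicalSpace 𝕊] [IsTopologicalGroup 𝕊]
  {𝕂 : Subgroup 𝕊} {geo : Geo 𝔾 𝕊 𝕂} {G S' H U : Type} [Group G] [Group S'] [TopologicalSpace S'] [IsTopologicalGroup S']
  [NormedAddCommGroup H] [InnerProductSpace ℂ H] [CompleteSpace H]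
  [NormedAddCommGroup U] [InnerProductSpace ℂ U] [CompleteSpace U]

variable [MeasurableSpace 𝕊] [BorelSpace 𝕊]
  [SecondCountableTopology 𝕊] [LocallyCompactSpace 𝕊] [T2Space 𝕊] (μ : Measure 𝕊) [μ.IsHaarMeasure] [μ.IsMulRightInvariant]

/-- The norm of a difference which is small and supported in a compact set. -/
private theorem nsub77 {F G' : Lp ℂ 2 μ} {f g' : 𝕊 → ℂ} (hF : (F : 𝕊 → ℂ) =ᵐ[μ] f) (hG : (G' : 𝕊 → ℂ) =ᵐ[μ] g')
    {D : Set 𝕊} (hD : IsCompact D) {δ : ℝ} (hδ : 0 ≤ δ) (h : ∀ s, ‖f s - g' s‖ ≤ D.indicator (fun _ => δ) s) :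
    ‖F - G'‖ ≤ δ * (μ D).toReal ^ (1 / 2 : ℝ) := by
  rw [Lp.norm_def]
  have h1 : eLpNorm ((F - G' : Lp ℂ 2 μ) : 𝕊 → ℂ) 2 μ ≤ eLpNorm (D.indicator (fun _ => δ)) 2 μ := by
    refine eLpNorm_mono_ae ?_
    filter_upwards [Lp.coeFn_sub F G', hF, hG] with s h1 h2 h3
    rw [h1, Pi.sub_apply, h2, h3]
    exact (h s).trans (le_abs_self _)
  have h2 : eLpNorm (D.indicator (fun _ => δ)) 2 μ = ‖δ‖ₑ * μ D ^ (1 / (2 : ENNReal).toReal) :=
    eLpNorm_indicator_const hD.measurableSet (by norm_num) (by norm_num)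
  have h3 : ‖δ‖ₑ * μ D ^ (1 / (2 : ENNReal).toReal) ≠ ⊤ :=
    ENNReal.mul_ne_top enorm_ne_top (ENNReal.rpow_ne_top_of_nonneg (by norm_num) hD.measure_lt_top.ne)
  have h4 := ENNReal.toReal_mono h3 (h1.trans h2.le)
  refine h4.trans (le_of_eq ?_)
  rw [ENNReal.toReal_mul, toReal_enorm, Real.norm_of_nonneg hδ, ← ENNReal.toReal_rpow]
  norm_num

/-- Uniform convergence on compact sets. -/
private theorem unif77 {X : Type} [TopologicalSpace X] {f : X → 𝕊 → ℂ} (hf : Continuous fun p : X × 𝕊 => f p.1 p.2) (x₀ : X)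
    {D : Set 𝕊} (hD : IsCompact D) {δ : ℝ} (hδ : 0 < δ) : ∀ᶠ x in 𝓝 x₀, ∀ s ∈ D, ‖f x s - f x₀ s‖ < δ := by
  refine hD.eventually_forall_of_forall_eventually fun s _ => ?_
  have h1 : Continuous fun z : X × 𝕊 => ‖f z.1 z.2 - f x₀ z.2‖ :=
    (hf.sub (hf.comp (continuous_const.prodMk continuous_snd))).norm
  have h2 : ∀ᶠ z in 𝓝 (x₀, s), ‖f z.1 z.2 - f x₀ z.2‖ < δ := by
    refine (isOpen_lt h1 continuous_const).mem_nhds ?_
    change ‖f x₀ s - f x₀ s‖ < δ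
    rw [sub_self, norm_zero]
    exact hδ
  exact h2

/-- Compactly supported along the fibres. -/
def Kap.IsC (κ : Kap geo) (C : Set 𝕊) : Prop := ∀ g ∈ geo.K, ∀ s, s ∉ C → κ.k g s = 0

private theorem supp77 {κ : Kap geo} {C : Set 𝕊} (hκ : κ.IsC C) (g : 𝔾) {s : 𝕊} (h : κ.k g s ≠ 0) :
    geo.nb (geo.r g) * s ∈ C := by
  by_contra hn
  refine h ?_
  have h1 := κ.inv (g * ((geo.r g : geo.Q) : 𝔾)⁻¹) (geo.r g) s
  rw [inv_mul_cancel_right] at h1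
  rw [h1]
  exact hκ _ (geo.kr g) _ hn

theorem exists_secK (κ : Kap geo) {C : Set 𝕊} (hC : IsCompact C) (hκ : κ.IsC C) :
    ∃ F : Sec geo (lam μ), ∀ g, ((F : 𝔾 → Lp ℂ 2 μ) g : 𝕊 → ℂ) =ᵐ[μ] κ.k g := by
  have hc : ∀ g, Continuous (κ.k g) := fun g => κ.cont.comp (continuous_const.prodMk continuous_id)
  have hcs : ∀ g, HasCompactSupport (κ.k g) := fun g => by
    refine HasCompactSupport.intro (hC.image (continuous_const_mul (geo.nb (geo.r g))⁻¹)) fun s hs => ?_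
    by_contra hn
    exact hs ⟨_, supp77 hκ g hn, inv_mul_cancel_left _ _⟩
  have hm : ∀ g, MemLp (κ.k g) 2 μ := fun g => (hc g).memLp_of_hasCompactSupport (hcs g)
  have hcoe : ∀ g, ((hm g).toLp (κ.k g) : 𝕊 → ℂ) =ᵐ[μ] κ.k g := fun g => (hm g).coeFn_toLp
  refine ⟨⟨fun g => (hm g).toLp (κ.k g), ?_, fun g q => ?_⟩, hcoe⟩
  · rw [continuous_iff_continuousAt]
    intro g₀
    have hn : Continuous fun g => (geo.nb (geo.r g))⁻¹ := (geo.nbc.comp geo.rc).inv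
    obtain ⟨O, hO, hO1⟩ := exists_compact_mem_nhds ((geo.nb (geo.r g₀))⁻¹)
    have hD : IsCompact (O * C) := hO.mul hC
    have hsD : ∀ g, (geo.nb (geo.r g))⁻¹ ∈ O → ∀ s, s ∉ O * C → κ.k g s = 0 := fun g hg s hs => by
      by_contra hne
      exact hs (Set.mem_mul.2 ⟨_, hg, _, supp77 hκ g hne, by rw [inv_mul_cancel_left]⟩)
    rw [ContinuousAt, Metric.tendsto_nhds]
    intro ε hε
    set m : ℝ := (μ (O * C)).toReal ^ (1 / 2 : ℝ) with hmdef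
    have hm0 : 0 ≤ m := Real.rpow_nonneg ENNReal.toReal_nonneg _
    have hδ : 0 < ε / (m + 1) := by positivity
    filter_upwards [hn.continuousAt.eventually_mem hO1, unif77 κ.cont g₀ hD hδ] with g h1 h2
    rw [dist_eq_norm]
    have h3 := nsub77 μ (hcoe g) (hcoe g₀) hD hδ.le fun s => by
      by_cases hs : s ∈ O * C
      · rw [Set.indicator_of_mem hs]
        exact (h2 s hs).le
      · rw [Set.indicator_of_notMem hs, hsD g h1 s hs, hsD g₀ (mem_of_mem_nhds hO1) s hs, sub_self, norm_zero]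
    refine lt_of_le_of_lt h3 ?_
    rw [← hmdef, div_mul_eq_mul_div, div_lt_iff₀ (by positivity)]
    nlinarith
  · refine Lp.ext ?_
    have h1 : ((lam μ).U (geo.nb q)⁻¹ ((hm g).toLp (κ.k g)) : 𝕊 → ℂ) =ᵐ[μ]
        fun h => ((hm g).toLp (κ.k g) : 𝕊 → ℂ) ((geo.nb q)⁻¹⁻¹ * h) := ind_apply μ (triv ℂ) _ _
    filter_upwards [hcoe (g * q), h1,
      (measurePreserving_mul_left μ (geo.nb q)⁻¹⁻¹).quasiMeasurePreserving.ae_eq_comp (hcoe g)] with s h2 h3 h4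
    have h4' : ((hm g).toLp (κ.k g) : 𝕊 → ℂ) ((geo.nb q)⁻¹⁻¹ * s) = κ.k g ((geo.nb q)⁻¹⁻¹ * s) := h4
    rw [h2, h3, h4', inv_inv, κ.inv]

/-- The section of a compactly supported function. -/
noncomputable def secK (κ : Kap geo) {C : Set 𝕊} (hC : IsCompact C) (hκ : κ.IsC C) : Sec geo (lam μ) := (exists_secK μ κ hC hκ).choose

theorem secK_apply (κ : Kap geo) {C : Set 𝕊} (hC : IsCompact C) (hκ : κ.IsC C) (g : 𝔾) :
    ((secK μ κ hC hκ : 𝔾 → Lp ℂ 2 μ) g : 𝕊 → ℂ) =ᵐ[μ] κ.k g := (exists_secK μ κ hC hκ).choose_spec g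

/-- The function `w (nb (r g) s)`. -/
noncomputable def kapO (w : 𝕊 → ℂ) (hw : Continuous w) (hK : ∀ k ∈ 𝕂, ∀ s, w (k * s) = w s) (hb : ∃ C : ℝ, 0 ≤ C ∧ ∀ s, ‖w s‖ ≤ C) :
    Kap geo where
  k g s := w (geo.nb (geo.r g) * s)
  cont := hw.comp ((geo.nbc.comp (geo.rc.comp continuous_fst)).mul continuous_snd)
  inv g q s := by
    have h1 : geo.nb (geo.r g * q * (geo.r (g * q))⁻¹) ∈ 𝕂 := by
      refine geo.KK _ (geo.kr (g * q)) _ (geo.kr g) _ ?_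
      rw [Subgroup.coe_mul, Subgroup.coe_mul, Subgroup.coe_inv]
      group
    have h2 := hK _ h1 (geo.nb (geo.r (g * q)) * s)
    rw [← h2]
    congr 1
    rw [map_mul, map_mul, map_inv]
    group
  bdd := by
    obtain ⟨C, h0, hC⟩ := hb
    exact ⟨C, h0, fun g s => hC _⟩

theorem kapO_isC (w : 𝕊 → ℂ) (hw : Continuous w) (hK : ∀ k ∈ 𝕂, ∀ s, w (k * s) = w s) (hb : ∃ C : ℝ, 0 ≤ C ∧ ∀ s, ‖w s‖ ≤ C)
    {C : Set 𝕊} (hC : ∀ s, s ∉ C → w s = 0) : (kapO (geo := geo) w hw hK hb).IsC C := by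
  intro g hg s hs
  change w (geo.nb (geo.r g) * s) = 0
  rw [hK _ (geo.rK g hg), hC s hs]

private theorem yf_bdd77 {f : 𝔾 → ℂ} (hf : Yf geo f) : ∃ C : ℝ, 0 ≤ C ∧ ∀ g, ‖f g‖ ≤ C := by
  obtain ⟨C, hC⟩ := geo.Kc.exists_bound_of_continuousOn hf.cont.continuousOn
  have h1 : ∀ g, ‖f g‖ ≤ C := fun g => by
    have h2 := hf.inv (g * ((geo.r g : geo.Q) : 𝔾)⁻¹) (geo.r g)
    rw [inv_mul_cancel_right] at h2
    rw [h2]
    exact hC _ (geo.kr g)
  exact ⟨C, (norm_nonneg _).trans (h1 1), h1⟩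

/-- Products with functions on the base. -/
private def mulf77 {f : 𝔾 → ℂ} (hf : Yf geo f) (κ : Kap geo) : Kap geo where
  k g s := f g * κ.k g s
  cont := (hf.cont.comp continuous_fst).mul κ.cont
  inv g q s := by rw [hf.inv, κ.inv]
  bdd := by
    obtain ⟨C, h0, hC⟩ := κ.bdd
    obtain ⟨C', h0', hC'⟩ := yf_bdd77 hf
    exact ⟨C' * C, mul_nonneg h0' h0, fun g s => by
      rw [norm_mul]
      exact mul_le_mul (hC' g) (hC g s) (norm_nonneg _) h0'⟩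

/-- Functions which are close to a given compactly supported function at one point. -/
private theorem exists_kap77 [LocallyCompactSpace 𝔾] [T2Space 𝔾] (hQ : IsClosed (geo.Q : Set 𝔾)) (g₀ : 𝔾) {w : 𝕊 → ℂ}
    (hw : Continuous w) (hwc : HasCompactSupport w) {O₁ : Set 𝕊} (hO₁ : IsCompact O₁) (hO₁1 : O₁ ∈ 𝓝 (1 : 𝕊)) {δ : ℝ} (hδ : 0 < δ) :
    ∃ (κ : Kap geo) (C : Set 𝕊), IsCompact C ∧ κ.IsC C ∧ ∀ s, ‖κ.k g₀ s - w s‖ ≤ (O₁ * tsupport w).indicator (fun _ => δ) s := by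
  classical
  have hcl : IsClosedEmbedding (Subtype.val : geo.Q → 𝔾) := hQ.isClosedEmbedding_subtypeVal
  have hlc : LocallyCompactSpace geo.Q := hcl.locallyCompactSpace
  let _ : MeasurableSpace geo.Q := borel geo.Q
  have hbs : BorelSpace geo.Q := ⟨rfl⟩
  set ν : MeasureTheory.Measure geo.Q := MeasureTheory.Measure.haar with hν
  have hD : IsCompact (O₁ * tsupport w) := hO₁.mul hwc
  have h1O₁ : (1 : 𝕊) ∈ O₁ := mem_of_mem_nhds hO₁1
  have hwD : ∀ s, s ∉ O₁ * tsupport w → ∀ a ∈ O₁, w (a⁻¹ * s) = 0 := fun s hs a ha => by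
    by_contra hne
    exact hs (Set.mem_mul.2 ⟨a, ha, _, subset_tsupport _ hne, by rw [mul_inv_cancel_left]⟩)
  -- the neighbourhood
  have hN : ∀ᶠ a in 𝓝 (1 : 𝕊), a ∈ O₁ ∧ ∀ s ∈ O₁ * tsupport w, ‖w (a⁻¹ * s) - w s‖ < δ := by
    have h1 := unif77 (f := fun (a s : 𝕊) => w (a⁻¹ * s)) (hw.comp (continuous_fst.inv.mul continuous_snd)) (1 : 𝕊) hD hδ
    filter_upwards [hO₁1, h1] with a h2 h3
    refine ⟨h2, fun s hs => ?_⟩
    have h4 := h3 s hs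
    simp only [inv_one, one_mul] at h4
    exact h4
  have hN' : ∀ᶠ q in 𝓝 (1 : geo.Q), geo.nb q ∈ O₁ ∧ ∀ s ∈ O₁ * tsupport w, ‖w ((geo.nb q)⁻¹ * s) - w s‖ < δ := by
    have h1 : Tendsto geo.nb (𝓝 1) (𝓝 1) := by
      have h2 := geo.nbc.tendsto 1
      rwa [map_one] at h2
    exact h1.eventually hN
  obtain ⟨O', hO'1, hO'2⟩ := mem_nhds_subtype (geo.Q : Set 𝔾) 1 _ |>.1 hN'
  obtain ⟨O, hOO', hO, h1O⟩ := mem_nhds_iff.1 hO'1
  -- the bump function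
  obtain ⟨φ, hφ1, hφ0, hφc, hφI⟩ := exists_continuous_one_zero_of_isCompact (isCompact_singleton (x := g₀))
    (hO.preimage (continuous_const_mul g₀⁻¹)).isClosed_compl (by
      rw [Set.disjoint_singleton_left]
      intro h
      refine h ?_
      change g₀⁻¹ * g₀ ∈ O
      rw [inv_mul_cancel]
      exact h1O)
  have hφg : φ g₀ = 1 := hφ1 (Set.mem_singleton g₀)
  have hφO : ∀ q : geo.Q, φ (g₀ * q) ≠ 0 → geo.nb q ∈ O₁ ∧ ∀ s ∈ O₁ * tsupport w, ‖w ((geo.nb q)⁻¹ * s) - w s‖ < δ :=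
    fun q hq => by
    by_contra hn
    refine hq (hφ0 ?_)
    intro h
    refine hn ?_
    have h3 : g₀⁻¹ * (g₀ * (q : 𝔾)) ∈ O := h
    rw [inv_mul_cancel_left] at h3
    exact hO'2 (hOO' h3)
  have hce : ∀ g' : 𝔾, IsClosedEmbedding (fun q : geo.Q => g' * (q : 𝔾)) := fun g' =>
    (Homeomorph.mulLeft g').isClosedEmbedding.comp hcl
  have hsup : ∀ g' : 𝔾, HasCompactSupport (fun q : geo.Q => φ (g' * (q : 𝔾))) := fun g' => hφc.comp_isClosedEmbedding (hce g')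
  have hcont : ∀ g' : 𝔾, Continuous (fun q : geo.Q => φ (g' * (q : 𝔾))) := fun g' => φ.continuous.comp (hce g').continuous
  have hint : ∀ g' : 𝔾, MeasureTheory.Integrable (fun q : geo.Q => φ (g' * (q : 𝔾))) ν := fun g' =>
    (hcont g').integrable_of_hasCompactSupport (hsup g')
  have huc : ∀ s : 𝕊, Continuous fun q : geo.Q => w ((geo.nb q)⁻¹ * s) := fun s =>
    hw.comp (geo.nbc.inv.mul continuous_const)
  have hint2 : ∀ (g' : 𝔾) (s : 𝕊), MeasureTheory.Integrable (fun q : geo.Q => φ (g' * (q : 𝔾)) • w ((geo.nb q)⁻¹ * s)) ν :=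
    fun g' s => ((hcont g').smul (huc s)).integrable_of_hasCompactSupport (hsup g').smul_right
  have hpos : 0 < ∫ q : geo.Q, φ (g₀ * (q : 𝔾)) ∂ν :=
    Continuous.integral_pos_of_hasCompactSupport_nonneg_nonzero (x := 1) (hcont g₀) (hsup g₀) (fun q => (hφI _).1) (by
      rw [Subgroup.coe_one, mul_one, hφg]
      exact one_ne_zero)
  set c : ℝ := (∫ q : geo.Q, φ (g₀ * (q : 𝔾)) ∂ν)⁻¹ with hc
  have hc0 : 0 < c := inv_pos.2 hpos
  -- continuity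
  have hFc : Continuous fun p : 𝔾 × 𝕊 => ∫ q : geo.Q, φ (p.1 * (q : 𝔾)) • w ((geo.nb q)⁻¹ * p.2) ∂ν := by
    rw [continuous_iff_continuousAt]
    rintro ⟨g₁, s₁⟩
    obtain ⟨N, hNc, hN1⟩ := exists_compact_mem_nhds g₁
    refine ContinuousOn.continuousAt (s := N ×ˢ Set.univ) ?_ (prod_mem_nhds hN1 univ_mem)
    have hk : IsCompact ((Subtype.val : geo.Q → 𝔾) ⁻¹' (N⁻¹ * tsupport φ)) :=
      hcl.isCompact_preimage (hNc.inv.mul hφc)
    refine continuousOn_integral_of_compact_support hk ?_ ?_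
    · refine Continuous.continuousOn ?_
      have e1 : Continuous fun z : (𝔾 × 𝕊) × geo.Q => φ (z.1.1 * (z.2 : 𝔾)) :=
        φ.continuous.comp ((continuous_fst.comp continuous_fst).mul (continuous_subtype_val.comp continuous_snd))
      have e2 : Continuous fun z : (𝔾 × 𝕊) × geo.Q => w ((geo.nb z.2)⁻¹ * z.1.2) :=
        hw.comp ((geo.nbc.comp continuous_snd).inv.mul (continuous_snd.comp continuous_fst))
      exact e1.smul e2
    · intro p q hp hq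
      have h0 : φ (p.1 * (q : 𝔾)) = 0 := by
        by_contra hne
        refine hq ?_
        change (q : 𝔾) ∈ N⁻¹ * tsupport φ
        refine Set.mem_mul.2 ⟨p.1⁻¹, Set.inv_mem_inv.2 hp.1, p.1 * q, subset_tsupport _ hne, ?_⟩
        rw [inv_mul_cancel_left]
      change φ (p.1 * (q : 𝔾)) • w ((geo.nb q)⁻¹ * p.2) = 0
      rw [h0, zero_smul]
  -- equivariance
  have hFe : ∀ (g' : 𝔾) (q₀ : geo.Q) (s : 𝕊), ∫ q : geo.Q, φ (g' * (q₀ : 𝔾) * (q : 𝔾)) • w ((geo.nb q)⁻¹ * s) ∂ν =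
      ∫ q : geo.Q, φ (g' * (q : 𝔾)) • w ((geo.nb q)⁻¹ * (geo.nb q₀ * s)) ∂ν := by
    intro g' q₀ s
    have h1 := MeasureTheory.integral_mul_left_eq_self (μ := ν)
      (fun q : geo.Q => φ (g' * (q : 𝔾)) • w ((geo.nb q)⁻¹ * (geo.nb q₀ * s))) q₀
    rw [← h1]
    refine MeasureTheory.integral_congr_ae (Filter.Eventually.of_forall fun q => ?_)
    change φ (g' * (q₀ : 𝔾) * (q : 𝔾)) • w ((geo.nb q)⁻¹ * s) =
      φ (g' * ((q₀ * q : geo.Q) : 𝔾)) • w ((geo.nb (q₀ * q))⁻¹ * (geo.nb q₀ * s))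
    have e1 : g' * (q₀ : 𝔾) * (q : 𝔾) = g' * ((q₀ * q : geo.Q) : 𝔾) := by rw [Subgroup.coe_mul, mul_assoc]
    have e2 : (geo.nb (q₀ * q))⁻¹ * (geo.nb q₀ * s) = (geo.nb q)⁻¹ * s := by
      rw [map_mul]
      group
    rw [e1, e2]
  obtain ⟨Cw, hCw⟩ := hw.bounded_above_of_compact_support hwc
  have hCw0 : 0 ≤ Cw := (norm_nonneg _).trans (hCw 1)
  have hφint : Continuous fun g' : 𝔾 => ∫ q : geo.Q, φ (g' * (q : 𝔾)) ∂ν := by
    rw [continuous_iff_continuousAt]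
    intro g₁
    obtain ⟨N, hNc, hN1⟩ := exists_compact_mem_nhds g₁
    refine ContinuousOn.continuousAt (s := N) ?_ hN1
    have hk : IsCompact ((Subtype.val : geo.Q → 𝔾) ⁻¹' (N⁻¹ * tsupport φ)) :=
      hcl.isCompact_preimage (hNc.inv.mul hφc)
    refine continuousOn_integral_of_compact_support hk ?_ ?_
    · refine Continuous.continuousOn ?_
      exact φ.continuous.comp (continuous_fst.mul (continuous_subtype_val.comp continuous_snd))
    · intro p q hp hq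
      by_contra hne
      refine hq ?_
      change (q : 𝔾) ∈ N⁻¹ * tsupport φ
      refine Set.mem_mul.2 ⟨p⁻¹, Set.inv_mem_inv.2 hp, p * q, subset_tsupport _ hne, ?_⟩
      rw [inv_mul_cancel_left]
  obtain ⟨Cφ, hCφ⟩ := geo.Kc.exists_bound_of_continuousOn hφint.continuousOn
  have hφinv : ∀ g' : 𝔾, ‖∫ q : geo.Q, φ (g' * (q : 𝔾)) ∂ν‖ ≤ Cφ := fun g' => by
    have h1 := MeasureTheory.integral_mul_left_eq_self (μ := ν)
      (fun q : geo.Q => φ (g' * ((geo.r g' : geo.Q) : 𝔾)⁻¹ * (q : 𝔾))) (geo.r g')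
    have h2 : ∀ q : geo.Q, φ (g' * ((geo.r g' : geo.Q) : 𝔾)⁻¹ * ((geo.r g' * q : geo.Q) : 𝔾)) = φ (g' * (q : 𝔾)) := fun q => by
      rw [Subgroup.coe_mul, ← mul_assoc, inv_mul_cancel_right]
    simp only [h2] at h1
    rw [h1]
    exact hCφ _ (geo.kr g')
  have hbd : ∀ (g' : 𝔾) (s : 𝕊), ‖∫ q : geo.Q, φ (g' * (q : 𝔾)) • w ((geo.nb q)⁻¹ * s) ∂ν‖ ≤ Cφ * Cw := by
    intro g' s
    have h4 : ‖∫ q : geo.Q, φ (g' * (q : 𝔾)) • w ((geo.nb q)⁻¹ * s) ∂ν‖ ≤ ∫ q : geo.Q, φ (g' * (q : 𝔾)) * Cw ∂ν := by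
      refine MeasureTheory.norm_integral_le_of_norm_le ((hint g').mul_const Cw) (Filter.Eventually.of_forall fun q => ?_)
      rw [norm_smul, Real.norm_of_nonneg (hφI _).1]
      exact mul_le_mul_of_nonneg_left (hCw _) (hφI _).1
    rw [MeasureTheory.integral_mul_const] at h4
    exact h4.trans (mul_le_mul_of_nonneg_right ((le_abs_self _).trans (hφinv g')) hCw0)
  have hCφ0 : 0 ≤ Cφ := (norm_nonneg _).trans (hφinv 1)
  let κ : Kap geo :=
    { k := fun g' s => c • ∫ q : geo.Q, φ (g' * (q : 𝔾)) • w ((geo.nb q)⁻¹ * s) ∂ν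
      cont := hFc.const_smul c
      inv := fun g' q s => by
        change c • ∫ q' : geo.Q, φ (g' * (q : 𝔾) * (q' : 𝔾)) • w ((geo.nb q')⁻¹ * s) ∂ν = _
        rw [hFe]
      bdd := ⟨c * (Cφ * Cw), by positivity, fun g' s => by
        change ‖c • ∫ q : geo.Q, φ (g' * (q : 𝔾)) • w ((geo.nb q)⁻¹ * s) ∂ν‖ ≤ _
        rw [norm_smul, Real.norm_of_nonneg hc0.le]
        exact mul_le_mul_of_nonneg_left (hbd g' s) hc0.le⟩ }
  -- the support
  have hkQ : IsCompact ((Subtype.val : geo.Q → 𝔾) ⁻¹' ((geo.K)⁻¹ * tsupport φ)) :=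
    hcl.isCompact_preimage (geo.Kc.inv.mul hφc)
  have hC : IsCompact ((geo.nb '' ((Subtype.val : geo.Q → 𝔾) ⁻¹' ((geo.K)⁻¹ * tsupport φ))) * tsupport w) :=
    (hkQ.image geo.nbc).mul hwc
  refine ⟨κ, _, hC, fun g hg s hs => ?_, fun s => ?_⟩
  · change c • ∫ q : geo.Q, φ (g * (q : 𝔾)) • w ((geo.nb q)⁻¹ * s) ∂ν = 0
    have h1 : ∀ q : geo.Q, φ (g * (q : 𝔾)) • w ((geo.nb q)⁻¹ * s) = 0 := fun q => by
      by_contra hne
      have h2 : φ (g * (q : 𝔾)) ≠ 0 := fun h => hne (by rw [h, zero_smul])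
      have h3 : w ((geo.nb q)⁻¹ * s) ≠ 0 := fun h => hne (by rw [h, smul_zero])
      refine hs (Set.mem_mul.2 ⟨geo.nb q, ⟨q, ?_, rfl⟩, _, subset_tsupport _ h3, by rw [mul_inv_cancel_left]⟩)
      change (q : 𝔾) ∈ (geo.K)⁻¹ * tsupport φ
      exact Set.mem_mul.2 ⟨g⁻¹, Set.inv_mem_inv.2 hg, g * q, subset_tsupport _ h2, by rw [inv_mul_cancel_left]⟩
    simp only [h1, MeasureTheory.integral_zero, smul_zero]
  · change ‖c • (∫ q : geo.Q, φ (g₀ * (q : 𝔾)) • w ((geo.nb q)⁻¹ * s) ∂ν) - w s‖ ≤ _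
    have h1 : ∫ q : geo.Q, φ (g₀ * (q : 𝔾)) • w s ∂ν = (∫ q : geo.Q, φ (g₀ * (q : 𝔾)) ∂ν) • w s := integral_smul_const _ _
    have h2 : w s = c • ∫ q : geo.Q, φ (g₀ * (q : 𝔾)) • w s ∂ν := by
      rw [h1, smul_smul, hc, inv_mul_cancel₀ hpos.ne', one_smul]
    have h3 : c • (∫ q : geo.Q, φ (g₀ * (q : 𝔾)) • w ((geo.nb q)⁻¹ * s) ∂ν) - w s =
        c • ∫ q : geo.Q, φ (g₀ * (q : 𝔾)) • (w ((geo.nb q)⁻¹ * s) - w s) ∂ν := by
      conv_lhs => rw [h2]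
      rw [← smul_sub, ← MeasureTheory.integral_sub (hint2 g₀ s) ((hint g₀).smul_const (w s))]
      congr 1
      refine MeasureTheory.integral_congr_ae (Filter.Eventually.of_forall fun q => ?_)
      change φ (g₀ * (q : 𝔾)) • w ((geo.nb q)⁻¹ * s) - φ (g₀ * (q : 𝔾)) • w s = _
      rw [← smul_sub]
    rw [h3]
    by_cases hs : s ∈ O₁ * tsupport w
    · rw [Set.indicator_of_mem hs, norm_smul, Real.norm_of_nonneg hc0.le]
      have h4 : ‖∫ q : geo.Q, φ (g₀ * (q : 𝔾)) • (w ((geo.nb q)⁻¹ * s) - w s) ∂ν‖ ≤ ∫ q : geo.Q, φ (g₀ * (q : 𝔾)) * δ ∂ν := by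
        refine MeasureTheory.norm_integral_le_of_norm_le ((hint g₀).mul_const δ) (Filter.Eventually.of_forall fun q => ?_)
        rw [norm_smul, Real.norm_of_nonneg (hφI _).1]
        rcases eq_or_ne (φ (g₀ * (q : 𝔾))) 0 with h | h
        · rw [h, zero_mul, zero_mul]
        · exact mul_le_mul_of_nonneg_left ((hφO q h).2 s hs).le (hφI _).1
      rw [MeasureTheory.integral_mul_const] at h4
      calc c * ‖∫ q : geo.Q, φ (g₀ * (q : 𝔾)) • (w ((geo.nb q)⁻¹ * s) - w s) ∂ν‖ ≤ c * ((∫ q : geo.Q, φ (g₀ * (q : 𝔾)) ∂ν) * δ) :=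
            mul_le_mul_of_nonneg_left h4 hc0.le
        _ = δ := by rw [← mul_assoc, hc, inv_mul_cancel₀ hpos.ne', one_mul]
    · have h5 : w s = 0 := by
        have := hwD s hs 1 h1O₁
        rwa [inv_one, one_mul] at this
      have h4 : ∀ q : geo.Q, φ (g₀ * (q : 𝔾)) • (w ((geo.nb q)⁻¹ * s) - w s) = 0 := fun q => by
        rcases eq_or_ne (φ (g₀ * (q : 𝔾))) 0 with h | h
        · rw [h, zero_smul]
        · rw [hwD s hs _ (hφO q h).1, h5, sub_self, smul_zero]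
      simp only [h4, MeasureTheory.integral_zero, smul_zero, norm_zero]
      rw [Set.indicator_of_notMem hs]

private theorem smulS_add77 {f : 𝔾 → ℂ} (hf : Yf geo f) (F F' : Sec geo (lam μ)) :
    smulS (lam μ) hf (F + F') = smulS (lam μ) hf F + smulS (lam μ) hf F' :=
  Subtype.ext (funext fun g => smul_add (f g) ((F : 𝔾 → Lp ℂ 2 μ) g) ((F' : 𝔾 → Lp ℂ 2 μ) g))

private theorem smulS_zero77 {f : 𝔾 → ℂ} (hf : Yf geo f) : smulS (lam μ) hf (0 : Sec geo (lam μ)) = 0 :=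
  Subtype.ext (funext fun g => smul_zero (f g))

private theorem smulS_smul77 {f : 𝔾 → ℂ} (hf : Yf geo f) (c : ℂ) (F : Sec geo (lam μ)) :
    smulS (lam μ) hf (c • F) = c • smulS (lam μ) hf F :=
  Subtype.ext (funext fun g => smul_comm (f g) c ((F : 𝔾 → Lp ℂ 2 μ) g))

private theorem mulf_isC77 {f : 𝔾 → ℂ} (hf : Yf geo f) {κ : Kap geo} {C : Set 𝕊} (hκ : κ.IsC C) : (mulf77 hf κ).IsC C := by
  intro g hg s hs
  change f g * κ.k g s = 0
  rw [hκ g hg s hs, mul_zero]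

private theorem smulS_secK77 {f : 𝔾 → ℂ} (hf : Yf geo f) (κ : Kap geo) {C : Set 𝕊} (hC : IsCompact C) (hκ : κ.IsC C) :
    smulS (lam μ) hf (secK μ κ hC hκ) = secK μ (mulf77 hf κ) hC (mulf_isC77 hf hκ) := by
  refine Subtype.ext (funext fun g => ?_)
  change f g • (secK μ κ hC hκ : 𝔾 → Lp ℂ 2 μ) g = (secK μ (mulf77 hf κ) hC (mulf_isC77 hf hκ) : 𝔾 → Lp ℂ 2 μ) g
  refine Lp.ext ?_
  filter_upwards [Lp.coeFn_smul (f g) ((secK μ κ hC hκ : 𝔾 → Lp ℂ 2 μ) g), secK_apply μ κ hC hκ g,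
    secK_apply μ (mulf77 hf κ) hC (mulf_isC77 hf hκ) g] with s h1 h2 h3
  rw [h1, h3, Pi.smul_apply, h2]
  rfl

/-- The sections of compactly supported functions are dense. -/
theorem secK_dense [LocallyCompactSpace 𝔾] [T2Space 𝔾] (hQ : IsClosed (geo.Q : Set 𝔾)) (F : Sec geo (lam μ)) {ε : ℝ} (hε : 0 < ε) :
    ∃ F' ∈ Submodule.span ℂ {F' : Sec geo (lam μ) | ∃ (κ : Kap geo) (C : Set 𝕊) (hC : IsCompact C) (hκ : κ.IsC C), F' = secK μ κ hC hκ},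
      ∀ g, ‖(F : 𝔾 → Lp ℂ 2 μ) g - (F' : 𝔾 → Lp ℂ 2 μ) g‖ ≤ ε := by
  refine sec_dense _ ?_ ?_ F hε
  · intro F hF f hf
    induction hF using Submodule.span_induction with
    | mem x hx =>
      obtain ⟨κ, C, hC, hκ, rfl⟩ := hx
      rw [smulS_secK77]
      exact Submodule.subset_span ⟨_, _, hC, _, rfl⟩
    | zero => rw [smulS_zero77]; exact Submodule.zero_mem _
    | add x y _ _ hx hy => rw [smulS_add77]; exact Submodule.add_mem _ hx hy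
    | smul c x _ hx => rw [smulS_smul77]; exact Submodule.smul_mem _ c hx
  · intro g _ u ε hε
    have hreg : μ.Regular := by
      let _ : MetricSpace 𝕊 := TopologicalSpace.metrizableSpaceMetric 𝕊
      infer_instance
    obtain ⟨w, hwc, hwe, hw, hwm⟩ := (Lp.memLp u).exists_hasCompactSupport_eLpNorm_sub_le (by norm_num : (2 : ENNReal) ≠ ⊤)
      (ε := ENNReal.ofReal (ε / 2)) (by rw [Ne, ENNReal.ofReal_eq_zero, not_le]; exact half_pos hε)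
    obtain ⟨O₁, hO₁, hO₁1⟩ := exists_compact_mem_nhds (1 : 𝕊)
    have hD : IsCompact (O₁ * tsupport w) := hO₁.mul hwc
    set m : ℝ := (μ (O₁ * tsupport w)).toReal ^ (1 / 2 : ℝ) with hmdef
    have hm0 : 0 ≤ m := Real.rpow_nonneg ENNReal.toReal_nonneg _
    have hδ : 0 < (ε / 2) / (m + 1) := by positivity
    obtain ⟨κ, C, hC, hκ, hclose⟩ := exists_kap77 hQ g hw hwc hO₁ hO₁1 hδ
    refine ⟨secK μ κ hC hκ, Submodule.subset_span ⟨κ, C, hC, hκ, rfl⟩, ?_⟩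
    have h1 := nsub77 μ (secK_apply μ κ hC hκ g) hwm.coeFn_toLp hD hδ.le hclose
    have h2 : ‖(hwm.toLp w : Lp ℂ 2 μ) - u‖ ≤ ε / 2 := by
      have h3 : eLpNorm (((hwm.toLp w : Lp ℂ 2 μ) - u : Lp ℂ 2 μ) : 𝕊 → ℂ) 2 μ ≤ ENNReal.ofReal (ε / 2) := by
        refine le_trans (le_of_eq ?_) hwe
        rw [← eLpNorm_neg]
        refine eLpNorm_congr_ae ?_
        filter_upwards [Lp.coeFn_sub (hwm.toLp w : Lp ℂ 2 μ) u, hwm.coeFn_toLp] with s h3 h4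
        rw [Pi.neg_apply, h3, Pi.sub_apply, h4, Pi.sub_apply, neg_sub]
      rw [Lp.norm_def]
      exact ENNReal.toReal_le_of_le_ofReal (half_pos hε).le h3
    have h3 : (ε / 2) / (m + 1) * m ≤ ε / 2 := by
      rw [div_mul_eq_mul_div, div_le_iff₀ (by positivity)]
      nlinarith
    rw [← hmdef] at h1
    calc ‖(secK μ κ hC hκ : 𝔾 → Lp ℂ 2 μ) g - u‖ = ‖((secK μ κ hC hκ : 𝔾 → Lp ℂ 2 μ) g - hwm.toLp w) + (hwm.toLp w - u)‖ := by
          rw [sub_add_sub_cancel]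
      _ ≤ ‖(secK μ κ hC hκ : 𝔾 → Lp ℂ 2 μ) g - hwm.toLp w‖ + ‖hwm.toLp w - u‖ := norm_add_le _ _
      _ ≤ ε := by linarith

end Pool.Agent.Helper35.FP
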