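import Pool.Agent.Helper35.FP.JA
import Pool.Agent.Helper35.FP.JB
import Pool.Agent.Helper43.TZ.Defs

/-!
# Project TZ: the data `Lev` of the abstract part from the section layer
-/

set_option autoImplicit false
set_option linter.unusedSectionVars false

open Filter Topology MeasureTheory

namespace Pool.Agent.Helper35.FP

open Pool.Agent.Helper43.TZ (cj cj_apply Lev)

variable {𝔾 𝕊 : Type} [Group 𝔾] [TopologicalSpace 𝔾] [IsTopologicalGroup 𝔾] [Group 𝕊] [TopologicalSpace 𝕊] [IsTopologicalGroup 𝕊]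
  {𝕂 : Subgroup 𝕊} {geo : Geo 𝔾 𝕊 𝕂} {G S' H U : Type} [Group G] [Group S'] [TopologicalSpace S'] [IsTopologicalGroup S']
  [NormedAddCommGroup H] [InnerProductSpace ℂ H] [CompleteSpace H]
  [NormedAddCommGroup U] [InnerProductSpace ℂ U] [CompleteSpace U]

variable [MeasurableSpace 𝕊] [BorelSpace 𝕊]
  [SecondCountableTopology 𝕊] [LocallyCompactSpace 𝕊] [T2Space 𝕊] (μ : Measure 𝕊) [μ.IsHaarMeasure] [μ.IsMulRightInvariant]

variable (B : BD geo G S' H U)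

theorem mem_cent {a : Kt B (lam μ) →L[ℂ] Kt B (lam μ)} : a ∈ StarSubalgebra.centralizer ℂ (Rg μ B) ↔ a ∈ JJ μ B := by
  rw [StarSubalgebra.mem_centralizer_iff]
  constructor
  · intro h T hT y
    exact (DFunLike.congr_fun (h T hT).1 y).symm
  · intro h T hT
    refine ⟨ContinuousLinearMap.ext fun y => (h T hT y).symm, ContinuousLinearMap.ext fun y => ?_⟩
    exact (h _ (star_Rg μ B hT) y).symm

theorem cj_apply' (u : Kt B (lam μ) ≃ₗᵢ[ℂ] Kt B (lam μ)) (a : Kt B (lam μ) →L[ℂ] Kt B (lam μ)) (y : Kt B (lam μ)) :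
    cj u a (u y) = u (a y) := by
  rw [cj_apply, LinearIsometryEquiv.symm_apply_apply]

theorem exists_a0 (hK : IsCompact (𝕂 : Set 𝕊)) : ∃ a : Kt B (lam μ) →L[ℂ] Kt B (lam μ), a ∈ StarSubalgebra.centralizer ℂ (Rg μ B) ∧ a ≠ 0 ∧
    ∃ C : ℝ, ∀ x, ∫⁻ h, ‖cj (WW μ B h) a x‖ₑ ^ 2 ∂μ ≤ ENNReal.ofReal C * ‖x‖ₑ ^ 2 := by
  have := nontrivial_Kt μ B hK
  obtain ⟨w, hw, hne⟩ := exists_aw_ne μ B hK
  obtain ⟨C, hC, h⟩ := lintegral_aw μ B w hw
  refine ⟨aw μ B w, (mem_cent μ B).2 (aw_JJ μ B w), hne, C.toReal, fun x => ?_⟩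
  rw [ENNReal.ofReal_toReal hC]
  have h1 := h x
  convert h1 using 5 with h
  rw [map_inv]
  rfl

/-- The data of the abstract part. -/
noncomputable def levOf [LocallyCompactSpace 𝔾] [T2Space 𝔾] (hQ : IsClosed (geo.Q : Set 𝔾)) (hK : IsCompact (𝕂 : Set 𝕊)) :
    Lev S' 𝕊 (Kt B (lam μ)) μ where
  V := Vt B (lam μ)
  W := WW μ B
  VW s h x := (WW_Vt μ B h s x).symm
  Vc := Vt_cont B (lam μ)
  Wc := WW_cont μ B
  R := Rg μ B
  RW a ha h := by
    rw [mem_cent] at ha ⊢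
    exact WW_JJ μ B ha h (cj_apply' μ B _ a)
  RV a ha s := by
    rw [mem_cent] at ha ⊢
    exact Vt_JJ μ B ha s (cj_apply' μ B _ a)
  erg a ha h := by
    rw [mem_cent] at ha
    refine erg_JJ μ B hQ hK ha fun h' y => ?_
    conv_lhs => rw [← h h']
    exact cj_apply' μ B _ a y
  a0 := (exists_a0 μ B hK).choose
  a0J := (exists_a0 μ B hK).choose_spec.1
  a0n := (exists_a0 μ B hK).choose_spec.2.1
  a0i := (exists_a0 μ B hK).choose_spec.2.2

end Pool.Agent.Helper35.FP
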