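import Pool.Agent.Helper35.FP.Defs

/-!
# Project FP, block K0: isometries from Gram matrices (tools)

`gram_isom`: two total families with the same Gram matrix. `gram_clm`: a bounded operator from an inequality between finite sums.
-/

set_option autoImplicit false

namespace Pool.Agent.Helper35.FP

variable {ι E F : Type} [NormedAddCommGroup E] [InnerProductSpace ℂ E] [CompleteSpace E]
  [NormedAddCommGroup F] [InnerProductSpace ℂ F] [CompleteSpace F]

/-- A family `v` is total. -/
def Tot (v : ι → E) : Prop := ∀ y, (∀ i, inner ℂ (v i) y = 0) → y = 0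

omit [CompleteSpace E] in
private theorem dense26' [CompleteSpace E] {v : ι → E} (hv : Tot v) :
    Dense ((Submodule.span ℂ (Set.range v) : Submodule ℂ E) : Set E) := by
  have h1 : (Submodule.span ℂ (Set.range v)).topologicalClosure = ⊤ := by
    rw [Submodule.topologicalClosure_eq_top_iff, Submodule.eq_bot_iff]
    intro y hy
    refine hv y fun i => ?_
    exact (Submodule.mem_orthogonal _ _).1 hy _ (Submodule.subset_span ⟨i, rfl⟩)
  exact Submodule.dense_iff_topologicalClosure_eq_top.2 h1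

private theorem dense26 {v : ι → E} (hv : Tot v) : DenseRange (Finsupp.linearCombination ℂ v) := by
  have h2 := dense26' hv
  rw [← Finsupp.range_linearCombination] at h2
  exact h2

theorem gram_clm {v : ι → E} (hv : Tot v) (w : ι → F) {C : ℝ} (hC : 0 ≤ C)
    (h : ∀ (s : Finset ι) (c : ι → ℂ), ‖∑ i ∈ s, c i • w i‖ ≤ C * ‖∑ i ∈ s, c i • v i‖) :
    ∃ A : E →L[ℂ] F, ‖A‖ ≤ C ∧ ∀ i, A (v i) = w i := by
  have hd := dense26 hv
  have hn : ∀ x : ι →₀ ℂ, ‖Finsupp.linearCombination ℂ w x‖ ≤ C * ‖Finsupp.linearCombination ℂ v x‖ :=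
    fun x => h x.support x
  refine ⟨(Finsupp.linearCombination ℂ w).extendOfNorm (Finsupp.linearCombination ℂ v),
    LinearMap.opNorm_extendOfNorm_le hd hC hn, fun i => ?_⟩
  have h1 := LinearMap.extendOfNorm_eq hd ⟨C, hn⟩ (Finsupp.single i 1)
  rwa [Finsupp.linearCombination_single, one_smul, Finsupp.linearCombination_single, one_smul] at h1

theorem gram_isom {v : ι → E} (hv : Tot v) {w : ι → F} (h : ∀ i j, inner ℂ (v i) (v j) = (inner ℂ (w i) (w j) : ℂ)) :
    ∃ A : E →ₗᵢ[ℂ] F, ∀ i, A (v i) = w i := by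
  have hs : ∀ (s : Finset ι) (c : ι → ℂ), ‖∑ i ∈ s, c i • w i‖ = ‖∑ i ∈ s, c i • v i‖ := by
    intro s c
    have h1 : (inner ℂ (∑ i ∈ s, c i • w i) (∑ i ∈ s, c i • w i) : ℂ) =
        inner ℂ (∑ i ∈ s, c i • v i) (∑ i ∈ s, c i • v i) := by
      rw [sum_inner, sum_inner]
      refine Finset.sum_congr rfl fun i _ => ?_
      rw [inner_sum, inner_sum]
      refine Finset.sum_congr rfl fun j _ => ?_
      rw [inner_smul_left, inner_smul_left, inner_smul_right, inner_smul_right, h]
    have h2 := inner_self_eq_norm_sq (𝕜 := ℂ) (∑ i ∈ s, c i • w i)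
    have h3 := inner_self_eq_norm_sq (𝕜 := ℂ) (∑ i ∈ s, c i • v i)
    rw [h1, h3] at h2
    exact ((sq_eq_sq₀ (norm_nonneg _) (norm_nonneg _)).1 h2).symm
  obtain ⟨A, -, hA⟩ := gram_clm hv w zero_le_one fun s c => by rw [one_mul]; exact (hs s c).le
  have hn : ∀ x, ‖A x‖ = ‖x‖ := by
    refine fun x => (dense26 hv).induction_on (p := fun x => ‖A x‖ = ‖x‖) x
      (isClosed_eq A.continuous.norm continuous_norm) fun c => ?_
    have h1 : A (Finsupp.linearCombination ℂ v c) = ∑ i ∈ c.support, c i • w i := by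
      rw [Finsupp.linearCombination_apply, Finsupp.sum, map_sum]
      exact Finset.sum_congr rfl fun i _ => by rw [map_smul, hA]
    rw [h1, hs]
    rfl
  exact ⟨⟨A.toLinearMap, hn⟩, hA⟩

theorem gram_equiv {v : ι → E} (hv : Tot v) {w : ι → F} (hw : Tot w)
    (h : ∀ i j, inner ℂ (v i) (v j) = (inner ℂ (w i) (w j) : ℂ)) :
    ∃ A : E ≃ₗᵢ[ℂ] F, ∀ i, A (v i) = w i := by
  obtain ⟨A, hA⟩ := gram_isom hv h
  obtain ⟨B, hB⟩ := gram_isom hw fun i j => (h i j).symm
  have h1 : A.toContinuousLinearMap.comp B.toContinuousLinearMap = ContinuousLinearMap.id ℂ F := by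
    refine ContinuousLinearMap.ext_on (dense26' hw) ?_
    rintro _ ⟨i, rfl⟩
    change A (B (w i)) = w i
    rw [hB, hA]
  have h2 : Function.Surjective A := fun y => ⟨B y, congrFun (congrArg DFunLike.coe h1) y⟩
  exact ⟨LinearIsometryEquiv.ofSurjective A h2, hA⟩

omit [CompleteSpace E] [CompleteSpace F] in
theorem ext_tot {v : ι → E} (hv : Tot v) [CompleteSpace E] {A B : E →L[ℂ] F} (h : ∀ i, A (v i) = B (v i)) : A = B := by
  refine ContinuousLinearMap.ext_on (dense26' hv) ?_
  rintro _ ⟨i, rfl⟩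
  exact h i

/-- A positive semidefinite kernel is a Gram matrix. -/
theorem exists_gram (k : ι → ι → ℂ) (hs : ∀ i j, (starRingEnd ℂ) (k i j) = k j i)
    (hp : ∀ (s : Finset ι) (c : ι → ℂ), 0 ≤ (∑ i ∈ s, ∑ j ∈ s, (starRingEnd ℂ) (c i) * k i j * c j).re) :
    ∃ (K : Type) (_ : NormedAddCommGroup K) (_ : InnerProductSpace ℂ K) (_ : CompleteSpace K) (v : ι → K),
      Tot v ∧ ∀ i j, inner ℂ (v i) (v j) = k i j := by
  set K' : Matrix ι ι (ℂ →L[ℂ] ℂ) := Matrix.of fun x y => k x y • (1 : ℂ →L[ℂ] ℂ) with hK'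
  have hH : K'.IsHermitian := by
    refine Matrix.IsHermitian.ext fun x y => ?_
    rw [hK', Matrix.of_apply, Matrix.of_apply, star_smul, star_one]
    congr 1
    exact hs y x
  have hP : K'.PosSemidef := by
    have h0 := (RKHS.posSemidef_tfae (K := K')).out 2 0
    refine h0.1 ⟨hH, fun v => ?_⟩
    have h1 := hp v.support v
    have h2 : (v.sum fun x w => v.sum fun x' w' => inner ℂ (K' x' x w) w') =
        ∑ i ∈ v.support, ∑ j ∈ v.support, (starRingEnd ℂ) (v i) * k i j * v j := by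
      unfold Finsupp.sum
      refine Finset.sum_congr rfl fun x _ => Finset.sum_congr rfl fun y _ => ?_
      change inner ℂ (K' y x (v x)) (v y) = _
      rw [hK', Matrix.of_apply, FunLike.coe_smul, Pi.smul_apply, one_apply_eq_self,
        inner_smul_left, hs, RCLike.inner_apply]
      ring
    rw [h2]
    exact h1
  have : Fact K'.PosSemidef := ⟨hP⟩
  refine ⟨RKHS.OfKernel K', inferInstance, inferInstance, inferInstance,
    fun x => RKHS.kerFun (RKHS.OfKernel K') x 1, fun y hy => ?_, fun x y => ?_⟩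
  · refine RKHS.ext (𝕜 := ℂ) fun x => ?_
    have h1 := hy x
    rw [RKHS.kerFun_inner, RCLike.inner_apply, map_one, mul_one] at h1
    rw [h1, RKHS.coe_zero (𝕜 := ℂ)]
    rfl
  · rw [← RKHS.kernel_inner, RKHS.OfKernel.kernel_ofKernel, hK', Matrix.of_apply, FunLike.coe_smul,
      Pi.smul_apply, one_apply_eq_self, inner_smul_left, hs, RCLike.inner_apply]
    simp

end Pool.Agent.Helper35.FP
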