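import Pool.Agent.Helper35.FP.K0

/-!
# Project FP, block KF: functions, sections, the operators `Xi f`

`Yf.bdd`, `Sec.bdd`: `g = k (r g)` with `k = g (r g)⁻¹ ∈ K` compact (`geo.kr`, `geo.Kc`), `f g = f k`, `‖F g‖ = ‖F k‖`.
Covariance `Xi_cov`: `B.E_cov`, `B.TW` and its adjoint. `Xi_mul_right`: `Xi f' x` with `T (Xi f' x) = E f' (T x)` (`pvm`), then `E_mul`; `Xi_mul_left`: adjoints (`Xi_star`). `Xi_pos`: `B.E_pos` for `T (u i)`.
`Xi_norm`: `E_pos` with `n = 2` or `‖E f y‖² = ⟪y, E (|f|²) y⟫ ≤ C² ‖y‖²` (`E_star`, `E_mul`, `E_pos` with `n = 1`, `E_one`), `‖T† y‖ ≤ ‖y‖`.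
`cphi_CC`: `CC_T`, `CC_E`, and `T† c.2 = c.1 T†` (take adjoints of `T c.1⁻¹ = c.2⁻¹ T`). `cphi_V` is `B.VΦ`.
-/

set_option autoImplicit false
set_option linter.unusedSectionVars false

open Filter Topology

namespace Pool.Agent.Helper35.FP

variable {𝔾 𝕊 : Type} [Group 𝔾] [TopologicalSpace 𝔾] [IsTopologicalGroup 𝔾] [Group 𝕊] [TopologicalSpace 𝕊] [IsTopologicalGroup 𝕊]
  {𝕂 : Subgroup 𝕊} {geo : Geo 𝔾 𝕊 𝕂} {G S' H U : Type} [Group G] [Group S'] [TopologicalSpace S']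
  [NormedAddCommGroup H] [InnerProductSpace ℂ H] [CompleteSpace H]
  [NormedAddCommGroup U] [InnerProductSpace ℂ U] [CompleteSpace U]

section Fun


theorem Yf.bdd {f : 𝔾 → ℂ} (hf : Yf geo f) : ∃ C : ℝ, ∀ g, ‖f g‖ ≤ C := by
  obtain ⟨C, hC⟩ := geo.Kc.exists_bound_of_continuousOn hf.cont.continuousOn
  refine ⟨C, fun g => ?_⟩
  have h1 := hC _ (geo.kr g)
  have h2 := hf.inv g (geo.r g)⁻¹
  rw [Subgroup.coe_inv] at h2
  rwa [h2] at h1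

theorem Yf.bf {f : 𝔾 → ℂ} (hf : Yf geo f) : Bf geo f := ⟨hf.cont, fun g q _ => hf.inv g q, hf.bdd⟩

variable {L : Type} [NormedAddCommGroup L] [InnerProductSpace ℂ L] {ρ : Rp 𝕊 L}

theorem Sec.inner_yf (F F' : Sec geo ρ) : Yf geo fun g => inner ℂ ((F : 𝔾 → L) g) ((F' : 𝔾 → L) g) := by
  refine ⟨F.2.1.inner F'.2.1, fun g q => ?_⟩
  have h1 : (F : 𝔾 → L) (g * q) = ρ.U (geo.nb q)⁻¹ ((F : 𝔾 → L) g) := F.2.2 g q
  have h2 : (F' : 𝔾 → L) (g * q) = ρ.U (geo.nb q)⁻¹ ((F' : 𝔾 → L) g) := F'.2.2 g q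
  simp only [h1, h2, LinearIsometryEquiv.inner_map_map]

theorem Sec.bdd (F : Sec geo ρ) : ∃ C : ℝ, ∀ g, ‖(F : 𝔾 → L) g‖ ≤ C := by
  have hc : Continuous (F : 𝔾 → L) := F.2.1
  obtain ⟨C, hC⟩ := geo.Kc.exists_bound_of_continuousOn hc.continuousOn
  refine ⟨C, fun g => ?_⟩
  have h1 := hC _ (geo.kr g)
  have h2 : (F : 𝔾 → L) (g * ((geo.r g)⁻¹ : geo.Q)) = ρ.U (geo.nb (geo.r g)⁻¹)⁻¹ ((F : 𝔾 → L) g) :=
    F.2.2 g (geo.r g)⁻¹
  rw [Subgroup.coe_inv] at h2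
  rw [h2, LinearIsometryEquiv.norm_map] at h1
  exact h1

end Fun

section X

variable (B : BD geo G S' H U)

private theorem bf_conj36 {f : 𝔾 → ℂ} (hf : Bf geo f) : Bf geo fun g => (starRingEnd ℂ) (f g) := by
  refine ⟨Complex.continuous_conj.comp hf.cont, fun g q hq => by rw [hf.inv g q hq], ?_⟩
  obtain ⟨C, hC⟩ := hf.bdd
  exact ⟨C, fun g => by rw [RCLike.norm_conj]; exact hC g⟩

private theorem yf_conj36 {f : 𝔾 → ℂ} (hf : Yf geo f) : Yf geo fun g => (starRingEnd ℂ) (f g) :=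
  ⟨Complex.continuous_conj.comp hf.cont, fun g q => by rw [hf.inv g q]⟩

private theorem bf_mul36 {f f' : 𝔾 → ℂ} (hf : Bf geo f) (hf' : Bf geo f') : Bf geo fun g => f g * f' g := by
  refine ⟨hf.cont.mul hf'.cont, fun g q hq => by rw [hf.inv g q hq, hf'.inv g q hq], ?_⟩
  obtain ⟨C, hC⟩ := hf.bdd
  obtain ⟨C', hC'⟩ := hf'.bdd
  refine ⟨C * C', fun g => ?_⟩
  rw [norm_mul]
  exact mul_le_mul (hC g) (hC' g) (norm_nonneg _) ((norm_nonneg _).trans (hC g))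

private theorem bf_const36 (c : ℂ) : Bf geo fun _ => c :=
  ⟨continuous_const, fun _ _ _ => rfl, ⟨‖c‖, fun _ => le_rfl⟩⟩

private theorem adj_comm36 (B : BD geo G S' H U) {a : H ≃ₗᵢ[ℂ] H} {b : U ≃ₗᵢ[ℂ] U}
    (h : ∀ x, B.T (a x) = b (B.T x)) (y : U) :
    ContinuousLinearMap.adjoint B.T.toContinuousLinearMap (b y) =
      a (ContinuousLinearMap.adjoint B.T.toContinuousLinearMap y) := by
  refine ext_inner_right ℂ fun z => ?_
  rw [ContinuousLinearMap.adjoint_inner_left]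
  have h1 : B.T.toContinuousLinearMap z = b (B.T (a.symm z)) := by
    rw [← h, LinearIsometryEquiv.apply_symm_apply]
    rfl
  have h2 : (inner ℂ (a (ContinuousLinearMap.adjoint B.T.toContinuousLinearMap y)) z : ℂ) =
      inner ℂ (a (ContinuousLinearMap.adjoint B.T.toContinuousLinearMap y)) (a (a.symm z)) := by
    rw [LinearIsometryEquiv.apply_symm_apply]
  rw [h1, h2, LinearIsometryEquiv.inner_map_map, LinearIsometryEquiv.inner_map_map,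
    ContinuousLinearMap.adjoint_inner_left]
  rfl

private theorem xi_star36 (B : BD geo G S' H U) {f : 𝔾 → ℂ} (hf : Bf geo f) (x y : H) :
    inner ℂ (B.Xi f x) y = inner ℂ x (B.Xi (fun g => (starRingEnd ℂ) (f g)) y) := by
  rw [B.Xi_apply, B.Xi_apply, ContinuousLinearMap.adjoint_inner_left, ContinuousLinearMap.adjoint_inner_right]
  exact B.E_star f hf _ _

private theorem e_norm36 (B : BD geo G S' H U) {f : 𝔾 → ℂ} (hf : Bf geo f) {C : ℝ} (hC0 : 0 ≤ C)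
    (hC : ∀ g, ‖f g‖ ≤ C) (y : U) : ‖B.E f y‖ ≤ C * ‖y‖ := by
  have hb : Bf geo fun g => (starRingEnd ℂ) (f g) * f g := bf_mul36 (bf_conj36 hf) hf
  have h1 : (inner ℂ (B.E f y) (B.E f y) : ℂ) = inner ℂ y (B.E (fun g => (starRingEnd ℂ) (f g) * f g) y) := by
    rw [B.E_star f hf, B.E_mul _ _ (bf_conj36 hf) hf]
  have hA : Bf geo fun g => ((C : ℂ) ^ 2) * 1 := bf_const36 _
  have hB' : Bf geo fun g => (-1 : ℂ) * ((starRingEnd ℂ) (f g) * f g) := bf_mul36 (bf_const36 _) hb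
  have hbf : Bf geo fun g => ((C : ℂ) ^ 2) * 1 + (-1 : ℂ) * ((starRingEnd ℂ) (f g) * f g) := by
    refine ⟨hA.cont.add hB'.cont, fun g q hq => by rw [hf.inv g q hq], ?_⟩
    obtain ⟨c1, hc1⟩ := hA.bdd
    obtain ⟨c2, hc2⟩ := hB'.bdd
    exact ⟨c1 + c2, fun g => (norm_add_le _ _).trans (add_le_add (hc1 g) (hc2 g))⟩
  have h2 := B.E_pos 1 (fun _ _ g => ((C : ℂ) ^ 2) * 1 + (-1 : ℂ) * ((starRingEnd ℂ) (f g) * f g))
    (fun _ _ => hbf) (by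
      intro g z
      simp only [Finset.univ_unique, Fin.default_eq_zero, Fin.isValue, Finset.sum_singleton]
      have h3 : (starRingEnd ℂ) (z 0) * ((C : ℂ) ^ 2 * 1 + (-1 : ℂ) * ((starRingEnd ℂ) (f g) * f g)) * z 0 =
          (((C ^ 2 - ‖f g‖ ^ 2) * ‖z 0‖ ^ 2 : ℝ) : ℂ) := by
        have h4 : (starRingEnd ℂ) (f g) * f g = ((‖f g‖ ^ 2 : ℝ) : ℂ) := by
          rw [mul_comm, Complex.mul_conj, Complex.normSq_eq_norm_sq]
        have h5 : (starRingEnd ℂ) (z 0) * z 0 = ((‖z 0‖ ^ 2 : ℝ) : ℂ) := by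
          rw [mul_comm, Complex.mul_conj, Complex.normSq_eq_norm_sq]
        rw [h4, mul_right_comm, h5]
        push_cast
        ring
      rw [h3, Complex.ofReal_re]
      have h6 : ‖f g‖ ^ 2 ≤ C ^ 2 := pow_le_pow_left₀ (norm_nonneg _) (hC g) 2
      exact mul_nonneg (by linarith) (by positivity))
    (fun _ => y)
  simp only [Finset.univ_unique, Finset.sum_singleton] at h2
  rw [B.E_add _ _ hA hB', B.E_smul _ _ (bf_const36 1), B.E_one, B.E_smul _ _ hb, inner_add_right,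
    inner_smul_right, inner_smul_right, ← h1] at h2
  have h7 : (inner ℂ y y : ℂ) = ((‖y‖ ^ 2 : ℝ) : ℂ) := by
    rw [inner_self_eq_norm_sq_to_K]
    push_cast
    rfl
  have h8 : (inner ℂ (B.E f y) (B.E f y) : ℂ) = ((‖B.E f y‖ ^ 2 : ℝ) : ℂ) := by
    rw [inner_self_eq_norm_sq_to_K]
    push_cast
    rfl
  rw [h7, h8] at h2
  have h9 : ((C : ℂ) ^ 2 * ((‖y‖ ^ 2 : ℝ) : ℂ) + (-1 : ℂ) * ((‖B.E f y‖ ^ 2 : ℝ) : ℂ)) =
      ((C ^ 2 * ‖y‖ ^ 2 - ‖B.E f y‖ ^ 2 : ℝ) : ℂ) := by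
    push_cast
    ring
  rw [h9, Complex.ofReal_re] at h2
  have h10 : ‖B.E f y‖ ^ 2 ≤ (C * ‖y‖) ^ 2 := by
    rw [mul_pow]
    linarith
  exact (pow_le_pow_iff_left₀ (norm_nonneg _) (mul_nonneg hC0 (norm_nonneg _)) two_ne_zero).1 h10

theorem BD.Xi_cov (k : G) {f : 𝔾 → ℂ} (hf : Bf geo f) (x : H) :
    B.Xi (fun g => f ((B.ir k)⁻¹ * g)) (B.W k x) = B.W k (B.Xi f x) := by
  rw [B.Xi_apply, B.Xi_apply, B.TW, ← B.E_cov k f hf, adj_comm36 B (B.TW k)]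

theorem BD.Xi_mul_right {f f' : 𝔾 → ℂ} (hf : Bf geo f) (hf' : Yf geo f') (x : H) :
    B.Xi f (B.Xi f' x) = B.Xi (fun g => f g * f' g) x := by
  rw [B.Xi_apply, B.Xi_apply, B.Xi_apply, ← B.pvm f' hf', ← B.E_mul f f' hf hf'.bf]

theorem BD.Xi_mul_left {f f' : 𝔾 → ℂ} (hf : Yf geo f) (hf' : Bf geo f') (x : H) :
    B.Xi f (B.Xi f' x) = B.Xi (fun g => f g * f' g) x := by
  refine ext_inner_right ℂ fun y => ?_
  rw [xi_star36 B hf.bf, xi_star36 B hf', B.Xi_mul_right (bf_conj36 hf') (yf_conj36 hf),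
    xi_star36 B (bf_mul36 hf.bf hf')]
  congr 3
  funext g
  rw [map_mul, mul_comm]

theorem BD.Xi_star {f : 𝔾 → ℂ} (hf : Bf geo f) (x y : H) :
    inner ℂ (B.Xi f x) y = inner ℂ x (B.Xi (fun g => (starRingEnd ℂ) (f g)) y) := by
  exact xi_star36 B hf x y

theorem BD.Xi_pos (n : ℕ) (a : Fin n → Fin n → 𝔾 → ℂ) (ha : ∀ i j, Bf geo (a i j))
    (hp : ∀ (g : 𝔾) (z : Fin n → ℂ), 0 ≤ (∑ i, ∑ j, (starRingEnd ℂ) (z i) * a i j g * z j).re) (u : Fin n → H) :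
    0 ≤ (∑ i, ∑ j, inner ℂ (u i) (B.Xi (a i j) (u j))).re := by
  have h1 := B.E_pos n a ha hp fun i => B.T (u i)
  have h2 : (∑ i, ∑ j, inner ℂ (u i) (B.Xi (a i j) (u j))) =
      ∑ i, ∑ j, (inner ℂ (B.T (u i)) (B.E (a i j) (B.T (u j))) : ℂ) := by
    refine Finset.sum_congr rfl fun i _ => Finset.sum_congr rfl fun j _ => ?_
    rw [B.Xi_apply, ContinuousLinearMap.adjoint_inner_right]
    rfl
  rw [h2]
  exact h1

theorem BD.Xi_norm {f : 𝔾 → ℂ} (hf : Bf geo f) {C : ℝ} (hC : ∀ g, ‖f g‖ ≤ C) (x : H) : ‖B.Xi f x‖ ≤ C * ‖x‖ := by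
  have hC0 : 0 ≤ C := (norm_nonneg _).trans (hC 1)
  have hT : ‖ContinuousLinearMap.adjoint B.T.toContinuousLinearMap‖ ≤ 1 := by
    rw [LinearIsometryEquiv.norm_map]
    exact B.T.norm_toContinuousLinearMap_le
  have h1 : ‖B.Xi f x‖ ≤ ‖B.E f (B.T x)‖ := by
    rw [B.Xi_apply]
    refine (ContinuousLinearMap.le_of_opNorm_le _ hT _).trans ?_
    rw [one_mul]
  refine h1.trans ?_
  rw [← B.T.norm_map x]
  exact e_norm36 B hf hC0 hC (B.T x)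

/-- The unitaries in `CC` and `V s` commute with the functions on `𝔾 / Q`. -/
theorem BD.cphi_CC {c : (H ≃ₗᵢ[ℂ] H) × (U ≃ₗᵢ[ℂ] U)} (hc : c ∈ B.CC) : B.CPhi c.1 := by
  intro f hf x
  rw [B.Xi_apply, B.Xi_apply, ← adj_comm36 B (B.CC_T c hc), B.CC_E c hc f hf.bf, ← B.CC_T c hc]

theorem BD.cphi_V (s : S') : B.CPhi (B.V s) := by
  intro f hf x
  rw [B.Xi_apply, B.Xi_apply]
  exact B.VΦ s f hf x

end X

end Pool.Agent.Helper35.FP
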