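import Pool.Agent.Helper35.FP.KT

/-!
# Project FP, block KP: fields of operators act on `Kt`

`Fd geo ρ ρ'`: bounded strongly continuous equivariant fields `O g : L → L'`. `mulF O (τ F x) = τ (O F) x`: `exists_mulF` by `gram_clm`: `‖Σ τ' (O F i) (x i)‖² = Σ ⟪x i, Xi ⟪O F i, O F j⟫ x j⟫ ≤ C² Σ ⟪x i, Xi ⟪F i, F j⟫ x j⟫`
by `Xi_pos` (the kernel `C² ⟪F i, F j⟫ - ⟪O F i, O F j⟫` is positive). Everything else on the total vectors `τ F x` (`tot_tau`, `ext_tot`); for the limits (`mulF_lim`): uniformly bounded, so enough on `τ F x`, there `‖τ F x‖ ≤ sup_K ‖F‖ ‖x‖`.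
`Fd.const`: intertwiners `A : L → L'`. `Fd.ofK`: operators `A` which intertwine the restrictions to `𝕂`: `O g = ρ'(nb (r g))⁻¹ A ρ(nb (r g))`; equivariance: `r (g q) = m (r g) q` with `nb m ∈ 𝕂` (`geo.kr`, `geo.KK`).
-/

set_option autoImplicit false
set_option linter.unusedSectionVars false

open Filter Topology

namespace Pool.Agent.Helper35.FP

variable {𝔾 𝕊 : Type} [Group 𝔾] [TopologicalSpace 𝔾] [IsTopologicalGroup 𝔾] [Group 𝕊] [TopologicalSpace 𝕊] [IsTopologicalGroup 𝕊]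
  {𝕂 : Subgroup 𝕊} {geo : Geo 𝔾 𝕊 𝕂} {G S' H U : Type} [Group G] [Group S'] [TopologicalSpace S']
  [NormedAddCommGroup H] [InnerProductSpace ℂ H] [CompleteSpace H]
  [NormedAddCommGroup U] [InnerProductSpace ℂ U] [CompleteSpace U]

section Push

variable {L L' L'' : Type} [NormedAddCommGroup L] [InnerProductSpace ℂ L]
  [NormedAddCommGroup L'] [InnerProductSpace ℂ L'] [NormedAddCommGroup L''] [InnerProductSpace ℂ L'']

/-- Bounded strongly continuous equivariant fields of operators. -/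
structure Fd (geo : Geo 𝔾 𝕊 𝕂) (ρ : Rp 𝕊 L) (ρ' : Rp 𝕊 L') where
  /-- the operators -/
  O : 𝔾 → (L →L[ℂ] L')
  cont : ∀ w, Continuous fun g => O g w
  inv : ∀ (g : 𝔾) (q : geo.Q) (w : L), O (g * q) (ρ.U (geo.nb q)⁻¹ w) = ρ'.U (geo.nb q)⁻¹ (O g w)
  bdd : ∃ C : ℝ, 0 ≤ C ∧ ∀ g, ‖O g‖ ≤ C

variable {ρ : Rp 𝕊 L} {ρ' : Rp 𝕊 L'} {ρ'' : Rp 𝕊 L''}

private theorem strong61 {X : Type} [TopologicalSpace X] {O : X → (L →L[ℂ] L')} (hO : ∀ w, Continuous fun g => O g w)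
    {C : ℝ} (hC : ∀ g, ‖O g‖ ≤ C) {F : X → L} (hF : Continuous F) : Continuous fun g => O g (F g) := by
  rw [continuous_iff_continuousAt]
  intro g0
  refine tendsto_iff_norm_sub_tendsto_zero.2 ?_
  have h1 : Tendsto (fun g => C * ‖F g - F g0‖ + ‖O g (F g0) - O g0 (F g0)‖) (𝓝 g0) (𝓝 0) := by
    have h2 : Continuous fun g => C * ‖F g - F g0‖ + ‖O g (F g0) - O g0 (F g0)‖ :=
      (continuous_const.mul (hF.sub continuous_const).norm).add ((hO _).sub continuous_const).norm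
    have h3 := h2.tendsto g0
    simpa using h3
  refine squeeze_zero (fun g => norm_nonneg _) (fun g => ?_) h1
  have h4 : O g (F g) - O g0 (F g0) = O g (F g - F g0) + (O g (F g0) - O g0 (F g0)) := by
    rw [map_sub]
    abel
  rw [h4]
  refine (norm_add_le _ _).trans (add_le_add ?_ le_rfl)
  exact ((O g).le_opNorm _).trans (mul_le_mul_of_nonneg_right (hC g) (norm_nonneg _))

theorem Fd.cont2 (o : Fd geo ρ ρ') {F : 𝔾 → L} (hF : Continuous F) : Continuous fun g => o.O g (F g) := by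
  obtain ⟨C, -, hC⟩ := o.bdd
  exact strong61 o.cont hC hF

/-- Fields act on the sections. -/
def Fd.ap (o : Fd geo ρ ρ') : Sec geo ρ →ₗ[ℂ] Sec geo ρ' where
  toFun F := ⟨fun g => o.O g ((F : 𝔾 → L) g), o.cont2 F.2.1, fun g q => by
    change o.O (g * q) ((F : 𝔾 → L) (g * q)) = _
    rw [F.2.2, o.inv]⟩
  map_add' F F' := Subtype.ext (funext fun g => map_add (o.O g) _ _)
  map_smul' c F := Subtype.ext (funext fun g => map_smul (o.O g) c _)

variable (B : BD geo G S' H U)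

private theorem bf_const61 {f : 𝔾 → ℂ} (hf : Bf geo f) (c : ℂ) : Bf geo fun g => c * f g := by
  refine ⟨continuous_const.mul hf.cont, fun g q hq => ?_, ?_⟩
  · rw [hf.inv g q hq]
  · obtain ⟨C, hC⟩ := hf.bdd
    refine ⟨‖c‖ * C, fun g => ?_⟩
    rw [norm_mul]
    exact mul_le_mul_of_nonneg_left (hC g) (norm_nonneg _)

private theorem Xi_lin61 {f f' : 𝔾 → ℂ} (hf : Bf geo f) (hf' : Bf geo f') (c : ℂ) (x : H) :
    B.Xi (fun g => c * f g - f' g) x = c • B.Xi f x - B.Xi f' x := by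
  have h0 : (fun g => c * f g - f' g) = fun g => c * f g + (-1) * f' g := by
    funext g
    ring
  have h1 := B.E_add (fun g => c * f g) (fun g => (-1) * f' g) (bf_const61 hf c) (bf_const61 hf' (-1))
    (B.T x)
  have h2 := B.E_smul c f hf (B.T x)
  have h3 := B.E_smul (-1) f' hf' (B.T x)
  rw [h0, B.Xi_apply, B.Xi_apply, B.Xi_apply, h1, h2, h3, map_add, map_smul, map_smul, neg_one_smul,
    sub_eq_add_neg]

private theorem norm_sum61 {n : ℕ} (F : Fin n → Sec geo ρ) (y : Fin n → H) :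
    ‖∑ i, tau B (F i) (y i)‖ ^ 2 = (∑ i, ∑ j, inner ℂ (y i)
      (B.Xi (fun g => inner ℂ ((F i : 𝔾 → L) g) ((F j : 𝔾 → L) g)) (y j))).re := by
  have h : inner ℂ (∑ i, tau B (F i) (y i)) (∑ i, tau B (F i) (y i)) = ∑ i, ∑ j, inner ℂ (y i)
      (B.Xi (fun g => inner ℂ ((F i : 𝔾 → L) g) ((F j : 𝔾 → L) g)) (y j)) := by
    rw [sum_inner]
    refine Finset.sum_congr rfl fun i _ => ?_
    rw [inner_sum]
    exact Finset.sum_congr rfl fun j _ => inner_tau B _ _ _ _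
  rw [@norm_sq_eq_re_inner ℂ, h]
  rfl

private theorem gramA61 {A : L →L[ℂ] L'} {c : ℝ} (hA : ‖A‖ ≤ c) (n : ℕ) (v : Fin n → L) (z : Fin n → ℂ) :
    0 ≤ (∑ i, ∑ j, (starRingEnd ℂ) (z i) * ((((c ^ 2 : ℝ) : ℂ)) * inner ℂ (v i) (v j) -
      inner ℂ (A (v i)) (A (v j))) * z j).re := by
  have h1 : ∑ i, ∑ j, (starRingEnd ℂ) (z i) * ((((c ^ 2 : ℝ) : ℂ)) * inner ℂ (v i) (v j) -
      inner ℂ (A (v i)) (A (v j))) * z j =
      (((c ^ 2 : ℝ) : ℂ)) * inner ℂ (∑ i, z i • v i) (∑ i, z i • v i) -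
        inner ℂ (A (∑ i, z i • v i)) (A (∑ i, z i • v i)) := by
    rw [map_sum, sum_inner, sum_inner, Finset.mul_sum, ← Finset.sum_sub_distrib]
    refine Finset.sum_congr rfl fun i _ => ?_
    rw [inner_sum, inner_sum, Finset.mul_sum, ← Finset.sum_sub_distrib]
    refine Finset.sum_congr rfl fun j _ => ?_
    rw [map_smul, map_smul, inner_smul_left, inner_smul_right, inner_smul_left, inner_smul_right]
    ring
  rw [h1, inner_self_eq_norm_sq_to_K, inner_self_eq_norm_sq_to_K]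
  have h2 : ‖A (∑ i, z i • v i)‖ ≤ c * ‖∑ i, z i • v i‖ :=
    (A.le_opNorm _).trans (mul_le_mul_of_nonneg_right hA (norm_nonneg _))
  have h3 : ‖A (∑ i, z i • v i)‖ ^ 2 ≤ (c * ‖∑ i, z i • v i‖) ^ 2 :=
    pow_le_pow_left₀ (norm_nonneg _) h2 2
  rw [mul_pow] at h3
  have h4 : (((c ^ 2 : ℝ) : ℂ) * ((‖∑ i, z i • v i‖ : ℝ) : ℂ) ^ 2 -
      ((‖A (∑ i, z i • v i)‖ : ℝ) : ℂ) ^ 2) =
      ((c ^ 2 * ‖∑ i, z i • v i‖ ^ 2 - ‖A (∑ i, z i • v i)‖ ^ 2 : ℝ) : ℂ) := by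
    push_cast
    ring
  change 0 ≤ (((c ^ 2 : ℝ) : ℂ) * ((‖∑ i, z i • v i‖ : ℝ) : ℂ) ^ 2 -
      ((‖A (∑ i, z i • v i)‖ : ℝ) : ℂ) ^ 2).re
  rw [h4, Complex.ofReal_re]
  linarith

private theorem ap_ineq61 (o : Fd geo ρ ρ') {c : ℝ} (hc : 0 ≤ c) (ho : ∀ g, ‖o.O g‖ ≤ c) {n : ℕ} (F : Fin n → Sec geo ρ)
    (y : Fin n → H) :
    ‖∑ i, tau B (o.ap (F i)) (y i)‖ ≤ c * ‖∑ i, tau B (F i) (y i)‖ := by
  have hy : ∀ i j, Yf geo fun g => inner ℂ ((F i : 𝔾 → L) g) ((F j : 𝔾 → L) g) := fun i j =>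
    Sec.inner_yf _ _
  have hy' : ∀ i j, Yf geo fun g => inner ℂ (o.O g ((F i : 𝔾 → L) g)) (o.O g ((F j : 𝔾 → L) g)) :=
    fun i j => Sec.inner_yf (o.ap (F i)) (o.ap (F j))
  have ha : ∀ i j, Bf geo fun g => (((c ^ 2 : ℝ) : ℂ)) * inner ℂ ((F i : 𝔾 → L) g) ((F j : 𝔾 → L) g) -
      inner ℂ (o.O g ((F i : 𝔾 → L) g)) (o.O g ((F j : 𝔾 → L) g)) := by
    intro i j
    refine Yf.bf ⟨(continuous_const.mul (hy i j).cont).sub (hy' i j).cont, fun g q => ?_⟩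
    exact congrArg₂ (fun a b : ℂ => (((c ^ 2 : ℝ) : ℂ)) * a - b) ((hy i j).inv g q)
      ((hy' i j).inv g q)
  have h0 := B.Xi_pos n _ ha (fun g z => gramA61 (ho g) n (fun i => (F i : 𝔾 → L) g) z) y
  have h1 : (∑ i, ∑ j, inner ℂ (y i) (B.Xi (fun g => (((c ^ 2 : ℝ) : ℂ)) *
      inner ℂ ((F i : 𝔾 → L) g) ((F j : 𝔾 → L) g) -
      inner ℂ (o.O g ((F i : 𝔾 → L) g)) (o.O g ((F j : 𝔾 → L) g))) (y j))) =
      (((c ^ 2 : ℝ) : ℂ)) * (∑ i, ∑ j, inner ℂ (y i)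
        (B.Xi (fun g => inner ℂ ((F i : 𝔾 → L) g) ((F j : 𝔾 → L) g)) (y j))) -
      ∑ i, ∑ j, inner ℂ (y i)
        (B.Xi (fun g => inner ℂ ((o.ap (F i) : 𝔾 → L') g) ((o.ap (F j) : 𝔾 → L') g)) (y j)) := by
    rw [Finset.mul_sum, ← Finset.sum_sub_distrib]
    refine Finset.sum_congr rfl fun i _ => ?_
    rw [Finset.mul_sum, ← Finset.sum_sub_distrib]
    refine Finset.sum_congr rfl fun j _ => ?_
    rw [Xi_lin61 B (hy i j).bf (hy' i j).bf, inner_sub_right, inner_smul_right]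
    rfl
  rw [h1, Complex.sub_re, Complex.re_ofReal_mul, ← norm_sum61 B F y,
    ← norm_sum61 B (fun i => o.ap (F i)) y, ← mul_pow] at h0
  exact (sq_le_sq₀ (norm_nonneg _) (mul_nonneg hc (norm_nonneg _))).1 (by linarith)

private theorem exists_one61 (o : Fd geo ρ ρ') {c : ℝ} (hc : 0 ≤ c) (ho : ∀ g, ‖o.O g‖ ≤ c) :
    ∃ C : Kt B ρ →L[ℂ] Kt B ρ', ‖C‖ ≤ c ∧ ∀ (F : Sec geo ρ) (x : H), C (tau B F x) = tau B (o.ap F) x := by
  obtain ⟨C, hC, h⟩ := gram_clm (tot_tau B ρ)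
    (fun p : Sec geo ρ × H => tau B (o.ap p.1) p.2) hc (by
      intro s c'
      have h1 := ap_ineq61 B o hc ho (fun i : Fin s.card => (s.equivFin.symm i).1.1)
        (fun i => c' (s.equivFin.symm i).1 • (s.equivFin.symm i).1.2)
      have h2 : ∀ (K : Type) [NormedAddCommGroup K] [InnerProductSpace ℂ K]
          (t : Sec geo ρ → (H →L[ℂ] K)),
          ∑ i : Fin s.card, t (s.equivFin.symm i).1.1 (c' (s.equivFin.symm i).1 •
            (s.equivFin.symm i).1.2) = ∑ i ∈ s, c' i • t i.1 i.2 := by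
        intro K _ _ t
        rw [Equiv.sum_comp s.equivFin.symm (fun p : s => t p.1.1 (c' p.1 • p.1.2)),
          ← Finset.sum_coe_sort s]
        exact Finset.sum_congr rfl fun p _ => map_smul _ _ _
      rw [h2 _ (fun F => tau B (o.ap F)), h2 _ (fun F => tau B F)] at h1
      exact h1)
  exact ⟨C, hC, fun F x => h (F, x)⟩

theorem exists_mulF (o : Fd geo ρ ρ') : ∃ C : Kt B ρ →L[ℂ] Kt B ρ', (∀ c : ℝ, 0 ≤ c → (∀ g, ‖o.O g‖ ≤ c) → ‖C‖ ≤ c) ∧
    ∀ (F : Sec geo ρ) (x : H), C (tau B F x) = tau B (o.ap F) x := by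
  obtain ⟨c0, h0, hc0⟩ := o.bdd
  obtain ⟨C, -, hC⟩ := exists_one61 B o h0 hc0
  refine ⟨C, fun c hc ho => ?_, hC⟩
  obtain ⟨C', hC'1, hC'⟩ := exists_one61 B o hc ho
  have h : C = C' := ext_tot (tot_tau B ρ) fun p => by rw [hC, hC']
  rw [h]
  exact hC'1

/-- The operator between the spaces `Kt` given by a field. -/
noncomputable def mulF (o : Fd geo ρ ρ') : Kt B ρ →L[ℂ] Kt B ρ' := (exists_mulF B o).choose

theorem norm_mulF (o : Fd geo ρ ρ') {c : ℝ} (hc : 0 ≤ c) (h : ∀ g, ‖o.O g‖ ≤ c) : ‖mulF B o‖ ≤ c :=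
  (exists_mulF B o).choose_spec.1 c hc h

theorem mulF_tau (o : Fd geo ρ ρ') (F : Sec geo ρ) (x : H) : mulF B o (tau B F x) = tau B (o.ap F) x :=
  (exists_mulF B o).choose_spec.2 F x

/-- The translated field. -/
def Fd.act (o : Fd geo ρ ρ') (k : G) : Fd geo ρ ρ' where
  O g := o.O ((B.ir k)⁻¹ * g)
  cont w := (o.cont w).comp (continuous_const_mul _)
  inv g q w := by
    rw [← mul_assoc]
    exact o.inv _ q w
  bdd := by
    obtain ⟨C, h0, hC⟩ := o.bdd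
    exact ⟨C, h0, fun g => hC _⟩

theorem WK_mulF (o : Fd geo ρ ρ') (k : G) (y : Kt B ρ) : WK B ρ' k (mulF B o y) = mulF B (o.act B k) (WK B ρ k y) := by
  have h : (WK B ρ' k).toContinuousLinearEquiv.toContinuousLinearMap.comp (mulF B o) =
      (mulF B (o.act B k)).comp (WK B ρ k).toContinuousLinearEquiv.toContinuousLinearMap := by
    refine ext_tot (tot_tau B ρ) fun p => ?_
    change WK B ρ' k (mulF B o (tau B p.1 p.2)) = mulF B (o.act B k) (WK B ρ k (tau B p.1 p.2))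
    rw [WK_tau, mulF_tau, mulF_tau, WK_tau]
    rfl
  exact DFunLike.congr_fun h y

theorem mulF_lift (o : Fd geo ρ ρ') {c : H ≃ₗᵢ[ℂ] H} (hc : B.CPhi c) (y : Kt B ρ) :
    mulF B o (lift B ρ c y) = lift B ρ' c (mulF B o y) := by
  have h : (mulF B o).comp (lift B ρ c).toContinuousLinearEquiv.toContinuousLinearMap =
      (lift B ρ' c).toContinuousLinearEquiv.toContinuousLinearMap.comp (mulF B o) := by
    refine ext_tot (tot_tau B ρ) fun p => ?_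
    change mulF B o (lift B ρ c (tau B p.1 p.2)) = lift B ρ' c (mulF B o (tau B p.1 p.2))
    rw [lift_tau B ρ hc, mulF_tau, mulF_tau, lift_tau B ρ' hc]
  exact DFunLike.congr_fun h y

theorem mulF_PhiK (o : Fd geo ρ ρ') {f : 𝔾 → ℂ} (hf : Yf geo f) (y : Kt B ρ) :
    mulF B o (PhiK B ρ f y) = PhiK B ρ' f (mulF B o y) := by
  have h : (mulF B o).comp (PhiK B ρ f) = (PhiK B ρ' f).comp (mulF B o) := by
    refine ext_tot (tot_tau B ρ) fun p => ?_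
    change mulF B o (PhiK B ρ f (tau B p.1 p.2)) = PhiK B ρ' f (mulF B o (tau B p.1 p.2))
    rw [PhiK_tau B ρ hf, mulF_tau, mulF_tau, PhiK_tau B ρ' hf]
  exact DFunLike.congr_fun h y

theorem inner_mulF (o : Fd geo ρ ρ') (o' : Fd geo ρ' ρ) (h : ∀ g w w', (inner ℂ (o.O g w) w' : ℂ) = inner ℂ w (o'.O g w'))
    (y : Kt B ρ) (y' : Kt B ρ') : (inner ℂ (mulF B o y) y' : ℂ) = inner ℂ y (mulF B o' y') := by
  have h1 : ContinuousLinearMap.adjoint (mulF B o) = mulF B o' := by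
    refine ext_tot (tot_tau B ρ') fun p' => ?_
    refine sub_eq_zero.1 (tot_tau B ρ _ fun p => ?_)
    rw [inner_sub_right, ContinuousLinearMap.adjoint_inner_right, mulF_tau, mulF_tau, inner_tau,
      inner_tau, sub_eq_zero]
    congr 2
    congr 1
    funext g
    exact h g _ _
  rw [← h1, ContinuousLinearMap.adjoint_inner_right]

theorem mulF_isom (o : Fd geo ρ ρ') (hi : ∀ g w, ‖o.O g w‖ = ‖w‖) (y : Kt B ρ) : ‖mulF B o y‖ = ‖y‖ := by
  obtain ⟨C, hC⟩ := gram_isom (tot_tau B ρ)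
    (w := fun p : Sec geo ρ × H => tau B (o.ap p.1) p.2) (by
      intro p p'
      rw [inner_tau, inner_tau]
      congr 2
      congr 1
      funext g
      exact (LinearIsometry.inner_map_map (⟨(o.O g).toLinearMap, hi g⟩ : L →ₗᵢ[ℂ] L') _ _).symm)
  have h : mulF B o = C.toContinuousLinearMap := by
    refine ext_tot (tot_tau B ρ) fun p => ?_
    rw [mulF_tau]
    exact (hC p).symm
  rw [h]
  exact C.norm_map y

theorem mulF_comp (o : Fd geo ρ ρ') (o' : Fd geo ρ' ρ'') (o'' : Fd geo ρ ρ'') (h : ∀ g w, o''.O g w = o'.O g (o.O g w))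
    (y : Kt B ρ) : mulF B o'' y = mulF B o' (mulF B o y) := by
  have h1 : mulF B o'' = (mulF B o').comp (mulF B o) := by
    refine ext_tot (tot_tau B ρ) fun p => ?_
    change mulF B o'' (tau B p.1 p.2) = mulF B o' (mulF B o (tau B p.1 p.2))
    rw [mulF_tau, mulF_tau, mulF_tau]
    have h2 : o''.ap p.1 = o'.ap (o.ap p.1) := Subtype.ext (funext fun g => h g _)
    rw [h2]
  rw [h1]
  rfl

theorem mulF_id (o : Fd geo ρ ρ) (h : ∀ g w, o.O g w = w) (y : Kt B ρ) : mulF B o y = y := by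
  have h1 : mulF B o = ContinuousLinearMap.id ℂ (Kt B ρ) := by
    refine ext_tot (tot_tau B ρ) fun p => ?_
    change mulF B o (tau B p.1 p.2) = tau B p.1 p.2
    have h2 : o.ap p.1 = p.1 := Subtype.ext (funext fun g => h g _)
    rw [mulF_tau, h2]
  rw [h1]
  rfl

theorem mulF_add (o o' o'' : Fd geo ρ ρ') (h : ∀ g w, o''.O g w = o.O g w + o'.O g w) (y : Kt B ρ) :
    mulF B o'' y = mulF B o y + mulF B o' y := by
  have h1 : mulF B o'' = mulF B o + mulF B o' := by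
    refine ext_tot (tot_tau B ρ) fun p => ?_
    change mulF B o'' (tau B p.1 p.2) = mulF B o (tau B p.1 p.2) + mulF B o' (tau B p.1 p.2)
    have h2 : o''.ap p.1 = o.ap p.1 + o'.ap p.1 := Subtype.ext (funext fun g => h g _)
    rw [mulF_tau, mulF_tau, mulF_tau, h2, tau_add]
    rfl
  rw [h1]
  rfl


private theorem sec_sup61 (F : Sec geo ρ) {c : ℝ} (hF : ∀ g ∈ geo.K, ‖(F : 𝔾 → L) g‖ ≤ c) (g : 𝔾) :
    ‖(F : 𝔾 → L) g‖ ≤ c := by
  have h2 : (F : 𝔾 → L) (g * ((geo.r g)⁻¹ : geo.Q)) = ρ.U (geo.nb (geo.r g)⁻¹)⁻¹ ((F : 𝔾 → L) g) :=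
    F.2.2 g (geo.r g)⁻¹
  have h1 := hF _ (geo.kr g)
  rw [Subgroup.coe_inv] at h2
  rwa [h2, LinearIsometryEquiv.norm_map] at h1

private theorem norm_tau61 (F : Sec geo ρ) {c : ℝ} (hc : 0 ≤ c) (hF : ∀ g, ‖(F : 𝔾 → L) g‖ ≤ c) (x : H) :
    ‖tau B F x‖ ≤ c * ‖x‖ := by
  have h2 : ((‖tau B F x‖ ^ 2 : ℝ) : ℂ) = inner ℂ x (B.Xi (fun g => inner ℂ ((F : 𝔾 → L) g) ((F : 𝔾 → L) g)) x) := by
    rw [← inner_tau, inner_self_eq_norm_sq_to_K]
    norm_cast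
  have h3 : ‖tau B F x‖ ^ 2 = ‖(inner ℂ x (B.Xi (fun g => inner ℂ ((F : 𝔾 → L) g) ((F : 𝔾 → L) g)) x) : ℂ)‖ := by
    rw [← h2, Complex.norm_real, Real.norm_of_nonneg (by positivity)]
  have h4 : ∀ g, ‖(inner ℂ ((F : 𝔾 → L) g) ((F : 𝔾 → L) g) : ℂ)‖ ≤ c * c := fun g =>
    (norm_inner_le_norm _ _).trans (mul_le_mul (hF g) (hF g) (norm_nonneg _) hc)
  have h5 := B.Xi_norm (Sec.inner_yf F F).bf h4 x
  have h1 : ‖tau B F x‖ ^ 2 ≤ (c * ‖x‖) ^ 2 := by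
    rw [h3]
    calc _ ≤ ‖x‖ * ‖B.Xi (fun g => inner ℂ ((F : 𝔾 → L) g) ((F : 𝔾 → L) g)) x‖ := norm_inner_le_norm _ _
      _ ≤ ‖x‖ * (c * c * ‖x‖) := by gcongr
      _ = _ := by ring
  exact (sq_le_sq₀ (norm_nonneg _) (by positivity)).1 h1

private theorem dense61 {ι E : Type} [NormedAddCommGroup E] [InnerProductSpace ℂ E] [CompleteSpace E] {v : ι → E} (hv : Tot v) :
    Dense ((Submodule.span ℂ (Set.range v) : Submodule ℂ E) : Set E) := by
  have h1 : (Submodule.span ℂ (Set.range v)).topologicalClosure = ⊤ := by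
    rw [Submodule.topologicalClosure_eq_top_iff, Submodule.eq_bot_iff]
    intro y hy
    refine hv y fun i => ?_
    exact (Submodule.mem_orthogonal _ _).1 hy _ (Submodule.subset_span ⟨i, rfl⟩)
  exact Submodule.dense_iff_topologicalClosure_eq_top.2 h1

private theorem tendsto_tot61 {ι E E' : Type} [NormedAddCommGroup E] [InnerProductSpace ℂ E] [CompleteSpace E]
    [NormedAddCommGroup E'] [InnerProductSpace ℂ E'] {v : ι → E} (hv : Tot v) {α : Type} {l : Filter α}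
    (A : α → (E →L[ℂ] E')) {C : ℝ} (hC : ∀ i, ‖A i‖ ≤ C) (h : ∀ i, Tendsto (fun a => A a (v i)) l (𝓝 0)) (y : E) :
    Tendsto (fun a => A a y) l (𝓝 0) := by
  have hs : ∀ y ∈ Submodule.span ℂ (Set.range v), Tendsto (fun a => A a y) l (𝓝 0) := by
    intro y hy
    induction hy using Submodule.span_induction with
    | mem x hx =>
      obtain ⟨i, rfl⟩ := hx
      exact h i
    | zero => simp only [map_zero]; exact tendsto_const_nhds
    | add x y _ _ hx hy => simpa using hx.add hy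
    | smul c x _ hx => simpa using hx.const_smul c
  rw [Metric.tendsto_nhds]
  intro ε hε
  have hC1 : 0 < |C| + 1 := by positivity
  obtain ⟨y', hy', hd⟩ := Metric.dense_iff.1 (dense61 hv) y (ε / 2 / (|C| + 1)) (by positivity)
  filter_upwards [Metric.tendsto_nhds.1 (hs y' hd) (ε / 2) (by positivity)] with a ha
  rw [dist_zero_right] at ha ⊢
  have h1 : A a y = A a (y - y') + A a y' := by rw [← map_add, sub_add_cancel]
  have h2 : ‖A a (y - y')‖ ≤ ε / 2 := by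
    refine ((A a).le_opNorm _).trans ?_
    have h3 : ‖y - y'‖ ≤ ε / 2 / (|C| + 1) := by
      rw [Metric.mem_ball, dist_comm, dist_eq_norm] at hy'
      exact hy'.le
    have h4 : ‖A a‖ ≤ |C| + 1 := ((hC a).trans (le_abs_self C)).trans (by linarith)
    calc ‖A a‖ * ‖y - y'‖ ≤ (|C| + 1) * (ε / 2 / (|C| + 1)) := mul_le_mul h4 h3 (norm_nonneg _) hC1.le
      _ = ε / 2 := by field_simp
  calc ‖A a y‖ ≤ ‖A a (y - y')‖ + ‖A a y'‖ := by rw [h1]; exact norm_add_le _ _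
    _ < ε / 2 + ε / 2 := add_lt_add_of_le_of_lt h2 ha
    _ = ε := by ring

/-- Strong limits of fields. -/
theorem mulF_lim {α : Type} {l : Filter α} (o : α → Fd geo ρ ρ') (o' : Fd geo ρ ρ') {C : ℝ} (hC : ∀ i g, ‖(o i).O g‖ ≤ C)
    (h : ∀ F : Sec geo ρ, ∀ ε : ℝ, 0 < ε → ∀ᶠ i in l, ∀ g ∈ geo.K, ‖(o i).O g ((F : 𝔾 → L) g) - o'.O g ((F : 𝔾 → L) g)‖ ≤ ε)
    (y : Kt B ρ) : Tendsto (fun i => mulF B (o i) y) l (𝓝 (mulF B o' y)) := by
  have key := tendsto_tot61 (tot_tau B ρ) (l := l) (fun i => mulF B (o i) - mulF B o')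
    (C := |C| + ‖mulF B o'‖) (fun i => (norm_sub_le _ _).trans (add_le_add
      (norm_mulF B (o i) (abs_nonneg C) fun g => (hC i g).trans (le_abs_self C)) le_rfl))
    (fun p => by
      rw [Metric.tendsto_nhds]
      intro ε hε
      filter_upwards [h p.1 (ε / 2 / (‖p.2‖ + 1)) (by positivity)] with i hi
      rw [dist_zero_right]
      have h1 : (mulF B (o i) - mulF B o') (tau B p.1 p.2) = tau B ((o i).ap p.1 - o'.ap p.1) p.2 := by
        change mulF B (o i) (tau B p.1 p.2) - mulF B o' (tau B p.1 p.2) = _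
        rw [mulF_tau, mulF_tau]
        have h2 := tau_add (B := B) ((o i).ap p.1 - o'.ap p.1) (o'.ap p.1)
        rw [sub_add_cancel] at h2
        rw [h2]
        exact add_sub_cancel_right _ _
      rw [h1]
      have h3 : ∀ g, ‖(((o i).ap p.1 - o'.ap p.1 : Sec geo ρ') : 𝔾 → L') g‖ ≤ ε / 2 / (‖p.2‖ + 1) :=
        sec_sup61 _ fun g hg => hi g hg
      refine (norm_tau61 B _ (by positivity) h3 p.2).trans_lt ?_
      have h4 : ε / 2 / (‖p.2‖ + 1) * ‖p.2‖ ≤ ε / 2 := by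
        rw [div_mul_eq_mul_div, div_le_iff₀ (by positivity)]
        have : 0 ≤ ε / 2 := by positivity
        nlinarith [norm_nonneg p.2]
      linarith) y
  have h5 := key.add_const (mulF B o' y)
  rw [zero_add] at h5
  refine h5.congr fun i => ?_
  change mulF B (o i) y - mulF B o' y + mulF B o' y = _
  exact sub_add_cancel _ _

/-- Intertwiners. -/
def Itw (ρ : Rp 𝕊 L) (ρ' : Rp 𝕊 L') (A : L →L[ℂ] L') : Prop := ∀ h x, A (ρ.U h x) = ρ'.U h (A x)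

/-- The constant field of an intertwiner. -/
def Fd.const {A : L →L[ℂ] L'} (hA : Itw ρ ρ' A) : Fd geo ρ ρ' where
  O _ := A
  cont _ := continuous_const
  inv _ _ w := hA _ w
  bdd := ⟨‖A‖, norm_nonneg _, fun _ => le_rfl⟩

theorem Itw.adj [CompleteSpace L] [CompleteSpace L'] {A : L →L[ℂ] L'} (hA : Itw ρ ρ' A) :
    Itw ρ' ρ (ContinuousLinearMap.adjoint A) := by
  intro h x
  refine ext_inner_left ℂ fun z => ?_
  have hz : ρ.U h (ρ.U h⁻¹ z) = z := by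
    change (ρ.U h * ρ.U h⁻¹) z = z
    rw [← map_mul, mul_inv_cancel, map_one]
    rfl
  rw [← hz, ContinuousLinearMap.adjoint_inner_right, hA, LinearIsometryEquiv.inner_map_map,
    LinearIsometryEquiv.inner_map_map, ContinuousLinearMap.adjoint_inner_right]

theorem Itw.comp {A : L →L[ℂ] L'} {A' : L' →L[ℂ] L''} (hA' : Itw ρ' ρ'' A') (hA : Itw ρ ρ' A) : Itw ρ ρ'' (A'.comp A) := by
  intro h x
  change A' (A (ρ.U h x)) = ρ''.U h (A' (A x))
  rw [hA, hA']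

/-- Intertwiners of the restrictions to `𝕂`. -/
def ItK (𝕂 : Subgroup 𝕊) (ρ : Rp 𝕊 L) (ρ' : Rp 𝕊 L') (A : L →L[ℂ] L') : Prop := ∀ h ∈ 𝕂, ∀ x, A (ρ.U h x) = ρ'.U h (A x)

private theorem rp_mul61 (ρ : Rp 𝕊 L) (a b : 𝕊) (x : L) : ρ.U (a * b) x = ρ.U a (ρ.U b x) := by
  rw [map_mul]
  rfl

private theorem rp_inv61 (ρ : Rp 𝕊 L) (a : 𝕊) (x : L) : ρ.U a⁻¹ (ρ.U a x) = x := by
  rw [← rp_mul61, inv_mul_cancel, map_one]
  rfl

private theorem rp_inv61' (ρ : Rp 𝕊 L) (a : 𝕊) (x : L) : ρ.U a (ρ.U a⁻¹ x) = x := by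
  rw [← rp_mul61, mul_inv_cancel, map_one]
  rfl

private theorem rp_inner61 (ρ : Rp 𝕊 L) (a : 𝕊) (x y : L) : (inner ℂ (ρ.U a⁻¹ x) y : ℂ) = inner ℂ x (ρ.U a y) := by
  rw [← LinearIsometryEquiv.inner_map_map (ρ.U a), rp_inv61']

private theorem rp_cont61 (ρ : Rp 𝕊 L) {X : Type} [TopologicalSpace X] {h : X → 𝕊} (hh : Continuous h)
    {F : X → L} (hF : Continuous F) : Continuous fun x => ρ.U (h x) (F x) := by
  refine strong61 (O := fun x => ((ρ.U (h x)).toContinuousLinearEquiv : L →L[ℂ] L)) (fun w => (ρ.cont w).comp hh)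
    (C := 1) (fun g => ?_) hF
  refine ContinuousLinearMap.opNorm_le_bound _ zero_le_one fun w => ?_
  rw [one_mul]
  exact (LinearIsometryEquiv.norm_map (ρ.U (h g)) w).le

theorem ofK_cont (A : L →L[ℂ] L') (w : L) :
    Continuous fun g : 𝔾 => ρ'.U (geo.nb (geo.r g))⁻¹ (A (ρ.U (geo.nb (geo.r g)) w)) := by
  have h : Continuous fun g : 𝔾 => geo.nb (geo.r g) := geo.nbc.comp geo.rc
  exact rp_cont61 ρ' h.inv (A.continuous.comp (rp_cont61 ρ h continuous_const))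

theorem ofK_inv {A : L →L[ℂ] L'} (hA : ItK 𝕂 ρ ρ' A) (g : 𝔾) (q : geo.Q) (w : L) :
    ρ'.U (geo.nb (geo.r (g * q)))⁻¹ (A (ρ.U (geo.nb (geo.r (g * q))) (ρ.U (geo.nb q)⁻¹ w))) =
      ρ'.U (geo.nb q)⁻¹ (ρ'.U (geo.nb (geo.r g))⁻¹ (A (ρ.U (geo.nb (geo.r g)) w))) := by
  have hm : geo.nb (geo.r (g * q) * q⁻¹ * (geo.r g)⁻¹) ∈ 𝕂 := by
    refine geo.KK _ (geo.kr g) _ (geo.kr (g * q)) _ ?_
    push_cast
    group
  have h1 : geo.nb (geo.r (g * q)) = geo.nb (geo.r (g * q) * q⁻¹ * (geo.r g)⁻¹) * (geo.nb (geo.r g) * geo.nb q) := by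
    rw [← map_mul, ← map_mul]
    congr 1
    group
  set m := geo.nb (geo.r (g * q) * q⁻¹ * (geo.r g)⁻¹) with hmdef
  rw [h1, rp_mul61 ρ, rp_mul61 ρ, rp_inv61' ρ, mul_inv_rev, mul_inv_rev, rp_mul61 ρ', rp_mul61 ρ', hA m hm,
    rp_inv61]

/-- The field of an intertwiner of the restrictions to `𝕂`. -/
noncomputable def Fd.ofK {A : L →L[ℂ] L'} (hA : ItK 𝕂 ρ ρ' A) : Fd geo ρ ρ' where
  O g := ((ρ'.U (geo.nb (geo.r g))⁻¹).toContinuousLinearEquiv : L' →L[ℂ] L').comp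
    (A.comp ((ρ.U (geo.nb (geo.r g))).toContinuousLinearEquiv : L →L[ℂ] L))
  cont w := ofK_cont A w
  inv g q w := ofK_inv hA g q w
  bdd := ⟨‖A‖, norm_nonneg _, fun g => by
    refine ContinuousLinearMap.opNorm_le_bound _ (norm_nonneg _) fun w => ?_
    change ‖ρ'.U _ (A (ρ.U _ w))‖ ≤ _
    rw [LinearIsometryEquiv.norm_map]
    refine (A.le_opNorm _).trans ?_
    rw [LinearIsometryEquiv.norm_map]⟩

/-- The operator between the spaces `Kt` given by an intertwiner. -/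
noncomputable def push {A : L →L[ℂ] L'} (hA : Itw ρ ρ' A) : Kt B ρ →L[ℂ] Kt B ρ' := mulF B (Fd.const hA)

/-- The operator between the spaces `Kt` given by an intertwiner of the restrictions to `𝕂`. -/
noncomputable def pushK {A : L →L[ℂ] L'} (hA : ItK 𝕂 ρ ρ' A) : Kt B ρ →L[ℂ] Kt B ρ' := mulF B (Fd.ofK hA)

theorem norm_push {A : L →L[ℂ] L'} (hA : Itw ρ ρ' A) : ‖push B hA‖ ≤ ‖A‖ := norm_mulF B _ (norm_nonneg _) fun _ => le_rfl

theorem norm_pushK {A : L →L[ℂ] L'} (hA : ItK 𝕂 ρ ρ' A) : ‖pushK B hA‖ ≤ ‖A‖ := by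
  refine norm_mulF B _ (norm_nonneg _) fun g => ?_
  refine ContinuousLinearMap.opNorm_le_bound _ (norm_nonneg _) fun w => ?_
  change ‖ρ'.U _ (A (ρ.U _ w))‖ ≤ _
  rw [LinearIsometryEquiv.norm_map]
  refine (A.le_opNorm _).trans ?_
  rw [LinearIsometryEquiv.norm_map]

theorem push_WK {A : L →L[ℂ] L'} (hA : Itw ρ ρ' A) (k : G) (y : Kt B ρ) : push B hA (WK B ρ k y) = WK B ρ' k (push B hA y) := by
  exact (WK_mulF B (Fd.const hA) k y).symm

private theorem mulF_congr61 {o o' : Fd geo ρ ρ'} (h : ∀ g w, o.O g w = o'.O g w) (y : Kt B ρ) : mulF B o y = mulF B o' y := by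
  have h1 : o.O = o'.O := funext fun g => ContinuousLinearMap.ext fun w => h g w
  have h2 : o = o' := by
    cases o
    cases o'
    cases h1
    rfl
  rw [h2]

theorem push_eq_pushK {A : L →L[ℂ] L'} (hA : Itw ρ ρ' A) (hA' : ItK 𝕂 ρ ρ' A) (y : Kt B ρ) : push B hA y = pushK B hA' y := by
  refine mulF_congr61 B (fun g w => ?_) y
  change A w = ρ'.U (geo.nb (geo.r g))⁻¹ (A (ρ.U (geo.nb (geo.r g)) w))
  rw [hA, rp_inv61]

theorem inner_push [CompleteSpace L] [CompleteSpace L'] {A : L →L[ℂ] L'} (hA : Itw ρ ρ' A) (y : Kt B ρ) (y' : Kt B ρ') :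
    (inner ℂ (push B hA y) y' : ℂ) = inner ℂ y (push B hA.adj y') := by
  exact inner_mulF B _ _ (fun g w w' => (ContinuousLinearMap.adjoint_inner_right A _ _).symm) y y'

theorem ItK.adj [CompleteSpace L] [CompleteSpace L'] {A : L →L[ℂ] L'} (hA : ItK 𝕂 ρ ρ' A) :
    ItK 𝕂 ρ' ρ (ContinuousLinearMap.adjoint A) := by
  intro h hh x
  refine ext_inner_left ℂ fun z => ?_
  rw [← rp_inv61' ρ h z, ContinuousLinearMap.adjoint_inner_right, hA h hh, LinearIsometryEquiv.inner_map_map,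
    LinearIsometryEquiv.inner_map_map, ContinuousLinearMap.adjoint_inner_right]

theorem inner_pushK [CompleteSpace L] [CompleteSpace L'] {A : L →L[ℂ] L'} (hA : ItK 𝕂 ρ ρ' A) (y : Kt B ρ) (y' : Kt B ρ') :
    (inner ℂ (pushK B hA y) y' : ℂ) = inner ℂ y (pushK B hA.adj y') := by
  refine inner_mulF B _ _ (fun g w w' => ?_) y y'
  change (inner ℂ (ρ'.U (geo.nb (geo.r g))⁻¹ (A (ρ.U (geo.nb (geo.r g)) w))) w' : ℂ) =
    inner ℂ w (ρ.U (geo.nb (geo.r g))⁻¹ (ContinuousLinearMap.adjoint A (ρ'.U (geo.nb (geo.r g)) w')))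
  rw [rp_inner61, ← LinearIsometryEquiv.inner_map_map (ρ.U (geo.nb (geo.r g))) w, rp_inv61',
    ContinuousLinearMap.adjoint_inner_right]

theorem push_isom {A : L →L[ℂ] L'} (hA : Itw ρ ρ' A) (hi : ∀ x, ‖A x‖ = ‖x‖) (y : Kt B ρ) : ‖push B hA y‖ = ‖y‖ := by
  exact mulF_isom B _ (fun g w => hi w) y

theorem pushK_isom {A : L →L[ℂ] L'} (hA : ItK 𝕂 ρ ρ' A) (hi : ∀ x, ‖A x‖ = ‖x‖) (y : Kt B ρ) : ‖pushK B hA y‖ = ‖y‖ := by
  refine mulF_isom B _ (fun g w => ?_) y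
  change ‖ρ'.U _ (A (ρ.U _ w))‖ = _
  rw [LinearIsometryEquiv.norm_map, hi, LinearIsometryEquiv.norm_map]

theorem push_comp {A : L →L[ℂ] L'} {A' : L' →L[ℂ] L''} (hA' : Itw ρ' ρ'' A') (hA : Itw ρ ρ' A) (y : Kt B ρ) :
    push B (hA'.comp hA) y = push B hA' (push B hA y) := by
  exact mulF_comp B _ _ _ (fun g w => rfl) y

theorem ItK.comp {A : L →L[ℂ] L'} {A' : L' →L[ℂ] L''} (hA' : ItK 𝕂 ρ' ρ'' A') (hA : ItK 𝕂 ρ ρ' A) : ItK 𝕂 ρ ρ'' (A'.comp A) := by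
  intro h hh x
  change A' (A (ρ.U h x)) = ρ''.U h (A' (A x))
  rw [hA h hh, hA' h hh]

theorem pushK_comp {A : L →L[ℂ] L'} {A' : L' →L[ℂ] L''} (hA' : ItK 𝕂 ρ' ρ'' A') (hA : ItK 𝕂 ρ ρ' A) (y : Kt B ρ) :
    pushK B (hA'.comp hA) y = pushK B hA' (pushK B hA y) := by
  refine mulF_comp B _ _ _ (fun g w => ?_) y
  change ρ''.U (geo.nb (geo.r g))⁻¹ (A' (A (ρ.U (geo.nb (geo.r g)) w))) =
    ρ''.U (geo.nb (geo.r g))⁻¹ (A' (ρ'.U (geo.nb (geo.r g)) (ρ'.U (geo.nb (geo.r g))⁻¹ (A (ρ.U (geo.nb (geo.r g)) w)))))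
  rw [rp_inv61']

end Push

end Pool.Agent.Helper35.FP
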