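import Pool.Agent.Helper35.FP.KF

/-!
# Project FP, block KT: the Hilbert spaces `Kt B ρ = H ⊗ L`

`exists_KK`: existence, by `exists_gram` for the kernel `((F, x), (F', x')) ↦ ⟪x, Xi ⟪F, F'⟫ x'⟫` on `Sec × H` (positive by `B.Xi_pos`: for `u i = c i • x i`, `a i j = ⟪F i, F j⟫`; `Σ conj(z i) a i j z j = ‖Σ z i F i‖²`;
inner products of sections are in `Yf`, so in `Bf`). The map `(F, x) ↦ v (F, x)` is bilinear and continuous because norms of differences can be computed in the Gram matrix; `‖v (F, x)‖ ≤ sup ‖F‖ ‖x‖`.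
`act k F = F ((ir k)⁻¹ ·)`. `exists_WK`, `exists_lift`: from `gram_equiv` (K0), with the inner products of `KK` (`Xi_cov`, `CPhi`); `WK` is multiplicative because `act` is (`map_mul B.ir`), totality `tot_tau`.
`exists_PhiK`: `gram_clm`: `‖Σ τ (F i) (Xi f (x i))‖² = Σ ⟪x i, Xi (conj f ⟪F i, F j⟫ f) x j⟫ ≤ C² Σ ⟪x i, Xi ⟪F i, F j⟫ x j⟫` by `Xi_pos` for the kernel `(C² - |f|²) ⟪F i, F j⟫`.
`tau_smulS`: both sides have the same inner products with all `τ F' x'` (`Xi_mul_right`).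
-/

set_option autoImplicit false
set_option linter.unusedSectionVars false

open Filter Topology

namespace Pool.Agent.Helper35.FP

variable {𝔾 𝕊 : Type} [Group 𝔾] [TopologicalSpace 𝔾] [IsTopologicalGroup 𝔾] [Group 𝕊] [TopologicalSpace 𝕊] [IsTopologicalGroup 𝕊]
  {𝕂 : Subgroup 𝕊} {geo : Geo 𝔾 𝕊 𝕂} {G S' H U : Type} [Group G] [Group S'] [TopologicalSpace S']
  [NormedAddCommGroup H] [InnerProductSpace ℂ H] [CompleteSpace H]
  [NormedAddCommGroup U] [InnerProductSpace ℂ U] [CompleteSpace U]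

private theorem Bf_zero50 : Bf geo (fun _ => (0 : ℂ)) := ⟨continuous_const, fun _ _ _ => rfl, 0, fun g => by simp⟩

section X50

variable (B : BD geo G S' H U)

private theorem Xi_add50 {f f' : 𝔾 → ℂ} (hf : Bf geo f) (hf' : Bf geo f') (x : H) :
    B.Xi (fun g => f g + f' g) x = B.Xi f x + B.Xi f' x := by
  rw [B.Xi_apply, B.Xi_apply, B.Xi_apply, B.E_add f f' hf hf', map_add]

private theorem Xi_smul50 (c : ℂ) {f : 𝔾 → ℂ} (hf : Bf geo f) (x : H) :
    B.Xi (fun g => c * f g) x = c • B.Xi f x := by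
  rw [B.Xi_apply, B.Xi_apply, B.E_smul c f hf, map_smul]

/-- positivity for finite sets -/
private theorem Xi_pos50 {ι : Type} (s : Finset ι) (a : ι → ι → 𝔾 → ℂ) (ha : ∀ i j, Bf geo (a i j))
    (hp : ∀ (g : 𝔾) (z : ι → ℂ), 0 ≤ (∑ i ∈ s, ∑ j ∈ s, (starRingEnd ℂ) (z i) * a i j g * z j).re) (u : ι → H) :
    0 ≤ (∑ i ∈ s, ∑ j ∈ s, inner ℂ (u i) (B.Xi (a i j) (u j))).re := by
  classical
  let e : s ≃ Fin s.card := s.equivFin
  have key : ∀ F : ι → ι → ℂ, ∑ i ∈ s, ∑ j ∈ s, F i j = ∑ i : Fin s.card, ∑ j : Fin s.card, F (e.symm i) (e.symm j) := by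
    intro F
    rw [← Finset.sum_coe_sort, ← e.symm.sum_comp]
    refine Finset.sum_congr rfl fun i _ => ?_
    rw [← Finset.sum_coe_sort, ← e.symm.sum_comp]
  rw [key]
  refine B.Xi_pos s.card (fun i j => a (e.symm i) (e.symm j)) (fun i j => ha _ _) (fun g z => ?_) fun i => u (e.symm i)
  have h := hp g (fun i => if hi : i ∈ s then z (e ⟨i, hi⟩) else 0)
  rw [key] at h
  have h2 : ∀ i : Fin s.card, (if hi : ((e.symm i : s) : ι) ∈ s then z (e ⟨(e.symm i : s), hi⟩) else 0) = z i := by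
    intro i
    rw [dif_pos (e.symm i).2]
    rw [Subtype.coe_eta, Equiv.apply_symm_apply]
  simp only [h2] at h
  exact h

end X50

section P50

variable {L : Type} [NormedAddCommGroup L] [InnerProductSpace ℂ L]

/-- a Gram matrix is positive -/
private theorem gram_pos50 {ι : Type} (s : Finset ι) (w : ι → L) (z : ι → ℂ) :
    ∑ i ∈ s, ∑ j ∈ s, (starRingEnd ℂ) (z i) * inner ℂ (w i) (w j) * z j = ((‖∑ i ∈ s, z i • w i‖ ^ 2 : ℝ) : ℂ) := by
  have h1 : (inner ℂ (∑ i ∈ s, z i • w i) (∑ i ∈ s, z i • w i) : ℂ) = ((‖∑ i ∈ s, z i • w i‖ ^ 2 : ℝ) : ℂ) := by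
    rw [inner_self_eq_norm_sq_to_K]
    norm_cast
  rw [← h1, sum_inner]
  refine Finset.sum_congr rfl fun i _ => ?_
  rw [inner_sum]
  refine Finset.sum_congr rfl fun j _ => ?_
  rw [inner_smul_left, inner_smul_right]
  ring

/-- the sums in `H` and the scalars -/
private theorem sum50 {ι : Type} (s : Finset ι) (c : ι → ℂ) (x : ι → H) (A : ι → ι → (H →L[ℂ] H)) :
    ∑ i ∈ s, ∑ j ∈ s, (starRingEnd ℂ) (c i) * inner ℂ (x i) (A i j (x j)) * c j =
      ∑ i ∈ s, ∑ j ∈ s, inner ℂ (c i • x i) (A i j (c j • x j)) := by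
  refine Finset.sum_congr rfl fun i _ => Finset.sum_congr rfl fun j _ => ?_
  rw [map_smul, inner_smul_left, inner_smul_right]
  ring

end P50

section K

variable (B : BD geo G S' H U) {L : Type} [NormedAddCommGroup L] [InnerProductSpace ℂ L] (ρ : Rp 𝕊 L)

theorem exists_KK : ∃ (K : Type) (_ : NormedAddCommGroup K) (_ : InnerProductSpace ℂ K) (_ : CompleteSpace K),
    Nonempty (KK B ρ K) := by
  obtain ⟨K, i1, i2, i3, v, hv, hk⟩ := exists_gram
    (fun p q : Sec geo ρ × H => inner ℂ p.2 (B.Xi (fun g => inner ℂ ((p.1 : 𝔾 → L) g) ((q.1 : 𝔾 → L) g)) q.2)) (by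
      intro p q
      rw [inner_conj_symm, B.Xi_star (Sec.inner_yf p.1 q.1).bf]
      simp only [inner_conj_symm]) (by
      intro s c
      rw [sum50 s c (fun p => p.2) fun p q => B.Xi fun g => inner ℂ ((p.1 : 𝔾 → L) g) ((q.1 : 𝔾 → L) g)]
      refine Xi_pos50 B s (fun p q g => inner ℂ ((p.1 : 𝔾 → L) g) ((q.1 : 𝔾 → L) g)) (fun p q => (Sec.inner_yf p.1 q.1).bf)
        (fun g z => ?_) _
      rw [gram_pos50 s (fun p => (p.1 : 𝔾 → L) g) z, Complex.ofReal_re]
      positivity)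
  have hext : ∀ a b : K, (∀ p, inner ℂ (v p) a = (inner ℂ (v p) b : ℂ)) → a = b := by
    intro a b h
    refine sub_eq_zero.1 (hv _ fun p => ?_)
    rw [inner_sub_right, h, sub_self]
  have ha1 : ∀ (F : Sec geo ρ) (x x' : H), v (F, x + x') = v (F, x) + v (F, x') := by
    intro F x x'
    refine hext _ _ fun p => ?_
    rw [inner_add_right, hk, hk, hk, map_add, inner_add_right]
  have ha2 : ∀ (F : Sec geo ρ) (c : ℂ) (x : H), v (F, c • x) = c • v (F, x) := by
    intro F c x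
    refine hext _ _ fun p => ?_
    rw [inner_smul_right, hk, hk, map_smul, inner_smul_right]
  have ha3 : ∀ (F F' : Sec geo ρ) (x : H), v (F + F', x) = v (F, x) + v (F', x) := by
    intro F F' x
    refine hext _ _ fun p => ?_
    rw [inner_add_right, hk, hk, hk, ← inner_add_right, ← Xi_add50 B (Sec.inner_yf p.1 F).bf (Sec.inner_yf p.1 F').bf]
    congr 3
    funext g
    exact inner_add_right _ _ _
  have ha4 : ∀ (F : Sec geo ρ) (c : ℂ) (x : H), v (c • F, x) = c • v (F, x) := by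
    intro F c x
    refine hext _ _ fun p => ?_
    rw [inner_smul_right, hk, hk, ← inner_smul_right, ← Xi_smul50 B c (Sec.inner_yf p.1 F).bf]
    congr 3
    funext g
    exact inner_smul_right _ _ _
  have hb : ∀ F : Sec geo ρ, ∃ C : ℝ, ∀ x : H, ‖v (F, x)‖ ≤ C * ‖x‖ := by
    intro F
    obtain ⟨C, hC⟩ := Sec.bdd F
    have hC0 : 0 ≤ C := (norm_nonneg _).trans (hC 1)
    refine ⟨C, fun x => ?_⟩
    have h1 : ‖v (F, x)‖ ^ 2 ≤ (C * ‖x‖) ^ 2 := by
      have h2 : ((‖v (F, x)‖ ^ 2 : ℝ) : ℂ) = inner ℂ x (B.Xi (fun g => inner ℂ ((F : 𝔾 → L) g) ((F : 𝔾 → L) g)) x) := by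
        rw [← hk (F, x) (F, x), inner_self_eq_norm_sq_to_K]
        norm_cast
      have h3 : ‖v (F, x)‖ ^ 2 = ‖(inner ℂ x (B.Xi (fun g => inner ℂ ((F : 𝔾 → L) g) ((F : 𝔾 → L) g)) x) : ℂ)‖ := by
        rw [← h2, Complex.norm_real, Real.norm_of_nonneg (by positivity)]
      rw [h3]
      have h4 : ∀ g, ‖(inner ℂ ((F : 𝔾 → L) g) ((F : 𝔾 → L) g) : ℂ)‖ ≤ C * C := fun g =>
        (norm_inner_le_norm _ _).trans (mul_le_mul (hC g) (hC g) (norm_nonneg _) hC0)
      have h5 := B.Xi_norm (Sec.inner_yf F F).bf h4 x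
      calc _ ≤ ‖x‖ * ‖B.Xi (fun g => inner ℂ ((F : 𝔾 → L) g) ((F : 𝔾 → L) g)) x‖ := norm_inner_le_norm _ _
        _ ≤ ‖x‖ * (C * C * ‖x‖) := by gcongr
        _ = _ := by ring
    exact (sq_le_sq₀ (norm_nonneg _) (by positivity)).1 h1
  let τ0 : Sec geo ρ → H →L[ℂ] K := fun F =>
    LinearMap.mkContinuousOfExistsBound { toFun := fun x => v (F, x), map_add' := ha1 F, map_smul' := ha2 F } (hb F)
  refine ⟨K, i1, i2, i3, ⟨⟨⟨⟨τ0, ?_⟩, ?_⟩, ?_, ?_⟩⟩⟩
  · intro F F'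
    exact ContinuousLinearMap.ext fun x => ha3 F F' x
  · intro c F
    exact ContinuousLinearMap.ext fun x => ha4 F c x
  · intro F F' x x'
    exact hk (F, x) (F', x')
  · intro y h
    exact hv y fun p => h p.1 p.2

/-- The Hilbert space `H ⊗ L` over the functions on `𝔾 / Q`. -/
def Kt : Type := (exists_KK B ρ).choose

noncomputable instance : NormedAddCommGroup (Kt B ρ) := (exists_KK B ρ).choose_spec.choose

noncomputable instance : InnerProductSpace ℂ (Kt B ρ) := (exists_KK B ρ).choose_spec.choose_spec.choose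

instance : CompleteSpace (Kt B ρ) := (exists_KK B ρ).choose_spec.choose_spec.choose_spec.choose

/-- The structure of `Kt B ρ`. -/
noncomputable def kt : KK B ρ (Kt B ρ) := (exists_KK B ρ).choose_spec.choose_spec.choose_spec.choose_spec.some

variable {ρ} in
/-- The vectors `τ F x`. -/
noncomputable def tau (F : Sec geo ρ) : H →L[ℂ] Kt B ρ := (kt B ρ).τ F

variable {B ρ} in
theorem tau_add (F F' : Sec geo ρ) : tau B (F + F') = tau B F + tau B F' := map_add (kt B ρ).τ F F'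

variable {B ρ} in
theorem tau_smul (c : ℂ) (F : Sec geo ρ) : tau B (c • F) = c • tau B F := map_smul (kt B ρ).τ c F

variable {ρ} in
theorem inner_tau (F F' : Sec geo ρ) (x x' : H) : inner ℂ (tau B F x) (tau B F' x') =
    inner ℂ x (B.Xi (fun g => inner ℂ ((F : 𝔾 → L) g) ((F' : 𝔾 → L) g)) x') := (kt B ρ).inner_τ F F' x x'

theorem tot_tau : Tot fun p : Sec geo ρ × H => tau B p.1 p.2 := fun y h => (kt B ρ).dense y fun F x => h (F, x)

/-- The action on the sections. -/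
def act (k : G) : Sec geo ρ →ₗ[ℂ] Sec geo ρ where
  toFun F := ⟨fun g => (F : 𝔾 → L) ((B.ir k)⁻¹ * g), F.2.1.comp (continuous_const_mul _), fun g q => by
    change (F : 𝔾 → L) ((B.ir k)⁻¹ * (g * q)) = _
    rw [← mul_assoc]
    exact F.2.2 _ q⟩
  map_add' _ _ := rfl
  map_smul' _ _ := rfl

variable {ρ} in
theorem act_apply (k : G) (F : Sec geo ρ) (g : 𝔾) : (act B ρ k F : 𝔾 → L) g = (F : 𝔾 → L) ((B.ir k)⁻¹ * g) := rfl

theorem exists_WK : ∃ WK : G →* (Kt B ρ ≃ₗᵢ[ℂ] Kt B ρ), ∀ (k : G) (F : Sec geo ρ) (x : H),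
    WK k (tau B F x) = tau B (act B ρ k F) (B.W k x) := by
  have hmul : ∀ (k k' : G) (F : Sec geo ρ), act B ρ (k * k') F = act B ρ k (act B ρ k' F) := by
    intro k k' F
    refine Subtype.ext (funext fun g => ?_)
    rw [act_apply, act_apply, act_apply, map_mul, mul_inv_rev, mul_assoc]
  have hone : ∀ F : Sec geo ρ, act B ρ 1 F = F := by
    intro F
    refine Subtype.ext (funext fun g => ?_)
    rw [act_apply, map_one, inv_one, one_mul]
  have hex : ∀ k : G, ∃ A : Kt B ρ ≃ₗᵢ[ℂ] Kt B ρ, ∀ p : Sec geo ρ × H,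
      A (tau B p.1 p.2) = tau B (act B ρ k p.1) (B.W k p.2) := by
    intro k
    refine gram_equiv (tot_tau B ρ) (w := fun p : Sec geo ρ × H => tau B (act B ρ k p.1) (B.W k p.2)) ?_ ?_
    · intro y h
      refine tot_tau B ρ y fun p => ?_
      have h1 : inner ℂ (tau B (act B ρ k (act B ρ k⁻¹ p.1)) (B.W k (B.W k⁻¹ p.2))) y = 0 := h (act B ρ k⁻¹ p.1, B.W k⁻¹ p.2)
      have h2 : B.W k (B.W k⁻¹ p.2) = p.2 := by
        have h3 : (B.W k * B.W k⁻¹) p.2 = p.2 := by rw [← map_mul, mul_inv_cancel, map_one]; rfl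
        exact h3
      rw [← hmul, mul_inv_cancel, hone, h2] at h1
      exact h1
    · intro p q
      rw [inner_tau, inner_tau]
      have h1 := B.Xi_cov k (Sec.inner_yf p.1 q.1).bf q.2
      simp only [act_apply]
      rw [h1, LinearIsometryEquiv.inner_map_map]
  choose A hA using hex
  refine ⟨MonoidHom.mk' A fun k k' => ?_, fun k F x => hA k (F, x)⟩
  refine LinearIsometryEquiv.ext fun y => ?_
  have h1 : (A (k * k')).toContinuousLinearEquiv.toContinuousLinearMap =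
      (A k * A k').toContinuousLinearEquiv.toContinuousLinearMap := by
    refine ext_tot (tot_tau B ρ) fun p => ?_
    change A (k * k') (tau B p.1 p.2) = A k (A k' (tau B p.1 p.2))
    rw [hA, hA, hA k (act B ρ k' p.1, B.W k' p.2), hmul, map_mul]
    rfl
  exact congrArg (fun C : Kt B ρ →L[ℂ] Kt B ρ => C y) h1

/-- The representation of `G` on `Kt`. -/
noncomputable def WK : G →* (Kt B ρ ≃ₗᵢ[ℂ] Kt B ρ) := (exists_WK B ρ).choose

theorem WK_tau (k : G) (F : Sec geo ρ) (x : H) : WK B ρ k (tau B F x) = tau B (act B ρ k F) (B.W k x) :=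
  (exists_WK B ρ).choose_spec k F x

theorem exists_lift (c : H ≃ₗᵢ[ℂ] H) (hc : B.CPhi c) : ∃ C : Kt B ρ ≃ₗᵢ[ℂ] Kt B ρ, ∀ (F : Sec geo ρ) (x : H),
    C (tau B F x) = tau B F (c x) := by
  obtain ⟨A, hA⟩ := gram_equiv (tot_tau B ρ) (w := fun p : Sec geo ρ × H => tau B p.1 (c p.2)) (by
    intro y h
    refine tot_tau B ρ y fun p => ?_
    have h1 : inner ℂ (tau B p.1 (c (c.symm p.2))) y = 0 := h (p.1, c.symm p.2)
    rw [LinearIsometryEquiv.apply_symm_apply] at h1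
    exact h1) (by
    intro p q
    rw [inner_tau, inner_tau, ← hc _ (Sec.inner_yf p.1 q.1), LinearIsometryEquiv.inner_map_map])
  exact ⟨A, fun F x => hA (F, x)⟩

open Classical in
/-- The lift of a unitary of `H` which commutes with the functions on `𝔾 / Q` (the identity for the others). -/
noncomputable def lift (c : H ≃ₗᵢ[ℂ] H) : Kt B ρ ≃ₗᵢ[ℂ] Kt B ρ :=
  if hc : B.CPhi c then (exists_lift B ρ c hc).choose else LinearIsometryEquiv.refl ℂ (Kt B ρ)

theorem lift_tau {c : H ≃ₗᵢ[ℂ] H} (hc : B.CPhi c) (F : Sec geo ρ) (x : H) : lift B ρ c (tau B F x) = tau B F (c x) := by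
  unfold lift
  rw [dif_pos hc]
  exact (exists_lift B ρ c hc).choose_spec F x

theorem exists_PhiK (f : 𝔾 → ℂ) (hf : Yf geo f) : ∃ C : Kt B ρ →L[ℂ] Kt B ρ, ∀ (F : Sec geo ρ) (x : H),
    C (tau B F x) = tau B F (B.Xi f x) := by
  obtain ⟨C, hC⟩ := hf.bdd
  have hC0 : 0 ≤ C := (norm_nonneg _).trans (hC 1)
  obtain ⟨A, -, hA⟩ := gram_clm (tot_tau B ρ) (fun p : Sec geo ρ × H => tau B p.1 (B.Xi f p.2)) hC0 (by
    intro s c
    have hcf : Yf geo fun g => (starRingEnd ℂ) (f g) := ⟨Complex.continuous_conj.comp hf.cont, fun g q => by rw [hf.inv]⟩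
    have hY : ∀ p q : Sec geo ρ × H, Yf geo fun g => (starRingEnd ℂ) (f g) * (inner ℂ ((p.1 : 𝔾 → L) g) ((q.1 : 𝔾 → L) g) * f g) := by
      intro p q
      have h1 := Sec.inner_yf p.1 q.1
      exact ⟨hcf.cont.mul (h1.cont.mul hf.cont), fun g r => by rw [hcf.inv, h1.inv, hf.inv]⟩
    have hw : ∀ p q : Sec geo ρ × H, inner ℂ (tau B p.1 (B.Xi f p.2)) (tau B q.1 (B.Xi f q.2)) =
        (inner ℂ p.2 (B.Xi (fun g => (starRingEnd ℂ) (f g) * (inner ℂ ((p.1 : 𝔾 → L) g) ((q.1 : 𝔾 → L) g) * f g)) q.2) : ℂ) := by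
      intro p q
      have h1 := Sec.inner_yf p.1 q.1
      have h2 : Yf geo fun g => inner ℂ ((p.1 : 𝔾 → L) g) ((q.1 : 𝔾 → L) g) * f g :=
        ⟨h1.cont.mul hf.cont, fun g r => by rw [h1.inv, hf.inv]⟩
      rw [inner_tau, B.Xi_star hf.bf, B.Xi_mul_right h1.bf hf, B.Xi_mul_left hcf h2.bf]
    have hsq : ∀ (w : Sec geo ρ × H → Kt B ρ), ((‖∑ p ∈ s, c p • w p‖ ^ 2 : ℝ) : ℂ) =
        ∑ p ∈ s, ∑ q ∈ s, (starRingEnd ℂ) (c p) * inner ℂ (w p) (w q) * c q := fun w => (gram_pos50 s w c).symm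
    have hmain : (0 : ℝ) ≤ (C ^ 2 * ‖∑ p ∈ s, c p • tau B p.1 p.2‖ ^ 2 - ‖∑ p ∈ s, c p • tau B p.1 (B.Xi f p.2)‖ ^ 2) := by
      have h1 : ((C ^ 2 * ‖∑ p ∈ s, c p • tau B p.1 p.2‖ ^ 2 - ‖∑ p ∈ s, c p • tau B p.1 (B.Xi f p.2)‖ ^ 2 : ℝ) : ℂ) =
          ∑ p ∈ s, ∑ q ∈ s, inner ℂ (c p • p.2) (B.Xi (fun g => ((C : ℂ) ^ 2 - (starRingEnd ℂ) (f g) * f g) *
            inner ℂ ((p.1 : 𝔾 → L) g) ((q.1 : 𝔾 → L) g)) (c q • q.2)) := by
        rw [Complex.ofReal_sub, Complex.ofReal_mul, hsq, hsq, Finset.mul_sum, ← Finset.sum_sub_distrib]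
        refine Finset.sum_congr rfl fun p _ => ?_
        rw [Finset.mul_sum, ← Finset.sum_sub_distrib]
        refine Finset.sum_congr rfl fun q _ => ?_
        rw [inner_tau, hw, map_smul, inner_smul_left, inner_smul_right]
        have h1 := (Sec.inner_yf p.1 q.1).bf
        have h2 := (hY p q).bf
        have h3 : B.Xi (fun g => ((C : ℂ) ^ 2 - (starRingEnd ℂ) (f g) * f g) * inner ℂ ((p.1 : 𝔾 → L) g) ((q.1 : 𝔾 → L) g)) q.2 =
            (C : ℂ) ^ 2 • B.Xi (fun g => inner ℂ ((p.1 : 𝔾 → L) g) ((q.1 : 𝔾 → L) g)) q.2 -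
              B.Xi (fun g => (starRingEnd ℂ) (f g) * (inner ℂ ((p.1 : 𝔾 → L) g) ((q.1 : 𝔾 → L) g) * f g)) q.2 := by
          rw [eq_sub_iff_add_eq, ← Xi_smul50 B _ h1, ← Xi_add50 B _ h2]
          · congr 2
            funext g
            ring
          · refine ⟨(continuous_const.sub (hcf.cont.mul hf.cont)).mul h1.cont, fun g r hr => ?_, ?_⟩
            · rw [hf.inv, h1.inv g r hr]
            · obtain ⟨D, hD⟩ := h1.bdd
              refine ⟨(C ^ 2 + C * C) * D, fun g => ?_⟩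
              rw [norm_mul]
              refine mul_le_mul ?_ (hD g) (norm_nonneg _) (by positivity)
              refine (norm_sub_le _ _).trans (add_le_add ?_ ?_)
              · rw [norm_pow, Complex.norm_real, Real.norm_of_nonneg hC0]
              · rw [norm_mul, RCLike.norm_conj]
                exact mul_le_mul (hC g) (hC g) (norm_nonneg _) hC0
        rw [h3, inner_sub_right, inner_smul_right]
        push_cast
        ring
      have h2 : 0 ≤ ((C ^ 2 * ‖∑ p ∈ s, c p • tau B p.1 p.2‖ ^ 2 - ‖∑ p ∈ s, c p • tau B p.1 (B.Xi f p.2)‖ ^ 2 : ℝ) : ℂ).re := by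
        rw [h1]
        refine Xi_pos50 B s (fun p q g => ((C : ℂ) ^ 2 - (starRingEnd ℂ) (f g) * f g) *
          inner ℂ ((p.1 : 𝔾 → L) g) ((q.1 : 𝔾 → L) g)) (fun p q => ?_) (fun g z => ?_) _
        · have h1 := (Sec.inner_yf p.1 q.1).bf
          refine ⟨(continuous_const.sub (hcf.cont.mul hf.cont)).mul h1.cont, fun g r hr => ?_, ?_⟩
          · rw [hf.inv, h1.inv g r hr]
          · obtain ⟨D, hD⟩ := h1.bdd
            refine ⟨(C ^ 2 + C * C) * D, fun g => ?_⟩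
            rw [norm_mul]
            refine mul_le_mul ?_ (hD g) (norm_nonneg _) (by positivity)
            refine (norm_sub_le _ _).trans (add_le_add ?_ ?_)
            · rw [norm_pow, Complex.norm_real, Real.norm_of_nonneg hC0]
            · rw [norm_mul, RCLike.norm_conj]
              exact mul_le_mul (hC g) (hC g) (norm_nonneg _) hC0
        · have h3 : ∑ p ∈ s, ∑ q ∈ s, (starRingEnd ℂ) (z p) * (((C : ℂ) ^ 2 - (starRingEnd ℂ) (f g) * f g) *
              inner ℂ ((p.1 : 𝔾 → L) g) ((q.1 : 𝔾 → L) g)) * z q =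
              (((C ^ 2 - ‖f g‖ ^ 2) * ‖∑ p ∈ s, z p • (p.1 : 𝔾 → L) g‖ ^ 2 : ℝ) : ℂ) := by
            rw [Complex.ofReal_mul, ← gram_pos50 s (fun p => (p.1 : 𝔾 → L) g) z, Finset.mul_sum]
            refine Finset.sum_congr rfl fun p _ => ?_
            rw [Finset.mul_sum]
            refine Finset.sum_congr rfl fun q _ => ?_
            have h4 : (starRingEnd ℂ) (f g) * f g = ((‖f g‖ ^ 2 : ℝ) : ℂ) := by
              rw [mul_comm, Complex.mul_conj, Complex.normSq_eq_norm_sq]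
            rw [h4]
            push_cast
            ring
          rw [h3, Complex.ofReal_re]
          have h4 : ‖f g‖ ^ 2 ≤ C ^ 2 := by
            have := hC g
            gcongr
          exact mul_nonneg (by linarith) (by positivity)
      rwa [Complex.ofReal_re] at h2
    have h5 : ‖∑ p ∈ s, c p • tau B p.1 (B.Xi f p.2)‖ ^ 2 ≤ (C * ‖∑ p ∈ s, c p • tau B p.1 p.2‖) ^ 2 := by
      rw [mul_pow]
      linarith
    exact (sq_le_sq₀ (norm_nonneg _) (by positivity)).1 h5)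
  exact ⟨A, fun F x => hA (F, x)⟩

open Classical in
/-- Multiplication by `f ∈ Yf` on `Kt`. -/
noncomputable def PhiK (f : 𝔾 → ℂ) : Kt B ρ →L[ℂ] Kt B ρ :=
  if hf : Yf geo f then (exists_PhiK B ρ f hf).choose else 0

theorem PhiK_tau {f : 𝔾 → ℂ} (hf : Yf geo f) (F : Sec geo ρ) (x : H) :
    PhiK B ρ f (tau B F x) = tau B F (B.Xi f x) := by
  unfold PhiK
  rw [dif_pos hf]
  exact (exists_PhiK B ρ f hf).choose_spec F x

/-- Multiplication of a section by a function. -/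
def smulS {f : 𝔾 → ℂ} (hf : Yf geo f) (F : Sec geo ρ) : Sec geo ρ :=
  ⟨fun g => f g • (F : 𝔾 → L) g, hf.cont.smul F.2.1, fun g q => by
    change f (g * q) • (F : 𝔾 → L) (g * q) = _
    rw [hf.inv, F.2.2, map_smul]⟩

theorem tau_smulS {f : 𝔾 → ℂ} (hf : Yf geo f) (F : Sec geo ρ) (x : H) :
    tau B (smulS ρ hf F) x = tau B F (B.Xi f x) := by
  refine sub_eq_zero.1 (tot_tau B ρ _ fun p => ?_)
  rw [inner_sub_right, inner_tau, inner_tau, B.Xi_mul_right (Sec.inner_yf p.1 F).bf hf, sub_eq_zero]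
  congr 3
  funext g
  change inner ℂ ((p.1 : 𝔾 → L) g) (f g • (F : 𝔾 → L) g) = _
  rw [inner_smul_right, mul_comm]

end K

end Pool.Agent.Helper35.FP
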