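import Pool.Agent.Helper35.FP.MT

/-!
# Project FP, block LAM: regular representations

`μ` a Haar measure of `𝕊`. `ind μ ρ` on `L²(𝕊; L)`: `(s f)(h) = ρ s (f (s⁻¹ h))` (`exists_ind`: `Lp.compMeasurePreserving`, `LinearIsometryEquiv` composed pointwise; strong continuity: dense continuous functions with compact support).
`fell`: `f ↦ (h ↦ ρ(h)⁻¹ f(h))` intertwines `ind μ ρ` and `ind μ (triv L)`. `mulV w u = u(h) • w`. `tl`: `ind μ ρ` is the tensor product of `lam μ` and `ρ`. `Rw ρ w u = (h ↦ u(h) • ρ(h) w)`.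
`Rw_lim`: dominated convergence (`‖Rw (π j) w u - Rw π₀ w u‖² = ∫ |u h|² ‖π j h w - π₀ h w‖² dh`). `tot_mulV`: simple functions.
-/

set_option autoImplicit false
set_option linter.unusedSectionVars false

open Filter Topology MeasureTheory

namespace Pool.Agent.Helper35.FP

variable {𝕊 : Type} [Group 𝕊] [TopologicalSpace 𝕊] [IsTopologicalGroup 𝕊] [MeasurableSpace 𝕊] [BorelSpace 𝕊]
  [SecondCountableTopology 𝕊] [LocallyCompactSpace 𝕊] [T2Space 𝕊] (μ : Measure 𝕊) [μ.IsHaarMeasure]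

section Ind

variable {L : Type} [NormedAddCommGroup L] [InnerProductSpace ℂ L]

private lemma nsq24 (f : Lp L 2 μ) : ‖f‖ ^ 2 = ∫ a, ‖(f : 𝕊 → L) a‖ ^ 2 ∂μ := by
  have h1 : (inner ℂ f f : ℂ) = ∫ a, (inner ℂ ((f : 𝕊 → L) a) ((f : 𝕊 → L) a) : ℂ) ∂μ := L2.inner_def f f
  have h2 : ∀ a, (inner ℂ ((f : 𝕊 → L) a) ((f : 𝕊 → L) a) : ℂ) = ((‖(f : 𝕊 → L) a‖ ^ 2 : ℝ) : ℂ) := by
    intro a
    rw [inner_self_eq_norm_sq_to_K]
    push_cast
    rfl
  simp only [h2] at h1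
  rw [integral_complex_ofReal, inner_self_eq_norm_sq_to_K] at h1
  have h3 : ((‖f‖ ^ 2 : ℝ) : ℂ) = ((∫ a, ‖(f : 𝕊 → L) a‖ ^ 2 ∂μ : ℝ) : ℂ) := by
    rw [← h1]
    push_cast
    rfl
  exact Complex.ofReal_injective h3

private lemma isq24 (f : Lp L 2 μ) : Integrable (fun a => ‖(f : 𝕊 → L) a‖ ^ 2) μ :=
  (memLp_two_iff_integrable_sq_norm (Lp.aestronglyMeasurable f)).1 (Lp.memLp f)

private lemma dct24 {α : Type} {l : Filter α} [l.IsCountablyGenerated] {F : α → Lp L 2 μ} {G : Lp L 2 μ}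
    {F' : α → 𝕊 → L} {G' : 𝕊 → L} {b : 𝕊 → ℝ} (hF : ∀ j, (F j : 𝕊 → L) =ᵐ[μ] F' j) (hG : (G : 𝕊 → L) =ᵐ[μ] G')
    (hFb : ∀ j, ∀ᵐ h ∂μ, ‖F' j h‖ ≤ b h) (_ : ∀ h, 0 ≤ b h) (hb : Integrable (fun h => b h ^ 2) μ)
    (hGb : ∀ᵐ h ∂μ, ‖G' h‖ ≤ b h)
    (hlim : ∀ᵐ h ∂μ, Tendsto (fun j => F' j h) l (𝓝 (G' h))) : Tendsto F l (𝓝 G) := by
  rw [tendsto_iff_norm_sub_tendsto_zero]
  have key : Tendsto (fun j => ‖F j - G‖ ^ 2) l (𝓝 0) := by
    have h1 : ∀ j, ‖F j - G‖ ^ 2 = ∫ a, ‖F' j a - G' a‖ ^ 2 ∂μ := by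
      intro j
      rw [nsq24]
      refine integral_congr_ae ?_
      filter_upwards [Lp.coeFn_sub (F j) G, hF j, hG] with a h1 h2 h3
      rw [h1, Pi.sub_apply, h2, h3]
    simp only [h1]
    have h2 : Tendsto (fun j => ∫ a, ‖F' j a - G' a‖ ^ 2 ∂μ) l (𝓝 (∫ _, (0 : ℝ) ∂μ)) := by
      refine tendsto_integral_filter_of_dominated_convergence (fun h => 4 * b h ^ 2)
        (Filter.Eventually.of_forall fun j => ?_) (Filter.Eventually.of_forall fun j => ?_) (hb.const_mul 4) ?_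
      · have h3 : AEStronglyMeasurable (F' j) μ := (Lp.aestronglyMeasurable (F j)).congr (hF j)
        have h4 : AEStronglyMeasurable G' μ := (Lp.aestronglyMeasurable G).congr hG
        exact (h3.sub h4).norm.pow 2
      · filter_upwards [hFb j, hGb] with a h3 h4
        rw [Real.norm_of_nonneg (by positivity)]
        have h5 : ‖F' j a - G' a‖ ≤ 2 * b a := (norm_sub_le _ _).trans (by linarith)
        nlinarith [norm_nonneg (F' j a - G' a)]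
      · filter_upwards [hlim] with a ha
        have h3 : Tendsto (fun j => ‖F' j a - G' a‖) l (𝓝 0) := tendsto_iff_norm_sub_tendsto_zero.1 ha
        have h4 := h3.pow 2
        rwa [zero_pow (by norm_num)] at h4
    rwa [integral_zero] at h2
  have h2 := key.sqrt
  rw [Real.sqrt_zero] at h2
  refine h2.congr fun j => ?_
  exact Real.sqrt_sq (norm_nonneg _)

private lemma jc24 (ρ : Rp 𝕊 L) : Continuous fun p : 𝕊 × L => ρ.U p.1 p.2 := by
  rw [continuous_iff_continuousAt]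
  rintro ⟨h0, x0⟩
  rw [ContinuousAt, tendsto_iff_norm_sub_tendsto_zero]
  have h1 : Tendsto (fun p : 𝕊 × L => ‖p.2 - x0‖ + ‖ρ.U p.1 x0 - ρ.U h0 x0‖) (𝓝 (h0, x0)) (𝓝 (0 + 0)) := by
    refine Tendsto.add ?_ ?_
    · exact tendsto_iff_norm_sub_tendsto_zero.1 (continuous_snd.tendsto (h0, x0))
    · exact tendsto_iff_norm_sub_tendsto_zero.1 (((ρ.cont x0).comp continuous_fst).tendsto (h0, x0))
  rw [add_zero] at h1
  refine squeeze_zero (fun _ => norm_nonneg _) (fun p => ?_) h1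
  have h2 : ρ.U p.1 p.2 - ρ.U h0 x0 = ρ.U p.1 (p.2 - x0) + (ρ.U p.1 x0 - ρ.U h0 x0) := by
    rw [map_sub]
    abel
  rw [h2]
  refine (norm_add_le _ _).trans ?_
  rw [LinearIsometryEquiv.norm_map]

private lemma aesm24 (ρ : Rp 𝕊 L) {k : 𝕊 → 𝕊} (hk : Continuous k) {f : 𝕊 → L} (hf : AEStronglyMeasurable f μ) :
    AEStronglyMeasurable (fun h => ρ.U (k h) (f h)) μ := by
  have h1 : AEStronglyMeasurable (fun h : 𝕊 => (k h, f h)) μ := (hk.aestronglyMeasurable).prodMk hf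
  exact (jc24 ρ).comp_aestronglyMeasurable h1

/-- pointwise unitary operators composed with a measure preserving map -/
private lemma exists_T24 {k : 𝕊 → 𝕊} (hk : MeasurePreserving k μ μ) (A : 𝕊 → (L ≃ₗᵢ[ℂ] L))
    (hA : ∀ f : 𝕊 → L, AEStronglyMeasurable f μ → AEStronglyMeasurable (fun h => A h (f h)) μ) :
    ∃ T : Lp L 2 μ →ₗᵢ[ℂ] Lp L 2 μ, ∀ f : Lp L 2 μ, (T f : 𝕊 → L) =ᵐ[μ] fun h => A h ((f : 𝕊 → L) (k h)) := by
  have hm : ∀ f : Lp L 2 μ, MemLp (fun h => A h ((f : 𝕊 → L) (k h))) 2 μ := by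
    intro f
    have h1 : MemLp ((f : 𝕊 → L) ∘ k) 2 μ := (Lp.memLp f).comp_measurePreserving hk
    exact (memLp_congr_norm h1.1 (hA _ h1.1) (Filter.Eventually.of_forall fun a => by
      rw [LinearIsometryEquiv.norm_map])).1 h1
  have hq := hk.quasiMeasurePreserving
  refine ⟨{ toFun := fun f => (hm f).toLp _, map_add' := fun f g => ?_, map_smul' := fun c f => ?_, norm_map' := fun f => ?_ },
    fun f => (hm f).coeFn_toLp⟩
  · rw [← MemLp.toLp_add]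
    refine MemLp.toLp_congr _ _ ?_
    filter_upwards [hq.ae_eq_comp (Lp.coeFn_add f g)] with a ha
    have ha' : ((f + g : Lp L 2 μ) : 𝕊 → L) (k a) = (f : 𝕊 → L) (k a) + (g : 𝕊 → L) (k a) := ha
    rw [Pi.add_apply, ha', map_add]
  · rw [RingHom.id_apply, ← MemLp.toLp_const_smul]
    refine MemLp.toLp_congr _ _ ?_
    filter_upwards [hq.ae_eq_comp (Lp.coeFn_smul c f)] with a ha
    have ha' : ((c • f : Lp L 2 μ) : 𝕊 → L) (k a) = c • (f : 𝕊 → L) (k a) := ha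
    rw [Pi.smul_apply, ha', map_smul]
  · show ‖(hm f).toLp _‖ = ‖f‖
    rw [Lp.norm_toLp, Lp.norm_def, ← eLpNorm_comp_measurePreserving (Lp.aestronglyMeasurable f) hk]
    congr 1
    refine eLpNorm_congr_norm_ae (Filter.Eventually.of_forall fun a => ?_)
    rw [LinearIsometryEquiv.norm_map]
    rfl

private lemma comp24 {T1 T2 : Lp L 2 μ → Lp L 2 μ} {k1 k2 : 𝕊 → 𝕊} {A1 A2 : 𝕊 → (L ≃ₗᵢ[ℂ] L)}
    (hk : MeasurePreserving k1 μ μ) (h1 : ∀ f : Lp L 2 μ, (T1 f : 𝕊 → L) =ᵐ[μ] fun h => A1 h ((f : 𝕊 → L) (k1 h)))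
    (h2 : ∀ f : Lp L 2 μ, (T2 f : 𝕊 → L) =ᵐ[μ] fun h => A2 h ((f : 𝕊 → L) (k2 h))) (f : Lp L 2 μ) :
    (T1 (T2 f) : 𝕊 → L) =ᵐ[μ] fun h => A1 h (A2 (k1 h) ((f : 𝕊 → L) (k2 (k1 h)))) := by
  filter_upwards [h1 (T2 f), hk.quasiMeasurePreserving.ae_eq_comp (h2 f)] with a ha hb
  have hb' : (T2 f : 𝕊 → L) (k1 a) = A2 (k1 a) ((f : 𝕊 → L) (k2 (k1 a))) := hb
  rw [ha, hb']

private lemma rmul24 (ρ : Rp 𝕊 L) (a b : 𝕊) (x : L) : ρ.U (a * b) x = ρ.U a (ρ.U b x) := by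
  rw [map_mul]
  rfl

private lemma rone24 (ρ : Rp 𝕊 L) (x : L) : ρ.U 1 x = x := by
  rw [map_one]
  rfl

theorem exists_ind (ρ : Rp 𝕊 L) : ∃ τ : Rp 𝕊 (Lp L 2 μ), ∀ (s : 𝕊) (f : Lp L 2 μ),
    (τ.U s f : 𝕊 → L) =ᵐ[μ] fun h => ρ.U s ((f : 𝕊 → L) (s⁻¹ * h)) := by
  have hex : ∀ s : 𝕊, ∃ T : Lp L 2 μ →ₗᵢ[ℂ] Lp L 2 μ, ∀ f : Lp L 2 μ,
      (T f : 𝕊 → L) =ᵐ[μ] fun h => ρ.U s ((f : 𝕊 → L) (s⁻¹ * h)) := fun s =>
    exists_T24 μ (measurePreserving_mul_left μ s⁻¹) (fun _ => ρ.U s) fun f hf => aesm24 μ ρ continuous_const hf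
  choose T hT using hex
  have hmul : ∀ s t f, T (s * t) f = T s (T t f) := by
    intro s t f
    refine Lp.ext ?_
    filter_upwards [hT (s * t) f, comp24 μ (T1 := T s) (T2 := T t) (k1 := fun h => s⁻¹ * h) (k2 := fun h => t⁻¹ * h)
      (A1 := fun _ => ρ.U s) (A2 := fun _ => ρ.U t) (measurePreserving_mul_left μ s⁻¹) (hT s) (hT t) f] with a ha hb
    rw [ha, hb, rmul24, mul_inv_rev, mul_assoc]
  have hone : ∀ f, T 1 f = f := by
    intro f
    refine Lp.ext ?_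
    filter_upwards [hT 1 f] with a ha
    rw [ha, rone24, inv_one, one_mul]
  let UU : 𝕊 → (Lp L 2 μ ≃ₗᵢ[ℂ] Lp L 2 μ) := fun s =>
    { toLinearEquiv := LinearEquiv.ofLinearMap (T s).toLinearMap (T s⁻¹).toLinearMap
        (LinearMap.ext fun f => by
          show T s (T s⁻¹ f) = f
          rw [← hmul, mul_inv_cancel, hone])
        (LinearMap.ext fun f => by
          show T s⁻¹ (T s f) = f
          rw [← hmul, inv_mul_cancel, hone])
      norm_map' := (T s).norm_map }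
  have hUU : ∀ s f, UU s f = T s f := fun s f => rfl
  refine ⟨{ U := { toFun := UU, map_one' := ?_, map_mul' := ?_ }, cont := ?_ }, fun s f => hT s f⟩
  · ext1 f
    rw [hUU, hone]
    rfl
  · intro s t
    ext1 f
    rw [hUU, hmul]
    rfl
  · intro f
    show Continuous fun s => T s f
    rw [continuous_iff_continuousAt]
    intro s₀
    -- translations
    let tr : 𝕊 → C(𝕊, 𝕊) := fun s => ⟨fun h => s⁻¹ * h, by fun_prop⟩
    have htr : Continuous tr := by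
      refine ContinuousMap.continuous_of_continuous_uncurry _ ?_
      show Continuous fun p : 𝕊 × 𝕊 => p.1⁻¹ * p.2
      fun_prop
    have hmp : ∀ s, MeasurePreserving (tr s) μ μ := fun s => measurePreserving_mul_left μ s⁻¹
    have hreg : μ.Regular := by
      let _ : MetricSpace 𝕊 := TopologicalSpace.metrizableSpaceMetric 𝕊
      infer_instance
    have hG : Continuous fun s => Lp.compMeasurePreserving (tr s) (hmp s) f :=
      continuous_const.compMeasurePreservingLp htr hmp (by norm_num)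
    have hcoe : ∀ s, (Lp.compMeasurePreserving (tr s) (hmp s) f : 𝕊 → L) =ᵐ[μ] fun h => (f : 𝕊 → L) (s⁻¹ * h) :=
      fun s => Lp.coeFn_compMeasurePreserving f (hmp s)
    -- the operators `ρ s` applied pointwise
    have hexR : ∀ s : 𝕊, ∃ R : Lp L 2 μ →ₗᵢ[ℂ] Lp L 2 μ, ∀ f : Lp L 2 μ,
        (R f : 𝕊 → L) =ᵐ[μ] fun h => ρ.U s ((f : 𝕊 → L) h) := fun s =>
      exists_T24 μ (MeasurePreserving.id μ) (fun _ => ρ.U s) fun f hf => aesm24 μ ρ continuous_const hf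
    choose R hR using hexR
    have hTR : ∀ s, T s f = R s (Lp.compMeasurePreserving (tr s) (hmp s) f) := by
      intro s
      refine Lp.ext ?_
      filter_upwards [hT s f, hR s (Lp.compMeasurePreserving (tr s) (hmp s) f), hcoe s] with a h1 h2 h3
      rw [h1, h2, h3]
    have hR0 : ∀ g : Lp L 2 μ, Tendsto (fun s => R s g) (𝓝 s₀) (𝓝 (R s₀ g)) := by
      intro g
      refine dct24 μ (b := fun h => ‖(g : 𝕊 → L) h‖) (fun s => hR s g) (hR s₀ g)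
        (fun s => Filter.Eventually.of_forall fun h => ?_) (fun h => norm_nonneg _) (isq24 μ g)
        (Filter.Eventually.of_forall fun h => ?_) (Filter.Eventually.of_forall fun h => ?_)
      · rw [LinearIsometryEquiv.norm_map]
      · rw [LinearIsometryEquiv.norm_map]
      · exact (ρ.cont _).tendsto s₀
    rw [ContinuousAt, tendsto_iff_norm_sub_tendsto_zero]
    have h1 : Tendsto (fun s => ‖Lp.compMeasurePreserving (tr s) (hmp s) f - Lp.compMeasurePreserving (tr s₀) (hmp s₀) f‖ +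
        ‖R s (Lp.compMeasurePreserving (tr s₀) (hmp s₀) f) - R s₀ (Lp.compMeasurePreserving (tr s₀) (hmp s₀) f)‖)
        (𝓝 s₀) (𝓝 (0 + 0)) :=
      (tendsto_iff_norm_sub_tendsto_zero.1 (hG.tendsto s₀)).add (tendsto_iff_norm_sub_tendsto_zero.1 (hR0 _))
    rw [add_zero] at h1
    refine squeeze_zero (fun _ => norm_nonneg _) (fun s => ?_) h1
    rw [hTR s, hTR s₀]
    have h2 : R s (Lp.compMeasurePreserving (tr s) (hmp s) f) - R s₀ (Lp.compMeasurePreserving (tr s₀) (hmp s₀) f) =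
        R s (Lp.compMeasurePreserving (tr s) (hmp s) f - Lp.compMeasurePreserving (tr s₀) (hmp s₀) f) +
        (R s (Lp.compMeasurePreserving (tr s₀) (hmp s₀) f) - R s₀ (Lp.compMeasurePreserving (tr s₀) (hmp s₀) f)) := by
      rw [map_sub]
      abel
    rw [h2]
    refine (norm_add_le _ _).trans ?_
    rw [LinearIsometry.norm_map]

/-- The representation on `L²(𝕊; L)`. -/
noncomputable def ind (ρ : Rp 𝕊 L) : Rp 𝕊 (Lp L 2 μ) := (exists_ind μ ρ).choose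

theorem ind_apply (ρ : Rp 𝕊 L) (s : 𝕊) (f : Lp L 2 μ) :
    ((ind μ ρ).U s f : 𝕊 → L) =ᵐ[μ] fun h => ρ.U s ((f : 𝕊 → L) (s⁻¹ * h)) := (exists_ind μ ρ).choose_spec s f

/-- The trivial representation. -/
def triv (L : Type) [NormedAddCommGroup L] [InnerProductSpace ℂ L] : Rp 𝕊 L := ⟨1, fun _ => continuous_const⟩

/-- The regular representation. -/
noncomputable def lam : Rp 𝕊 (Lp ℂ 2 μ) := ind μ (triv ℂ)

/-- The multiple of the regular representation on `L²(𝕊; N)`. -/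
noncomputable def lamN (N : Type) [NormedAddCommGroup N] [InnerProductSpace ℂ N] : Rp 𝕊 (Lp N 2 μ) := ind μ (triv N)

theorem exists_fell (ρ : Rp 𝕊 L) : ∃ Φ : Lp L 2 μ ≃ₗᵢ[ℂ] Lp L 2 μ,
    (∀ f : Lp L 2 μ, (Φ f : 𝕊 → L) =ᵐ[μ] fun h => ρ.U h⁻¹ ((f : 𝕊 → L) h)) ∧
    ∀ (s : 𝕊) (f : Lp L 2 μ), Φ ((ind μ ρ).U s f) = (lamN μ L).U s (Φ f) := by
  obtain ⟨T, hT⟩ := exists_T24 μ (MeasurePreserving.id μ) (fun h => ρ.U h⁻¹) fun f hf => aesm24 μ ρ continuous_inv hf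
  obtain ⟨T', hT'⟩ := exists_T24 μ (MeasurePreserving.id μ) (fun h => ρ.U h) fun f hf => aesm24 μ ρ continuous_id hf
  have e1 : T.toLinearMap ∘ₗ T'.toLinearMap = LinearMap.id := by
    refine LinearMap.ext fun f => ?_
    show T (T' f) = f
    refine Lp.ext ?_
    filter_upwards [comp24 μ (MeasurePreserving.id μ) hT hT' f] with a ha
    rw [ha]
    show ρ.U a⁻¹ (ρ.U a _) = _
    rw [← rmul24, inv_mul_cancel, rone24]
    rfl
  have e2 : T'.toLinearMap ∘ₗ T.toLinearMap = LinearMap.id := by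
    refine LinearMap.ext fun f => ?_
    show T' (T f) = f
    refine Lp.ext ?_
    filter_upwards [comp24 μ (MeasurePreserving.id μ) hT' hT f] with a ha
    rw [ha]
    show ρ.U a (ρ.U a⁻¹ _) = _
    rw [← rmul24, mul_inv_cancel, rone24]
    rfl
  refine ⟨{ toLinearEquiv := LinearEquiv.ofLinearMap T.toLinearMap T'.toLinearMap e1 e2, norm_map' := T.norm_map }, hT,
    fun s f => ?_⟩
  · show T ((ind μ ρ).U s f) = (lamN μ L).U s (T f)
    refine Lp.ext ?_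
    have h1 : ∀ f : Lp L 2 μ, ((lamN μ L).U s f : 𝕊 → L) =ᵐ[μ] fun h => (f : 𝕊 → L) (s⁻¹ * h) := fun f =>
      ind_apply μ (triv L) s f
    have h2 := comp24 μ (T1 := T) (T2 := (ind μ ρ).U s) (A1 := fun h => ρ.U h⁻¹) (A2 := fun _ => ρ.U s)
      (k2 := fun h => s⁻¹ * h) (MeasurePreserving.id μ) hT (ind_apply μ ρ s) f
    have h3 := comp24 μ (T1 := (lamN μ L).U s) (T2 := T) (A1 := fun _ => 1) (A2 := fun h => ρ.U h⁻¹)
      (k1 := fun h => s⁻¹ * h) (measurePreserving_mul_left μ s⁻¹) h1 hT f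
    filter_upwards [h2, h3] with a ha hb
    rw [ha, hb]
    show ρ.U a⁻¹ (ρ.U s ((f : 𝕊 → L) (s⁻¹ * a))) = ρ.U (s⁻¹ * a)⁻¹ ((f : 𝕊 → L) (s⁻¹ * a))
    rw [← rmul24, mul_inv_rev, inv_inv]

/-- Fell absorption. -/
noncomputable def fell (ρ : Rp 𝕊 L) : Lp L 2 μ ≃ₗᵢ[ℂ] Lp L 2 μ := (exists_fell μ ρ).choose

theorem fell_apply (ρ : Rp 𝕊 L) (f : Lp L 2 μ) : (fell μ ρ f : 𝕊 → L) =ᵐ[μ] fun h => ρ.U h⁻¹ ((f : 𝕊 → L) h) :=
  (exists_fell μ ρ).choose_spec.1 f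

theorem fell_itw (ρ : Rp 𝕊 L) : Itw (ind μ ρ) (lamN μ L) ((fell μ ρ).toContinuousLinearEquiv : Lp L 2 μ →L[ℂ] Lp L 2 μ) :=
  fun s f => (exists_fell μ ρ).choose_spec.2 s f

theorem fell_symm_itw (ρ : Rp 𝕊 L) :
    Itw (lamN μ L) (ind μ ρ) ((fell μ ρ).symm.toContinuousLinearEquiv : Lp L 2 μ →L[ℂ] Lp L 2 μ) := by
  intro s f
  show (fell μ ρ).symm ((lamN μ L).U s f) = (ind μ ρ).U s ((fell μ ρ).symm f)
  rw [LinearIsometryEquiv.symm_apply_eq]
  have h := fell_itw μ ρ s ((fell μ ρ).symm f)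
  have h' : (fell μ ρ) ((ind μ ρ).U s ((fell μ ρ).symm f)) = (lamN μ L).U s (fell μ ρ ((fell μ ρ).symm f)) := h
  rw [h', LinearIsometryEquiv.apply_symm_apply]

private lemma fell_symm_apply24 (ρ : Rp 𝕊 L) (f : Lp L 2 μ) :
    ((fell μ ρ).symm f : 𝕊 → L) =ᵐ[μ] fun h => ρ.U h ((f : 𝕊 → L) h) := by
  have h1 := fell_apply μ ρ ((fell μ ρ).symm f)
  rw [LinearIsometryEquiv.apply_symm_apply] at h1
  filter_upwards [h1] with a ha
  rw [ha, ← rmul24, mul_inv_cancel, rone24]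

/-- `u ↦ u • w`. -/
noncomputable def mulV (w : L) : Lp ℂ 2 μ →L[ℂ] Lp L 2 μ := (ContinuousLinearMap.toSpanSingleton ℂ w).compLpL 2 μ

theorem mulV_apply (w : L) (u : Lp ℂ 2 μ) : (mulV μ w u : 𝕊 → L) =ᵐ[μ] fun h => (u : 𝕊 → ℂ) h • w := by
  exact ContinuousLinearMap.coeFn_compLpL (ContinuousLinearMap.toSpanSingleton ℂ w) u

theorem inner_mulV (w w' : L) (u u' : Lp ℂ 2 μ) :
    (inner ℂ (mulV μ w u) (mulV μ w' u') : ℂ) = inner ℂ u u' * inner ℂ w w' := by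
  rw [L2.inner_def, L2.inner_def, ← integral_mul_const]
  refine integral_congr_ae ?_
  filter_upwards [mulV_apply μ w u, mulV_apply μ w' u'] with a ha hb
  rw [ha, hb, inner_smul_left, inner_smul_right, RCLike.inner_apply]
  ring

theorem mulV_add (w w' : L) (u : Lp ℂ 2 μ) : mulV μ (w + w') u = mulV μ w u + mulV μ w' u := by
  refine Lp.ext ?_
  filter_upwards [mulV_apply μ (w + w') u, mulV_apply μ w u, mulV_apply μ w' u,
    Lp.coeFn_add (mulV μ w u) (mulV μ w' u)] with a h1 h2 h3 h4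
  rw [h1, h4, Pi.add_apply, h2, h3, smul_add]

theorem mulV_smul (c : ℂ) (w : L) (u : Lp ℂ 2 μ) : mulV μ (c • w) u = c • mulV μ w u := by
  refine Lp.ext ?_
  filter_upwards [mulV_apply μ (c • w) u, mulV_apply μ w u, Lp.coeFn_smul c (mulV μ w u)] with a h1 h2 h3
  rw [h1, h3, Pi.smul_apply, h2, smul_comm]

theorem tot_mulV (x : Lp L 2 μ) (h : ∀ (u : Lp ℂ 2 μ) (w : L), (inner ℂ (mulV μ w u) x : ℂ) = 0) : x = 0 := by
  have key : ∀ y : Lp L 2 μ, (inner ℂ y x : ℂ) = 0 := by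
    refine Lp.induction (by norm_num) _ ?_ ?_ ?_
    · intro c s hs hμs
      have h1 : mulV μ c (indicatorConstLp 2 hs hμs.ne (1 : ℂ)) = indicatorConstLp 2 hs hμs.ne c := by
        refine Lp.ext ?_
        filter_upwards [mulV_apply μ c (indicatorConstLp 2 hs hμs.ne (1 : ℂ)),
          indicatorConstLp_coeFn (p := 2) (hs := hs) (hμs := hμs.ne) (c := (1 : ℂ)),
          indicatorConstLp_coeFn (p := 2) (hs := hs) (hμs := hμs.ne) (c := c)] with a h1 h2 h3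
        rw [h1, h2, h3]
        by_cases ha : a ∈ s
        · simp [ha]
        · simp [ha]
      rw [Lp.simpleFunc.coe_indicatorConst, ← h1]
      exact h _ _
    · intro f g hf hg _ h1 h2
      rw [inner_add_left, h1, h2, add_zero]
    · exact isClosed_eq (continuous_id.inner continuous_const) continuous_const
  exact inner_self_eq_zero.1 (key x)

theorem mulV_ind (ρ : Rp 𝕊 L) (s : 𝕊) (w : L) (u : Lp ℂ 2 μ) :
    (ind μ ρ).U s (mulV μ w u) = mulV μ (ρ.U s w) ((lam μ).U s u) := by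
  refine Lp.ext ?_
  have h1 : ((lam μ).U s u : 𝕊 → ℂ) =ᵐ[μ] fun h => (u : 𝕊 → ℂ) (s⁻¹ * h) := ind_apply μ (triv ℂ) s u
  filter_upwards [ind_apply μ ρ s (mulV μ w u), mulV_apply μ (ρ.U s w) ((lam μ).U s u), h1,
    (measurePreserving_mul_left μ s⁻¹).quasiMeasurePreserving.ae_eq_comp (mulV_apply μ w u)] with a h2 h3 h4 h5
  have h5' : (mulV μ w u : 𝕊 → L) (s⁻¹ * a) = (u : 𝕊 → ℂ) (s⁻¹ * a) • w := h5
  rw [h2, h3, h4, h5', map_smul]

theorem mulV_itw (w : L) : Itw (lam μ) (lamN μ L) (mulV μ w) := by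
  intro s u
  have h := mulV_ind μ (triv L) s w u
  exact h.symm

/-- `ind μ ρ` is the tensor product of `lam μ` and `ρ`. -/
noncomputable def tl (ρ : Rp 𝕊 L) : Tn (lam μ) ρ (ind μ ρ) where
  t := LinearMap.mk₂ ℂ (fun u w => mulV μ w u) (fun u u' w => map_add _ _ _) (fun c u w => map_smul _ _ _)
    (fun u w w' => mulV_add μ w w' u) (fun c u w => mulV_smul μ c w u)
  inner_t u u' w w' := inner_mulV μ w w' u u'
  dense x h := tot_mulV μ x h
  equi s u w := mulV_ind μ ρ s w u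

theorem tl_t (ρ : Rp 𝕊 L) (u : Lp ℂ 2 μ) (w : L) : (tl μ ρ).t u w = mulV μ w u := rfl

/-- `u ↦ (h ↦ u(h) • ρ(h) w)`. -/
noncomputable def Rw (ρ : Rp 𝕊 L) (w : L) : Lp ℂ 2 μ →L[ℂ] Lp L 2 μ :=
  ((fell μ ρ).symm.toContinuousLinearEquiv : Lp L 2 μ →L[ℂ] Lp L 2 μ).comp (mulV μ w)

theorem Rw_apply (ρ : Rp 𝕊 L) (w : L) (u : Lp ℂ 2 μ) : (Rw μ ρ w u : 𝕊 → L) =ᵐ[μ] fun h => (u : 𝕊 → ℂ) h • ρ.U h w := by
  have h1 : (Rw μ ρ w u : 𝕊 → L) =ᵐ[μ] fun h => ρ.U h ((mulV μ w u : 𝕊 → L) h) := fell_symm_apply24 μ ρ (mulV μ w u)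
  filter_upwards [h1, mulV_apply μ w u] with a ha hb
  rw [ha, hb, map_smul]

theorem Rw_itw (ρ : Rp 𝕊 L) (w : L) : Itw (lam μ) (ind μ ρ) (Rw μ ρ w) :=
  (fell_symm_itw μ ρ).comp (mulV_itw μ w)

theorem norm_Rw (ρ : Rp 𝕊 L) (w : L) (u : Lp ℂ 2 μ) : ‖Rw μ ρ w u‖ = ‖w‖ * ‖u‖ := by
  have h1 : ‖Rw μ ρ w u‖ = ‖mulV μ w u‖ := (fell μ ρ).symm.norm_map (mulV μ w u)
  rw [h1]
  have h2 := inner_mulV μ w w u u
  rw [inner_self_eq_norm_sq_to_K, inner_self_eq_norm_sq_to_K, inner_self_eq_norm_sq_to_K] at h2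
  have h3 : ‖mulV μ w u‖ ^ 2 = (‖w‖ * ‖u‖) ^ 2 := by
    rw [mul_pow, mul_comm]
    exact_mod_cast h2
  exact (sq_eq_sq₀ (norm_nonneg _) (by positivity)).1 h3

/-- If `w` is fixed then `Rw ρ w = mulV w`. -/
theorem Rw_fixed (ρ : Rp 𝕊 L) (w : L) (hw : ∀ h, ρ.U h w = w) : Rw μ ρ w = mulV μ w := by
  ext1 u
  refine Lp.ext ?_
  filter_upwards [Rw_apply μ ρ w u, mulV_apply μ w u] with a ha hb
  rw [ha, hb, hw]

theorem Rw_lim {α : Type} {l : Filter α} [l.IsCountablyGenerated] (π : α → Rp 𝕊 L) (π₀ : Rp 𝕊 L) (w : L)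
    (h : ∀ g, Tendsto (fun j => (π j).U g w) l (𝓝 (π₀.U g w))) (u : Lp ℂ 2 μ) :
    Tendsto (fun j => Rw μ (π j) w u) l (𝓝 (Rw μ π₀ w u)) := by
  refine dct24 μ (b := fun h => ‖(u : 𝕊 → ℂ) h‖ * ‖w‖) (fun j => Rw_apply μ (π j) w u) (Rw_apply μ π₀ w u)
    (fun j => Filter.Eventually.of_forall fun a => ?_) (fun a => by positivity) ?_
    (Filter.Eventually.of_forall fun a => ?_) (Filter.Eventually.of_forall fun a => ?_)
  · rw [norm_smul, LinearIsometryEquiv.norm_map]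
  · simp only [mul_pow]
    exact (isq24 μ u).mul_const _
  · rw [norm_smul, LinearIsometryEquiv.norm_map]
  · exact (h a).const_smul _

end Ind

end Pool.Agent.Helper35.FP
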