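import Pool.Agent.Helper35.FP.KP

/-!
# Project FP, block MM: the functor `ρ ↦ MM B ρ`

`MM B ρ`: the bounded operators `X : H → Kt B ρ` which intertwine `W`, `WK`, the unitaries of `CC` and the functions on `𝔾 / Q`. `X* Y` commutes with `W`, `CC`, so it is a scalar by `B.erg`:
`⟪X x, Y y⟫ = z ⟪x, y⟫` (`MM_scalar`). With this inner product and the operator norm `MM B ρ` is a Hilbert space (`inner_MM`; `‖X‖² = |z|` for `X = Y`; closed in the operators).
`beta s X = V s X V s⁻¹`. `pushM A`: composition with `push A`. `comp F X = (τ F)* X`.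
`beta`: invariance under `CC` by `B.VCC` (for `c` and the inverse `s⁻¹`), `lift` is multiplicative on the unitaries commuting with the functions. Continuity: for `‖x‖ = 1`: `‖beta s X - X‖ = ‖(beta s X - X) x‖`.
-/

set_option autoImplicit false
set_option linter.unusedSectionVars false

open Filter Topology

namespace Pool.Agent.Helper35.FP

variable {𝔾 𝕊 : Type} [Group 𝔾] [TopologicalSpace 𝔾] [IsTopologicalGroup 𝔾] [Group 𝕊] [TopologicalSpace 𝕊] [IsTopologicalGroup 𝕊]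
  {𝕂 : Subgroup 𝕊} {geo : Geo 𝔾 𝕊 𝕂} {G S' H U : Type} [Group G] [Group S'] [TopologicalSpace S'] [IsTopologicalGroup S']
  [NormedAddCommGroup H] [InnerProductSpace ℂ H] [CompleteSpace H]
  [NormedAddCommGroup U] [InnerProductSpace ℂ U] [CompleteSpace U]

private theorem comm50 {K : Type} [NormedAddCommGroup K] [InnerProductSpace ℂ K] [CompleteSpace K]
    (X Y : H →L[ℂ] K) (a : H ≃ₗᵢ[ℂ] H) (b : K ≃ₗᵢ[ℂ] K) (hX : ∀ x, X (a x) = b (X x)) (hY : ∀ x, Y (a x) = b (Y x)) (x : H) :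
    ContinuousLinearMap.adjoint X (Y (a x)) = a (ContinuousLinearMap.adjoint X (Y x)) := by
  refine ext_inner_left ℂ fun v => ?_
  have h1 : v = a (a.symm v) := (a.apply_symm_apply v).symm
  rw [ContinuousLinearMap.adjoint_inner_right, hY]
  conv_lhs => rw [h1]
  conv_rhs => rw [h1]
  rw [hX, LinearIsometryEquiv.inner_map_map, LinearIsometryEquiv.inner_map_map, ContinuousLinearMap.adjoint_inner_right]

private theorem unit50 (B : BD geo G S' H U) : ∃ x : H, ‖x‖ = 1 := by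
  have := B.nontriv
  obtain ⟨x, hx⟩ := exists_ne (0 : H)
  exact ⟨((‖x‖⁻¹ : ℝ) : ℂ) • x, by
    rw [norm_smul, Complex.norm_real, Real.norm_of_nonneg (by positivity), inv_mul_cancel₀ (norm_ne_zero_iff.2 hx)]⟩

/-- strong continuity from a total family -/
private theorem strong50 {ι K Z : Type} [NormedAddCommGroup K] [InnerProductSpace ℂ K] [CompleteSpace K] [TopologicalSpace Z]
    {v : ι → K} (hv : Tot v) (A : Z → (K ≃ₗᵢ[ℂ] K)) (h : ∀ i, Continuous fun s => A s (v i)) (y : K) : Continuous fun s => A s y := by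
  let S : Submodule ℂ K :=
    { carrier := {y | Continuous fun s => A s y}
      add_mem' := fun {a b} ha hb => by
        have h1 : Continuous fun s => A s a + A s b := Continuous.add ha hb
        exact h1.congr fun s => (map_add (A s) a b).symm
      zero_mem' := by
        have h1 : Continuous fun _ : Z => (0 : K) := continuous_const
        exact h1.congr fun s => (map_zero (A s)).symm
      smul_mem' := fun c a ha => by
        have h1 : Continuous fun s => c • A s a := Continuous.const_smul ha c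
        exact h1.congr fun s => (map_smul (A s) c a).symm }
  have hS : S.topologicalClosure = ⊤ := by
    rw [Submodule.topologicalClosure_eq_top_iff, Submodule.eq_bot_iff]
    intro z hz
    exact hv z fun i => (Submodule.mem_orthogonal _ _).1 hz _ (h i)
  have hd : Dense (S : Set K) := Submodule.dense_iff_topologicalClosure_eq_top.2 hS
  refine continuous_of_uniform_approx_of_continuous fun u hu => ?_
  obtain ⟨ε, hε, hu⟩ := Metric.mem_uniformity_dist.1 hu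
  obtain ⟨z, hz, hzy⟩ := Metric.dense_iff.1 hd y ε hε
  refine ⟨fun s => A s z, hzy, fun s => hu ?_⟩
  rw [(A s).dist_map, dist_comm]
  exact hz

/-- strong continuity, two variables -/
private theorem joint50 {K Z : Type} [NormedAddCommGroup K] [InnerProductSpace ℂ K] [TopologicalSpace Z]
    (A : Z → (K ≃ₗᵢ[ℂ] K)) (h : ∀ y, Continuous fun s => A s y) {y : Z → K} (hy : Continuous y) : Continuous fun s => A s (y s) := by
  rw [continuous_iff_continuousAt]
  intro t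
  have h1 : Tendsto (fun s => A s (y s - y t)) (𝓝 t) (𝓝 0) := by
    rw [tendsto_zero_iff_norm_tendsto_zero]
    simp only [LinearIsometryEquiv.norm_map]
    rw [← tendsto_zero_iff_norm_tendsto_zero]
    have h2 := (hy.tendsto t).sub_const (y t)
    rwa [sub_self] at h2
  have h3 : Tendsto (fun s => A s (y t)) (𝓝 t) (𝓝 (A t (y t))) := (h (y t)).tendsto t
  have h4 := h1.add h3
  rw [zero_add] at h4
  refine h4.congr fun s => ?_
  rw [map_sub, sub_add_cancel]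

section M

variable (B : BD geo G S' H U) {L : Type} [NormedAddCommGroup L] [InnerProductSpace ℂ L] (ρ : Rp 𝕊 L)

/-- The intertwiners `H → H ⊗ L`. -/
def MM : Submodule ℂ (H →L[ℂ] Kt B ρ) where
  carrier := {X | (∀ (k : G) (x : H), X (B.W k x) = WK B ρ k (X x)) ∧
    (∀ c ∈ B.CC, ∀ x, X (c.1 x) = lift B ρ c.1 (X x)) ∧
    ∀ f : 𝔾 → ℂ, Yf geo f → ∀ x, X (B.Xi f x) = PhiK B ρ f (X x)}
  add_mem' := by
    rintro X Y ⟨h1, h2, h3⟩ ⟨k1, k2, k3⟩
    refine ⟨fun k x => ?_, fun c hc x => ?_, fun f hf x => ?_⟩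
    · rw [add_apply, add_apply, h1, k1, map_add]
    · rw [add_apply, add_apply, h2 c hc, k2 c hc, map_add]
    · rw [add_apply, add_apply, h3 f hf, k3 f hf, map_add]
  zero_mem' := by
    refine ⟨fun k x => ?_, fun c hc x => ?_, fun f hf x => ?_⟩ <;>
      simp
  smul_mem' := by
    rintro a X ⟨h1, h2, h3⟩
    refine ⟨fun k x => ?_, fun c hc x => ?_, fun f hf x => ?_⟩
    · rw [smul_apply, smul_apply, h1, map_smul]
    · rw [smul_apply, smul_apply, h2 c hc, map_smul]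
    · rw [smul_apply, smul_apply, h3 f hf, map_smul]

variable {B ρ}

theorem MM_scalar (X Y : MM B ρ) : ∃ z : ℂ, ∀ x y : H, inner ℂ ((X : H →L[ℂ] Kt B ρ) x) ((Y : H →L[ℂ] Kt B ρ) y) = z * inner ℂ x y := by
  obtain ⟨hX1, hX2, -⟩ := X.2
  obtain ⟨hY1, hY2, -⟩ := Y.2
  obtain ⟨z, hz⟩ := B.erg ((ContinuousLinearMap.adjoint (X : H →L[ℂ] Kt B ρ)).comp (Y : H →L[ℂ] Kt B ρ))
    (fun k x => comm50 _ _ (B.W k) (WK B ρ k) (hX1 k) (hY1 k) x)
    (fun c hc x => comm50 _ _ c.1 (lift B ρ c.1) (hX2 c hc) (hY2 c hc) x)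
  refine ⟨z, fun x y => ?_⟩
  have h1 : ContinuousLinearMap.adjoint (X : H →L[ℂ] Kt B ρ) ((Y : H →L[ℂ] Kt B ρ) y) = z • y := hz y
  rw [← ContinuousLinearMap.adjoint_inner_right, h1, inner_smul_right]

noncomputable instance : Inner ℂ (MM B ρ) := ⟨fun X Y => (MM_scalar X Y).choose⟩

theorem inner_MM (X Y : MM B ρ) (x y : H) : inner ℂ ((X : H →L[ℂ] Kt B ρ) x) ((Y : H →L[ℂ] Kt B ρ) y) =
    (inner ℂ X Y : ℂ) * inner ℂ x y := (MM_scalar X Y).choose_spec x y

theorem norm_MM (X : MM B ρ) (x : H) : ‖(X : H →L[ℂ] Kt B ρ) x‖ = ‖X‖ * ‖x‖ := by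
  obtain ⟨x0, hx0⟩ := unit50 B
  have h1 : ∀ x : H, ‖(X : H →L[ℂ] Kt B ρ) x‖ ^ 2 = (inner ℂ X X : ℂ).re * ‖x‖ ^ 2 := by
    intro x
    have h2 := inner_MM X X x x
    rw [inner_self_eq_norm_sq_to_K, inner_self_eq_norm_sq_to_K] at h2
    have h3 := congrArg Complex.re h2
    rw [← RCLike.ofReal_pow, ← RCLike.ofReal_pow] at h3
    simpa [Complex.mul_re, -Complex.ofReal_pow] using h3
  set r := (inner ℂ X X : ℂ).re with hr
  have h2 : 0 ≤ r := by
    have h3 := h1 x0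
    rw [hx0] at h3
    have h4 := sq_nonneg ‖(X : H →L[ℂ] Kt B ρ) x0‖
    rw [h3] at h4
    linarith
  have h3 : ∀ x : H, ‖(X : H →L[ℂ] Kt B ρ) x‖ = Real.sqrt r * ‖x‖ := by
    intro x
    rw [← Real.sqrt_sq (norm_nonneg ((X : H →L[ℂ] Kt B ρ) x)), h1 x, Real.sqrt_mul h2, Real.sqrt_sq (norm_nonneg x)]
  have h4 : ‖X‖ = Real.sqrt r := by
    rw [Submodule.coe_norm]
    refine le_antisymm (ContinuousLinearMap.opNorm_le_bound _ (Real.sqrt_nonneg _) fun x => (h3 x).le) ?_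
    have h5 := (X : H →L[ℂ] Kt B ρ).le_opNorm x0
    rw [h3, hx0, mul_one, mul_one] at h5
    exact h5
  rw [h3, h4]

private theorem key50 (X Y : MM B ρ) {x : H} (hx : ‖x‖ = 1) :
    (inner ℂ X Y : ℂ) = inner ℂ ((X : H →L[ℂ] Kt B ρ) x) ((Y : H →L[ℂ] Kt B ρ) x) := by
  rw [inner_MM, inner_self_eq_norm_sq_to_K, hx]
  simp

noncomputable instance : InnerProductSpace ℂ (MM B ρ) where
  norm_sq_eq_re_inner X := by
    obtain ⟨x, hx⟩ := unit50 B
    rw [key50 X X hx, ← norm_sq_eq_re_inner, norm_MM, hx, mul_one]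
  conj_inner_symm X Y := by
    obtain ⟨x, hx⟩ := unit50 B
    rw [key50 X Y hx, key50 Y X hx]
    exact inner_conj_symm _ _
  add_left X Y Z := by
    obtain ⟨x, hx⟩ := unit50 B
    rw [key50 _ _ hx, key50 X Z hx, key50 Y Z hx, ← inner_add_left]
    rfl
  smul_left X Y c := by
    obtain ⟨x, hx⟩ := unit50 B
    rw [key50 _ _ hx, key50 X Y hx, ← inner_smul_left]
    rfl

instance : CompleteSpace (MM B ρ) := by
  have hc : IsClosed ((MM B ρ : Submodule ℂ (H →L[ℂ] Kt B ρ)) : Set (H →L[ℂ] Kt B ρ)) := by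
    have e : ∀ x : H, Continuous fun X : H →L[ℂ] Kt B ρ => X x := fun x => by fun_prop
    have h1 : IsClosed {X : H →L[ℂ] Kt B ρ | ∀ (k : G) (x : H), X (B.W k x) = WK B ρ k (X x)} := by
      simp only [Set.setOf_forall]
      exact isClosed_iInter fun k => isClosed_iInter fun x => isClosed_eq (e _) ((WK B ρ k).continuous.comp (e x))
    have h2 : IsClosed {X : H →L[ℂ] Kt B ρ | ∀ c ∈ B.CC, ∀ x, X (c.1 x) = lift B ρ c.1 (X x)} := by
      simp only [Set.setOf_forall]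
      exact isClosed_iInter fun c => isClosed_iInter fun _ => isClosed_iInter fun x =>
        isClosed_eq (e _) ((lift B ρ c.1).continuous.comp (e x))
    have h3 : IsClosed {X : H →L[ℂ] Kt B ρ | ∀ f : 𝔾 → ℂ, Yf geo f → ∀ x, X (B.Xi f x) = PhiK B ρ f (X x)} := by
      simp only [Set.setOf_forall]
      exact isClosed_iInter fun f => isClosed_iInter fun _ => isClosed_iInter fun x =>
        isClosed_eq (e _) ((PhiK B ρ f).continuous.comp (e x))
    exact h1.inter (h2.inter h3)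
  exact hc.completeSpace_coe

/-- The component of `X` for the section `F`. -/
noncomputable def cmp (F : Sec geo ρ) (X : MM B ρ) : H →L[ℂ] H :=
  (ContinuousLinearMap.adjoint (tau B F)).comp (X : H →L[ℂ] Kt B ρ)

theorem inner_cmp (F : Sec geo ρ) (X : MM B ρ) (x y : H) : inner ℂ x (cmp F X y) = inner ℂ (tau B F x) ((X : H →L[ℂ] Kt B ρ) y) := by
  change inner ℂ x (ContinuousLinearMap.adjoint (tau B F) ((X : H →L[ℂ] Kt B ρ) y)) = _
  rw [ContinuousLinearMap.adjoint_inner_right]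

theorem MM_ext {X Y : MM B ρ} (h : ∀ F : Sec geo ρ, cmp F X = cmp F Y) : X = Y := by
  refine Subtype.ext (ContinuousLinearMap.ext fun y => ?_)
  refine sub_eq_zero.1 (tot_tau B ρ _ fun p => ?_)
  rw [inner_sub_right, ← inner_cmp, ← inner_cmp, h, sub_self]

variable (B ρ)

private theorem lift_ext50 {A C : Kt B ρ →L[ℂ] Kt B ρ} (h : ∀ (F : Sec geo ρ) (x : H), A (tau B F x) = C (tau B F x)) (y : Kt B ρ) :
    A y = C y := by
  rw [ext_tot (tot_tau B ρ) (A := A) (B := C) fun p => h p.1 p.2]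

private theorem Vinv50 (s : S') (x : H) : B.V s (B.V s⁻¹ x) = x := by
  have h3 : (B.V s * B.V s⁻¹) x = x := by rw [← map_mul, mul_inv_cancel, map_one]; rfl
  exact h3

private theorem Vinv50' (s : S') (x : H) : B.V s⁻¹ (B.V s x) = x := by
  have h3 : (B.V s⁻¹ * B.V s) x = x := by rw [← map_mul, inv_mul_cancel, map_one]; rfl
  exact h3

private theorem lift_WK50 (s : S') (k : G) (y : Kt B ρ) : lift B ρ (B.V s) (WK B ρ k y) = WK B ρ k (lift B ρ (B.V s) y) := by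
  refine lift_ext50 B ρ (A := ((lift B ρ (B.V s)).toContinuousLinearEquiv : Kt B ρ →L[ℂ] Kt B ρ).comp
    ((WK B ρ k).toContinuousLinearEquiv : Kt B ρ →L[ℂ] Kt B ρ))
    (C := ((WK B ρ k).toContinuousLinearEquiv : Kt B ρ →L[ℂ] Kt B ρ).comp
    ((lift B ρ (B.V s)).toContinuousLinearEquiv : Kt B ρ →L[ℂ] Kt B ρ)) (fun F x => ?_) y
  change lift B ρ (B.V s) (WK B ρ k (tau B F x)) = WK B ρ k (lift B ρ (B.V s) (tau B F x))
  rw [WK_tau, lift_tau B ρ (B.cphi_V s), lift_tau B ρ (B.cphi_V s), WK_tau, B.VW]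

private theorem lift_Phi50 (s : S') {f : 𝔾 → ℂ} (hf : Yf geo f) (y : Kt B ρ) :
    lift B ρ (B.V s) (PhiK B ρ f y) = PhiK B ρ f (lift B ρ (B.V s) y) := by
  refine lift_ext50 B ρ (A := ((lift B ρ (B.V s)).toContinuousLinearEquiv : Kt B ρ →L[ℂ] Kt B ρ).comp (PhiK B ρ f))
    (C := (PhiK B ρ f).comp ((lift B ρ (B.V s)).toContinuousLinearEquiv : Kt B ρ →L[ℂ] Kt B ρ)) (fun F x => ?_) y
  change lift B ρ (B.V s) (PhiK B ρ f (tau B F x)) = PhiK B ρ f (lift B ρ (B.V s) (tau B F x))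
  rw [PhiK_tau B ρ hf, lift_tau B ρ (B.cphi_V s), lift_tau B ρ (B.cphi_V s), PhiK_tau B ρ hf, B.cphi_V s f hf]

private theorem lift_comm50 {a b c d : H ≃ₗᵢ[ℂ] H} (ha : B.CPhi a) (hb : B.CPhi b) (hc : B.CPhi c) (hd : B.CPhi d)
    (h : ∀ x, a (b x) = c (d x)) (y : Kt B ρ) : lift B ρ a (lift B ρ b y) = lift B ρ c (lift B ρ d y) := by
  refine lift_ext50 B ρ (A := ((lift B ρ a).toContinuousLinearEquiv : Kt B ρ →L[ℂ] Kt B ρ).comp
    ((lift B ρ b).toContinuousLinearEquiv : Kt B ρ →L[ℂ] Kt B ρ))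
    (C := ((lift B ρ c).toContinuousLinearEquiv : Kt B ρ →L[ℂ] Kt B ρ).comp
    ((lift B ρ d).toContinuousLinearEquiv : Kt B ρ →L[ℂ] Kt B ρ)) (fun F x => ?_) y
  change lift B ρ a (lift B ρ b (tau B F x)) = lift B ρ c (lift B ρ d (tau B F x))
  rw [lift_tau B ρ hb, lift_tau B ρ ha, lift_tau B ρ hd, lift_tau B ρ hc, h]

private theorem lift_one50 {a : H ≃ₗᵢ[ℂ] H} (ha : B.CPhi a) (h : ∀ x, a x = x) (y : Kt B ρ) : lift B ρ a y = y := by
  refine lift_ext50 B ρ (A := ((lift B ρ a).toContinuousLinearEquiv : Kt B ρ →L[ℂ] Kt B ρ))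
    (C := ContinuousLinearMap.id ℂ (Kt B ρ)) (fun F x => ?_) y
  change lift B ρ a (tau B F x) = tau B F x
  rw [lift_tau B ρ ha, h]

private theorem cphi_one50 : B.CPhi (LinearIsometryEquiv.refl ℂ H) := fun _ _ _ => rfl

private theorem b50_mem (s : S') (X : MM B ρ) : ((lift B ρ (B.V s)).toContinuousLinearEquiv : Kt B ρ →L[ℂ] Kt B ρ).comp
    ((X : H →L[ℂ] Kt B ρ).comp ((B.V s⁻¹).toContinuousLinearEquiv : H →L[ℂ] H)) ∈ MM B ρ := by
  obtain ⟨h1, h2, h3⟩ := X.2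
  refine ⟨fun k x => ?_, fun c hc x => ?_, fun f hf x => ?_⟩
  · change lift B ρ (B.V s) ((X : H →L[ℂ] Kt B ρ) (B.V s⁻¹ (B.W k x))) = WK B ρ k (lift B ρ (B.V s) ((X : H →L[ℂ] Kt B ρ) (B.V s⁻¹ x)))
    rw [B.VW, h1, lift_WK50]
  · change lift B ρ (B.V s) ((X : H →L[ℂ] Kt B ρ) (B.V s⁻¹ (c.1 x))) = lift B ρ c.1 (lift B ρ (B.V s) ((X : H →L[ℂ] Kt B ρ) (B.V s⁻¹ x)))
    obtain ⟨c', hc', e⟩ := B.VCC s⁻¹ c hc
    rw [e, h2 c' hc']
    refine lift_comm50 B ρ (B.cphi_V s) (B.cphi_CC hc') (B.cphi_CC hc) (B.cphi_V s) (fun z => ?_) _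
    have e1 := e (B.V s z)
    rw [Vinv50'] at e1
    rw [← e1, Vinv50]
  · change lift B ρ (B.V s) ((X : H →L[ℂ] Kt B ρ) (B.V s⁻¹ (B.Xi f x))) = PhiK B ρ f (lift B ρ (B.V s) ((X : H →L[ℂ] Kt B ρ) (B.V s⁻¹ x)))
    rw [B.cphi_V s⁻¹ f hf, h3 f hf, lift_Phi50 B ρ s hf]

private theorem b50_norm (s : S') (X : MM B ρ) : ‖(⟨_, b50_mem B ρ s X⟩ : MM B ρ)‖ = ‖X‖ := by
  obtain ⟨x, hx⟩ := unit50 B
  have h1 := norm_MM (⟨_, b50_mem B ρ s X⟩ : MM B ρ) x
  rw [hx, mul_one] at h1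
  refine h1.symm.trans ?_
  change ‖lift B ρ (B.V s) ((X : H →L[ℂ] Kt B ρ) (B.V s⁻¹ x))‖ = _
  rw [LinearIsometryEquiv.norm_map, norm_MM, LinearIsometryEquiv.norm_map, hx, mul_one]

/-- the representation -/
private noncomputable def b50 (s : S') : MM B ρ →ₗᵢ[ℂ] MM B ρ where
  toFun X := ⟨_, b50_mem B ρ s X⟩
  map_add' X Y := by
    refine Subtype.ext (ContinuousLinearMap.ext fun x => ?_)
    exact map_add (lift B ρ (B.V s)) ((X : H →L[ℂ] Kt B ρ) (B.V s⁻¹ x)) ((Y : H →L[ℂ] Kt B ρ) (B.V s⁻¹ x))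
  map_smul' c X := by
    refine Subtype.ext (ContinuousLinearMap.ext fun x => ?_)
    exact map_smul (lift B ρ (B.V s)) c ((X : H →L[ℂ] Kt B ρ) (B.V s⁻¹ x))
  norm_map' X := b50_norm B ρ s X

private theorem b50_apply (s : S') (X : MM B ρ) (x : H) :
    ((b50 B ρ s X : MM B ρ) : H →L[ℂ] Kt B ρ) x = lift B ρ (B.V s) ((X : H →L[ℂ] Kt B ρ) (B.V s⁻¹ x)) := rfl

private theorem b50_mul (s t : S') (X : MM B ρ) : b50 B ρ (s * t) X = b50 B ρ s (b50 B ρ t X) := by
  refine Subtype.ext (ContinuousLinearMap.ext fun x => ?_)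
  rw [b50_apply, b50_apply, b50_apply]
  have h1 : B.V (s * t)⁻¹ x = B.V t⁻¹ (B.V s⁻¹ x) := by rw [mul_inv_rev, map_mul]; rfl
  rw [h1]
  have h2 := lift_comm50 B ρ (B.cphi_V (s * t)) (cphi_one50 B) (B.cphi_V s) (B.cphi_V t) (fun z => by rw [map_mul]; rfl)
    ((X : H →L[ℂ] Kt B ρ) (B.V t⁻¹ (B.V s⁻¹ x)))
  rw [lift_one50 B ρ (cphi_one50 B) (fun _ => rfl)] at h2
  exact h2

private theorem b50_one (X : MM B ρ) : b50 B ρ 1 X = X := by
  refine Subtype.ext (ContinuousLinearMap.ext fun x => ?_)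
  rw [b50_apply, lift_one50 B ρ (B.cphi_V 1) (fun z => by rw [map_one]; rfl), inv_one, map_one]
  rfl

theorem exists_beta : ∃ b : S' →* (MM B ρ ≃ₗᵢ[ℂ] MM B ρ), ∀ (s : S') (X : MM B ρ) (x : H),
    ((b s X : MM B ρ) : H →L[ℂ] Kt B ρ) x = lift B ρ (B.V s) ((X : H →L[ℂ] Kt B ρ) (B.V s⁻¹ x)) := by
  have hs : ∀ s : S', Function.Surjective (b50 B ρ s) := fun s X => ⟨b50 B ρ s⁻¹ X, by
    rw [← b50_mul, mul_inv_cancel, b50_one]⟩
  refine ⟨MonoidHom.mk' (fun s => LinearIsometryEquiv.ofSurjective (b50 B ρ s) (hs s)) fun s t => ?_, fun s X x => ?_⟩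
  · exact LinearIsometryEquiv.ext fun X => b50_mul B ρ s t X
  · exact b50_apply B ρ s X x

/-- The representation of `S'` on `MM B ρ`. -/
noncomputable def beta : S' →* (MM B ρ ≃ₗᵢ[ℂ] MM B ρ) := (exists_beta B ρ).choose

variable {B ρ}

theorem beta_apply (s : S') (X : MM B ρ) (x : H) :
    ((beta B ρ s X : MM B ρ) : H →L[ℂ] Kt B ρ) x = lift B ρ (B.V s) ((X : H →L[ℂ] Kt B ρ) (B.V s⁻¹ x)) :=
  (exists_beta B ρ).choose_spec s X x

theorem cmp_beta (s : S') (F : Sec geo ρ) (X : MM B ρ) (x : H) : cmp F (beta B ρ s X) x = B.V s (cmp F X (B.V s⁻¹ x)) := by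
  refine ext_inner_left ℂ fun v => ?_
  rw [inner_cmp, beta_apply]
  have h1 : tau B F v = lift B ρ (B.V s) (tau B F (B.V s⁻¹ v)) := by
    rw [lift_tau B ρ (B.cphi_V s), Vinv50]
  rw [h1, LinearIsometryEquiv.inner_map_map, ← inner_cmp, ← LinearIsometryEquiv.inner_map_map (B.V s), Vinv50]

theorem continuous_beta (X : MM B ρ) : Continuous fun s => beta B ρ s X := by
  obtain ⟨x, hx⟩ := unit50 B
  have hi : Isometry fun Y : MM B ρ => (Y : H →L[ℂ] Kt B ρ) x := by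
    refine Isometry.of_dist_eq fun Y Z => ?_
    rw [dist_eq_norm, dist_eq_norm]
    have h1 := norm_MM (Y - Z) x
    rw [hx, mul_one] at h1
    exact h1
  rw [hi.isUniformInducing.isInducing.continuous_iff]
  have h2 : ∀ y : Kt B ρ, Continuous fun s => lift B ρ (B.V s) y := by
    refine strong50 (tot_tau B ρ) (fun s => lift B ρ (B.V s)) fun p => ?_
    have h3 : Continuous fun s => tau B p.1 (B.V s p.2) := (tau B p.1).continuous.comp (B.Vc p.2)
    exact h3.congr fun s => (lift_tau B ρ (B.cphi_V s) p.1 p.2).symm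
  have h4 : Continuous fun s : S' => (X : H →L[ℂ] Kt B ρ) (B.V s⁻¹ x) :=
    (X : H →L[ℂ] Kt B ρ).continuous.comp ((B.Vc x).comp continuous_inv)
  exact (joint50 (fun s => lift B ρ (B.V s)) h2 h4).congr fun s => (beta_apply s X x).symm

end M

end Pool.Agent.Helper35.FP
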