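import Pool.Agent.Helper35.FP.MM

/-!
# Project FP, block MP: intertwiners act on `MM`

`push_mem`: `push_WK`, `mulF_lift`, `mulF_PhiK`. `pushM_beta`: `beta_apply`, `mulF_lift`. `inner_pushM`, `cmp_pushM`: `inner_MM`, `inner_push`.
-/

set_option autoImplicit false
set_option linter.unusedSectionVars false

open Filter Topology

namespace Pool.Agent.Helper35.FP

variable {𝔾 𝕊 : Type} [Group 𝔾] [TopologicalSpace 𝔾] [IsTopologicalGroup 𝔾] [Group 𝕊] [TopologicalSpace 𝕊] [IsTopologicalGroup 𝕊]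
  {𝕂 : Subgroup 𝕊} {geo : Geo 𝔾 𝕊 𝕂} {G S' H U : Type} [Group G] [Group S'] [TopologicalSpace S'] [IsTopologicalGroup S']
  [NormedAddCommGroup H] [InnerProductSpace ℂ H] [CompleteSpace H]
  [NormedAddCommGroup U] [InnerProductSpace ℂ U] [CompleteSpace U]

section P

variable {B : BD geo G S' H U} {L L' L'' : Type} [NormedAddCommGroup L] [InnerProductSpace ℂ L]
  [NormedAddCommGroup L'] [InnerProductSpace ℂ L'] [NormedAddCommGroup L''] [InnerProductSpace ℂ L'']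
  {ρ : Rp 𝕊 L} {ρ' : Rp 𝕊 L'} {ρ'' : Rp 𝕊 L''}

theorem push_mem {A : L →L[ℂ] L'} (hA : Itw ρ ρ' A) (X : MM B ρ) : (push B hA).comp (X : H →L[ℂ] Kt B ρ) ∈ MM B ρ' := by
  obtain ⟨h1, h2, h3⟩ := X.2
  refine ⟨fun k x => ?_, fun c hc x => ?_, fun f hf x => ?_⟩
  · change push B hA ((X : H →L[ℂ] Kt B ρ) (B.W k x)) = WK B ρ' k (push B hA ((X : H →L[ℂ] Kt B ρ) x))
    rw [h1, push_WK]
  · change push B hA ((X : H →L[ℂ] Kt B ρ) (c.1 x)) = lift B ρ' c.1 (push B hA ((X : H →L[ℂ] Kt B ρ) x))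
    rw [h2 c hc]
    exact mulF_lift B (Fd.const hA) (B.cphi_CC hc) _
  · change push B hA ((X : H →L[ℂ] Kt B ρ) (B.Xi f x)) = PhiK B ρ' f (push B hA ((X : H →L[ℂ] Kt B ρ) x))
    rw [h3 f hf]
    exact mulF_PhiK B (Fd.const hA) hf _

variable (B) in
/-- The action of intertwiners on `MM`. -/
noncomputable def pushM {A : L →L[ℂ] L'} (hA : Itw ρ ρ' A) : MM B ρ →L[ℂ] MM B ρ' :=
  LinearMap.mkContinuous
    { toFun := fun X => ⟨(push B hA).comp (X : H →L[ℂ] Kt B ρ), push_mem hA X⟩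
      map_add' := fun X Y => Subtype.ext (ContinuousLinearMap.comp_add _ _ _)
      map_smul' := fun c X => Subtype.ext (ContinuousLinearMap.comp_smul _ _ _) } ‖A‖ (fun X => by
    change ‖(push B hA).comp (X : H →L[ℂ] Kt B ρ)‖ ≤ _
    exact (ContinuousLinearMap.opNorm_comp_le _ _).trans (mul_le_mul_of_nonneg_right (norm_push B hA) (norm_nonneg _)))

theorem pushM_apply {A : L →L[ℂ] L'} (hA : Itw ρ ρ' A) (X : MM B ρ) (x : H) :
    ((pushM B hA X : MM B ρ') : H →L[ℂ] Kt B ρ') x = push B hA ((X : H →L[ℂ] Kt B ρ) x) := rfl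

theorem pushM_beta {A : L →L[ℂ] L'} (hA : Itw ρ ρ' A) (s : S') (X : MM B ρ) :
    pushM B hA (beta B ρ s X) = beta B ρ' s (pushM B hA X) := by
  refine Subtype.ext (ContinuousLinearMap.ext fun x => ?_)
  rw [pushM_apply, beta_apply, beta_apply, pushM_apply]
  exact mulF_lift B (Fd.const hA) (B.cphi_V s) _

theorem pushM_isom {A : L →L[ℂ] L'} (hA : Itw ρ ρ' A) (hi : ∀ x, ‖A x‖ = ‖x‖) (X : MM B ρ) : ‖pushM B hA X‖ = ‖X‖ := by
  obtain ⟨x, hx⟩ := @exists_ne H B.nontriv 0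
  have hx' : ‖x‖ ≠ 0 := norm_ne_zero_iff.2 hx
  refine mul_right_cancel₀ hx' ?_
  rw [← norm_MM, ← norm_MM, pushM_apply, push_isom B hA hi]

theorem inner_pushM [CompleteSpace L] [CompleteSpace L'] {A : L →L[ℂ] L'} (hA : Itw ρ ρ' A) (X : MM B ρ) (Y : MM B ρ') :
    (inner ℂ (pushM B hA X) Y : ℂ) = inner ℂ X (pushM B hA.adj Y) := by
  obtain ⟨x, hx⟩ := @exists_ne H B.nontriv 0
  have hx' : (inner ℂ x x : ℂ) ≠ 0 := inner_self_ne_zero.2 hx
  refine mul_right_cancel₀ hx' ?_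
  rw [← inner_MM, ← inner_MM, pushM_apply, pushM_apply, inner_push]

theorem pushM_comp {A : L →L[ℂ] L'} {A' : L' →L[ℂ] L''} (hA' : Itw ρ' ρ'' A') (hA : Itw ρ ρ' A) (X : MM B ρ) :
    pushM B (hA'.comp hA) X = pushM B hA' (pushM B hA X) := by
  refine Subtype.ext (ContinuousLinearMap.ext fun x => ?_)
  rw [pushM_apply, pushM_apply, pushM_apply, push_comp]

theorem cmp_pushM [CompleteSpace L] [CompleteSpace L'] {A : L →L[ℂ] L'} (hA : Itw ρ ρ' A) (F : Sec geo ρ') (X : MM B ρ) :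
    cmp F (pushM B hA X) = cmp ((Fd.const hA.adj).ap F) X := by
  refine ContinuousLinearMap.ext fun x => ext_inner_left ℂ fun y => ?_
  rw [inner_cmp, inner_cmp, pushM_apply, ← mulF_tau, ← inner_conj_symm, inner_push, inner_conj_symm]
  rfl

end P

end Pool.Agent.Helper35.FP
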