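import Pool.Agent.Helper35.FP.SD

/-!
# Project FP, block RS: real structures and selfadjoint elements

`RS ρ`: a conjugation `J` of `L` commuting with `ρ`. `R.ap F = J ∘ F`. `IsSA R X`: `(cmp F X)* = cmp (R.ap F) X` for all sections `F`. `saM R`: the real subspace of the selfadjoint elements.
`isSA_of_dense`: `norm_cmp_le`. `IsSA.prod`: `J₂ (a ⊗ b) = J b ⊗ J a`: on the sections `tS F F'` by `cmp_prodM`, then `tS_dense`. `IsSA.pushM`: `cmp_pushM` and `A* J' = J A*`.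
-/

set_option autoImplicit false
set_option linter.unusedSectionVars false

open Filter Topology

namespace Pool.Agent.Helper35.FP

/-- Conjugations. -/
structure RS {𝕊 : Type} [Group 𝕊] [TopologicalSpace 𝕊] {L : Type} [NormedAddCommGroup L] [InnerProductSpace ℂ L] (ρ : Rp 𝕊 L) where
  /-- the conjugation -/
  J : L → L
  add : ∀ x y, J (x + y) = J x + J y
  smul : ∀ (c : ℂ) x, J (c • x) = (starRingEnd ℂ) c • J x
  inner_J : ∀ x y, (inner ℂ (J x) (J y) : ℂ) = inner ℂ y x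
  invol : ∀ x, J (J x) = x
  equi : ∀ h x, J (ρ.U h x) = ρ.U h (J x)

variable {𝔾 𝕊 : Type} [Group 𝔾] [TopologicalSpace 𝔾] [IsTopologicalGroup 𝔾] [Group 𝕊] [TopologicalSpace 𝕊] [IsTopologicalGroup 𝕊]
  {𝕂 : Subgroup 𝕊} {geo : Geo 𝔾 𝕊 𝕂} {G S' H U : Type} [Group G] [Group S'] [TopologicalSpace S'] [IsTopologicalGroup S']
  [NormedAddCommGroup H] [InnerProductSpace ℂ H] [CompleteSpace H]
  [NormedAddCommGroup U] [InnerProductSpace ℂ U] [CompleteSpace U]

variable {B : BD geo G S' H U} {L L' L'' : Type} [NormedAddCommGroup L] [InnerProductSpace ℂ L]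
  [NormedAddCommGroup L'] [InnerProductSpace ℂ L'] [NormedAddCommGroup L''] [InnerProductSpace ℂ L'']
  {ρ : Rp 𝕊 L} {ρ' : Rp 𝕊 L'} {ρ'' : Rp 𝕊 L''}

theorem RS.norm_J (R : RS ρ) (x : L) : ‖R.J x‖ = ‖x‖ := by
  have h1 : ‖R.J x‖ ^ 2 = ‖x‖ ^ 2 := by
    have h2 := R.inner_J x x
    rw [inner_self_eq_norm_sq_to_K, inner_self_eq_norm_sq_to_K] at h2
    exact_mod_cast h2
  exact (sq_eq_sq₀ (norm_nonneg _) (norm_nonneg _)).1 h1

private theorem RS.sub81 (R : RS ρ) (x y : L) : R.J (x - y) = R.J x - R.J y := by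
  have h1 := R.add (x - y) y
  rw [sub_add_cancel] at h1
  rw [h1, add_sub_cancel_right]

theorem RS.continuous_J (R : RS ρ) : Continuous R.J := by
  have hi : Isometry R.J := Isometry.of_dist_eq fun x y => by
    rw [dist_eq_norm, dist_eq_norm, ← R.sub81, R.norm_J]
  exact hi.continuous

/-- The conjugate section. -/
def RS.ap (R : RS ρ) (F : Sec geo ρ) : Sec geo ρ :=
  ⟨fun g => R.J ((F : 𝔾 → L) g), R.continuous_J.comp F.2.1, fun g q => by
    change R.J ((F : 𝔾 → L) (g * q)) = _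
    rw [F.2.2, R.equi]⟩

/-- Selfadjoint elements. -/
def IsSA (R : RS ρ) (X : MM B ρ) : Prop := ∀ (F : Sec geo ρ) (x y : H), (inner ℂ x (cmp F X y) : ℂ) = inner ℂ (cmp (R.ap F) X x) y

private theorem cmp_add81 (F : Sec geo ρ) (X Y : MM B ρ) (x : H) : cmp F (X + Y) x = cmp F X x + cmp F Y x := by
  change ContinuousLinearMap.adjoint (tau B F) ((X : H →L[ℂ] Kt B ρ) x + (Y : H →L[ℂ] Kt B ρ) x) = _
  rw [map_add]
  rfl

private theorem cmp_smul81 (F : Sec geo ρ) (c : ℂ) (X : MM B ρ) (x : H) : cmp F (c • X) x = c • cmp F X x := by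
  change ContinuousLinearMap.adjoint (tau B F) (c • (X : H →L[ℂ] Kt B ρ) x) = _
  rw [map_smul]
  rfl

private theorem cmp_zero81 (F : Sec geo ρ) (x : H) : cmp F (0 : MM B ρ) x = 0 := by
  change ContinuousLinearMap.adjoint (tau B F) 0 = _
  rw [map_zero]

private theorem cmp_sec_add81 (F F' : Sec geo ρ) (X : MM B ρ) (x : H) : cmp (F + F') X x = cmp F X x + cmp F' X x := by
  refine ext_inner_left ℂ fun v => ?_
  rw [inner_add_right, inner_cmp, inner_cmp, inner_cmp, tau_add, ← inner_add_left]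
  rfl

private theorem cmp_sec_smul81 (c : ℂ) (F : Sec geo ρ) (X : MM B ρ) (x : H) :
    cmp (c • F) X x = (starRingEnd ℂ) c • cmp F X x := by
  refine ext_inner_left ℂ fun v => ?_
  rw [inner_smul_right, inner_cmp, inner_cmp, tau_smul, ← inner_smul_left]
  rfl

private theorem cmp_sec_zero81 (X : MM B ρ) (x : H) : cmp (0 : Sec geo ρ) X x = 0 := by
  have h := cmp_sec_smul81 (0 : ℂ) (0 : Sec geo ρ) X x
  rwa [zero_smul, map_zero, zero_smul] at h

private theorem cmp_sec_sub81 (F F' : Sec geo ρ) (X : MM B ρ) (x : H) : cmp (F - F') X x = cmp F X x - cmp F' X x := by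
  have h := cmp_sec_add81 (F - F') F' X x
  rw [sub_add_cancel] at h
  rw [h, add_sub_cancel_right]

private theorem ap_add81 (R : RS ρ) (F F' : Sec geo ρ) : R.ap (F + F') = R.ap F + R.ap F' :=
  Subtype.ext (funext fun g => R.add ((F : 𝔾 → L) g) ((F' : 𝔾 → L) g))

private theorem ap_sub81 (R : RS ρ) (F F' : Sec geo ρ) : R.ap (F - F') = R.ap F - R.ap F' :=
  Subtype.ext (funext fun g => R.sub81 ((F : 𝔾 → L) g) ((F' : 𝔾 → L) g))

private theorem ap_smul81 (R : RS ρ) (c : ℂ) (F : Sec geo ρ) : R.ap (c • F) = (starRingEnd ℂ) c • R.ap F :=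
  Subtype.ext (funext fun g => R.smul c ((F : 𝔾 → L) g))

private theorem ap_zero81 (R : RS ρ) : R.ap (0 : Sec geo ρ) = 0 := by
  have h := ap_sub81 R (0 : Sec geo ρ) 0
  rwa [sub_self, sub_self] at h

variable (B) in
/-- The real space of the selfadjoint elements. -/
def saM (R : RS ρ) : Submodule ℝ (MM B ρ) where
  carrier := {X | IsSA R X}
  add_mem' := by
    intro X Y hX hY F x y
    rw [cmp_add81, cmp_add81, inner_add_right, inner_add_left, hX F x y, hY F x y]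
  zero_mem' := by
    intro F x y
    rw [cmp_zero81, cmp_zero81, inner_zero_left, inner_zero_right]
  smul_mem' := by
    intro r X hX F x y
    have e : r • X = (r : ℂ) • X := rfl
    rw [e, cmp_smul81, cmp_smul81, inner_smul_right, inner_smul_left, Complex.conj_ofReal, hX F x y]

theorem mem_saM {R : RS ρ} {X : MM B ρ} : X ∈ saM B R ↔ IsSA R X := Iff.rfl

theorem isClosed_saM (R : RS ρ) : IsClosed (saM B R : Set (MM B ρ)) := by
  have e : ∀ (F : Sec geo ρ) (x : H), Continuous fun X : MM B ρ => cmp F X x := by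
    intro F x
    have h1 : Continuous fun X : MM B ρ => (X : H →L[ℂ] Kt B ρ) x :=
      (ContinuousLinearMap.apply ℂ (Kt B ρ) x).continuous.comp continuous_subtype_val
    exact (ContinuousLinearMap.adjoint (tau B F)).continuous.comp h1
  have h1 : (saM B R : Set (MM B ρ)) =
      {X : MM B ρ | ∀ (F : Sec geo ρ) (x y : H), (inner ℂ x (cmp F X y) : ℂ) = inner ℂ (cmp (R.ap F) X x) y} := rfl
  rw [h1]
  simp only [Set.setOf_forall]
  exact isClosed_iInter fun F => isClosed_iInter fun x => isClosed_iInter fun y =>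
    isClosed_eq (continuous_const.inner (e F y)) ((e (R.ap F) x).inner continuous_const)

theorem isSA_of_dense (R : RS ρ) (X : MM B ρ) (𝒮 : Set (Sec geo ρ))
    (hd : ∀ (F : Sec geo ρ) (ε : ℝ), 0 < ε → ∃ F' ∈ Submodule.span ℂ 𝒮, ∀ g, ‖(F : 𝔾 → L) g - (F' : 𝔾 → L) g‖ ≤ ε)
    (h : ∀ F ∈ 𝒮, ∀ x y : H, (inner ℂ x (cmp F X y) : ℂ) = inner ℂ (cmp (R.ap F) X x) y) : IsSA R X := by
  have h1 : ∀ F ∈ Submodule.span ℂ 𝒮, ∀ x y : H, (inner ℂ x (cmp F X y) : ℂ) = inner ℂ (cmp (R.ap F) X x) y := by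
    intro F hF
    induction hF using Submodule.span_induction with
    | mem F hF => exact h F hF
    | zero =>
      intro x y
      rw [ap_zero81, cmp_sec_zero81, cmp_sec_zero81, inner_zero_left, inner_zero_right]
    | add F F' _ _ h1 h2 =>
      intro x y
      rw [ap_add81, cmp_sec_add81, cmp_sec_add81, inner_add_left, inner_add_right, h1, h2]
    | smul c F _ h1 =>
      intro x y
      rw [ap_smul81, cmp_sec_smul81, cmp_sec_smul81, Complex.conj_conj, inner_smul_left, inner_smul_right, h1]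
  intro F x y
  rw [← sub_eq_zero, ← norm_le_zero_iff]
  refine le_of_forall_pos_le_add fun δ hδ => ?_
  rw [zero_add]
  set M : ℝ := 2 * (‖X‖ * ‖x‖ * ‖y‖) + 1 with hM
  have hM0 : 0 < M := by positivity
  obtain ⟨F', hF', hε⟩ := hd F (δ / M) (by positivity)
  have h2 := h1 F' hF' x y
  have h3 : (inner ℂ x (cmp F X y) : ℂ) - inner ℂ (cmp (R.ap F) X x) y =
      inner ℂ x (cmp (F - F') X y) - inner ℂ (cmp (R.ap (F - F')) X x) y := by
    rw [ap_sub81, cmp_sec_sub81, cmp_sec_sub81, inner_sub_left, inner_sub_right, h2]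
    ring
  rw [h3]
  have h4 : ‖(inner ℂ x (cmp (F - F') X y) : ℂ)‖ ≤ (δ / M) * (‖X‖ * ‖x‖ * ‖y‖) := by
    refine (norm_inner_le_norm _ _).trans ?_
    have h5 := norm_cmp_le (F - F') (C := δ / M) (fun g => hε g) X y
    calc ‖x‖ * ‖cmp (F - F') X y‖ ≤ ‖x‖ * (δ / M * ‖X‖ * ‖y‖) := mul_le_mul_of_nonneg_left h5 (norm_nonneg _)
      _ = _ := by ring
  have h5 : ‖(inner ℂ (cmp (R.ap (F - F')) X x) y : ℂ)‖ ≤ (δ / M) * (‖X‖ * ‖x‖ * ‖y‖) := by
    refine (norm_inner_le_norm _ _).trans ?_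
    have h5 := norm_cmp_le (R.ap (F - F')) (C := δ / M) (fun g => by
      change ‖R.J _‖ ≤ _
      rw [R.norm_J]
      exact hε g) X x
    calc ‖cmp (R.ap (F - F')) X x‖ * ‖y‖ ≤ (δ / M * ‖X‖ * ‖x‖) * ‖y‖ := mul_le_mul_of_nonneg_right h5 (norm_nonneg _)
      _ = _ := by ring
  refine (norm_sub_le _ _).trans ((add_le_add h4 h5).trans ?_)
  have h6 : δ / M * (‖X‖ * ‖x‖ * ‖y‖) + δ / M * (‖X‖ * ‖x‖ * ‖y‖) = δ / M * (M - 1) := by
    rw [hM]
    ring
  rw [h6]
  calc δ / M * (M - 1) ≤ δ / M * M := mul_le_mul_of_nonneg_left (by linarith) (by positivity)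
    _ = δ := div_mul_cancel₀ _ hM0.ne'

theorem IsSA.beta {R : RS ρ} {X : MM B ρ} (hX : IsSA R X) (s : S') : IsSA R (beta B ρ s X) := by
  intro F x y
  have hV : ∀ z : H, B.V s (B.V s⁻¹ z) = z := by
    intro z
    have h3 : (B.V s * B.V s⁻¹) z = z := by rw [← map_mul, mul_inv_cancel, map_one]; rfl
    exact h3
  rw [cmp_beta, cmp_beta]
  have h1 : (inner ℂ x (B.V s (cmp F X (B.V s⁻¹ y))) : ℂ) = inner ℂ (B.V s⁻¹ x) (cmp F X (B.V s⁻¹ y)) := by
    conv_lhs => rw [← hV x]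
    rw [LinearIsometryEquiv.inner_map_map]
  have h2 : (inner ℂ (B.V s (cmp (R.ap F) X (B.V s⁻¹ x))) y : ℂ) = inner ℂ (cmp (R.ap F) X (B.V s⁻¹ x)) (B.V s⁻¹ y) := by
    conv_lhs => rw [← hV y]
    rw [LinearIsometryEquiv.inner_map_map]
  rw [h1, h2, hX]

theorem IsSA.pushM [CompleteSpace L] [CompleteSpace L'] {R : RS ρ} {R' : RS ρ'} {A : L →L[ℂ] L'} (hA : Itw ρ ρ' A)
    (hJ : ∀ x, A (R.J x) = R'.J (A x)) {X : MM B ρ} (hX : IsSA R X) : IsSA R' (pushM B hA X) := by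
  intro F x y
  rw [cmp_pushM, cmp_pushM, hX]
  have hw : ∀ w : L', R.J (ContinuousLinearMap.adjoint A w) = ContinuousLinearMap.adjoint A (R'.J w) := by
    intro w
    refine ext_inner_right ℂ fun z => ?_
    rw [ContinuousLinearMap.adjoint_inner_left]
    have h1 : (inner ℂ (R.J (ContinuousLinearMap.adjoint A w)) z : ℂ) = inner ℂ (R.J z) (ContinuousLinearMap.adjoint A w) := by
      conv_lhs => rw [← R.invol z]
      exact R.inner_J _ _
    have h2 : (inner ℂ (R'.J w) (A z) : ℂ) = inner ℂ (R'.J (A z)) w := by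
      conv_lhs => rw [← R'.invol (A z)]
      exact R'.inner_J _ _
    rw [h1, h2, ContinuousLinearMap.adjoint_inner_right, hJ]
  have h1 : R.ap ((Fd.const hA.adj).ap F) = (Fd.const hA.adj).ap (R'.ap F) :=
    Subtype.ext (funext fun g => hw ((F : 𝔾 → L') g))
  rw [h1]

theorem IsSA.prod [LocallyCompactSpace 𝔾] [T2Space 𝔾] (hQ : IsClosed (geo.Q : Set 𝔾)) [CompleteSpace L] [CompleteSpace L'']
    {R : RS ρ} (Θ : Tn ρ ρ ρ'') {R₂ : RS ρ''} (h2 : ∀ a b, R₂.J (Θ.t a b) = Θ.t (R.J b) (R.J a))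
    {X : MM B ρ} (hX : IsSA R X) : IsSA R₂ (prodM Θ X X) := by
  refine isSA_of_dense R₂ _ {F' : Sec geo ρ'' | ∃ (F₁ : Sec geo ρ) (F₂ : Sec geo ρ), F' = tS Θ F₁ F₂}
    (fun F ε hε => tS_dense hQ Θ F hε) ?_
  rintro _ ⟨F₁, F₂, rfl⟩ x y
  have h1 : R₂.ap (tS Θ F₁ F₂) = tS Θ (R.ap F₂) (R.ap F₁) :=
    Subtype.ext (funext fun g => h2 ((F₁ : 𝔾 → L) g) ((F₂ : 𝔾 → L) g))
  rw [h1, cmp_prodM, cmp_prodM, hX, hX]

/-- For selfadjoint elements: the real part of the square of the inner product. -/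
theorem re_inner_prod (Θ : Tn ρ ρ ρ'') (X Y : MM B ρ) :
    (inner ℂ (prodM Θ X X) (prodM Θ Y Y) : ℂ).re ≤ (inner ℂ X Y : ℂ).re ^ 2 := by
  rw [inner_prodM, Complex.mul_re]
  nlinarith [sq_nonneg (inner ℂ X Y : ℂ).im]

end Pool.Agent.Helper35.FP
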