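import Pool.Agent.Helper35.FP.MT

/-!
# Project FP, block SD: many sections

`exists_sec`: for `φ ∈ C_c(𝔾)`, `φ ≥ 0`, `φ g > 0`, support in a small neighbourhood of `g`: `F g' = c ∫_Q φ(g' q) ρ(nb q) w dq` with a left Haar measure of the closed subgroup `Q` and `c = (∫ φ(g q) dq)⁻¹`.
`sec_dense`: no partition of unity is needed: for `g₀ ∈ K` choose `F₀ ∈ 𝒮` with `‖F₀ g₀ - F g₀‖ < ε`; the functions `f₀ g = (ε - ‖F₀ g - F g‖)⁺` are in `Yf`, by compactness of `K` finitely many `fᵢ`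
have a positive sum, `F' = Σ (fᵢ / Σ fⱼ) Fᵢ`. `tS_dense`: `sec_dense` for the sums of products (needs `L''` complete).
Proved by helper56.
-/

set_option autoImplicit false
set_option linter.unusedSectionVars false

open Filter Topology Pointwise

namespace Pool.Agent.Helper35.FP

variable {𝔾 𝕊 : Type} [Group 𝔾] [TopologicalSpace 𝔾] [IsTopologicalGroup 𝔾] [Group 𝕊] [TopologicalSpace 𝕊] [IsTopologicalGroup 𝕊]
  {𝕂 : Subgroup 𝕊} {geo : Geo 𝔾 𝕊 𝕂} {G S' H U : Type} [Group G] [Group S'] [TopologicalSpace S'] [IsTopologicalGroup S']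
  [NormedAddCommGroup H] [InnerProductSpace ℂ H] [CompleteSpace H]
  [NormedAddCommGroup U] [InnerProductSpace ℂ U] [CompleteSpace U]

variable {B : BD geo G S' H U} {L L' L'' : Type} [NormedAddCommGroup L] [InnerProductSpace ℂ L]
  [NormedAddCommGroup L'] [InnerProductSpace ℂ L'] [NormedAddCommGroup L''] [InnerProductSpace ℂ L'']
  {ρ : Rp 𝕊 L} {ρ' : Rp 𝕊 L'} {ρ'' : Rp 𝕊 L''}

theorem norm_tau_le (F : Sec geo ρ) {C : ℝ} (hC : ∀ g, ‖(F : 𝔾 → L) g‖ ≤ C) (x : H) : ‖tau B F x‖ ≤ C * ‖x‖ := by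
  have hC0 : 0 ≤ C := (norm_nonneg _).trans (hC 1)
  have h1 : ∀ g, ‖(inner ℂ ((F : 𝔾 → L) g) ((F : 𝔾 → L) g) : ℂ)‖ ≤ C ^ 2 := fun g => by
    refine (norm_inner_le_norm _ _).trans ?_
    rw [← pow_two]
    exact pow_le_pow_left₀ (norm_nonneg _) (hC g) 2
  have h2 : ‖tau B F x‖ ^ 2 ≤ (C * ‖x‖) ^ 2 := by
    have h3 : ((‖tau B F x‖ ^ 2 : ℝ) : ℂ) = inner ℂ (tau B F x) (tau B F x) := by
      rw [inner_self_eq_norm_sq_to_K]
      push_cast
      rfl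
    have h4 : ‖tau B F x‖ ^ 2 = ‖(inner ℂ (tau B F x) (tau B F x) : ℂ)‖ := by
      rw [← h3, Complex.norm_real, Real.norm_of_nonneg (by positivity)]
    rw [h4, inner_tau]
    refine (norm_inner_le_norm _ _).trans ?_
    have h5 := B.Xi_norm (Sec.inner_yf F F).bf h1 x
    calc ‖x‖ * ‖B.Xi (fun g => inner ℂ ((F : 𝔾 → L) g) ((F : 𝔾 → L) g)) x‖ ≤ ‖x‖ * (C ^ 2 * ‖x‖) :=
          mul_le_mul_of_nonneg_left h5 (norm_nonneg _)
      _ = (C * ‖x‖) ^ 2 := by ring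
  exact (pow_le_pow_iff_left₀ (norm_nonneg _) (mul_nonneg hC0 (norm_nonneg _)) two_ne_zero).1 h2

theorem norm_cmp_le (F : Sec geo ρ) {C : ℝ} (hC : ∀ g, ‖(F : 𝔾 → L) g‖ ≤ C) (X : MM B ρ) (x : H) :
    ‖cmp F X x‖ ≤ C * ‖X‖ * ‖x‖ := by
  have hC0 : 0 ≤ C := (norm_nonneg _).trans (hC 1)
  have h1 : ‖cmp F X x‖ * ‖cmp F X x‖ ≤ (C * ‖X‖ * ‖x‖) * ‖cmp F X x‖ := by
    have h3 : ((‖cmp F X x‖ ^ 2 : ℝ) : ℂ) = inner ℂ (cmp F X x) (cmp F X x) := by
      rw [inner_self_eq_norm_sq_to_K]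
      push_cast
      rfl
    have h4 : ‖cmp F X x‖ ^ 2 = ‖(inner ℂ (cmp F X x) (cmp F X x) : ℂ)‖ := by
      rw [← h3, Complex.norm_real, Real.norm_of_nonneg (by positivity)]
    rw [← pow_two, h4, inner_cmp]
    refine (norm_inner_le_norm _ _).trans ?_
    rw [norm_MM]
    have h5 := norm_tau_le (B := B) F hC (cmp F X x)
    calc ‖tau B F (cmp F X x)‖ * (‖X‖ * ‖x‖) ≤ (C * ‖cmp F X x‖) * (‖X‖ * ‖x‖) :=
          mul_le_mul_of_nonneg_right h5 (mul_nonneg (norm_nonneg _) (norm_nonneg _))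
      _ = C * ‖X‖ * ‖x‖ * ‖cmp F X x‖ := by ring
  rcases (norm_nonneg (cmp F X x)).eq_or_lt with h | h
  · rw [← h]
    exact mul_nonneg (mul_nonneg hC0 (norm_nonneg _)) (norm_nonneg _)
  · exact le_of_mul_le_mul_right h1 h

theorem exists_sec [LocallyCompactSpace 𝔾] [T2Space 𝔾] (hQ : IsClosed (geo.Q : Set 𝔾)) [CompleteSpace L] (ρ : Rp 𝕊 L)
    (g : 𝔾) (w : L) {ε : ℝ} (hε : 0 < ε) : ∃ F : Sec geo ρ, ‖(F : 𝔾 → L) g - w‖ ≤ ε := by
  classical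
  have hcl : IsClosedEmbedding (Subtype.val : geo.Q → 𝔾) := hQ.isClosedEmbedding_subtypeVal
  have hlc : LocallyCompactSpace geo.Q := hcl.locallyCompactSpace
  let _ : MeasurableSpace geo.Q := borel geo.Q
  have hbs : BorelSpace geo.Q := ⟨rfl⟩
  set μ : MeasureTheory.Measure geo.Q := MeasureTheory.Measure.haar with hμ
  set u : geo.Q → L := fun q => ρ.U (geo.nb q) w with hu
  have huc : Continuous u := (ρ.cont w).comp geo.nbc
  have hu1 : u 1 = w := by rw [hu]; simp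
  -- the neighbourhood
  obtain ⟨O, hO, hO1⟩ : ∃ O : Set 𝔾, IsOpen O ∧ (Subtype.val ⁻¹' O : Set geo.Q) = {q | ‖u q - w‖ < ε} :=
    isOpen_induced_iff.1 (isOpen_lt (huc.sub continuous_const).norm continuous_const)
  have h1O : (1 : 𝔾) ∈ O := by
    have h : (1 : geo.Q) ∈ (Subtype.val ⁻¹' O : Set geo.Q) := by
      rw [hO1]
      change ‖u 1 - w‖ < ε
      rw [hu1, sub_self, norm_zero]
      exact hε
    exact h
  -- the bump function
  obtain ⟨φ, hφ1, hφ0, hφc, hφI⟩ := exists_continuous_one_zero_of_isCompact (isCompact_singleton (x := g))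
    (hO.preimage (continuous_const_mul g⁻¹)).isClosed_compl (by
      rw [Set.disjoint_singleton_left]
      intro h
      refine h ?_
      change g⁻¹ * g ∈ O
      rw [inv_mul_cancel]
      exact h1O)
  have hφg : φ g = 1 := hφ1 (Set.mem_singleton g)
  have hφO : ∀ q : geo.Q, φ (g * q) ≠ 0 → ‖u q - w‖ < ε := fun q hq => by
    by_contra hn
    refine hq (hφ0 ?_)
    intro h
    refine hn ?_
    have h2 : q ∈ (Subtype.val ⁻¹' O : Set geo.Q) := by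
      have h3 : g⁻¹ * (g * (q : 𝔾)) ∈ O := h
      rw [inv_mul_cancel_left] at h3
      exact h3
    rw [hO1] at h2
    exact h2
  have hce : ∀ g' : 𝔾, IsClosedEmbedding (fun q : geo.Q => g' * (q : 𝔾)) := fun g' =>
    (Homeomorph.mulLeft g').isClosedEmbedding.comp hcl
  have hsup : ∀ g' : 𝔾, HasCompactSupport (fun q : geo.Q => φ (g' * (q : 𝔾))) := fun g' => hφc.comp_isClosedEmbedding (hce g')
  have hcont : ∀ g' : 𝔾, Continuous (fun q : geo.Q => φ (g' * (q : 𝔾))) := fun g' => φ.continuous.comp (hce g').continuous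
  have hint : ∀ g' : 𝔾, MeasureTheory.Integrable (fun q : geo.Q => φ (g' * (q : 𝔾))) μ := fun g' =>
    (hcont g').integrable_of_hasCompactSupport (hsup g')
  have hint2 : ∀ g' : 𝔾, MeasureTheory.Integrable (fun q : geo.Q => φ (g' * (q : 𝔾)) • u q) μ := fun g' =>
    ((hcont g').smul huc).integrable_of_hasCompactSupport (hsup g').smul_right
  have hpos : 0 < ∫ q : geo.Q, φ (g * (q : 𝔾)) ∂μ :=
    Continuous.integral_pos_of_hasCompactSupport_nonneg_nonzero (x := 1) (hcont g) (hsup g) (fun q => (hφI _).1) (by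
      rw [Subgroup.coe_one, mul_one, hφg]
      exact one_ne_zero)
  set c : ℝ := (∫ q : geo.Q, φ (g * (q : 𝔾)) ∂μ)⁻¹ with hc
  have hc0 : 0 < c := inv_pos.2 hpos
  -- continuity
  have hFc : Continuous fun g' : 𝔾 => ∫ q : geo.Q, φ (g' * (q : 𝔾)) • u q ∂μ := by
    rw [continuous_iff_continuousAt]
    intro g₀
    obtain ⟨N, hN, hN1⟩ := exists_compact_mem_nhds g₀
    refine ContinuousOn.continuousAt (s := N) ?_ hN1
    have hk : IsCompact ((Subtype.val : geo.Q → 𝔾) ⁻¹' (N⁻¹ * tsupport φ)) :=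
      hcl.isCompact_preimage (hN.inv.mul hφc)
    refine continuousOn_integral_of_compact_support hk ?_ ?_
    · refine Continuous.continuousOn ?_
      exact (φ.continuous.comp (continuous_fst.mul (continuous_subtype_val.comp continuous_snd))).smul (huc.comp continuous_snd)
    · intro p q hp hq
      have h0 : φ (p * (q : 𝔾)) = 0 := by
        by_contra hne
        refine hq ?_
        change (q : 𝔾) ∈ N⁻¹ * tsupport φ
        refine Set.mem_mul.2 ⟨p⁻¹, Set.inv_mem_inv.2 hp, p * q, subset_tsupport _ hne, ?_⟩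
        rw [inv_mul_cancel_left]
      change φ (p * (q : 𝔾)) • u q = 0
      rw [h0, zero_smul]
  -- equivariance
  have hFe : ∀ (g' : 𝔾) (q₀ : geo.Q), ∫ q : geo.Q, φ (g' * (q₀ : 𝔾) * (q : 𝔾)) • u q ∂μ =
      ρ.U (geo.nb q₀)⁻¹ (∫ q : geo.Q, φ (g' * (q : 𝔾)) • u q ∂μ) := by
    intro g' q₀
    have h1 := MeasureTheory.integral_mul_left_eq_self (μ := μ)
      (fun q : geo.Q => φ (g' * (q : 𝔾)) • ρ.U (geo.nb q₀)⁻¹ (u q)) q₀
    have h2 : ∀ q : geo.Q, φ (g' * ((q₀ * q : geo.Q) : 𝔾)) • ρ.U (geo.nb q₀)⁻¹ (u (q₀ * q)) =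
        φ (g' * (q₀ : 𝔾) * (q : 𝔾)) • u q := fun q => by
      have h3 : ρ.U (geo.nb q₀)⁻¹ (u (q₀ * q)) = u q := by
        change ρ.U (geo.nb q₀)⁻¹ (ρ.U (geo.nb (q₀ * q)) w) = ρ.U (geo.nb q) w
        change (ρ.U (geo.nb q₀)⁻¹ * ρ.U (geo.nb (q₀ * q))) w = ρ.U (geo.nb q) w
        rw [← map_mul, map_mul geo.nb, inv_mul_cancel_left]
      rw [h3, Subgroup.coe_mul, mul_assoc]
    simp only [h2] at h1
    rw [h1]
    have h4 := ContinuousLinearEquiv.integral_comp_comm (μ := μ)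
      (ρ.U (geo.nb q₀)⁻¹).toContinuousLinearEquiv (fun q : geo.Q => φ (g' * (q : 𝔾)) • u q)
    refine Eq.trans ?_ h4
    refine MeasureTheory.integral_congr_ae (Filter.Eventually.of_forall fun q => ?_)
    change φ (g' * (q : 𝔾)) • ρ.U (geo.nb q₀)⁻¹ (u q) = ρ.U (geo.nb q₀)⁻¹ (φ (g' * (q : 𝔾)) • u q)
    have h5 : ∀ (r : ℝ) (x : L), ρ.U (geo.nb q₀)⁻¹ (r • x) = r • ρ.U (geo.nb q₀)⁻¹ x := fun r x => by
      rw [← Complex.coe_smul, ← Complex.coe_smul, map_smul]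
    rw [h5]
  refine ⟨⟨fun g' => c • ∫ q : geo.Q, φ (g' * (q : 𝔾)) • u q ∂μ, hFc.const_smul c, fun g' q => ?_⟩, ?_⟩
  · change c • ∫ q' : geo.Q, φ (g' * (q : 𝔾) * (q' : 𝔾)) • u q' ∂μ = ρ.U (geo.nb q)⁻¹ (c • ∫ q : geo.Q, φ (g' * (q : 𝔾)) • u q ∂μ)
    rw [hFe g' q, ← Complex.coe_smul, ← Complex.coe_smul, map_smul]
  · change ‖c • (∫ q : geo.Q, φ (g * (q : 𝔾)) • u q ∂μ) - w‖ ≤ ε
    have h1 : ∫ q : geo.Q, φ (g * (q : 𝔾)) • w ∂μ = (∫ q : geo.Q, φ (g * (q : 𝔾)) ∂μ) • w := integral_smul_const _ w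
    have h2 : w = c • ∫ q : geo.Q, φ (g * (q : 𝔾)) • w ∂μ := by
      rw [h1, smul_smul, hc, inv_mul_cancel₀ hpos.ne', one_smul]
    have h3 : c • (∫ q : geo.Q, φ (g * (q : 𝔾)) • u q ∂μ) - w = c • ∫ q : geo.Q, φ (g * (q : 𝔾)) • (u q - w) ∂μ := by
      conv_lhs => rw [h2]
      rw [← smul_sub, ← MeasureTheory.integral_sub (hint2 g) ((hint g).smul_const w)]
      congr 1
      refine MeasureTheory.integral_congr_ae (Filter.Eventually.of_forall fun q => ?_)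
      change φ (g * (q : 𝔾)) • u q - φ (g * (q : 𝔾)) • w = _
      rw [← smul_sub]
    rw [h3, norm_smul, Real.norm_of_nonneg hc0.le]
    have h4 : ‖∫ q : geo.Q, φ (g * (q : 𝔾)) • (u q - w) ∂μ‖ ≤ ∫ q : geo.Q, φ (g * (q : 𝔾)) * ε ∂μ := by
      refine MeasureTheory.norm_integral_le_of_norm_le ((hint g).mul_const ε) (Filter.Eventually.of_forall fun q => ?_)
      rw [norm_smul, Real.norm_of_nonneg (hφI _).1]
      rcases eq_or_ne (φ (g * (q : 𝔾))) 0 with h | h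
      · rw [h, zero_mul, zero_mul]
      · exact mul_le_mul_of_nonneg_left (hφO q h).le (hφI _).1
    rw [MeasureTheory.integral_mul_const] at h4
    calc c * ‖∫ q : geo.Q, φ (g * (q : 𝔾)) • (u q - w) ∂μ‖ ≤ c * ((∫ q : geo.Q, φ (g * (q : 𝔾)) ∂μ) * ε) :=
          mul_le_mul_of_nonneg_left h4 hc0.le
      _ = ε := by rw [← mul_assoc, hc, inv_mul_cancel₀ hpos.ne', one_mul]

/-- Uniform density of the spaces of sections which are pointwise dense. -/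
theorem sec_dense (𝒮 : Submodule ℂ (Sec geo ρ)) (hmul : ∀ F ∈ 𝒮, ∀ (f : 𝔾 → ℂ) (hf : Yf geo f), smulS ρ hf F ∈ 𝒮)
    (hd : ∀ g ∈ geo.K, ∀ (w : L) (ε : ℝ), 0 < ε → ∃ F ∈ 𝒮, ‖(F : 𝔾 → L) g - w‖ ≤ ε) (F : Sec geo ρ) {ε : ℝ} (hε : 0 < ε) :
    ∃ F' ∈ 𝒮, ∀ g, ‖(F : 𝔾 → L) g - (F' : 𝔾 → L) g‖ ≤ ε := by
  classical
  have h0 : ∀ g : 𝔾, ∃ F₀ : Sec geo ρ, F₀ ∈ 𝒮 ∧ (g ∈ geo.K → ‖(F₀ : 𝔾 → L) g - (F : 𝔾 → L) g‖ ≤ ε / 2) := fun g => by
    by_cases hg : g ∈ geo.K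
    · obtain ⟨F₀, h1, h2⟩ := hd g hg ((F : 𝔾 → L) g) (ε / 2) (half_pos hε)
      exact ⟨F₀, h1, fun _ => h2⟩
    · exact ⟨0, 𝒮.zero_mem, fun h => absurd h hg⟩
  choose F₀ hF₀ hF₀' using h0
  set a : 𝔾 → 𝔾 → ℝ := fun x g => max 0 (ε - ‖(F₀ x : 𝔾 → L) g - (F : 𝔾 → L) g‖) with ha
  have ha0 : ∀ x g, 0 ≤ a x g := fun x g => le_max_left _ _
  have hac : ∀ x, Continuous (a x) := fun x =>
    continuous_const.max (continuous_const.sub ((F₀ x).2.1.sub F.2.1).norm)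
  have hai : ∀ (x g : 𝔾) (q : geo.Q), a x (g * q) = a x g := fun x g q => by
    change max 0 (ε - ‖(F₀ x : 𝔾 → L) (g * q) - (F : 𝔾 → L) (g * q)‖) = _
    rw [(F₀ x).2.2, F.2.2, ← map_sub, LinearIsometryEquiv.norm_map]
  have hap : ∀ x g, 0 < a x g → ‖(F : 𝔾 → L) g - (F₀ x : 𝔾 → L) g‖ ≤ ε := fun x g h => by
    rcases lt_max_iff.1 h with h1 | h1
    · exact absurd h1 (lt_irrefl _)
    · rw [norm_sub_rev]
      linarith
  obtain ⟨t, ht, ht1⟩ := geo.Kc.elim_nhds_subcover (fun x => {g | 0 < a x g}) (fun x hx => by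
    refine (isOpen_lt continuous_const (hac x)).mem_nhds ?_
    change 0 < max 0 (ε - ‖(F₀ x : 𝔾 → L) x - (F : 𝔾 → L) x‖)
    refine lt_max_iff.2 (Or.inr ?_)
    have := hF₀' x hx
    linarith)
  set s : 𝔾 → ℝ := fun g => ∑ x ∈ t, a x g with hs
  have hsc : Continuous s := continuous_finsetSum _ fun x _ => hac x
  have hsi : ∀ (g : 𝔾) (q : geo.Q), s (g * q) = s g := fun g q => Finset.sum_congr rfl fun x _ => hai x g q
  have hsp : ∀ g, 0 < s g := fun g => by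
    have h1 := ht1 (geo.kr g)
    rw [Set.mem_iUnion₂] at h1
    obtain ⟨x, hx, h2⟩ := h1
    have h3 : 0 < s (g * ((geo.r g : geo.Q) : 𝔾)⁻¹) :=
      lt_of_lt_of_le h2 (Finset.single_le_sum (f := fun x => a x (g * ((geo.r g : geo.Q) : 𝔾)⁻¹)) (fun y _ => ha0 y _) hx)
    have h4 := hsi g (geo.r g)⁻¹
    rw [Subgroup.coe_inv] at h4
    rwa [h4] at h3
  have hb : ∀ x, Yf geo (fun g => ((a x g / s g : ℝ) : ℂ)) := fun x => by
    refine ⟨Complex.continuous_ofReal.comp ((hac x).div hsc fun g => (hsp g).ne'), fun g q => ?_⟩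
    rw [hai, hsi]
  refine ⟨∑ x ∈ t, smulS ρ (hb x) (F₀ x), 𝒮.sum_mem fun x _ => hmul _ (hF₀ x) _ (hb x), fun g => ?_⟩
  have h1 : ((∑ x ∈ t, smulS ρ (hb x) (F₀ x) : Sec geo ρ) : 𝔾 → L) g = ∑ x ∈ t, ((a x g / s g : ℝ) : ℂ) • (F₀ x : 𝔾 → L) g := by
    rw [AddSubmonoidClass.coe_finsetSum, Finset.sum_apply]
    rfl
  have h2 : ∑ x ∈ t, ((a x g / s g : ℝ) : ℂ) = 1 := by
    rw [← Complex.ofReal_sum, ← Finset.sum_div, div_self (hsp g).ne', Complex.ofReal_one]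
  have h3 : (F : 𝔾 → L) g - ∑ x ∈ t, ((a x g / s g : ℝ) : ℂ) • (F₀ x : 𝔾 → L) g =
      ∑ x ∈ t, ((a x g / s g : ℝ) : ℂ) • ((F : 𝔾 → L) g - (F₀ x : 𝔾 → L) g) := by
    simp only [smul_sub]
    rw [Finset.sum_sub_distrib, ← Finset.sum_smul, h2, one_smul]
  rw [h1, h3]
  refine (norm_sum_le _ _).trans ?_
  have h4 : ∀ x ∈ t, ‖((a x g / s g : ℝ) : ℂ) • ((F : 𝔾 → L) g - (F₀ x : 𝔾 → L) g)‖ ≤ a x g / s g * ε := fun x _ => by
    rw [norm_smul, Complex.norm_real, Real.norm_of_nonneg (div_nonneg (ha0 x g) (hsp g).le)]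
    rcases (ha0 x g).eq_or_lt with h | h
    · rw [← h, zero_div, zero_mul, zero_mul]
    · exact mul_le_mul_of_nonneg_left (hap x g h) (div_nonneg (ha0 x g) (hsp g).le)
  refine (Finset.sum_le_sum h4).trans ?_
  rw [← Finset.sum_mul, ← Finset.sum_div, div_self (hsp g).ne', one_mul]

private theorem smulS_add56 {f : 𝔾 → ℂ} (hf : Yf geo f) (F F' : Sec geo ρ) : smulS ρ hf (F + F') = smulS ρ hf F + smulS ρ hf F' :=
  Subtype.ext (funext fun g => smul_add (f g) ((F : 𝔾 → L) g) ((F' : 𝔾 → L) g))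

private theorem smulS_zero56 {f : 𝔾 → ℂ} (hf : Yf geo f) : smulS ρ hf (0 : Sec geo ρ) = 0 :=
  Subtype.ext (funext fun g => smul_zero (f g))

private theorem smulS_smul56 {f : 𝔾 → ℂ} (hf : Yf geo f) (c : ℂ) (F : Sec geo ρ) : smulS ρ hf (c • F) = c • smulS ρ hf F :=
  Subtype.ext (funext fun g => smul_comm (f g) c ((F : 𝔾 → L) g))

private theorem smulS_tS56 (Θ : Tn ρ ρ' ρ'') {f : 𝔾 → ℂ} (hf : Yf geo f) (F : Sec geo ρ) (F' : Sec geo ρ') :
    smulS ρ'' hf (tS Θ F F') = tS Θ (smulS ρ hf F) F' :=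
  Subtype.ext (funext fun g => by
    change f g • Θ.t ((F : 𝔾 → L) g) ((F' : 𝔾 → L') g) = Θ.t (f g • (F : 𝔾 → L) g) ((F' : 𝔾 → L') g)
    rw [map_smul, LinearMap.smul_apply])

/-- The sums of products of sections are dense. -/
theorem tS_dense [LocallyCompactSpace 𝔾] [T2Space 𝔾] (hQ : IsClosed (geo.Q : Set 𝔾)) [CompleteSpace L] [CompleteSpace L']
    [CompleteSpace L''] (Θ : Tn ρ ρ' ρ'') (F : Sec geo ρ'') {ε : ℝ} (hε : 0 < ε) :
    ∃ F' ∈ Submodule.span ℂ {F' : Sec geo ρ'' | ∃ (F₁ : Sec geo ρ) (F₂ : Sec geo ρ'), F' = tS Θ F₁ F₂},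
      ∀ g, ‖(F : 𝔾 → L'') g - (F' : 𝔾 → L'') g‖ ≤ ε := by
  refine sec_dense _ ?_ ?_ F hε
  · intro F hF f hf
    induction hF using Submodule.span_induction with
    | mem x hx =>
      obtain ⟨F₁, F₂, rfl⟩ := hx
      rw [smulS_tS56]
      exact Submodule.subset_span ⟨_, _, rfl⟩
    | zero => rw [smulS_zero56]; exact Submodule.zero_mem _
    | add x y _ _ hx hy => rw [smulS_add56]; exact Submodule.add_mem _ hx hy
    | smul c x _ hx => rw [smulS_smul56]; exact Submodule.smul_mem _ c hx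
  · intro g _ w ε hε
    set P : Submodule ℂ L'' := Submodule.span ℂ {x | ∃ a v, x = Θ.t a v} with hP
    have hPd : P.topologicalClosure = ⊤ := by
      rw [Submodule.topologicalClosure_eq_top_iff, Submodule.eq_bot_iff]
      intro x hx
      refine Θ.dense x fun a v => ?_
      exact (Submodule.mem_orthogonal P x).1 hx _ (Submodule.subset_span ⟨a, v, rfl⟩)
    have h1 : ∀ x ∈ P, ∀ δ : ℝ, 0 < δ → ∃ F ∈ Submodule.span ℂ {F' : Sec geo ρ'' | ∃ (F₁ : Sec geo ρ) (F₂ : Sec geo ρ'), F' = tS Θ F₁ F₂},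
        ‖(F : 𝔾 → L'') g - x‖ ≤ δ := by
      intro x hx
      induction hx using Submodule.span_induction with
      | mem x hx =>
        obtain ⟨a, v, rfl⟩ := hx
        intro δ hδ
        obtain ⟨η, hη, h2⟩ := Metric.continuous_iff.1 Θ.cont (a, v) δ hδ
        obtain ⟨F₁, hF₁⟩ := exists_sec hQ ρ g a (half_pos hη)
        obtain ⟨F₂, hF₂⟩ := exists_sec hQ ρ' g v (half_pos hη)
        refine ⟨tS Θ F₁ F₂, Submodule.subset_span ⟨_, _, rfl⟩, ?_⟩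
        have h3 := h2 ((F₁ : 𝔾 → L) g, (F₂ : 𝔾 → L') g) (by
          rw [Prod.dist_eq]
          refine max_lt ?_ ?_
          · rw [dist_eq_norm]
            exact lt_of_le_of_lt hF₁ (half_lt_self hη)
          · rw [dist_eq_norm]
            exact lt_of_le_of_lt hF₂ (half_lt_self hη))
        rw [dist_eq_norm] at h3
        exact h3.le
      | zero =>
        intro δ hδ
        refine ⟨0, Submodule.zero_mem _, ?_⟩
        change ‖(0 : L'') - 0‖ ≤ δ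
        rw [sub_zero, norm_zero]
        exact hδ.le
      | add x y _ _ hx hy =>
        intro δ hδ
        obtain ⟨F₁, h2, h3⟩ := hx (δ / 2) (half_pos hδ)
        obtain ⟨F₂, h4, h5⟩ := hy (δ / 2) (half_pos hδ)
        refine ⟨F₁ + F₂, Submodule.add_mem _ h2 h4, ?_⟩
        change ‖((F₁ : 𝔾 → L'') g + (F₂ : 𝔾 → L'') g) - (x + y)‖ ≤ δ
        rw [add_sub_add_comm]
        refine (norm_add_le _ _).trans ?_
        linarith
      | smul c x _ hx =>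
        intro δ hδ
        obtain ⟨F₁, h2, h3⟩ := hx (δ / (‖c‖ + 1)) (by positivity)
        refine ⟨c • F₁, Submodule.smul_mem _ c h2, ?_⟩
        change ‖c • (F₁ : 𝔾 → L'') g - c • x‖ ≤ δ
        rw [← smul_sub, norm_smul]
        calc ‖c‖ * ‖(F₁ : 𝔾 → L'') g - x‖ ≤ (‖c‖ + 1) * (δ / (‖c‖ + 1)) :=
              mul_le_mul (by linarith) h3 (norm_nonneg _) (by positivity)
          _ = δ := by field_simp
    have h2 : w ∈ closure (P : Set L'') := by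
      rw [← Submodule.topologicalClosure_coe, hPd]
      exact Set.mem_univ w
    obtain ⟨x, hx, h3⟩ := Metric.mem_closure_iff.1 h2 (ε / 2) (half_pos hε)
    obtain ⟨F₁, h4, h5⟩ := h1 x hx (ε / 2) (half_pos hε)
    refine ⟨F₁, h4, ?_⟩
    rw [dist_eq_norm] at h3
    calc ‖(F₁ : 𝔾 → L'') g - w‖ = ‖((F₁ : 𝔾 → L'') g - x) - (w - x)‖ := by rw [sub_sub_sub_cancel_right]
      _ ≤ ‖(F₁ : 𝔾 → L'') g - x‖ + ‖w - x‖ := norm_sub_le _ _
      _ ≤ ε := by linarith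

/-- Closed subspaces of sections which contain a uniformly dense set are everything. -/
theorem sec_induction {p : Sec geo ρ → Prop} (𝒮 : Set (Sec geo ρ)) (h1 : ∀ F ∈ 𝒮, p F)
    (h2 : ∀ F : Sec geo ρ, (∀ ε : ℝ, 0 < ε → ∃ F', p F' ∧ ∀ g, ‖(F : 𝔾 → L) g - (F' : 𝔾 → L) g‖ ≤ ε) → p F)
    (h3 : ∀ (F : Sec geo ρ) (ε : ℝ), 0 < ε → ∃ F' ∈ 𝒮, ∀ g, ‖(F : 𝔾 → L) g - (F' : 𝔾 → L) g‖ ≤ ε) (F : Sec geo ρ) : p F :=
  h2 F fun ε hε => by
    obtain ⟨F', hF', h⟩ := h3 F ε hε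
    exact ⟨F', h1 F' hF', h⟩

end Pool.Agent.Helper35.FP
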